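import Pool.Agent.P.MP_40718a_co.ABF.Iface

namespace Pool.Agent.P.MP_40718a_co.ABF

open Finset
open scoped symmDiff

section Cnt

variable {I Ω : Type} [Fintype I] [Fintype Ω]

theorem cnt_eq (P : I → Prop) [DecidablePred P] : cnt P = (univ.filter P).card := by
  unfold cnt; congr

theorem pr_eq (μ : Ω → ℝ) (P : Ω → Prop) [DecidablePred P] :
    pr μ P = ∑ ω, if P ω then μ ω else 0 := by
  unfold pr; congr!

theorem pr_eq_filter (μ : Ω → ℝ) (P : Ω → Prop) [DecidablePred P] :
    pr μ P = ∑ ω ∈ univ.filter P, μ ω := by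
  rw [pr_eq, sum_filter]

theorem cnt_eq_sum (P : I → Prop) [DecidablePred P] :
    (cnt P : ℝ) = ∑ i, if P i then (1 : ℝ) else 0 := by
  rw [cnt_eq]; simp

theorem cnt_eq_pr (P : I → Prop) : (cnt P : ℝ) = pr (fun _ => 1) P := by
  classical rw [cnt_eq_sum, pr_eq]

theorem cnt_congr {P Q : I → Prop} (h : ∀ i, P i ↔ Q i) : cnt P = cnt Q := by
  have : P = Q := funext fun i => propext (h i)
  rw [this]

theorem cnt_mono {P Q : I → Prop} (h : ∀ i, P i → Q i) : cnt P ≤ cnt Q := by
  classical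
  rw [cnt_eq, cnt_eq]
  exact card_le_card fun i hi => by simp at hi ⊢; exact h i hi

theorem cnt_le_card (P : I → Prop) : cnt P ≤ Fintype.card I := by
  classical
  rw [cnt_eq]; exact card_le_univ _

theorem cnt_true : cnt (fun _ : I => True) = Fintype.card I := by
  rw [cnt_eq]; simp

theorem cnt_false : cnt (fun _ : I => False) = 0 := by
  rw [cnt_eq]; simp

theorem cnt_eq_zero {P : I → Prop} (h : ∀ i, ¬ P i) : cnt P = 0 := by
  rw [cnt_congr (Q := fun _ => False) (by simpa using h), cnt_false]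

theorem cnt_split (P Q : I → Prop) :
    cnt P = cnt (fun i => P i ∧ Q i) + cnt (fun i => P i ∧ ¬ Q i) := by
  classical
  rw [cnt_eq, cnt_eq, cnt_eq, ← filter_filter, ← filter_filter, card_filter_add_card_filter_not]

theorem cnt_add_not (P : I → Prop) : cnt P + cnt (fun i => ¬ P i) = Fintype.card I := by
  classical
  rw [cnt_eq, cnt_eq, card_filter_add_card_filter_not, card_univ]

theorem cnt_or_le (P Q : I → Prop) : cnt (fun i => P i ∨ Q i) ≤ cnt P + cnt Q := by
  classical
  rw [cnt_eq, cnt_eq, cnt_eq, filter_or]; exact card_union_le _ _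

theorem cnt_le_add {P Q R : I → Prop} (h : ∀ i, P i → Q i ∨ R i) : cnt P ≤ cnt Q + cnt R :=
  (cnt_mono h).trans (cnt_or_le _ _)

theorem cnt_exists_le {α : Type} (S : Finset α) (P : α → I → Prop) :
    cnt (fun i => ∃ a ∈ S, P a i) ≤ ∑ a ∈ S, cnt (P a) := by
  classical
  induction S using Finset.induction_on with
  | empty => simp [cnt_false]
  | insert a S ha ih =>
    rw [sum_insert ha]
    refine (cnt_le_add (Q := P a) (R := fun i => ∃ a ∈ S, P a i) ?_).trans (by omega)
    intro i ⟨b, hb, h⟩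
    rcases mem_insert.1 hb with rfl | hb
    · exact Or.inl h
    · exact Or.inr ⟨b, hb, h⟩

theorem pr_congr {μ : Ω → ℝ} {P Q : Ω → Prop} (h : ∀ ω, μ ω ≠ 0 → (P ω ↔ Q ω)) :
    pr μ P = pr μ Q := by
  classical
  rw [pr_eq, pr_eq]
  refine sum_congr rfl fun ω _ => ?_
  by_cases h0 : μ ω = 0
  · simp [h0]
  · simp [h ω h0]

theorem pr_mono {μ : Ω → ℝ} (hμ : ∀ ω, 0 ≤ μ ω) {P Q : Ω → Prop}
    (h : ∀ ω, μ ω ≠ 0 → P ω → Q ω) : pr μ P ≤ pr μ Q := by
  classical
  rw [pr_eq, pr_eq]
  refine sum_le_sum fun ω _ => ?_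
  by_cases h0 : μ ω = 0
  · simp [h0]
  · by_cases hp : P ω
    · simp [hp, h ω h0 hp]
    · simp only [hp, if_false]; split_ifs
      · exact hμ ω
      · exact le_rfl

theorem pr_true (μ : Ω → ℝ) : pr μ (fun _ => True) = ∑ ω, μ ω := by
  rw [pr_eq]; simp

theorem pr_false (μ : Ω → ℝ) : pr μ (fun _ => False) = 0 := by
  rw [pr_eq]; simp

theorem pr_eq_zero {μ : Ω → ℝ} {P : Ω → Prop} (h : ∀ ω, μ ω ≠ 0 → ¬ P ω) : pr μ P = 0 := by
  rw [pr_congr (Q := fun _ => False) (by simpa using h), pr_false]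

theorem pr_nonneg {μ : Ω → ℝ} (hμ : ∀ ω, 0 ≤ μ ω) (P : Ω → Prop) : 0 ≤ pr μ P := by
  rw [← pr_false μ]; exact pr_mono hμ fun _ _ h => h.elim

theorem pr_le_one {μ : Ω → ℝ} (hμ : IsProb μ) (P : Ω → Prop) : pr μ P ≤ 1 := by
  rw [← hμ.2, ← pr_true]; exact pr_mono hμ.1 fun _ _ _ => trivial

theorem pr_eq_one {μ : Ω → ℝ} (hμ : IsProb μ) {P : Ω → Prop} (h : ∀ ω, μ ω ≠ 0 → P ω) :
    pr μ P = 1 := by
  rw [← hμ.2, ← pr_true]; exact pr_congr fun ω h0 => by simp [h ω h0]

theorem pr_split (μ : Ω → ℝ) (P Q : Ω → Prop) :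
    pr μ P = pr μ (fun i => P i ∧ Q i) + pr μ (fun i => P i ∧ ¬ Q i) := by
  classical
  rw [pr_eq, pr_eq, pr_eq, ← sum_add_distrib]
  refine sum_congr rfl fun ω _ => ?_
  by_cases hp : P ω <;> by_cases hq : Q ω <;> simp [hp, hq]

theorem pr_add_not {μ : Ω → ℝ} (hμ : IsProb μ) (P : Ω → Prop) :
    pr μ P + pr μ (fun i => ¬ P i) = 1 := by
  have := pr_split μ (fun _ => True) P
  rw [pr_true, hμ.2] at this
  simpa using this.symm

theorem pr_le_add {μ : Ω → ℝ} (hμ : ∀ ω, 0 ≤ μ ω) {P Q R : Ω → Prop}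
    (h : ∀ ω, μ ω ≠ 0 → P ω → Q ω ∨ R ω) : pr μ P ≤ pr μ Q + pr μ R := by
  rw [pr_split μ P Q]
  exact add_le_add (pr_mono hμ fun _ _ h => h.2)
    (pr_mono hμ fun ω h0 h' => (h ω h0 h'.1).resolve_left h'.2)

theorem pr_single (μ : Ω → ℝ) (a : Ω) : pr μ (fun ω => ω = a) = μ a := by
  classical
  rw [pr_eq]; simp

theorem le_pr {μ : Ω → ℝ} (hμ : ∀ ω, 0 ≤ μ ω) {P : Ω → Prop} {a : Ω} (h : P a) :
    μ a ≤ pr μ P := by
  rw [← pr_single μ a]; exact pr_mono hμ fun ω _ e => e ▸ h

theorem pr_fiber {α : Type} (μ : Ω → ℝ) (f : Ω → α) (Q : Finset α) (P : Ω → Prop) :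
    pr μ (fun ω => f ω ∈ Q ∧ P ω) = ∑ a ∈ Q, pr μ (fun ω => f ω = a ∧ P ω) := by
  classical
  simp only [pr_eq]
  rw [sum_comm]
  refine sum_congr rfl fun ω _ => ?_
  by_cases hp : P ω
  · simp [hp]
  · simp [hp]

theorem pr_mem {α : Type} (μ : Ω → ℝ) (f : Ω → α) (Q : Finset α) :
    pr μ (fun ω => f ω ∈ Q) = ∑ a ∈ Q, pr μ (fun ω => f ω = a) := by
  simpa using pr_fiber μ f Q (fun _ => True)

theorem cnt_fiber {α : Type} (f : I → α) (Q : Finset α) (P : I → Prop) :
    cnt (fun i => f i ∈ Q ∧ P i) = ∑ a ∈ Q, cnt (fun i => f i = a ∧ P i) := by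
  have := pr_fiber (fun _ : I => (1 : ℝ)) f Q P
  simp only [← cnt_eq_pr] at this
  exact_mod_cast this

theorem cnt_mem {α : Type} (f : I → α) (Q : Finset α) :
    cnt (fun i => f i ∈ Q) = ∑ a ∈ Q, cnt (fun i => f i = a) := by
  simpa using cnt_fiber f Q (fun _ => True)

theorem cnt_equiv {J : Type} [Fintype J] (g : J ≃ I) (P : I → Prop) :
    cnt (fun j => P (g j)) = cnt P := by
  classical
  rw [cnt_eq, cnt_eq]
  exact card_equiv g (by simp)

theorem exists_ne_zero {μ : Ω → ℝ} (hμ : IsProb μ) : ∃ ω, μ ω ≠ 0 := by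
  by_contra h
  push Not at h
  have := hμ.2
  simp [h] at this

end Cnt

section Graph

variable {V E : Type} [Fintype V] [Fintype E] [DecidableEq V] [DecidableEq E] {s t : E → V}

@[simp] theorem mem_cut {X : Finset V} {e : E} : e ∈ cut s t X ↔ ¬ (s e ∈ X ↔ t e ∈ X) := by
  simp [cut]

@[simp] theorem mem_ins {X : Finset V} {e : E} : e ∈ ins s t X ↔ s e ∈ X ∧ t e ∈ X := by
  simp [ins]

theorem mem_term {X : Finset V} {v : V} :
    v ∈ term s t X ↔ v ∈ X ∧ ∃ e ∈ cut s t X, s e = v ∨ t e = v := by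
  simp only [term, mem_filter]

theorem mem_tor {W : Finset V} {P : Finset (Finset V)} {e : E} :
    e ∈ tor s t W P ↔ e ∈ ins s t W ∧ ∃ y ∈ P, e ∈ cut s t y := by
  simp only [tor, mem_inter, mem_biUnion]

theorem cut_compl (X : Finset V) : cut s t Xᶜ = cut s t X := by
  ext e; simp only [mem_cut, mem_compl]; tauto

@[simp] theorem cut_univ : cut s t univ = ∅ := by ext e; simp

@[simp] theorem cut_empty : cut s t ∅ = ∅ := by ext e; simp

@[simp] theorem ins_univ : ins s t univ = univ := by ext e; simp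

theorem ins_mono {X Y : Finset V} (h : X ⊆ Y) : ins s t X ⊆ ins s t Y := by
  intro e he; rw [mem_ins] at he ⊢; exact ⟨h he.1, h he.2⟩

theorem disjoint_ins_cut (X : Finset V) : Disjoint (ins s t X) (cut s t X) := by
  rw [disjoint_left]; intro e h1 h2; rw [mem_ins] at h1; rw [mem_cut] at h2; tauto

theorem card_term_le (X : Finset V) : (term s t X).card ≤ (cut s t X).card := by
  have : term s t X ⊆ (cut s t X).image fun e => if s e ∈ X then s e else t e := by
    intro v hv
    obtain ⟨hv, e, he, h⟩ := mem_term.1 hv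
    refine mem_image.2 ⟨e, he, ?_⟩
    rw [mem_cut] at he
    rcases h with rfl | rfl
    · simp [hv]
    · have : s e ∉ X := by tauto
      simp [this]
  exact (card_le_card this).trans card_image_le

theorem deg_eq_sum (F : Finset E) (v : V) :
    deg s t F v = ∑ e ∈ F, ((if s e = v then 1 else 0) + (if t e = v then 1 else 0)) := by
  simp [deg, sum_add_distrib]

@[simp] theorem deg_empty (v : V) : deg s t ∅ v = 0 := by simp [deg]

theorem deg_mono {F G : Finset E} (h : F ⊆ G) (v : V) : deg s t F v ≤ deg s t G v :=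
  add_le_add (card_le_card (filter_subset_filter _ h)) (card_le_card (filter_subset_filter _ h))

theorem deg_union {F G : Finset E} (h : Disjoint F G) (v : V) :
    deg s t (F ∪ G) v = deg s t F v + deg s t G v := by
  simp only [deg_eq_sum, sum_union h]

theorem deg_singleton (e : E) (v : V) :
    deg s t {e} v = (if s e = v then 1 else 0) + (if t e = v then 1 else 0) := by
  simp [deg_eq_sum]

theorem deg_congr {F G : Finset E} {v : V} (h : ∀ e, (s e = v ∨ t e = v) → (e ∈ F ↔ e ∈ G)) :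
    deg s t F v = deg s t G v := by
  unfold deg
  congr 2
  · ext e; simp only [mem_filter]; have := h e; tauto
  · ext e; simp only [mem_filter]; have := h e; tauto

theorem deg_eq_zero {F : Finset E} {v : V} : deg s t F v = 0 ↔ ∀ e ∈ F, s e ≠ v ∧ t e ≠ v := by
  simp [deg, filter_eq_empty_iff, forall_and]

theorem deg_symmDiff (F G : Finset E) (v : V) :
    deg s t (F ∆ G) v + 2 * deg s t (F ∩ G) v = deg s t F v + deg s t G v := by
  have h1 : F = (F \ G) ∪ (F ∩ G) := (sdiff_union_inter F G).symm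
  have h2 : G = (G \ F) ∪ (F ∩ G) := by rw [inter_comm]; exact (sdiff_union_inter G F).symm
  have h3 : F ∆ G = (F \ G) ∪ (G \ F) := by ext; simp [mem_symmDiff]
  have a1 : deg s t F v = deg s t (F \ G) v + deg s t (F ∩ G) v := by
    rw [← deg_union (disjoint_sdiff_inter _ _), ← h1]
  have a2 : deg s t G v = deg s t (G \ F) v + deg s t (F ∩ G) v := by
    rw [← deg_union (by rw [inter_comm]; exact disjoint_sdiff_inter _ _), ← h2]
  rw [h3, deg_union disjoint_sdiff_sdiff]; omega

theorem card_symmDiff_add {α : Type} [DecidableEq α] (F G : Finset α) :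
    (F ∆ G).card + 2 * (F ∩ G).card = F.card + G.card := by
  have h3 : F ∆ G = (F \ G) ∪ (G \ F) := by ext; simp [mem_symmDiff]
  have a1 := card_sdiff_add_card_inter F G
  have a2 := card_sdiff_add_card_inter G F
  rw [inter_comm] at a2
  rw [h3, card_union_of_disjoint disjoint_sdiff_sdiff]; omega

theorem handshake (F : Finset E) (X : Finset V) :
    ∑ v ∈ X, deg s t F v = 2 * (F ∩ ins s t X).card + (F ∩ cut s t X).card := by
  simp only [deg_eq_sum]
  rw [sum_comm]
  have h1 : (F ∩ ins s t X).card = ∑ e ∈ F, if e ∈ ins s t X then 1 else 0 := by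
    simp only [sum_boole, filter_mem_eq_inter, Nat.cast_id]
  have h2 : (F ∩ cut s t X).card = ∑ e ∈ F, if e ∈ cut s t X then 1 else 0 := by
    simp only [sum_boole, filter_mem_eq_inter, Nat.cast_id]
  rw [h1, h2, mul_sum, ← sum_add_distrib]
  refine sum_congr rfl fun e _ => ?_
  rw [sum_add_distrib]
  simp only [sum_ite_eq, mem_ins, mem_cut]
  by_cases h1 : s e ∈ X <;> by_cases h2 : t e ∈ X <;> simp [h1, h2]

theorem card_inter_eq_sum (F G : Finset E) :
    (G ∩ F).card = ∑ e ∈ F, if e ∈ G then 1 else 0 := by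
  simp only [sum_boole, filter_mem_eq_inter, Nat.cast_id, inter_comm]

theorem submod (F : Finset E) (X Y : Finset V) :
    (cut s t (X ∩ Y) ∩ F).card + (cut s t (X ∪ Y) ∩ F).card ≤
      (cut s t X ∩ F).card + (cut s t Y ∩ F).card := by
  simp only [card_inter_eq_sum, ← sum_add_distrib]
  refine sum_le_sum fun e _ => ?_
  simp only [mem_cut, mem_inter, mem_union]
  by_cases h1 : s e ∈ X <;> by_cases h2 : t e ∈ X <;> by_cases h3 : s e ∈ Y <;>
    by_cases h4 : t e ∈ Y <;> simp [h1, h2, h3, h4]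

theorem posimod (F : Finset E) (X Y : Finset V) :
    (cut s t (X \ Y) ∩ F).card + (cut s t (Y \ X) ∩ F).card ≤
      (cut s t X ∩ F).card + (cut s t Y ∩ F).card := by
  simp only [card_inter_eq_sum, ← sum_add_distrib]
  refine sum_le_sum fun e _ => ?_
  simp only [mem_cut, mem_sdiff]
  by_cases h1 : s e ∈ X <;> by_cases h2 : t e ∈ X <;> by_cases h3 : s e ∈ Y <;>
    by_cases h4 : t e ∈ Y <;> simp [h1, h2, h3, h4]

theorem cut_symmDiff (X Y : Finset V) : cut s t (X ∆ Y) = cut s t X ∆ cut s t Y := by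
  ext e; simp only [mem_cut, mem_symmDiff]; tauto

theorem deg_loopless (h : ∀ e, s e ≠ t e) (F : Finset E) (v : V) :
    deg s t F v = (F ∩ cut s t {v}).card := by
  have := handshake (s := s) (t := t) F {v}
  have h0 : F ∩ ins s t {v} = ∅ := by
    ext e; simp only [mem_inter, mem_ins, mem_singleton, notMem_empty, iff_false]
    rintro ⟨_, h1, h2⟩; exact h e (h1.trans h2.symm)
  simpa [h0] using this

theorem Cubic.card_cut_singleton (h : Cubic s t) (v : V) : (cut s t {v}).card = 3 := by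
  have := deg_loopless h.1 univ v
  rw [h.2 v] at this; simpa using this.symm

theorem Cubic.cut_parity (h : Cubic s t) (X : Finset V) : Even ((cut s t X).card + X.card) := by
  have := handshake (s := s) (t := t) univ X
  simp only [h.2, sum_const, smul_eq_mul, univ_inter] at this
  rw [Nat.even_iff]; omega

theorem parity_of_odd {M : Finset E} {X : Finset V} (h : ∀ v ∈ X, Odd (deg s t M v)) :
    Even ((M ∩ cut s t X).card + X.card) := by
  have h1 := handshake (s := s) (t := t) M X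
  have h2 : (∑ v ∈ X, deg s t M v) % 2 = X.card % 2 := by
    rw [sum_nat_mod, sum_congr rfl fun v hv => Nat.odd_iff.1 (h v hv)]; simp
  rw [Nat.even_iff]; omega

theorem even_card_filter_odd (M : Finset E) (X : Finset V) :
    Even ((X.filter fun v => Odd (deg s t M v)).card + (M ∩ cut s t X).card) := by
  have h1 := handshake (s := s) (t := t) M X
  have h2 : (∑ v ∈ X, deg s t M v) % 2 = (X.filter fun v => Odd (deg s t M v)).card % 2 := by
    rw [sum_nat_mod, card_filter]
    congr 1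
    refine sum_congr rfl fun v _ => ?_
    by_cases h : Odd (deg s t M v)
    · simp [h, Nat.odd_iff.1 h]
    · simp [h, Nat.even_iff.1 (Nat.not_odd_iff_even.1 h)]
  rw [Nat.even_iff]; omega

theorem IsMatch.mono {M M' : Finset E} (h : IsMatch s t M) (h' : M' ⊆ M) : IsMatch s t M' :=
  fun v => (deg_mono h' v).trans (h v)

theorem isMatch_iff {M : Finset E} : IsMatch s t M ↔ (∀ e ∈ M, s e ≠ t e) ∧
    ∀ e ∈ M, ∀ f ∈ M, ∀ v, (s e = v ∨ t e = v) → (s f = v ∨ t f = v) → e = f := by
  constructor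
  · intro h
    refine ⟨fun e he hst => ?_, fun e he f hf v h1 h2 => ?_⟩
    · have := (deg_mono (singleton_subset_iff.2 he) (s e)).trans (h (s e))
      rw [deg_singleton] at this; simp [hst] at this
    · by_contra hne
      have hsub : ({e} ∪ {f} : Finset E) ⊆ M := by
        intro x hx; simp at hx; rcases hx with rfl | rfl <;> assumption
      have := (deg_mono hsub v).trans (h v)
      rw [deg_union (by simpa using hne), deg_singleton, deg_singleton] at this
      rcases h1 with h1 | h1 <;> rcases h2 with h2 | h2 <;> simp [h1, h2] at this <;> omega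
  · rintro ⟨h1, h2⟩ v
    have : deg s t M v = (M.filter fun e => s e = v ∨ t e = v).card := by
      unfold deg
      rw [filter_or, card_union_of_disjoint]
      rw [disjoint_left]; intro e a b
      rw [mem_filter] at a b
      exact h1 e a.1 (a.2.trans b.2.symm)
    rw [this, card_le_one]
    intro a ha b hb
    rw [mem_filter] at ha hb
    exact h2 a ha.1 b hb.1 v ha.2 hb.2

theorem Law.mono {W W' : Finset V} {ρ : ℝ} {μ : Finset E → ℝ} (h : Law s t W ρ μ) (h' : W' ⊆ W) :
    Law s t W' ρ μ :=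
  ⟨h.1, fun M hM v hv => h.2.1 M hM v (h' hv), fun e he => h.2.2 e (he.imp (h' ·) (h' ·))⟩

theorem Law.marg {W : Finset V} {μ : Finset E → ℝ} (h : Law s t W 0 μ) {e : E}
    (he : s e ∈ W ∨ t e ∈ W) : pr μ (fun M => e ∈ M) = 1 / 3 := by
  have := h.2.2 e he
  rw [abs_nonpos_iff] at this; linarith

theorem Law.parity {W : Finset V} {ρ : ℝ} {μ : Finset E → ℝ} (h : Law s t W ρ μ) {M : Finset E}
    (hM : μ M ≠ 0) : Even ((M ∩ cut s t W).card + W.card) :=
  parity_of_odd fun v hv => by rw [h.2.1 M hM v hv]; exact odd_one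

theorem Link.refl (A : Finset E) (u : V) : Link s t A u u := fun _ _ => Iff.rfl

theorem Link.symm {A : Finset E} {u v : V} (h : Link s t A u v) : Link s t A v u :=
  fun X hX => (h X hX).symm

theorem Link.trans {A : Finset E} {u v w : V} (h : Link s t A u v) (h' : Link s t A v w) :
    Link s t A u w := fun X hX => (h X hX).trans (h' X hX)

theorem Link.mono {A B : Finset E} {u v : V} (h : Link s t A u v) (h' : A ⊆ B) :
    Link s t B u v := fun X hX => h X (hX.mono_right h')

theorem Link.edge {A : Finset E} {e : E} (h : e ∈ A) : Link s t A (s e) (t e) := by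
  intro X hX
  by_contra hc
  exact disjoint_left.1 hX (mem_cut.2 hc) h

theorem conn_singleton (v : V) : Conn s t {v} := by
  intro X hX hne hne'
  exact absurd (hne.subset_singleton_iff.1 hX) hne'

theorem EC.mono {k l : ℕ} (h : EC k s t) (hl : l ≤ k) : EC l s t :=
  fun X h1 h2 => hl.trans (h X h1 h2)

theorem aff_singleton (a : Finset E) : Aff ({a} : Finset (Finset E)) := by
  intro x hx y hy z hz
  rw [mem_singleton] at *
  subst hx hy hz; simp

end Graph

end Pool.Agent.P.MP_40718a_co.ABF
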