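import Pool.Agent.P.MP_40718a_co.ABF.Basic

namespace Pool.Agent.P.MP_40718a_co.ABF

open Finset
open scoped symmDiff

theorem cub (h1 : S_REC) (h2 : S_TJ) : S_CUB := by
  classical
  intro ε hε
  obtain ⟨l, hl⟩ := exists_nat_ge (12 / ε)
  have hl0 : (0 : ℝ) < l := lt_of_lt_of_le (by positivity) hl
  have hl1 : 0 < l := by exact_mod_cast hl0
  obtain ⟨N, hN, H⟩ := h1 l (ε / 3) (by positivity)
  refine ⟨N * l, Nat.mul_pos hN hl1, fun V E _ _ _ _ s t hc he => ?_⟩
  obtain ⟨J, A, hJ, hA, hX⟩ := H V E s t hc he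
  choose Q hQ hQ' using fun i => h2 V E s t (univ.filter fun v => Even (deg s t (J i) v)) (A i) l
    (fun X hodd => by
      by_contra hcon
      push Not at hcon
      have := hX i X hcon.1.le (disjoint_iff_inter_eq_empty.2 hcon.2)
      rw [inter_filter, inter_univ] at hodd
      exact Nat.not_even_iff_odd.2 hodd this) hl1
  refine ⟨fun m => J (finProdFinEquiv.symm m).1 ∆
    Q (finProdFinEquiv.symm m).1 (finProdFinEquiv.symm m).2, fun m v => ?_, fun e => ?_⟩
  · have e1 := deg_symmDiff (s := s) (t := t) (J (finProdFinEquiv.symm m).1)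
      (Q (finProdFinEquiv.symm m).1 (finProdFinEquiv.symm m).2) v
    have e2 := hQ (finProdFinEquiv.symm m).1 (finProdFinEquiv.symm m).2 v
    simp only [mem_filter, mem_univ, true_and, Nat.odd_iff, Nat.even_iff] at e2 ⊢
    omega
  · rw [cnt_equiv finProdFinEquiv.symm (fun z : Fin N × Fin l => e ∈ J z.1 ∆ Q z.1 z.2),
      cnt_eq_sum, Fintype.sum_prod_type]
    have e1 : ∀ i, (∑ j, if e ∈ J i ∆ Q i j then (1 : ℝ) else 0) ≤
        l * (if e ∈ J i then 1 else 0) + l * (if e ∈ A i then 1 else 0) + 4 := by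
      intro i
      rw [← cnt_eq_sum]
      have e2 : (cnt fun j => e ∈ J i ∆ Q i j : ℝ) ≤ l := by
        exact_mod_cast (cnt_le_card _).trans (Fintype.card_fin l).le
      split_ifs with ha hb hb
      · linarith
      · linarith
      · linarith
      · have e3 : cnt (fun j => e ∈ J i ∆ Q i j) ≤ 4 :=
          (cnt_mono fun j hj => by simpa [mem_symmDiff, ha] using hj).trans (hQ' i e hb)
        have : (cnt fun j => e ∈ J i ∆ Q i j : ℝ) ≤ 4 := by exact_mod_cast e3
        linarith
    refine (sum_le_sum fun i _ => e1 i).trans ?_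
    simp only [sum_add_distrib, ← mul_sum, ← cnt_eq_sum, sum_const, card_univ, Fintype.card_fin,
      nsmul_eq_mul]
    have e2 := mul_le_mul_of_nonneg_left (hJ e) hl0.le
    have e3 := mul_le_mul_of_nonneg_left (hA e) hl0.le
    have e4 : 12 ≤ l * ε := (div_le_iff₀ hε).1 hl
    have e5 := mul_le_mul_of_nonneg_left e4 (Nat.cast_nonneg (α := ℝ) N)
    push_cast
    linarith

theorem cub_exit {α : Type} (f : α → α) (Q : α → Prop) (n : ℕ) (a : α) (h : Q a)
    (h' : ¬ Q (f^[n] a)) : ∃ b, Q b ∧ ¬ Q (f b) := by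
  by_contra hc
  push Not at hc
  apply h'
  clear h'
  induction n with
  | zero => exact h
  | succ n ih => rw [Function.iterate_succ_apply']; exact hc _ ih

theorem cub_nxt {H V : Type} [Fintype H] (hv : H → V) (h2 : ∀ a, ∃ b, b ≠ a ∧ hv b = hv a) :
    ∃ f : Equiv.Perm H, (∀ a, hv (f a) = hv a) ∧ (∀ a, f a ≠ a) ∧
      ∀ a b, hv a = hv b → ∃ n, f^[n] a = b := by
  classical
  choose g hg _ using fun v => Finset.exists_cycleOn (univ.filter fun a => hv a = v)
  have e1 : ∀ a, hv (g (hv a) a) = hv a := fun a => by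
    simpa using (hg (hv a)).1.mapsTo (x := a) (by simp)
  have e2 : Function.Injective fun a => g (hv a) a := by
    intro a b hab
    have : hv a = hv b := by rw [← e1 a, ← e1 b]; exact congrArg hv hab
    dsimp only at hab
    rw [this] at hab
    exact (g _).injective hab
  refine ⟨Equiv.ofBijective _ (Finite.injective_iff_bijective.1 e2), e1, fun a => ?_,
    fun a b hab => ?_⟩
  · obtain ⟨b, hb, hb'⟩ := h2 a
    exact (hg (hv a)).apply_ne ⟨b, by simp [hb'], a, by simp, hb⟩ (by simp)
  · obtain ⟨n, -, hn⟩ := (hg (hv a)).exists_pow_eq (a := a) (b := b) (by simp) (by simp [hab])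
    refine ⟨n, ?_⟩
    rw [← hn]
    clear hn
    have : ∀ n : ℕ, (fun a => g (hv a) a)^[n] a = (g (hv a) ^ n) a ∧
        hv ((g (hv a) ^ n) a) = hv a := by
      intro n
      induction n with
      | zero => simp
      | succ n ih =>
        rw [Function.iterate_succ_apply', pow_succ', Equiv.Perm.mul_apply, ih.1, ih.2]
        exact ⟨rfl, by have := e1 ((g (hv a) ^ n) a); rwa [ih.2] at this⟩
    exact (this n).1

theorem al (h : S_CUB) : S_AL := by
  classical
  intro ε hε
  obtain ⟨k, hk, H⟩ := h ε hε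
  refine ⟨k, hk, fun V E _ _ _ _ s t he => ?_⟩
  let hv : E × Bool → V := fun a => if a.2 then t a.1 else s a.1
  obtain ⟨f, f1, f2, f3⟩ := cub_nxt hv (by
    rintro ⟨e, b⟩
    by_contra hc
    push Not at hc
    have h1 : hv (e, !b) ≠ hv (e, b) := hc _ (by simp)
    have h2 := he {hv (e, b)} (singleton_nonempty _) (fun h =>
      h1 (mem_singleton.1 (h ▸ mem_univ _)))
    have h3 : cut s t {hv (e, b)} ⊆ {e} := by
      intro e' he'
      rw [mem_singleton]
      by_contra hne
      have h4 := hc (e', true) (by simp [hne])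
      have h5 := hc (e', false) (by simp [hne])
      simp only [mem_cut, mem_singleton] at he'
      simp only [hv, if_true, Bool.false_eq_true, if_false] at h4 h5 he'
      tauto
    have := card_le_card h3
    rw [card_singleton] at this
    omega)
  let s' : E ⊕ E × Bool → E × Bool := Sum.elim (fun e => (e, false)) id
  let t' : E ⊕ E × Bool → E × Bool := Sum.elim (fun e => (e, true)) f
  have hcub : Cubic s' t' := by
    refine ⟨?_, ?_⟩
    · rintro (e | a)
      · simp [s', t']
      · exact (f2 a).symm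
    · rintro ⟨e, b⟩
      rw [deg_eq_sum, Fintype.sum_sum_type]
      change (∑ x : E, ((if (x, false) = (e, b) then 1 else 0) +
        if (x, true) = (e, b) then 1 else 0)) + ∑ x : E × Bool, ((if x = (e, b) then 1 else 0) +
        if f x = (e, b) then 1 else 0) = 3
      simp only [sum_add_distrib, ← f.eq_symm_apply]
      cases b <;> simp
  have hpre : ∀ (X : Finset (E × Bool)) (Y : Finset V), (∀ a, a ∈ X ↔ hv a ∈ Y) →
      cut s' t' X = (cut s t Y).map Function.Embedding.inl := by
    intro X Y hXY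
    ext (e | a)
    · simp [s', t', hXY, hv]
    · simp [s', t', hXY, f1]
  have hec : EC 2 s' t' := by
    intro X ⟨a, ha⟩ hX
    by_cases hs : ∃ b c, hv b = hv c ∧ b ∈ X ∧ c ∉ X
    · obtain ⟨b, c, hbc, hb, hc⟩ := hs
      obtain ⟨n, hn⟩ := f3 b c hbc
      obtain ⟨m, hm⟩ := f3 c b hbc.symm
      obtain ⟨x, hx, hx'⟩ := cub_exit f (· ∈ X) n b hb (hn ▸ hc)
      obtain ⟨y, hy, hy'⟩ := cub_exit f (· ∉ X) m c hc (hm ▸ not_not.2 hb)
      refine one_lt_card.2 ⟨Sum.inr x, ?_, Sum.inr y, ?_, fun e => hy (Sum.inr_injective e ▸ hx)⟩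
      · simp [s', t', hx, hx']
      · simp [s', t', hy, not_not.1 hy']
    · push Not at hs
      have hXY : ∀ a, a ∈ X ↔ hv a ∈ X.image hv := fun a =>
        ⟨mem_image_of_mem _, fun h => by
          obtain ⟨b, hb, e⟩ := mem_image.1 h
          exact hs b a e hb⟩
      rw [hpre X _ hXY, card_map]
      refine he _ ⟨_, (hXY a).1 ha⟩ fun h => hX (eq_univ_of_forall fun b => (hXY b).2 ?_)
      rw [h]; exact mem_univ _
  obtain ⟨J, hJ, hJ'⟩ := H _ _ s' t' hcub hec
  refine ⟨fun i => univ.filter fun e => Sum.inl e ∉ J i, fun i v => ?_, fun e => ⟨?_, ?_⟩⟩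
  · have e1 := parity_of_odd (s := s') (t := t') (M := J i) (X := univ.filter fun a => hv a = v)
      fun a _ => hJ i a
    rw [hpre _ {v} (by simp)] at e1
    have e2 : J i ∩ (cut s t {v}).map Function.Embedding.inl =
        ((univ.filter fun e => Sum.inl e ∈ J i) ∩ cut s t {v}).map Function.Embedding.inl := by
      ext (e | a) <;> simp
    have e3 : (univ.filter fun a => hv a = v).card = deg s t univ v := by
      rw [deg_eq_sum, card_filter, Fintype.sum_prod_type]
      simp [-sum_boole, hv, add_comm]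
    have e4 := handshake (s := s) (t := t) (univ.filter fun e => Sum.inl e ∈ J i) {v}
    have e5 := deg_union (s := s) (t := t) (disjoint_filter_filter_not univ univ
      fun e => Sum.inl e ∈ J i) v
    rw [filter_union_filter_not_eq] at e5
    rw [e2, card_map, e3] at e1
    rw [sum_singleton] at e4
    rw [Nat.even_iff] at e1 ⊢
    dsimp only
    omega
  · have e1 := cnt_add_not fun i => Sum.inl e ∈ J i
    have e2 : (cnt fun i => Sum.inl e ∈ J i : ℝ) + cnt (fun i => Sum.inl e ∉ J i) = k := by
      rw [Fintype.card_fin] at e1; exact_mod_cast e1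
    have e3 := hJ' (Sum.inl e)
    simp only [mem_filter, mem_univ, true_and]
    linarith
  · have e1 : cnt (fun i => Sum.inl e ∉ J i) ≤ cnt (fun i => Sum.inr (e, false) ∈ J i) +
        cnt (fun i => Sum.inr (f.symm (e, false)) ∈ J i) := by
      refine cnt_le_add fun i hi => ?_
      by_contra hc
      push Not at hc
      have e2 : deg s' t' (J i) (e, false) = 0 := by
        rw [deg_eq_zero]
        rintro (e' | a) hx
        · have : e' ≠ e := fun h => hi (h ▸ hx)
          simp [s', t', this]
        · exact ⟨fun h => hc.1 (by rw [← h]; exact hx),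
            fun h => hc.2 (by rw [← h]; simpa [t'] using hx)⟩
      have := hJ i (e, false)
      rw [e2] at this
      exact absurd this (by decide)
    have e2 := hJ' (Sum.inr (e, false))
    have e3 := hJ' (Sum.inr (f.symm (e, false)))
    have e4 : (cnt (fun i => Sum.inl e ∉ J i) : ℝ) ≤ cnt (fun i => Sum.inr (e, false) ∈ J i) +
        cnt (fun i => Sum.inr (f.symm (e, false)) ∈ J i) := by exact_mod_cast e1
    simp only [mem_filter, mem_univ, true_and]
    linarith

end Pool.Agent.P.MP_40718a_co.ABF
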