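import Pool.Agent.P.MP_40718a_co.ABF.Basic

/-! Edmonds' theorem on disjoint arborescences (Lovasz's proof). -/

namespace Pool.Agent.P.MP_40718a_co.ABF

open Finset

section arcs

variable {V A : Type} [DecidableEq V] [DecidableEq A] (tl hd : A → V)

/-- the arcs of `D` entering `X` -/
def edIn (D : Finset A) (X : Finset V) : Finset A := D.filter fun a => hd a ∈ X ∧ tl a ∉ X

variable {tl hd}

omit [DecidableEq A] in
theorem mem_edIn {D : Finset A} {X : Finset V} {a : A} :
    a ∈ edIn tl hd D X ↔ a ∈ D ∧ hd a ∈ X ∧ tl a ∉ X := mem_filter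

omit [DecidableEq A] in
theorem edIn_submod (D : Finset A) (X Y : Finset V) :
    (edIn tl hd D (X ∩ Y)).card + (edIn tl hd D (X ∪ Y)).card ≤
      (edIn tl hd D X).card + (edIn tl hd D Y).card := by
  simp only [edIn, card_filter, ← sum_add_distrib]
  refine sum_le_sum fun a _ => ?_
  simp only [mem_inter, mem_union]
  by_cases h1 : tl a ∈ X <;> by_cases h2 : hd a ∈ X <;> by_cases h3 : tl a ∈ Y <;>
    by_cases h4 : hd a ∈ Y <;> simp [h1, h2, h3, h4]

theorem ed_grow {S : Finset V} {r : V} {D : Finset A} {k : ℕ} (hD : ∀ a ∈ D, tl a ∈ S)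
    (hk : ∀ X ⊆ S, r ∉ X → X.Nonempty → k + 1 ≤ (edIn tl hd D X).card) (n : ℕ) :
    ∀ (R : Finset V) (B : Finset A), (S \ R).card = n → r ∈ R → B ⊆ D →
      (∀ a ∈ B, tl a ∈ R ∧ hd a ∈ R) →
      (∀ X ⊆ R, r ∉ X → X.Nonempty → (edIn tl hd B X).Nonempty) →
      (∀ X ⊆ S, r ∉ X → X.Nonempty → k ≤ (edIn tl hd (D \ B) X).card) →
      ∃ B ⊆ D, (∀ X ⊆ S, r ∉ X → X.Nonempty → (edIn tl hd B X).Nonempty) ∧
        ∀ X ⊆ S, r ∉ X → X.Nonempty → k ≤ (edIn tl hd (D \ B) X).card := by
  induction n with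
  | zero =>
    intro R B hn _ hB _ h1 h2
    rw [card_eq_zero, sdiff_eq_empty_iff_subset] at hn
    exact ⟨B, hB, fun X hX => h1 X (hX.trans hn), h2⟩
  | succ n ih =>
    intro R B hn hr hB hR h1 h2
    classical
    obtain ⟨X, hX, hmin⟩ := exists_min_image (S.powerset.filter fun X => ¬ X ⊆ R ∧
      (edIn tl hd (D \ B) X).card ≤ k ∧ (r ∉ X ∨ X = S)) card ⟨S, by
        refine mem_filter.2 ⟨mem_powerset_self _, fun h => ?_, ?_, Or.inr rfl⟩
        · rw [sdiff_eq_empty_iff_subset.2 h] at hn; simp at hn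
        · have : edIn tl hd (D \ B) S = ∅ := by
            refine eq_empty_of_forall_notMem fun a ha => ?_
            rw [mem_edIn] at ha
            exact ha.2.2 (hD a (mem_sdiff.1 ha.1).1)
          simp [this]⟩
    simp only [mem_filter, mem_powerset] at hX hmin
    obtain ⟨hXS, hXR, hXk, hXr⟩ := hX
    have h3 : k + 1 ≤ (edIn tl hd D (X \ R)).card :=
      hk _ (sdiff_subset.trans hXS) (by simp [hr]) (sdiff_nonempty.2 hXR)
    obtain ⟨a, ha, ha'⟩ : ∃ a ∈ edIn tl hd D (X \ R), a ∉ edIn tl hd (D \ B) X :=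
      exists_mem_notMem_of_card_lt_card (by omega)
    rw [mem_edIn, mem_sdiff, mem_sdiff] at ha
    obtain ⟨haD, ⟨hv, hvR⟩, hu⟩ := ha
    have haB : a ∉ B := fun h => hvR (hR a h).2
    have huX : tl a ∈ X := by
      by_contra h
      exact ha' (mem_edIn.2 ⟨mem_sdiff.2 ⟨haD, haB⟩, hv, h⟩)
    have huR : tl a ∈ R := by tauto
    refine ih (insert (hd a) R) (insert a B) ?_ (mem_insert_of_mem hr) (insert_subset haD hB)
      ?_ ?_ ?_
    · rw [sdiff_insert, card_erase_of_mem (mem_sdiff.2 ⟨hXS hv, hvR⟩), hn]; rfl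
    · intro b hb
      rcases mem_insert.1 hb with rfl | hb
      · exact ⟨mem_insert_of_mem huR, mem_insert_self _ _⟩
      · exact ⟨mem_insert_of_mem (hR b hb).1, mem_insert_of_mem (hR b hb).2⟩
    · intro Y hY hrY hne
      by_cases h : (Y.erase (hd a)).Nonempty
      · obtain ⟨b, hb⟩ := h1 (Y.erase (hd a)) (subset_insert_iff.1 hY) (by simp [hrY]) h
        rw [mem_edIn, mem_erase, mem_erase] at hb
        refine ⟨b, mem_edIn.2 ⟨mem_insert_of_mem hb.1, hb.2.1.2, fun h' => hb.2.2 ⟨?_, h'⟩⟩⟩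
        intro e
        exact hvR (e ▸ (hR b hb.1).1)
      · have hY1 : ∀ y ∈ Y, y = hd a := fun y hy => by
          by_contra h'
          exact h ⟨y, mem_erase.2 ⟨h', hy⟩⟩
        obtain ⟨y, hy⟩ := hne
        refine ⟨a, mem_edIn.2 ⟨mem_insert_self _ _, hY1 y hy ▸ hy, fun h' => ?_⟩⟩
        exact hvR (hY1 _ h' ▸ huR)
    · intro Y hY hrY hne
      have e : edIn tl hd (D \ insert a B) Y = (edIn tl hd (D \ B) Y).erase a := by
        ext b
        simp only [mem_edIn, mem_erase, mem_sdiff, mem_insert]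
        tauto
      rw [e]
      have h4 := h2 Y hY hrY hne
      by_cases haY : a ∈ edIn tl hd (D \ B) Y
      · rw [card_erase_of_mem haY]
        by_contra hlt
        rw [mem_edIn] at haY
        have h5 : (edIn tl hd (D \ B) (X ∩ Y)).card ≤ k := by
          rcases hXr with hXr | rfl
          · have := edIn_submod (tl := tl) (hd := hd) (D \ B) X Y
            have := h2 (X ∪ Y) (union_subset hXS hY) (by simp [hXr, hrY]) hne.inr
            omega
          · rw [inter_eq_right.2 hY]; omega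
        have h6 := hmin (X ∩ Y) ⟨inter_subset_left.trans hXS,
          fun h => hvR (h (mem_inter.2 ⟨hv, haY.2.1⟩)), h5, Or.inl (by simp [hrY])⟩
        have h7 : (X ∩ Y).card < X.card :=
          card_lt_card ⟨inter_subset_left, fun h => haY.2.2 (mem_inter.1 (h huX)).2⟩
        omega
      · rwa [erase_eq_of_notMem haY]

theorem ed_many {S : Finset V} {r : V} (k : ℕ) : ∀ D : Finset A, (∀ a ∈ D, tl a ∈ S) →
    (∀ X ⊆ S, r ∉ X → X.Nonempty → k ≤ (edIn tl hd D X).card) →
    ∃ B : Fin k → Finset A, (∀ j, B j ⊆ D ∧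
      ∀ X ⊆ S, r ∉ X → X.Nonempty → (edIn tl hd (B j) X).Nonempty) ∧
      ∀ i j a, a ∈ B i → a ∈ B j → i = j := by
  induction k with
  | zero => exact fun D _ _ => ⟨Fin.elim0, fun j => j.elim0, fun j => j.elim0⟩
  | succ k ih =>
    intro D hD hk
    obtain ⟨B0, hB0, h1, h2⟩ := ed_grow hD hk _ {r} ∅ rfl (mem_singleton_self r) (empty_subset _)
      (by simp) (fun X hX hr hne => absurd (hne.subset_singleton_iff.1 hX ▸ mem_singleton_self r) hr)
      (fun X hX hr hne => by rw [sdiff_empty]; exact (Nat.le_succ k).trans (hk X hX hr hne))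
    obtain ⟨B, hB, hdis⟩ := ih (D \ B0) (fun a ha => hD a (mem_sdiff.1 ha).1) h2
    refine ⟨Fin.cons B0 B, fun j => ?_, fun i j a => ?_⟩
    · refine Fin.cases ⟨hB0, h1⟩ (fun j => ?_) j
      exact ⟨(hB j).1.trans sdiff_subset, (hB j).2⟩
    · refine Fin.cases ?_ (fun i => ?_) i <;> refine Fin.cases ?_ (fun j => ?_) j
      · exact fun _ _ => rfl
      · exact fun h h' => absurd h (mem_sdiff.1 ((hB j).1 h')).2
      · exact fun h h' => absurd h' (mem_sdiff.1 ((hB i).1 h)).2
      · exact fun h h' => congrArg Fin.succ (hdis i j a h h')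

end arcs

theorem ed : S_ED := by
  intro V E _ _ _ _ s t S F k hF hk
  rcases S.eq_empty_or_nonempty with rfl | ⟨r, hr⟩
  · refine ⟨fun _ => ∅, fun j => ⟨empty_subset _, fun X hX hne => ?_⟩, fun e => ?_⟩
    · exact absurd (subset_empty.1 hX) hne.ne_empty
    · rw [cnt_eq_zero (by simp)]; omega
  let tl : E × Bool → V := fun a => if a.2 then s a.1 else t a.1
  let hd : E × Bool → V := fun a => if a.2 then t a.1 else s a.1
  have htl : ∀ a ∈ F ×ˢ (univ : Finset Bool), tl a ∈ S := by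
    rintro ⟨e, b⟩ ha
    have := mem_ins.1 (hF (mem_product.1 ha).1)
    cases b
    · exact this.2
    · exact this.1
  obtain ⟨B, hB, hdis⟩ := ed_many (tl := tl) (hd := hd) (S := S) (r := r) k (F ×ˢ univ) htl (by
    intro X hX hrX hne
    refine (hk X hX hne fun h => hrX (h ▸ hr)).trans
      (card_le_card_of_injOn (fun e => (e, decide (t e ∈ X))) ?_ ?_)
    · intro e he
      simp only [coe_inter, Set.mem_inter_iff, mem_coe, mem_cut] at he
      simp only [mem_coe, mem_edIn, mem_product, mem_univ, and_true, tl, hd]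
      by_cases h : t e ∈ X <;> simp [h] at he ⊢ <;> tauto
    · intro e _ f _ h
      exact (Prod.ext_iff.1 h).1)
  refine ⟨fun j => (B j).image Prod.fst, fun j => ⟨?_, fun X hX hne hXS => ?_⟩, fun e => ?_⟩
  · intro e he
    obtain ⟨a, ha, rfl⟩ := mem_image.1 he
    exact (mem_product.1 ((hB j).1 ha)).1
  · have key : ∀ a ∈ B j, ¬ (tl a ∈ X ↔ hd a ∈ X) →
        (cut s t X ∩ (B j).image Prod.fst).Nonempty := by
      rintro ⟨e, b⟩ ha h
      refine ⟨e, mem_inter.2 ⟨mem_cut.2 ?_, mem_image.2 ⟨_, ha, rfl⟩⟩⟩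
      cases b
      · exact fun h' => h h'.symm
      · exact h
    by_cases hrX : r ∈ X
    · obtain ⟨a, ha⟩ := (hB j).2 (S \ X) sdiff_subset (by simp [hrX])
        (sdiff_nonempty.2 fun h => hXS (Subset.antisymm hX h))
      rw [mem_edIn, mem_sdiff, mem_sdiff] at ha
      have := htl a ((hB j).1 ha.1)
      exact key a ha.1 (by tauto)
    · obtain ⟨a, ha⟩ := (hB j).2 X hX hrX hne
      rw [mem_edIn] at ha
      exact key a ha.1 (by tauto)
  · have h1 : ∀ b, cnt (fun j => (e, b) ∈ B j) ≤ 1 := fun b => by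
      rw [cnt_eq, card_le_one]
      intro i hi j hj
      exact hdis i j _ (mem_filter.1 hi).2 (mem_filter.1 hj).2
    refine (cnt_le_add (Q := fun j => (e, true) ∈ B j) (R := fun j => (e, false) ∈ B j) ?_).trans
      (add_le_add (h1 _) (h1 _))
    intro j hj
    obtain ⟨⟨e', b⟩, ha, rfl⟩ := mem_image.1 hj
    cases b
    · exact Or.inr ha
    · exact Or.inl ha

end Pool.Agent.P.MP_40718a_co.ABF
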