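import Pool.Agent.P.MP_40718a_co.ABF.Basic

namespace Pool.Agent.P.MP_40718a_co.ABF

open Finset
open scoped symmDiff

theorem ex_greedy {E : Type} [Fintype E] [DecidableEq E] (ord : E → ℕ)
    (hinj : Function.Injective ord) (N : E → Finset E) (hc : ∀ f, (N f).card ≤ 2)
    (hlt : ∀ f, ∀ g ∈ N f, ord g < ord f) :
    ∃ col : E → Fin 3, ∀ f, ∀ g ∈ N f, col g ≠ col f := by
  have key : ∀ n, ∃ col : E → Fin 3, ∀ f, ord f < n → ∀ g ∈ N f, col g ≠ col f := by
    intro n
    induction n with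
    | zero => exact ⟨fun _ => 0, fun f h => absurd h (Nat.not_lt_zero _)⟩
    | succ n ih =>
      obtain ⟨col, hcol⟩ := ih
      by_cases h : ∃ f0, ord f0 = n
      · obtain ⟨f0, h0⟩ := h
        obtain ⟨c, -, hcn⟩ := exists_mem_notMem_of_card_lt_card
          (s := (N f0).image col) (t := univ)
          (lt_of_le_of_lt (card_image_le.trans (hc f0)) (by simp))
        refine ⟨Function.update col f0 c, fun f hf g hg => ?_⟩
        have h1 := hlt f g hg
        have hg0 : g ≠ f0 := by rintro rfl; omega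
        rw [Function.update_of_ne hg0]
        by_cases hf0 : f = f0
        · subst hf0
          rw [Function.update_self]
          exact fun h2 => hcn (mem_image.2 ⟨g, hg, h2⟩)
        · rw [Function.update_of_ne hf0]
          have : ord f ≠ n := fun h2 => hf0 (hinj (h2.trans h0.symm))
          exact hcol f (by omega) g hg
      · push Not at h
        exact ⟨col, fun f hf => hcol f (lt_of_le_of_ne (by omega) (h f))⟩
  obtain ⟨col, hcol⟩ := key (univ.sup ord + 1)
  exact ⟨col, fun f => hcol f (Nat.lt_succ_of_le (le_sup (f := ord) (mem_univ f)))⟩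

theorem ex_prop0 {p1 p2 p3 p4 : Prop} (h : ¬ ((p1 ↔ p2) ∧ (p3 ↔ p4)) → False) :
    (p1 ∧ p3 ↔ p2 ∧ p4) ∧ (p1 ∧ ¬ p3 ↔ p2 ∧ ¬ p4) ∧ (p3 ∧ ¬ p1 ↔ p4 ∧ ¬ p2) ∧
      (p1 ∨ p3 ↔ p2 ∨ p4) := by
  tauto

theorem ex_prop1 {p1 p2 p3 p4 : Prop} (h1 : ¬ (p1 ∧ p3 ↔ p2 ∧ p4))
    (h2 : ¬ (p1 ∧ ¬ p3 ↔ p2 ∧ ¬ p4)) (h3 : ¬ (p3 ∧ ¬ p1 ↔ p4 ∧ ¬ p2)) : False := by
  by_cases a1 : p1 <;> by_cases a2 : p2 <;> by_cases a3 : p3 <;> by_cases a4 : p4 <;> simp_all

theorem ex_prop2 {p1 p2 p3 p4 q1 q2 q3 q4 : Prop} (b1 : p3 ↔ p4) (b2 : q1 ↔ q2)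
    (h1 : ¬ (p1 ∧ p3 ↔ p2 ∧ p4) ∨ ¬ (q1 ∧ q3 ↔ q2 ∧ q4))
    (h2 : ¬ (p1 ∧ ¬ p3 ↔ p2 ∧ ¬ p4) ∨ ¬ (q1 ∧ ¬ q3 ↔ q2 ∧ ¬ q4))
    (h3 : ¬ (p3 ∧ ¬ p1 ↔ p4 ∧ ¬ p2) ∨ ¬ (q3 ∧ ¬ q1 ↔ q4 ∧ ¬ q2))
    (h4 : ¬ (p1 ∨ p3 ↔ p2 ∨ p4) ∨ ¬ (q1 ∨ q3 ↔ q2 ∨ q4)) : False := by
  by_cases a1 : p1 <;> by_cases a2 : p2 <;> by_cases a3 : p4 <;> by_cases a4 : q2 <;>
    by_cases a5 : q3 <;> by_cases a6 : q4 <;> simp_all

section

variable {V E : Type} [Fintype V] [Fintype E] [DecidableEq V] [DecidableEq E] {s t : E → V}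

theorem ex_laminar {B : Finset E}
    (hB : ∀ X : Finset V, X.Nonempty → X ≠ univ → (cut s t X ∩ B).Nonempty) {r : V}
    {X Y : Finset V} (hrX : r ∉ X) (hrY : r ∉ Y) (hX : (cut s t X ∩ B).card = 1)
    (hY : (cut s t Y ∩ B).card = 1) {u : V} (huX : u ∈ X) (huY : u ∈ Y) : X ⊆ Y ∨ Y ⊆ X := by
  by_contra hc
  push Not at hc
  obtain ⟨x, hx1, hx2⟩ := not_subset.1 hc.1
  obtain ⟨y, hy1, hy2⟩ := not_subset.1 hc.2
  obtain ⟨a, ha⟩ := card_eq_one.1 hX
  obtain ⟨b, hb⟩ := card_eq_one.1 hY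
  have hne : ∀ Z : Finset V, r ∉ Z → Z ≠ univ := fun Z h h' => h (h' ▸ mem_univ r)
  obtain ⟨e1, h1⟩ := hB (X ∩ Y) ⟨u, mem_inter.2 ⟨huX, huY⟩⟩ (hne _ (by simp [hrX]))
  obtain ⟨e2, h2⟩ := hB (X \ Y) ⟨x, mem_sdiff.2 ⟨hx1, hx2⟩⟩ (hne _ (by simp [hrX]))
  obtain ⟨e3, h3⟩ := hB (Y \ X) ⟨y, mem_sdiff.2 ⟨hy1, hy2⟩⟩ (hne _ (by simp [hrY]))
  obtain ⟨e4, h4⟩ := hB (X ∪ Y) ⟨u, mem_union_left _ huX⟩ (hne _ (by simp [hrX, hrY]))
  have ka : ∀ e ∈ B, ¬ (s e ∈ X ↔ t e ∈ X) → e = a := fun e he h =>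
    mem_singleton.1 (ha ▸ mem_inter.2 ⟨mem_cut.2 h, he⟩)
  have kb : ∀ e ∈ B, ¬ (s e ∈ Y ↔ t e ∈ Y) → e = b := fun e he h =>
    mem_singleton.1 (hb ▸ mem_inter.2 ⟨mem_cut.2 h, he⟩)
  have haX := mem_inter.1 (ha ▸ mem_singleton_self a : a ∈ cut s t X ∩ B)
  have hbY := mem_inter.1 (hb ▸ mem_singleton_self b : b ∈ cut s t Y ∩ B)
  have kab : ∀ e ∈ B, ¬ ((s e ∈ X ↔ t e ∈ X) ∧ (s e ∈ Y ↔ t e ∈ Y)) → e = a ∨ e = b := by
    intro e he h
    by_cases h' : s e ∈ X ↔ t e ∈ X
    · exact Or.inr (kb e he (fun h'' => h ⟨h', h''⟩))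
    · exact Or.inl (ka e he h')
  simp only [mem_inter, mem_cut, mem_sdiff, mem_union] at h1 h2 h3 h4 haX hbY
  have g1 := kab e1 h1.2 (fun h => h1.1 (ex_prop0 (fun h' => h' h)).1)
  have g2 := kab e2 h2.2 (fun h => h2.1 (ex_prop0 (fun h' => h' h)).2.1)
  have g3 := kab e3 h3.2 (fun h => h3.1 (ex_prop0 (fun h' => h' h)).2.2.1)
  have g4 := kab e4 h4.2 (fun h => h4.1 (ex_prop0 (fun h' => h' h)).2.2.2)
  by_cases hab : a = b
  · subst hab
    simp only [or_self] at g1 g2 g3
    exact ex_prop1 (g1 ▸ h1.1) (g2 ▸ h2.1) (g3 ▸ h3.1)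
  · have b1 : s a ∈ Y ↔ t a ∈ Y := by
      by_contra h; exact hab (kb a haX.2 h)
    have b2 : s b ∈ X ↔ t b ∈ X := by
      by_contra h; exact hab (ka b hbY.2 h).symm
    exact ex_prop2 b1 b2 (g1.imp (· ▸ h1.1) (· ▸ h1.1)) (g2.imp (· ▸ h2.1) (· ▸ h2.1))
      (g3.imp (· ▸ h3.1) (· ▸ h3.1)) (g4.imp (· ▸ h4.1) (· ▸ h4.1))

theorem ex_colour (h3 : EC 3 s t) {B : Finset E}
    (hB : ∀ X : Finset V, X.Nonempty → X ≠ univ → (cut s t X ∩ B).Nonempty) :
    ∃ col : E → Fin 3, ∀ X : Finset V, X.Nonempty → X ≠ univ → (cut s t X ∩ B).card = 1 →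
      ∀ c, ∃ f ∈ cut s t X, f ∉ B ∧ col f ≠ c := by
  classical
  rcases isEmpty_or_nonempty V with hV | ⟨⟨r⟩⟩
  · exact ⟨fun _ => 0, fun X ⟨x, _⟩ => isEmptyElim x⟩
  let L : Finset (Finset V) := univ.filter fun X => r ∉ X ∧ (cut s t X ∩ B).card = 1
  let rk : E → ℕ := fun f => (L.filter fun X => s f ∈ X ∧ t f ∈ X).card
  let ix : E ≃ Fin (Fintype.card E) := Fintype.equivFin E
  let ord : E → ℕ := fun f => Fintype.card E * rk f + ix f
  have hrk : ∀ f g, ord g < ord f → rk g ≤ rk f := by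
    intro f g h
    by_contra hc
    have h1 := Nat.mul_le_mul_left (Fintype.card E) (show rk f + 1 ≤ rk g by omega)
    have h2 := (ix f).2
    simp only [ord] at h
    rw [mul_add] at h1
    omega
  have hinj : Function.Injective ord := by
    intro f g h
    have h1 := congrArg (· % Fintype.card E) h
    simp only [ord, Nat.mul_add_mod, Nat.mod_eq_of_lt (ix _).2] at h1
    exact ix.injective (Fin.ext h1)
  let Nb : V → E → E → Prop := fun u f g => ∃ X ∈ L, u ∈ X ∧ f ∈ cut s t X ∧ g ∈ cut s t X \ B ∧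
    ord g < ord f ∧ ∀ h ∈ cut s t X \ B, ord h < ord f → h = g
  have hlam : ∀ X ∈ L, ∀ Y ∈ L, ∀ u ∈ X, u ∈ Y → X ⊆ Y ∨ Y ⊆ X := by
    intro X hX Y hY u h1 h2
    have a := (mem_filter.1 hX).2
    have b := (mem_filter.1 hY).2
    exact ex_laminar hB a.1 b.1 a.2 b.2 h1 h2
  have huniq : ∀ u f, (s f = u ∨ t f = u) → ∀ g g', Nb u f g → Nb u f g' → g = g' := by
    intro u f hu
    have main : ∀ X ∈ L, ∀ X' ∈ L, X ⊆ X' → u ∈ X → f ∈ cut s t X' → ∀ g ∈ cut s t X,
        ord g < ord f → g ∈ cut s t X' := by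
      intro X hX X' hX' hXX huX hf g hg hlt
      by_contra hc
      rw [mem_cut] at hg hc hf
      have hs : s g ∈ X' ∧ t g ∈ X' := by
        have a := @hXX (s g)
        have b := @hXX (t g)
        tauto
      have h1 := hrk f g hlt
      have h2 : (L.filter fun X => s f ∈ X ∧ t f ∈ X) ⊂ (L.filter fun X => s g ∈ X ∧ t g ∈ X) := by
        refine ⟨fun Y hY => ?_, fun h => ?_⟩
        · obtain ⟨hY1, hY2⟩ := mem_filter.1 hY
          have huY : u ∈ Y := by rcases hu with rfl | rfl; exacts [hY2.1, hY2.2]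
          rcases hlam X' hX' Y hY1 u (hXX huX) huY with h | h
          · exact mem_filter.2 ⟨hY1, h hs.1, h hs.2⟩
          · exact absurd ⟨fun _ => h hY2.2, fun _ => h hY2.1⟩ hf
        · have := (mem_filter.1 (h (mem_filter.2 ⟨hX', hs⟩))).2
          exact hf ⟨fun _ => this.2, fun _ => this.1⟩
      have := card_lt_card h2
      simp only [rk] at h1
      omega
    rintro g g' ⟨X, hX, a1, a2, a3, a4, a5⟩ ⟨X', hX', b1, b2, b3, b4, b5⟩
    rcases hlam X hX X' hX' u a1 b1 with h | h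
    · exact b5 g (mem_sdiff.2 ⟨main X hX X' hX' h a1 b2 g (mem_sdiff.1 a3).1 a4,
        (mem_sdiff.1 a3).2⟩) a4
    · exact (a5 g' (mem_sdiff.2 ⟨main X' hX' X hX h b1 a2 g' (mem_sdiff.1 b3).1 b4,
        (mem_sdiff.1 b3).2⟩) b4).symm
  obtain ⟨col, hcol⟩ := ex_greedy ord hinj
    (fun f => univ.filter (Nb (s f) f) ∪ univ.filter (Nb (t f) f)) (by
      intro f
      have a1 : (univ.filter (Nb (s f) f)).card ≤ 1 := card_le_one.2 (fun g hg g' hg' =>
        huniq _ f (Or.inl rfl) g g' (mem_filter.1 hg).2 (mem_filter.1 hg').2)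
      have a2 : (univ.filter (Nb (t f) f)).card ≤ 1 := card_le_one.2 (fun g hg g' hg' =>
        huniq _ f (Or.inr rfl) g g' (mem_filter.1 hg).2 (mem_filter.1 hg').2)
      exact (card_union_le _ _).trans (by omega)) (by
      intro f g hg
      rcases mem_union.1 hg with h | h
      · obtain ⟨X, _, _, _, _, h, _⟩ := (mem_filter.1 h).2; exact h
      · obtain ⟨X, _, _, _, _, h, _⟩ := (mem_filter.1 h).2; exact h)
  have main : ∀ X : Finset V, r ∉ X → X.Nonempty → (cut s t X ∩ B).card = 1 →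
      ∀ c, ∃ f ∈ cut s t X, f ∉ B ∧ col f ≠ c := by
    intro X hr hne h1 c
    have hXL : X ∈ L := mem_filter.2 ⟨mem_univ _, hr, h1⟩
    have h2 := h3 X hne (fun h => hr (h ▸ mem_univ r))
    have h4 := card_sdiff_add_card_inter (cut s t X) B
    obtain ⟨g, hg, hgm⟩ := (cut s t X \ B).exists_min_image ord (card_pos.1 (by omega))
    obtain ⟨f, hf, hfm⟩ := ((cut s t X \ B).erase g).exists_min_image ord
      (card_pos.1 (by rw [card_erase_of_mem hg]; omega))
    have hf' := mem_erase.1 hf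
    have hlt : ord g < ord f := lt_of_le_of_ne (hgm f hf'.2) (fun h => hf'.1 (hinj h).symm)
    have hN : ∀ u ∈ X, Nb u f g := fun u hu => ⟨X, hXL, hu, (mem_sdiff.1 hf'.2).1, hg, hlt, by
      intro h hh hl
      by_contra hc
      have := hfm h (mem_erase.2 ⟨hc, hh⟩)
      omega⟩
    have hne : col g ≠ col f := by
      apply hcol f g
      have := mem_cut.1 (mem_sdiff.1 hf'.2).1
      by_cases hs : s f ∈ X
      · exact mem_union_left _ (mem_filter.2 ⟨mem_univ _, hN _ hs⟩)
      · exact mem_union_right _ (mem_filter.2 ⟨mem_univ _, hN _ (by tauto)⟩)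
    by_cases hc : col f = c
    · exact ⟨g, (mem_sdiff.1 hg).1, (mem_sdiff.1 hg).2, hc ▸ hne⟩
    · exact ⟨f, (mem_sdiff.1 hf'.2).1, (mem_sdiff.1 hf'.2).2, hc⟩
  refine ⟨col, fun X h1 h2 h4 c => ?_⟩
  by_cases hr : r ∈ X
  · have := main Xᶜ (by simpa using hr) (by
      rw [nonempty_iff_ne_empty]; simpa using h2) (by rwa [cut_compl]) c
    rwa [cut_compl] at this
  · exact main X hr h1 h4 c

end

theorem djs (h : S_ED) : S_DJS := by
  intro V E _ _ _ _ s t h3
  obtain ⟨B, hB, hc⟩ := h V E s t univ univ 3 (by simp)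
    (fun X _ h1 h2 => by simpa using h3 X h1 h2)
  have hj : ∀ e, ∃ j, e ∉ B j := by
    intro e
    by_contra hno
    push Not at hno
    have := hc e
    rw [cnt_congr (Q := fun _ => True) (by simpa using hno), cnt_true] at this
    simp at this
  choose jj hjj using hj
  have hcol := fun j => ex_colour h3 (B := B j) (fun X => (hB j).2 X (subset_univ _))
  choose col hcol using hcol
  refine ⟨fun e => (jj e, col (jj e) e), ?_⟩
  rintro ⟨j, c⟩ X h1 h2
  beta_reduce
  have hsub : cut s t X ∩ B j ⊆ (cut s t X).filter fun e => (jj e, col (jj e) e) ≠ (j, c) := by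
    intro e he
    refine mem_filter.2 ⟨(mem_inter.1 he).1, fun h => ?_⟩
    have : jj e = j := congrArg Prod.fst h
    exact hjj e (this ▸ (mem_inter.1 he).2)
  have hpos := ((hB j).2 X (subset_univ _) h1 h2).card_pos
  by_cases h4 : (cut s t X ∩ B j).card = 1
  · obtain ⟨f, hf1, hf2, hf3⟩ := hcol j X h1 h2 h4 c
    have hfn : f ∉ cut s t X ∩ B j := fun h => hf2 (mem_inter.1 h).2
    have : insert f (cut s t X ∩ B j) ⊆
        (cut s t X).filter fun e => (jj e, col (jj e) e) ≠ (j, c) := by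
      refine insert_subset (mem_filter.2 ⟨hf1, fun h => ?_⟩) hsub
      have a1 : jj f = j := congrArg Prod.fst h
      have a2 : col (jj f) f = c := congrArg Prod.snd h
      exact hf3 (a1 ▸ a2)
    have := card_le_card this
    rw [card_insert_of_notMem hfn] at this
    omega
  · have := card_le_card hsub
    omega

theorem ex_toFin {I α : Type} [Fintype I] {k : ℕ} (hI : Fintype.card I = k) (C : I → α) :
    ∃ C' : Fin k → α, (∀ i, ∃ j, C' i = C j) ∧
      ∀ P : α → Prop, cnt (fun i => P (C' i)) = cnt (fun i => P (C i)) :=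
  ⟨fun i => C ((Fintype.equivFinOfCardEq hI).symm i), fun _ => ⟨_, rfl⟩,
    fun P => cnt_equiv (Fintype.equivFinOfCardEq hI).symm (fun i => P (C i))⟩

theorem ex_cnt_sum {I J : Type} [Fintype I] [Fintype J] (P : I ⊕ J → Prop) :
    cnt P = cnt (fun i => P (Sum.inl i)) + cnt (fun j => P (Sum.inr j)) := by
  classical
  simp only [cnt_eq, card_filter, Fintype.sum_sum_type]

theorem ex_cnt_prod {I J : Type} [Fintype I] [Fintype J] (P : I × J → Prop) :
    cnt P = ∑ i, cnt (fun j => P (i, j)) := by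
  classical
  simp only [cnt_eq, card_filter, Fintype.sum_prod_type]

/-- exact half covers -/
theorem ex_half (h1 : S_AL) : ∃ u : ℕ, 0 < u ∧
    ∀ (V E : Type) [Fintype V] [Fintype E] [DecidableEq V] [DecidableEq E] (s t : E → V),
      EC 2 s t → ∃ C : Fin (2 * u) → Finset E, (∀ i v, Even (deg s t (C i) v)) ∧
        ∀ e, cnt (fun i => e ∈ C i) = u := by
  obtain ⟨k, hk, h⟩ := h1 (1 / 3) (by norm_num)
  refine ⟨2 ^ (k - 1), by positivity, fun V E _ _ _ _ s t h2 => ?_⟩
  obtain ⟨C, hev, hc⟩ := h V E s t h2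
  let D : Finset (Fin k) → Finset E := fun S =>
    univ.filter fun e => Odd (S.filter fun i => e ∈ C i).card
  have hins : ∀ S i, i ∉ S → D (insert i S) = D S ∆ C i := by
    intro S i hi
    ext e
    simp only [D, mem_filter, mem_univ, true_and, mem_symmDiff, filter_insert]
    by_cases he : e ∈ C i
    · rw [if_pos he, card_insert_of_notMem (fun h => hi (mem_filter.1 h).1), Nat.odd_add_one]
      simp [he]
    · simp [he]
  have hD : ∀ S v, Even (deg s t (D S) v) := by
    intro S v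
    induction S using Finset.induction_on with
    | empty => simp [D]
    | insert i S hi ih =>
      have a1 := deg_symmDiff (s := s) (t := t) (D S) (C i) v
      have a2 := hev i v
      rw [hins S i hi]
      rw [Nat.even_iff] at *
      omega
  have hcard : Fintype.card (Finset (Fin k)) = 2 * 2 ^ (k - 1) := by
    rw [Fintype.card_finset, Fintype.card_fin, ← pow_succ']
    congr 1; omega
  obtain ⟨C', a1, a2⟩ := ex_toFin hcard D
  refine ⟨C', fun i v => by obtain ⟨j, hj⟩ := a1 i; rw [hj]; exact hD j v, fun e => ?_⟩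
  rw [a2 (fun F => e ∈ F)]
  obtain ⟨i, hi⟩ : ∃ i, e ∈ C i := by
    by_contra hno
    push Not at hno
    have := (hc e).1
    rw [cnt_eq_zero hno] at this
    have : (0 : ℝ) < k := by exact_mod_cast hk
    simp only [Nat.cast_zero] at *
    linarith
  let g : Finset (Fin k) ≃ Finset (Fin k) := Function.Involutive.toPerm (fun S => S ∆ {i})
    (fun S => by simp)
  have b1 := cnt_equiv g (fun S => e ∈ D S)
  have b2 := cnt_add_not (fun S => e ∈ D S)
  have b3 : cnt (fun S => e ∈ D (g S)) = cnt (fun S => ¬ e ∈ D S) := by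
    refine cnt_congr (fun S => ?_)
    change e ∈ D (S ∆ {i}) ↔ _
    by_cases hS : i ∈ S
    · have e1 : S ∆ {i} = S.erase i := by
        ext x; simp only [mem_symmDiff, mem_singleton, mem_erase]
        by_cases hx : x = i
        · simp [hx, hS]
        · simp [hx]
      have e2 := hins (S.erase i) i (notMem_erase _ _)
      rw [insert_erase hS] at e2
      rw [e1, e2]; simp [mem_symmDiff, hi]
    · have e1 : S ∆ {i} = insert i S := by
        ext x; simp only [mem_symmDiff, mem_singleton, mem_insert]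
        by_cases hx : x = i
        · simp [hx, hS]
        · simp [hx]
      rw [e1, hins S i hS]; simp [mem_symmDiff, hi]
  omega

/-- exact half covers of a graph with some edges removed -/
theorem ex_half' (h1 : S_AL) : ∃ u : ℕ, 0 < u ∧
    ∀ (V E : Type) [Fintype V] [Fintype E] [DecidableEq V] [DecidableEq E] (s t : E → V)
      (R : Finset E), (∀ X : Finset V, X.Nonempty → X ≠ univ → 2 ≤ (cut s t X \ R).card) →
      ∃ C : Fin (2 * u) → Finset E, (∀ i v, Even (deg s t (C i) v)) ∧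
        ∀ e, cnt (fun i => e ∈ C i) = if e ∈ R then 0 else u := by
  obtain ⟨u, hu, h⟩ := ex_half h1
  refine ⟨u, hu, fun V E _ _ _ _ s t R h2 => ?_⟩
  obtain ⟨C, hev, hc⟩ := h V {e // e ∉ R} (fun e => s e.1) (fun e => t e.1) (by
    intro X a1 a2
    refine (h2 X a1 a2).trans (le_of_eq ?_)
    rw [← card_map (Function.Embedding.subtype _)]
    congr 1
    ext e
    simp only [mem_sdiff, mem_cut, mem_map, Function.Embedding.coe_subtype, Subtype.exists,
      exists_and_right, exists_eq_right, exists_prop]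
    tauto)
  refine ⟨fun i => (C i).map (Function.Embedding.subtype _), fun i v => ?_, fun e => ?_⟩
  · have := hev i v
    simp only [deg, filter_map, card_map] at this ⊢
    exact this
  · split_ifs with he
    · refine cnt_eq_zero (fun i hi => ?_)
      obtain ⟨f, _, rfl⟩ := mem_map.1 hi
      exact f.2 he
    · exact (cnt_congr (fun i => mem_map' (Function.Embedding.subtype _) (a := ⟨e, he⟩))).trans
        (hc ⟨e, he⟩)

theorem ex_three (h1 : S_AL) (h2 : S_DJS) (ε : ℝ) (hε : 0 < ε) :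
    ∃ k l : ℕ, 0 < k ∧ (2 / 3 - ε) * k < l ∧
    ∀ (V E : Type) [Fintype V] [Fintype E] [DecidableEq V] [DecidableEq E] (s t : E → V),
      EC 3 s t → ∃ C : Fin k → Finset E, (∀ i v, Even (deg s t (C i) v)) ∧
        ∀ e, cnt (fun i => e ∈ C i) = l := by
  obtain ⟨u, hu, hh⟩ := ex_half' h1
  obtain ⟨k, hk, h⟩ := h1 (ε / 20) (by positivity)
  set a : ℕ := ⌈(2 / 3 - ε / 20) * k⌉₊ with ha
  set D : ℕ := ⌊(2 / 3 + 2 * (ε / 20)) * k⌋₊ - a with hD
  have hk' : (0 : ℝ) < k := by exact_mod_cast hk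
  have ha1 : (2 / 3 - ε / 20) * k ≤ a := Nat.le_ceil _
  have hD1 : (D : ℝ) ≤ 3 * (ε / 20) * k := by
    have b1 : (⌊(2 / 3 + 2 * (ε / 20)) * k⌋₊ : ℝ) ≤ (2 / 3 + 2 * (ε / 20)) * k :=
      Nat.floor_le (by positivity)
    by_cases hle : a ≤ ⌊(2 / 3 + 2 * (ε / 20)) * k⌋₊
    · rw [hD, Nat.cast_sub hle]; linarith
    · rw [hD, Nat.sub_eq_zero_of_le (not_le.1 hle).le]; simp only [Nat.cast_zero]; positivity
  refine ⟨u * k + D * (9 * (2 * u)), u * (a + 9 * D), by positivity, ?_,
    fun V E _ _ _ _ s t h3 => ?_⟩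
  · have hu' : (0 : ℝ) < u := by exact_mod_cast hu
    have hD0 : (0 : ℝ) ≤ D := Nat.cast_nonneg _
    push_cast
    have : (2 / 3 - ε) * (k + 18 * D) < a + 9 * D := by
      have := mul_pos hε hk'
      have := mul_nonneg hε.le hD0
      nlinarith
    nlinarith
  obtain ⟨C, hev, hc⟩ := h V E s t (h3.mono (by norm_num))
  obtain ⟨cls, hcls⟩ := h2 V E s t h3
  let c : E → ℕ := fun e => cnt fun i => e ∈ C i
  have hc1 : ∀ e, a ≤ c e := fun e => Nat.ceil_le.2 (hc e).1
  have hc2 : ∀ e, c e ≤ a + D := fun e => by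
    have := Nat.le_floor (hc e).2
    simp only [c]; omega
  let R : Fin D → Fin 3 × Fin 3 → Finset E := fun τ j =>
    univ.filter fun e => cls e = j ∧ a + τ < c e
  have hR := fun τ j => hh V E s t (R τ j) (fun X a1 a2 => (hcls j X a1 a2).trans
    (card_le_card (fun e he => by
      have := mem_filter.1 he
      exact mem_sdiff.2 ⟨this.1, fun h => this.2 (mem_filter.1 h).2.1⟩)))
  choose F hF1 hF2 using hR
  obtain ⟨C', a1, a2⟩ := ex_toFin (I := (Fin u × Fin k) ⊕ (Fin D × (Fin 3 × Fin 3) × Fin (2 * u)))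
    (k := u * k + D * (9 * (2 * u))) (by simp)
    (Sum.elim (fun q => C q.2) (fun q => F q.1 q.2.1 q.2.2))
  refine ⟨C', fun i v => ?_, fun e => ?_⟩
  · obtain ⟨j, hj⟩ := a1 i
    rw [hj]
    rcases j with q | q
    · exact hev _ v
    · exact hF1 _ _ _ v
  · rw [a2 (fun F => e ∈ F), ex_cnt_sum, ex_cnt_prod, ex_cnt_prod]
    simp only [Sum.elim_inl, Sum.elim_inr, sum_const, card_univ, Fintype.card_fin, smul_eq_mul]
    have b1 : ∀ τ : Fin D, cnt (fun q : (Fin 3 × Fin 3) × Fin (2 * u) => e ∈ F τ q.1 q.2) +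
        (if a + τ < c e then u else 0) = 9 * u := by
      intro τ
      rw [ex_cnt_prod]
      simp only [hF2, R, mem_filter, mem_univ, true_and]
      have b2 : ∑ j : Fin 3 × Fin 3, ((if cls e = j ∧ a + τ < c e then 0 else u) +
          (if cls e = j then (if a + τ < c e then u else 0) else 0)) = 9 * u := by
        rw [sum_congr rfl (g := fun _ => u)]
        · simp
        · intro j _
          by_cases d1 : cls e = j <;> by_cases d2 : a + τ < c e <;> simp [d1, d2]
      rw [sum_add_distrib, sum_ite_eq] at b2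
      simpa using b2
    have b3 := sum_congr (rfl : (univ : Finset (Fin D)) = univ) (fun τ _ => b1 τ)
    rw [sum_add_distrib] at b3
    have b4 : ∑ τ : Fin D, (if a + τ < c e then u else 0) = (c e - a) * u := by
      rw [Fin.sum_univ_eq_sum_range (fun τ => if a + τ < c e then u else 0) D, ← sum_filter]
      have : (range D).filter (fun τ => a + τ < c e) = range (c e - a) := by
        ext x; have := hc2 e; simp only [mem_filter, mem_range]; omega
      rw [this]; simp
    rw [b4] at b3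
    simp only [sum_const, card_univ, Fintype.card_fin, smul_eq_mul] at b3
    obtain ⟨x, hx⟩ := Nat.exists_eq_add_of_le (hc1 e)
    change u * c e + _ = _
    rw [hx, Nat.add_sub_cancel_left] at b3
    rw [hx]
    nlinarith

theorem ex (h1 : S_AL) (h2 : S_DJS) : S_EX := by
  intro ε hε
  obtain ⟨k, l, hk, hl, h⟩ := ex_three h1 h2 ε hε
  refine ⟨k, l, hk, hl, ?_⟩
  suffices H : ∀ n, ∀ (V E : Type) [Fintype V] [Fintype E] [DecidableEq V] [DecidableEq E]
      (s t : E → V), Fintype.card V = n → EC 2 s t →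
      ∃ C : Fin k → Finset E, (∀ i v, Even (deg s t (C i) v)) ∧
        ∀ e, cnt (fun i => e ∈ C i) = l from fun V E _ _ _ _ s t h => H _ V E s t rfl h
  intro n
  induction n using Nat.strong_induction_on with
  | _ n ih =>
  intro V E _ _ _ _ s t hn h2
  by_cases h3 : EC 3 s t
  · exact h V E s t h3
  unfold EC at h3
  push Not at h3
  obtain ⟨X, x1, x2, x3⟩ := h3
  have x4 := h2 X x1 x2
  obtain ⟨e, e', hee, hX⟩ := card_eq_two.1 (show (cut s t X).card = 2 by omega)
  have hst : s e ≠ t e := by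
    intro h
    have : e ∈ cut s t X := by rw [hX]; simp
    rw [mem_cut, h] at this
    exact this Iff.rfl
  let q : V → {v // v ≠ t e} := fun v => if h : v = t e then ⟨s e, hst⟩ else ⟨v, h⟩
  have hq : ∀ w : {v // v ≠ t e}, q w.1 = w := fun w => by simp [q, w.2]
  obtain ⟨C, hev, hc⟩ := ih (Fintype.card {v // v ≠ t e})
    (by rw [← hn]; exact Fintype.card_subtype_lt (x := t e) (by simp))
    {v // v ≠ t e} E (fun f => q (s f)) (fun f => q (t f)) rfl (by
      intro Y ⟨y, hy⟩ y2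
      have := h2 (univ.filter fun v => q v ∈ Y) ⟨y.1, by simp [hq, hy]⟩ (by
        intro h
        apply y2
        refine eq_univ_of_forall (fun w => ?_)
        have : w.1 ∈ univ.filter fun v => q v ∈ Y := by rw [h]; exact mem_univ _
        simpa [hq] using this)
      refine this.trans (le_of_eq ?_)
      congr 1
      ext f; simp)
  let C' : Fin k → Finset E := fun i =>
    if Odd (deg s t ((C i).erase e) (t e)) then insert e ((C i).erase e) else (C i).erase e
  have hmem : ∀ i f, f ≠ e → (f ∈ C' i ↔ f ∈ C i) := by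
    intro i f hf
    simp only [C']
    split_ifs <;> simp [hf]
  have hev' : ∀ i v, Even (deg s t (C' i) v) := by
    intro i
    have b1 : ∀ v, v ≠ s e → Even (deg s t (C' i) v) := by
      intro v hv
      by_cases hv' : v = t e
      · subst hv'
        simp only [C']
        split_ifs with ho
        · rw [insert_eq, deg_union (by simp), deg_singleton]
          simp only [hst, if_false, if_true, zero_add]
          exact Odd.add_odd odd_one ho
        · exact Nat.not_odd_iff_even.1 ho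
      · have b2 : deg s t (C' i) v = deg s t (C i) v := by
          refine deg_congr (fun f hf => hmem i f ?_)
          rintro rfl
          rcases hf with h | h
          · exact hv h.symm
          · exact hv' h.symm
        have b3 : ∀ x, q x = ⟨v, hv'⟩ ↔ x = v := by
          intro x
          simp only [q]
          split_ifs with hx
          · simp only [Subtype.mk.injEq, hx]
            exact ⟨fun h => absurd h.symm hv, fun h => absurd h.symm hv'⟩
          · simp
        have b4 := hev i ⟨v, hv'⟩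
        simp only [deg, b3] at b4
        rw [b2]; exact b4
    intro v
    by_cases hv : v = s e
    · have b5 := handshake (s := s) (t := t) (C' i) univ
      rw [← add_sum_erase _ _ (mem_univ v)] at b5
      have b6 : Even (∑ x ∈ univ.erase v, deg s t (C' i) x) :=
        even_sum _ (fun x hx => b1 x (hv ▸ (mem_erase.1 hx).1))
      simp only [cut_univ, inter_empty, card_empty, add_zero] at b5
      rw [Nat.even_iff] at *
      omega
    · exact b1 v hv
  refine ⟨C', hev', fun f => ?_⟩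
  by_cases hf : f = e
  · rw [← hc e', hf]
    refine cnt_congr (fun i => ?_)
    rw [← hmem i e' hee.symm]
    have b1 := handshake (s := s) (t := t) (C' i) X
    have b2 : Even (∑ x ∈ X, deg s t (C' i) x) := even_sum _ (fun x _ => hev' i x)
    rw [hX, inter_comm (C' i) {e, e'}] at b1
    rw [b1, Nat.even_iff] at b2
    by_cases d1 : e ∈ C' i <;> by_cases d2 : e' ∈ C' i <;> simp [d1, d2] at b2 ⊢
  · rw [← hc f]
    exact cnt_congr (fun i => hmem i f hf)

end Pool.Agent.P.MP_40718a_co.ABF
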