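import Pool.Agent.P.MP_40718a_co.ABF.Basic
import Pool.Agent.P.MP_40718a_co.ABF.GLCore

/-! Edge colouring with slack. -/

namespace Pool.Agent.P.MP_40718a_co.ABF

open Finset Function

namespace Tash

variable {V E C : Type} [Fintype V] [Fintype E] [DecidableEq V] [DecidableEq E] [DecidableEq C]
  [Fintype C] (s t : E → V)

/-- proper colouring of the edge set `F` -/
def Proper (F : Finset E) (c : E → C) : Prop :=
  ∀ e ∈ F, ∀ f ∈ F, ∀ v, (s e = v ∨ t e = v) → (s f = v ∨ t f = v) → c e = c f → e = f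

/-- the involutions `g a` describe the colour classes of `c` -/
structure Rep (F : Finset E) (c : E → C) (g : C → V → V) : Prop where
  inv : ∀ a, Involutive (g a)
  edge : ∀ e ∈ F, g (c e) (s e) = t e
  ex : ∀ a v, g a v ≠ v → ∃ e ∈ F, c e = a ∧ (s e = v ∨ t e = v)
  prop : Proper s t F c

variable {s t}

omit [Fintype V] [Fintype E] [DecidableEq V] [DecidableEq E] [DecidableEq C] [Fintype C] in
theorem exists_rep {F : Finset E} {c : E → C} (hc : Proper s t F c) : ∃ g, Rep s t F c g := by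
  have h : ∀ (a : C) (v : V), ∃ w, (∃ e ∈ F, c e = a ∧ (s e = v ∧ t e = w ∨ t e = v ∧ s e = w)) ∨
      (w = v ∧ ∀ e ∈ F, c e = a → ¬ (s e = v ∨ t e = v)) := by
    intro a v
    by_cases h : ∃ e ∈ F, c e = a ∧ (s e = v ∨ t e = v)
    · obtain ⟨e, he, h1, h2 | h2⟩ := h
      · exact ⟨t e, Or.inl ⟨e, he, h1, Or.inl ⟨h2, rfl⟩⟩⟩
      · exact ⟨s e, Or.inl ⟨e, he, h1, Or.inr ⟨h2, rfl⟩⟩⟩
    · exact ⟨v, Or.inr ⟨rfl, fun e he h1 h2 => h ⟨e, he, h1, h2⟩⟩⟩
  choose g hg using h
  have key : ∀ e ∈ F, g (c e) (s e) = t e ∧ g (c e) (t e) = s e := by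
    intro e he
    constructor
    · rcases hg (c e) (s e) with ⟨f, hf, h1, h2⟩ | ⟨-, h⟩
      · obtain rfl := hc f hf e he (s e) (h2.imp And.left And.left) (Or.inl rfl) h1
        rcases h2 with h2 | h2
        · exact h2.2.symm
        · exact h2.2.symm.trans h2.1.symm
      · exact (h e he rfl (Or.inl rfl)).elim
    · rcases hg (c e) (t e) with ⟨f, hf, h1, h2⟩ | ⟨-, h⟩
      · obtain rfl := hc f hf e he (t e) (h2.imp And.left And.left) (Or.inr rfl) h1
        rcases h2 with h2 | h2
        · exact h2.2.symm.trans h2.1.symm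
        · exact h2.2.symm
      · exact (h e he rfl (Or.inr rfl)).elim
  refine ⟨g, fun a v => ?_, fun e he => (key e he).1, fun a v hv => ?_, hc⟩
  · rcases hg a v with ⟨e, he, rfl, ⟨rfl, h⟩ | ⟨rfl, h⟩⟩ | ⟨h, -⟩
    · rw [← h, (key e he).2]
    · rw [← h, (key e he).1]
    · rw [h, h]
  · rcases hg a v with ⟨e, he, h1, h2⟩ | ⟨h, -⟩
    · exact ⟨e, he, h1, h2.imp And.left And.left⟩
    · exact (hv h).elim

omit [Fintype V] [Fintype E] [DecidableEq V] [DecidableEq E] [Fintype C] in
theorem Rep.swap {F : Finset E} {c : E → C} {g : C → V → V} (R : Rep s t F c g) (a b : C)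
    (K : Set V) (ha : ∀ v ∈ K, g a v ∈ K) (hb : ∀ v ∈ K, g b v ∈ K) :
    ∃ c', Rep s t F c' (sw g a b K) := by
  classical
  have hcl : ∀ x v, (x = a ∨ x = b) → (g x v ∈ K ↔ v ∈ K) := by
    rintro x v (rfl | rfl)
    · exact ⟨fun h => by simpa [R.inv x v] using ha _ h, ha v⟩
    · exact ⟨fun h => by simpa [R.inv x v] using hb _ h, hb v⟩
  have hsw : ∀ x, ¬ (x = a ∨ x = b) → Equiv.swap a b x = x := fun x hx =>
    Equiv.swap_apply_of_ne_of_ne (fun h => hx (Or.inl h)) fun h => hx (Or.inr h)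
  have hsw' : ∀ x, (x = a ∨ x = b) → (Equiv.swap a b x = a ∨ Equiv.swap a b x = b) := by
    rintro x (rfl | rfl)
    · exact Or.inr (Equiv.swap_apply_left _ _)
    · exact Or.inl (Equiv.swap_apply_right _ _)
  have hc' : ∀ e ∈ F, ∀ v, (s e = v ∨ t e = v) →
      (if s e ∈ K then Equiv.swap a b (c e) else c e) =
        if v ∈ K then Equiv.swap a b (c e) else c e := by
    rintro e he v (rfl | rfl)
    · rfl
    · by_cases hx : c e = a ∨ c e = b
      · have := hcl (c e) (s e) hx
        rw [R.edge e he] at this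
        simp only [this]
      · simp only [hsw _ hx, ite_self]
  refine ⟨fun e => if s e ∈ K then Equiv.swap a b (c e) else c e, fun x v => ?_, fun e he => ?_,
    fun x v hv => ?_, fun e he f hf v h1 h2 h => ?_⟩
  · by_cases hx : x = a ∨ x = b
    · by_cases hv : v ∈ K
      · rw [sw_in hv, sw_in ((hcl _ v (hsw' x hx)).2 hv), R.inv]
      · rw [sw_out hv, sw_out (fun h => hv ((hcl x v hx).1 h)), R.inv]
    · rw [sw_other (fun h => hx (Or.inl h)) (fun h => hx (Or.inr h)),
        sw_other (fun h => hx (Or.inl h)) (fun h => hx (Or.inr h)), R.inv]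
  · by_cases hv : s e ∈ K
    · rw [if_pos hv, sw_in hv, Equiv.swap_apply_self, R.edge e he]
    · rw [if_neg hv, sw_out hv, R.edge e he]
  · by_cases hK : v ∈ K
    · rw [sw_in hK] at hv
      obtain ⟨e, he, h1, h2⟩ := R.ex _ v hv
      exact ⟨e, he, by rw [hc' e he v h2, if_pos hK, h1, Equiv.swap_apply_self], h2⟩
    · rw [sw_out hK] at hv
      obtain ⟨e, he, h1, h2⟩ := R.ex _ v hv
      exact ⟨e, he, by rw [hc' e he v h2, if_neg hK, h1], h2⟩
  · rw [hc' e he v h1, hc' f hf v h2] at h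
    refine R.prop e he f hf v h1 h2 ?_
    by_cases hK : v ∈ K
    · rw [if_pos hK, if_pos hK] at h
      exact (Equiv.swap a b).injective h
    · rwa [if_neg hK, if_neg hK] at h

omit [Fintype V] in
theorem Rep.miss {F : Finset E} {c : E → C} {g : C → V → V} (R : Rep s t F c g) (v : V) :
    Fintype.card C ≤ (univ.filter fun a => g a v = v).card + deg s t univ v := by
  have h1 : (univ.filter fun a => ¬ g a v = v) ⊆
      ((univ.filter fun e => s e = v) ∪ (univ.filter fun e => t e = v)).image c := by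
    intro a ha
    obtain ⟨e, -, h1, h2⟩ := R.ex a v (mem_filter.1 ha).2
    exact mem_image.2 ⟨e, by simpa using h2, h1⟩
  have h2 := (card_le_card h1).trans (card_image_le.trans (card_union_le _ _))
  have h3 := card_filter_add_card_filter_not (s := univ) (fun a => g a v = v)
  rw [card_univ] at h3
  unfold deg
  omega

omit [Fintype C] in
theorem Rep.count {F : Finset E} {c : E → C} {g : C → V → V} (R : Rep s t F c g) (U : Finset V)
    (a : C) : (U.filter fun u => g a u ∈ U ∧ g a u ≠ u).card ≤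
      2 * ((F ∩ ins s t U).filter fun e => c e = a).card := by
  have h1 : (U.filter fun u => g a u ∈ U ∧ g a u ≠ u) ⊆
      ((F ∩ ins s t U).filter fun e => c e = a).image s ∪
        ((F ∩ ins s t U).filter fun e => c e = a).image t := by
    intro u hu
    obtain ⟨h1, h2, h3⟩ := mem_filter.1 hu
    obtain ⟨e, he, rfl, h⟩ := R.ex a u h3
    have h4 := R.edge e he
    rcases h with rfl | rfl
    · exact mem_union_left _ (mem_image_of_mem _
        (mem_filter.2 ⟨mem_inter.2 ⟨he, mem_ins.2 ⟨h1, h4 ▸ h2⟩⟩, rfl⟩))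
    · refine mem_union_right _ (mem_image_of_mem _
        (mem_filter.2 ⟨mem_inter.2 ⟨he, mem_ins.2 ⟨?_, h1⟩⟩, rfl⟩))
      rwa [← h4, R.inv] at h2
  have h2 := (card_le_card h1).trans (card_union_le _ _)
  have h3 := card_image_le (s := (F ∩ ins s t U).filter fun e => c e = a) (f := s)
  have h4 := card_image_le (s := (F ∩ ins s t U).filter fun e => c e = a) (f := t)
  omega

theorem extend {σ : ℕ} (hl : ∀ e, s e ≠ t e) (hq : Fintype.card C ≤ σ * (σ - 1)) (hσ : 0 < σ)
    (hdeg : ∀ v, deg s t univ v + σ ≤ Fintype.card C)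
    (hden : ∀ U : Finset V, Odd U.card → 2 * (ins s t U).card ≤ Fintype.card C * (U.card - 1))
    {F : Finset E} {e₀ : E} (he₀ : e₀ ∉ F) {c₀ : E → C} (hc₀ : Proper s t F c₀) :
    ∃ c : E → C, Proper s t (insert e₀ F) c := by
  by_contra hno
  have hF : Fam {g | ∃ c : E → C, Rep s t F c g} (s e₀) (t e₀) σ := by
    refine ⟨fun g ⟨c, R⟩ => R.inv, fun g ⟨c, R⟩ => R.swap, fun g ⟨c, R⟩ v => ?_,
      fun g ⟨c, R⟩ a h1 h2 => hno ⟨update c e₀ a, ?_⟩, hl e₀, hq, hσ⟩
    · have := R.miss v
      have := hdeg v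
      omega
    · have hne : ∀ e ∈ F, update c e₀ a e = c e := fun e he =>
        update_of_ne (fun h : e = e₀ => he₀ (h ▸ he)) _ _
      have key : ∀ f ∈ F, ∀ v, (s e₀ = v ∨ t e₀ = v) → (s f = v ∨ t f = v) → c f ≠ a := by
        rintro f hf v h3 h4 rfl
        have h5 : g (c f) v = v := by rcases h3 with rfl | rfl <;> assumption
        have h6 := R.edge f hf
        rcases h4 with rfl | rfl
        · exact hl f (h5.symm.trans h6)
        · exact hl f ((R.inv (c f)).injective (h6.trans h5.symm))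
      intro e he f hf v h3 h4 h5
      rcases mem_insert.1 he with rfl | he' <;> rcases mem_insert.1 hf with rfl | hf'
      · rfl
      · rw [update_self, hne f hf'] at h5
        exact (key f hf' v h3 h4 h5.symm).elim
      · rw [update_self, hne e he'] at h5
        exact (key e he' v h4 h3 h5).elim
      · rw [hne e he', hne f hf'] at h5
        exact R.prop e he' f hf' v h3 h4 h5
  obtain ⟨g₀, R₀⟩ := exists_rep hc₀
  obtain ⟨g, ⟨c, R⟩, U, h1, h2, h3, h4⟩ := core hF ⟨g₀, c₀, R₀⟩
  have h5 : Fintype.card C * (U.card - 1) ≤ 2 * (F ∩ ins s t U).card := by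
    rw [card_eq_sum_card_fiberwise (f := c) (t := univ) (fun _ _ => mem_coe.2 (mem_univ _)),
      mul_sum]
    calc Fintype.card C * (U.card - 1) = ∑ _a : C, (U.card - 1) := by simp
      _ ≤ _ := sum_le_sum fun a _ => by
        have := R.count U a
        have := h4 a
        omega
  have h6 : (F ∩ ins s t U).card < (ins s t U).card :=
    card_lt_card ⟨inter_subset_right, fun h => he₀ (mem_inter.1 (h (mem_ins.2 ⟨h1, h2⟩))).1⟩
  have := hden U h3
  omega

end Tash

theorem gl : S_GL := by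
  intro V E _ _ _ _ s t q σ hl hq hdeg hden
  rcases isEmpty_or_nonempty E with hE | ⟨⟨e₁⟩⟩
  · exact ⟨isEmptyElim, fun j => isMatch_iff.2 ⟨isEmptyElim, isEmptyElim⟩⟩
  have hq0 : 0 < q := by
    have h1 := deg_mono (s := s) (t := t) (subset_univ {e₁}) (s e₁)
    rw [deg_singleton, if_pos rfl] at h1
    have := hdeg (s e₁)
    omega
  have hσ : 0 < σ := by
    rcases Nat.eq_zero_or_pos σ with rfl | h
    · omega
    · exact h
  have key : ∀ F : Finset E, ∃ c : E → Fin q, Tash.Proper s t F c := by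
    intro F
    induction F using Finset.induction_on with
    | empty => exact ⟨fun _ => ⟨0, hq0⟩, fun e he => absurd he (notMem_empty e)⟩
    | insert e F he ih =>
      obtain ⟨c, hc⟩ := ih
      exact Tash.extend hl (by simpa using hq) hσ (by simpa using hdeg) (by simpa using hden) he hc
  obtain ⟨c, hc⟩ := key univ
  refine ⟨c, fun j => isMatch_iff.2 ⟨fun e _ => hl e, fun e he f hf v h1 h2 => ?_⟩⟩
  exact hc e (mem_univ e) f (mem_univ f) v h1 h2
    ((mem_filter.1 he).2.trans (mem_filter.1 hf).2.symm)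

end Pool.Agent.P.MP_40718a_co.ABF
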