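import Pool.Agent.P.MP_40718a_co.ABF.Basic

namespace Pool.Agent.P.MP_40718a_co.ABF.GL2

open Finset

variable {V E : Type} [Fintype V] [Fintype E] [DecidableEq V] [DecidableEq E] {s t : E → V}

theorem tree_bound {A : Finset E} {K : Finset V} (hK : ∀ u ∈ K, ∀ v ∈ K, Link s t A u v)
    (hA : ∀ e ∈ A, (s e ∈ K ↔ t e ∈ K)) (n : ℕ) (hn : n + 1 ≤ K.card) :
    ∃ X ⊆ K, X.card = n + 1 ∧ n ≤ (A ∩ ins s t X).card := by
  induction n with
  | zero =>
    obtain ⟨v, hv⟩ := card_pos.1 (by omega : 0 < K.card)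
    exact ⟨{v}, by simpa using hv, by simp, by simp⟩
  | succ n ih =>
    obtain ⟨X, hX, hc, h⟩ := ih (by omega)
    obtain ⟨u, hu⟩ := card_pos.1 (by omega : 0 < X.card)
    obtain ⟨v, hv, hvX⟩ := exists_mem_notMem_of_card_lt_card (by omega : X.card < K.card)
    have : ¬ Disjoint (cut s t X) A := fun hd => hvX ((hK u (hX hu) v hv X hd).1 hu)
    obtain ⟨e, he, heA⟩ := not_disjoint_iff.1 this
    have he' := mem_cut.1 he
    have key : ∀ w, w ∈ K → w ∉ X → e ∈ ins s t (insert w X) →
        ∃ X ⊆ K, X.card = n + 1 + 1 ∧ n + 1 ≤ (A ∩ ins s t X).card := by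
      intro w hw hwX hin
      refine ⟨insert w X, insert_subset hw hX, by rw [card_insert_of_notMem hwX, hc], ?_⟩
      have h1 : insert e (A ∩ ins s t X) ⊆ A ∩ ins s t (insert w X) :=
        insert_subset (mem_inter.2 ⟨heA, hin⟩)
          (inter_subset_inter_left (ins_mono (subset_insert _ _)))
      have h2 : e ∉ A ∩ ins s t X := fun h =>
        disjoint_left.1 (disjoint_ins_cut X) (mem_inter.1 h).2 he
      have := card_le_card h1
      rw [card_insert_of_notMem h2] at this; omega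
    by_cases h1 : s e ∈ X
    · exact key (t e) ((hA e heA).1 (hX h1)) (by tauto) (by simp [h1])
    · have h2 : t e ∈ X := by tauto
      exact key (s e) ((hA e heA).2 (hX h2)) h1 (by simp [h2])

open Classical in
/-- the component of `v` -/
noncomputable def comp (s t : E → V) (A : Finset E) (v : V) : Finset V :=
  univ.filter fun w => Link s t A v w

theorem mem_comp {A : Finset E} {v w : V} : w ∈ comp s t A v ↔ Link s t A v w := by
  simp [comp]

theorem comp_closed {A : Finset E} (v : V) : ∀ e ∈ A, (s e ∈ comp s t A v ↔ t e ∈ comp s t A v) := by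
  intro e he
  simp only [mem_comp]
  exact ⟨fun h => h.trans (Link.edge he), fun h => h.trans (Link.edge he).symm⟩

theorem three_ends {A : Finset E} (h2 : ∀ v, deg s t A v ≤ 2) {u v w : V} (huv : u ≠ v)
    (huw : u ≠ w) (hvw : v ≠ w) (hu : deg s t A u ≤ 1) (hv : deg s t A v ≤ 1)
    (hw : deg s t A w ≤ 1) (l1 : Link s t A u v) (l2 : Link s t A u w) : False := by
  set K := comp s t A u
  have hsub : ({u, v, w} : Finset V) ⊆ K := by
    intro x hx
    simp only [mem_insert, mem_singleton] at hx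
    rcases hx with rfl | rfl | rfl
    · exact mem_comp.2 (Link.refl _ _)
    · exact mem_comp.2 l1
    · exact mem_comp.2 l2
  have hc3 : ({u, v, w} : Finset V).card = 3 := card_eq_three.2 ⟨u, v, w, huv, huw, hvw, rfl⟩
  have hK3 := card_le_card hsub
  obtain ⟨X, hX, hc, h⟩ := tree_bound (K := K) (A := A)
    (fun a ha b hb => (mem_comp.1 ha).symm.trans (mem_comp.1 hb)) (comp_closed u) (K.card - 1)
    (by omega)
  have hXK : X = K := eq_of_subset_of_card_le hX (by omega)
  subst hXK
  have h1 := handshake (s := s) (t := t) A K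
  have h3 : ∑ x ∈ K, deg s t A x + 3 ≤ 2 * K.card := by
    rw [← sum_sdiff hsub]
    have a1 : ∑ x ∈ K \ {u, v, w}, deg s t A x ≤ (K \ {u, v, w}).card * 2 :=
      sum_le_card_nsmul _ _ _ fun x _ => h2 x
    have a2 : ∑ x ∈ ({u, v, w} : Finset V), deg s t A x ≤ ({u, v, w} : Finset V).card * 1 :=
      sum_le_card_nsmul _ _ _ fun x hx => by
        simp only [mem_insert, mem_singleton] at hx
        rcases hx with rfl | rfl | rfl <;> assumption
    rw [card_sdiff_of_subset hsub] at a1
    omega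
  omega

def Inc (s t : E → V) (e : E) (v : V) : Prop := s e = v ∨ t e = v

structure Col (s t : E → V) (F : Finset E) (q : ℕ) (c : E → ℕ) : Prop where
  lt : ∀ e ∈ F, c e < q
  inj : ∀ e ∈ F, ∀ f ∈ F, ∀ v, Inc s t e v → Inc s t f v → c e = c f → e = f

def Mis (s t : E → V) (F : Finset E) (q : ℕ) (c : E → ℕ) (v : V) (a : ℕ) : Prop :=
  a < q ∧ ∀ e ∈ F, Inc s t e v → c e ≠ a

def AB (F : Finset E) (c : E → ℕ) (a b : ℕ) : Finset E := F.filter fun e => c e = a ∨ c e = b

def sw (s : E → V) (K : Finset V) (a b : ℕ) (c : E → ℕ) : E → ℕ :=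
  fun e => if s e ∈ K then Equiv.swap a b (c e) else c e

variable {F : Finset E} {q : ℕ} {c : E → ℕ}

theorem sw_other {K : Finset V} {a b : ℕ} {e : E} (h1 : c e ≠ a) (h2 : c e ≠ b) :
    sw s K a b c e = c e := by
  unfold sw; rw [Equiv.swap_apply_of_ne_of_ne h1 h2]; simp

theorem sw_at {K : Finset V} {a b : ℕ} (hK : ∀ e ∈ AB F c a b, (s e ∈ K ↔ t e ∈ K)) {e : E}
    (he : e ∈ F) {v : V} (hv : Inc s t e v) :
    sw s K a b c e = if v ∈ K then Equiv.swap a b (c e) else c e := by
  by_cases h : c e = a ∨ c e = b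
  · have := hK e (mem_filter.2 ⟨he, h⟩)
    unfold sw
    rcases hv with rfl | rfl
    · rfl
    · simp only [this]
  · push Not at h
    rw [sw_other h.1 h.2, Equiv.swap_apply_of_ne_of_ne h.1 h.2]; simp

theorem swap_lt {a b x : ℕ} (ha : a < q) (hb : b < q) (hx : x < q) : Equiv.swap a b x < q := by
  rw [Equiv.swap_apply_def]; split_ifs <;> assumption

theorem Col.sw (h : Col s t F q c) {K : Finset V} {a b : ℕ} (ha : a < q) (hb : b < q)
    (hK : ∀ e ∈ AB F c a b, (s e ∈ K ↔ t e ∈ K)) : Col s t F q (sw s K a b c) := by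
  refine ⟨fun e he => ?_, fun e he f hf v h1 h2 h3 => ?_⟩
  · unfold GL2.sw; split_ifs
    · exact swap_lt ha hb (h.lt e he)
    · exact h.lt e he
  · rw [sw_at hK he h1, sw_at hK hf h2] at h3
    refine h.inj e he f hf v h1 h2 ?_
    split_ifs at h3
    · exact (Equiv.swap a b).injective h3
    · exact h3

theorem Mis.sw_out {K : Finset V} {a b : ℕ} (hK : ∀ e ∈ AB F c a b, (s e ∈ K ↔ t e ∈ K))
    {v : V} {x : ℕ} (h : Mis s t F q c v x) (hv : v ∉ K) : Mis s t F q (sw s K a b c) v x :=
  ⟨h.1, fun e he hi => by rw [sw_at hK he hi, if_neg hv]; exact h.2 e he hi⟩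

theorem Mis.sw_in {K : Finset V} {a b : ℕ} (hK : ∀ e ∈ AB F c a b, (s e ∈ K ↔ t e ∈ K))
    {v : V} (h : Mis s t F q c v a) (hb : b < q) (hv : v ∈ K) : Mis s t F q (sw s K a b c) v b :=
  ⟨hb, fun e he hi => by
    rw [sw_at hK he hi, if_pos hv]
    intro h'
    exact h.2 e he hi ((Equiv.swap a b).injective (h'.trans (Equiv.swap_apply_left a b).symm))⟩

theorem Mis.sw_in' {K : Finset V} {a b : ℕ} (hK : ∀ e ∈ AB F c a b, (s e ∈ K ↔ t e ∈ K))
    {v : V} (h : Mis s t F q c v b) (ha : a < q) (hv : v ∈ K) : Mis s t F q (sw s K a b c) v a :=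
  ⟨ha, fun e he hi => by
    rw [sw_at hK he hi, if_pos hv]
    intro h'
    exact h.2 e he hi ((Equiv.swap a b).injective (h'.trans (Equiv.swap_apply_right a b).symm))⟩

theorem Mis.sw_ne {K : Finset V} {a b : ℕ} {v : V} {x : ℕ} (h : Mis s t F q c v x) (h1 : x ≠ a)
    (h2 : x ≠ b) : Mis s t F q (sw s K a b c) v x :=
  ⟨h.1, fun e he hi h' => by
    unfold sw at h'
    split_ifs at h'
    · rw [← Equiv.swap_apply_of_ne_of_ne h1 h2] at h'
      exact h.2 e he hi ((Equiv.swap a b).injective h')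
    · exact h.2 e he hi h'⟩

theorem deg_colour (hl : ∀ e, s e ≠ t e) (h : Col s t F q c) (a : ℕ) (v : V) :
    deg s t (F.filter fun e => c e = a) v ≤ 1 := by
  refine isMatch_iff.2 ⟨fun e _ => hl e, fun e he f hf v h1 h2 => ?_⟩ v
  rw [mem_filter] at he hf
  exact h.inj e he.1 f hf.1 v h1 h2 (he.2.trans hf.2.symm)

theorem deg_colour_zero {a : ℕ} {v : V} (ha : a < q) :
    deg s t (F.filter fun e => c e = a) v = 0 ↔ Mis s t F q c v a := by
  rw [deg_eq_zero]
  simp only [mem_filter, Mis, Inc, ha, true_and]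
  constructor
  · intro h e he hi hc; have := h e ⟨he, hc⟩; tauto
  · intro h e he; have := h e he.1; tauto

theorem deg_AB_le (a b : ℕ) (v : V) : deg s t (AB F c a b) v ≤
    deg s t (F.filter fun e => c e = a) v + deg s t (F.filter fun e => c e = b) v := by
  have := deg_symmDiff (s := s) (t := t) (F.filter fun e => c e = a) (F.filter fun e => c e = b) v
  by_cases hab : a = b
  · subst hab
    have : AB F c a a = F.filter fun e => c e = a := by ext; simp [AB]
    rw [this]; omega
  · rw [← deg_union, AB, filter_or]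
    rw [disjoint_left]; intro e h1 h2
    exact hab ((mem_filter.1 h1).2.symm.trans (mem_filter.1 h2).2)

theorem three_mis (hl : ∀ e, s e ≠ t e) (h : Col s t F q c) {a b : ℕ} {u v w : V} (huv : u ≠ v)
    (huw : u ≠ w) (hvw : v ≠ w) (hu : Mis s t F q c u a ∨ Mis s t F q c u b)
    (hv : Mis s t F q c v a ∨ Mis s t F q c v b) (hw : Mis s t F q c w a ∨ Mis s t F q c w b)
    (l1 : Link s t (AB F c a b) u v) (l2 : Link s t (AB F c a b) u w) : False := by
  have k : ∀ x, Mis s t F q c x a ∨ Mis s t F q c x b → deg s t (AB F c a b) x ≤ 1 := by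
    intro x hx
    have h0 := deg_AB_le (s := s) (t := t) (F := F) (c := c) a b x
    have h1 := deg_colour hl h a x
    have h2 := deg_colour hl h b x
    rcases hx with hx | hx
    · have := (deg_colour_zero hx.1).2 hx; omega
    · have := (deg_colour_zero hx.1).2 hx; omega
  refine three_ends (fun x => ?_) huv huw hvw (k u hu) (k v hv) (k w hw) l1 l2
  have h0 := deg_AB_le (s := s) (t := t) (F := F) (c := c) a b x
  have h1 := deg_colour hl h a x
  have h2 := deg_colour hl h b x
  omega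

end Pool.Agent.P.MP_40718a_co.ABF.GL2
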