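import Pool.Agent.P.MP_40718a_co.ABF.GLb1

namespace Pool.Agent.P.MP_40718a_co.ABF.GL2

open Finset

variable {V E : Type} [Fintype V] [Fintype E] [DecidableEq V] [DecidableEq E] {s t : E → V}
variable {F : Finset E} {q σ : ℕ} {e₀ : E}

structure Tree (s t : E → V) (F : Finset E) (q : ℕ) (e₀ : E) (c : E → ℕ) (y : ℕ → V) (f : ℕ → E)
    (p : ℕ) : Prop where
  one : 1 ≤ p
  inj : ∀ i ≤ p, ∀ j ≤ p, y i = y j → i = j
  h0 : y 0 = s e₀
  h1 : y 1 = t e₀
  edge : ∀ j, 2 ≤ j → j ≤ p → f j ∈ F ∧ Inc s t (f j) (y j) ∧ (∃ i < j, Inc s t (f j) (y i)) ∧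
    ∃ h < j, Mis s t F q c (y h) (c (f j))

def Elem (s t : E → V) (F : Finset E) (q : ℕ) (c : E → ℕ) (y : ℕ → V) (p : ℕ) : Prop :=
  ∀ i ≤ p, ∀ j ≤ p, ∀ a, Mis s t F q c (y i) a → Mis s t F q c (y j) a → i = j

def Unused (c : E → ℕ) (f : ℕ → E) (p a : ℕ) : Prop := ∀ j, 2 ≤ j → j ≤ p → c (f j) ≠ a

def EE (s t : E → V) (F : Finset E) (q : ℕ) (e₀ : E) (p : ℕ) : Prop :=
  ∀ c y f, Col s t F q c → Tree s t F q e₀ c y f p → Elem s t F q c y p

variable {c : E → ℕ} {y : ℕ → V} {f : ℕ → E} {p : ℕ}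

theorem Tree.mono (h : Tree s t F q e₀ c y f p) {p' : ℕ} (h1 : 1 ≤ p') (h2 : p' ≤ p) :
    Tree s t F q e₀ c y f p' :=
  ⟨h1, fun i hi j hj => h.inj i (hi.trans h2) j (hj.trans h2), h.h0, h.h1,
    fun j a b => h.edge j a (b.trans h2)⟩

theorem Tree.sw (h : Tree s t F q e₀ c y f p) {K : Finset V} {a b : ℕ} (ha : Unused c f p a)
    (hb : Unused c f p b) : Tree s t F q e₀ (sw s K a b c) y f p := by
  refine ⟨h.one, h.inj, h.h0, h.h1, fun j h1 h2 => ?_⟩
  obtain ⟨a1, a2, a3, k, hk, a4⟩ := h.edge j h1 h2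
  refine ⟨a1, a2, a3, k, hk, ?_⟩
  rw [sw_other (ha j h1 h2) (hb j h1 h2)]
  exact a4.sw_ne (ha j h1 h2) (hb j h1 h2)

theorem Unused.sw {K : Finset V} {a b x : ℕ} (ha : Unused c f p a) (hb : Unused c f p b)
    (hx : Unused c f p x) : Unused (sw s K a b c) f p x := fun j h1 h2 => by
  rw [sw_other (ha j h1 h2) (hb j h1 h2)]; exact hx j h1 h2

theorem L1 (hE : EE s t F q e₀ p) (hc : Col s t F q c) (hT : Tree s t F q e₀ c y f p) {i j : ℕ}
    (hi : i ≤ p) (hj : j ≤ p) (hij : i ≠ j) {a b : ℕ} (h1 : Mis s t F q c (y i) a)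
    (h2 : Mis s t F q c (y j) b) (ha : Unused c f p a) (hb : Unused c f p b) :
    Link s t (AB F c a b) (y j) (y i) := by
  by_contra hn
  have hK := comp_closed (s := s) (t := t) (A := AB F c a b) (y j)
  exact hij (hE _ y f (hc.sw h1.1 h2.1 hK) (hT.sw ha hb) i hi j hj a
    (h1.sw_out hK (fun h => hn (mem_comp.1 h)))
    (h2.sw_in' hK h1.1 (mem_comp.2 (Link.refl _ _))))

open Classical in
theorem card_mis (hd : ∀ v, deg s t F v + σ ≤ q) (v : V) :
    σ ≤ ((range q).filter fun a => Mis s t F q c v a).card := by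
  have h1 : (range q).filter (fun a => ¬ Mis s t F q c v a) ⊆
      (F.filter fun e => s e = v ∨ t e = v).image c := by
    intro a ha
    rw [mem_filter, mem_range] at ha
    have := ha.2
    simp only [Mis, ha.1, true_and, not_forall, not_not] at this
    obtain ⟨e, he, hi, rfl⟩ := this
    exact mem_image_of_mem _ (mem_filter.2 ⟨he, hi⟩)
  have h2 : (F.filter fun e => s e = v ∨ t e = v).card ≤ deg s t F v := by
    rw [filter_or]; exact card_union_le _ _
  have h3 := card_filter_add_card_filter_not (s := range q) (fun a => Mis s t F q c v a)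
  have h4 := (card_le_card h1).trans card_image_le
  have := hd v
  rw [card_range] at h3
  omega

theorem exists_free (hσ : 0 < σ) (hq : q ≤ σ * (σ - 1)) (hd : ∀ v, deg s t F v + σ ≤ q) {r : ℕ}
    (hE : Elem s t F q c y r) (hp : p ≤ r + 1) (v : V) :
    ∃ a, Mis s t F q c v a ∧ Unused c f p a := by
  classical
  have h1 : (r + 1) * σ ≤ q := by
    have : ((range (r + 1)).biUnion fun i => (range q).filter fun a =>
        Mis s t F q c (y i) a).card ≤ q :=
      (card_le_card (biUnion_subset.2 fun i _ => filter_subset _ _)).trans (card_range q).le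
    rw [card_biUnion] at this
    · refine le_trans ?_ this
      calc (r + 1) * σ = ∑ _i ∈ range (r + 1), σ := by simp
        _ ≤ _ := sum_le_sum fun i _ => card_mis hd (y i)
    · intro i hi j hj hij
      rw [Function.onFun, disjoint_left]
      intro a h1 h2
      exact hij (hE i (by have := mem_range.1 hi; omega) j (by have := mem_range.1 hj; omega) a
        (mem_filter.1 h1).2 (mem_filter.1 h2).2)
  have h2 : r + 1 ≤ σ - 1 := by
    refine Nat.le_of_mul_le_mul_right ?_ hσ
    rw [mul_comm (σ - 1)]; omega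
  have h3 : ((Icc 2 p).image fun j => c (f j)).card <
      ((range q).filter fun a => Mis s t F q c v a).card := by
    have := card_mis (c := c) hd v
    have h4 : ((Icc 2 p).image fun j => c (f j)).card ≤ (Icc 2 p).card := card_image_le
    rw [Nat.card_Icc] at h4
    omega
  obtain ⟨a, ha, ha'⟩ := exists_mem_notMem_of_card_lt_card h3
  exact ⟨a, (mem_filter.1 ha).2, fun j h1 h2 h => ha' (mem_image.2 ⟨j, mem_Icc.2 ⟨h1, h2⟩, h⟩)⟩

theorem inc_two (hl : ∀ e, s e ≠ t e) {e : E} {u v w : V} (h1 : Inc s t e u) (h2 : Inc s t e v)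
    (h3 : Inc s t e w) (huv : u ≠ v) : w = u ∨ w = v := by
  unfold Inc at *
  rcases h1 with rfl | rfl <;> rcases h2 with rfl | rfl <;> rcases h3 with rfl | rfl <;> simp_all

theorem step3 (hl : ∀ e, s e ≠ t e) (hE : EE s t F q e₀ p) (hp : 1 ≤ p) (hc : Col s t F q c)
    (hT : Tree s t F q e₀ c y f (p + 1)) {i : ℕ} (hi : i ≤ p) (hinc : Inc s t (f (p + 1)) (y i))
    {b : ℕ} (h1 : Mis s t F q c (y i) b) (h2 : Mis s t F q c (y (p + 1)) b)
    (hb : Unused c f (p + 1) b) : False := by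
  obtain ⟨a1, a2, -, m, hm, a4⟩ := hT.edge (p + 1) (by omega) le_rfl
  have hne : y i ≠ y (p + 1) := fun h => by
    have := hT.inj i (by omega) (p + 1) le_rfl h; omega
  set c' := Function.update c (f (p + 1)) b with hc'
  have hmis : ∀ v x, x ≠ b → Mis s t F q c v x → Mis s t F q c' v x := by
    intro v x hx h
    refine ⟨h.1, fun e he hi' => ?_⟩
    by_cases h' : e = f (p + 1)
    · subst h'; simpa [hc'] using hx.symm
    · rw [hc', Function.update_of_ne h']; exact h.2 e he hi'
  have hcol : Col s t F q c' := by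
    refine ⟨fun e he => ?_, fun e he g hg v k1 k2 k3 => ?_⟩
    · by_cases h' : e = f (p + 1)
      · subst h'; simpa [hc'] using h1.1
      · rw [hc', Function.update_of_ne h']; exact hc.lt e he
    · by_cases h' : e = f (p + 1) <;> by_cases h'' : g = f (p + 1)
      · rw [h', h'']
      · subst h'
        rw [hc', Function.update_of_ne h'', Function.update_self] at k3
        rcases inc_two hl hinc a2 k1 hne with rfl | rfl
        · exact absurd k3.symm (h1.2 g hg k2)
        · exact absurd k3.symm (h2.2 g hg k2)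
      · subst h''
        rw [hc', Function.update_of_ne h', Function.update_self] at k3
        rcases inc_two hl hinc a2 k2 hne with rfl | rfl
        · exact absurd k3 (h1.2 e he k1)
        · exact absurd k3 (h2.2 e he k1)
      · rw [hc', Function.update_of_ne h', Function.update_of_ne h''] at k3
        exact hc.inj e he g hg v k1 k2 k3
  have hT' : Tree s t F q e₀ c' y f p := by
    have h0 := hT.mono hp (Nat.le_succ p)
    refine ⟨h0.one, h0.inj, h0.h0, h0.h1, fun j j1 j2 => ?_⟩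
    obtain ⟨b1, b2, ⟨k, hk, b3⟩, n, hn, b4⟩ := h0.edge j j1 j2
    have : f j ≠ f (p + 1) := by
      intro h
      have hjk : y j ≠ y k := fun h => by
        have := hT.inj j (by omega) k (by omega) h; omega
      rcases inc_two hl b2 b3 (h ▸ a2) hjk with h' | h'
      · have := hT.inj (p + 1) le_rfl j (by omega) h'; omega
      · have := hT.inj (p + 1) le_rfl k (by omega) h'; omega
    refine ⟨b1, b2, ⟨k, hk, b3⟩, n, hn, ?_⟩
    rw [hc', Function.update_of_ne this]
    exact hmis _ _ (hb j j1 (by omega)) b4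
  have hθ : c (f (p + 1)) ≠ b := hb (p + 1) (by omega) le_rfl
  have hi' : Mis s t F q c' (y i) (c (f (p + 1))) := by
    refine ⟨a4.1, fun e he hi' => ?_⟩
    by_cases h' : e = f (p + 1)
    · subst h'; simpa [hc'] using hθ.symm
    · rw [hc', Function.update_of_ne h']
      exact fun h => h' (hc.inj e he _ a1 _ hi' hinc h)
  have := hE c' y f hcol hT' i hi m (by omega) _ hi' (hmis _ _ hθ a4)
  subst this
  exact a4.2 _ a1 hinc rfl

theorem step2 (hl : ∀ e, s e ≠ t e) (hσ : 0 < σ) (hq : q ≤ σ * (σ - 1))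
    (hd : ∀ v, deg s t F v + σ ≤ q) (hE : EE s t F q e₀ p) (hp : 1 ≤ p) (hc : Col s t F q c)
    (hT : Tree s t F q e₀ c y f (p + 1)) {j : ℕ} (hj : j ≤ p)
    {b : ℕ} (h1 : Mis s t F q c (y j) b) (h2 : Mis s t F q c (y (p + 1)) b)
    (hb : Unused c f (p + 1) b) : False := by
  obtain ⟨-, -, ⟨i, hi, a3⟩, -⟩ := hT.edge (p + 1) (by omega) le_rfl
  have hi' : i ≤ p := by omega
  by_cases hij : i = j
  · subst hij; exact step3 hl hE hp hc hT hi' a3 h1 h2 hb
  have hT0 := hT.mono hp (Nat.le_succ p)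
  obtain ⟨d, hd1, hd2⟩ := exists_free (f := f) (p := p + 1) hσ hq hd (hE c y f hc hT0) le_rfl (y i)
  by_cases h3 : Mis s t F q c (y (p + 1)) d
  · exact step3 hl hE hp hc hT hi' a3 hd1 h3 hd2
  have hK := comp_closed (s := s) (t := t) (A := AB F c b d) (y (p + 1))
  have hL := L1 hE hc hT0 hj hi' (Ne.symm hij) h1 hd1 (fun k a b => hb k a (by omega))
    (fun k a b => hd2 k a (by omega))
  have hn : y i ∉ comp s t (AB F c b d) (y (p + 1)) := by
    intro h
    refine three_mis hl hc (u := y (p + 1)) (v := y i) (w := y j) ?_ ?_ ?_ (Or.inl h2) (Or.inr hd1)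
      (Or.inl h1) (mem_comp.1 h) ((mem_comp.1 h).trans hL)
    · intro h; have := hT.inj _ le_rfl i (by omega) h; omega
    · intro h; have := hT.inj _ le_rfl j (by omega) h; omega
    · intro h; exact hij (hT.inj i (by omega) j (by omega) h)
  exact step3 hl hE hp (hc.sw h1.1 hd1.1 hK) (hT.sw hb hd2) hi' a3 (hd1.sw_out hK hn)
    (h2.sw_in hK hd1.1 (mem_comp.2 (Link.refl _ _))) (hb.sw hd2 hd2)

theorem step1 (hl : ∀ e, s e ≠ t e) (hσ : 0 < σ) (hq : q ≤ σ * (σ - 1))
    (hd : ∀ v, deg s t F v + σ ≤ q) (hE : ∀ p' ≤ p, EE s t F q e₀ p') (hp : 1 ≤ p) (n : ℕ) :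
    ∀ c : E → ℕ, Col s t F q c → Tree s t F q e₀ c y f (p + 1) → ∀ j ≤ p, ∀ b,
      Mis s t F q c (y j) b → Mis s t F q c (y (p + 1)) b → Unused c f (p + 1 - n) b → False := by
  induction n with
  | zero => exact fun c hc hT j hj b h1 h2 hb => step2 hl hσ hq hd (hE p le_rfl) hp hc hT hj h1 h2 hb
  | succ n ih =>
    intro c hc hT j hj b h1 h2 hb
    by_cases hu : Unused c f (p + 1 - n) b
    · exact ih c hc hT j hj b h1 h2 hu
    obtain ⟨h, k1, k2, k3⟩ : ∃ h, 2 ≤ h ∧ h = p + 1 - n ∧ c (f h) = b := by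
      simp only [Unused, not_forall, not_not] at hu
      obtain ⟨h, k1, k2, k3⟩ := hu
      refine ⟨h, k1, ?_, k3⟩
      by_contra hne
      exact hb h k1 (by omega) k3
    have hT0 := hT.mono hp (Nat.le_succ p)
    have hEl := hE p le_rfl c y f hc hT0
    obtain ⟨a1, a2, ⟨a, ha, a3⟩, m, hm, a4⟩ := hT.edge h k1 (by omega)
    have hhp : h ≤ p := by
      by_contra hn
      have : h = p + 1 := by omega
      subst this
      exact h2.2 _ a1 a2 k3
    rw [k3] at a4
    have hmj : m = j := hEl m (by omega) j hj b a4 h1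
    subst hmj
    have haj : a ≠ m := by rintro rfl; exact h1.2 _ a1 a3 k3
    obtain ⟨d, hd1, hd2⟩ := exists_free (f := f) (p := p + 1) hσ hq hd hEl le_rfl (y a)
    by_cases h3 : Mis s t F q c (y (p + 1)) d
    · exact ih c hc hT a (by omega) d hd1 h3 (fun k a b => hd2 k a (by omega))
    have hK := comp_closed (s := s) (t := t) (A := AB F c b d) (y (p + 1))
    have hL := L1 (hE (max a m) (by omega)) hc (hT.mono (by omega) (by omega))
      (le_max_right a m) (le_max_left a m) (Ne.symm haj) h1 hd1 (fun k x z => hb k x (by omega))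
      (fun k x z => hd2 k x (by omega))
    have hn : y a ∉ comp s t (AB F c b d) (y (p + 1)) := by
      intro h
      refine three_mis hl hc (u := y (p + 1)) (v := y a) (w := y m) ?_ ?_ ?_ (Or.inl h2)
        (Or.inr hd1) (Or.inl h1) (mem_comp.1 h) ((mem_comp.1 h).trans hL)
      · intro h; have := hT.inj _ le_rfl a (by omega) h; omega
      · intro h; have := hT.inj _ le_rfl m (by omega) h; omega
      · intro h; exact haj (hT.inj a (by omega) m (by omega) h)
    have hn' : y m ∉ comp s t (AB F c b d) (y (p + 1)) := fun h =>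
      hn (mem_comp.2 ((mem_comp.1 h).trans hL.symm))
    have hbd : b ≠ d := fun h' => hd2 h k1 (by omega) (k3.trans h')
    refine ih _ (hc.sw h1.1 hd1.1 hK) ?_ a (by omega) d (hd1.sw_out hK hn)
      (h2.sw_in hK hd1.1 (mem_comp.2 (Link.refl _ _))) ?_
    · refine ⟨hT.one, hT.inj, hT.h0, hT.h1, fun k x z => ?_⟩
      obtain ⟨b1, b2, b3, r, hr, b4⟩ := hT.edge k x z
      refine ⟨b1, b2, b3, ?_⟩
      by_cases hk : c (f k) = b
      · have hkh : h ≤ k := by
          by_contra hn
          exact hb k x (by omega) hk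
        rw [sw_at hK b1 b2, hk]
        split_ifs
        · rw [Equiv.swap_apply_left]; exact ⟨a, by omega, hd1.sw_out hK hn⟩
        · exact ⟨m, by omega, h1.sw_out hK hn'⟩
      · rw [sw_other hk (hd2 k x z)]
        exact ⟨r, hr, b4.sw_ne hk (hd2 k x z)⟩
    · intro k x z
      by_cases hk : k = h
      · subst hk
        rw [sw_at hK a1 a3, if_neg hn, k3]; exact hbd
      · rw [sw_other (hb k x (by omega)) (hd2 k x (by omega))]
        exact hd2 k x (by omega)

theorem all_elem (hl : ∀ e, s e ≠ t e) (hσ : 0 < σ) (hq : q ≤ σ * (σ - 1))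
    (hd : ∀ v, deg s t F v + σ ≤ q)
    (h0 : ∀ c, Col s t F q c → ∀ a, Mis s t F q c (s e₀) a → Mis s t F q c (t e₀) a → False)
    (p : ℕ) : EE s t F q e₀ p := by
  induction p using Nat.strong_induction_on with
  | _ p ih =>
  intro c y f hc hT
  have hp := hT.one
  rcases Nat.eq_or_lt_of_le hp with rfl | hp'
  · intro i hi j hj a h1 h2
    by_contra hne
    have : (i = 0 ∧ j = 1) ∨ (i = 1 ∧ j = 0) := by omega
    rcases this with ⟨rfl, rfl⟩ | ⟨rfl, rfl⟩
    · exact h0 c hc a (hT.h0 ▸ h1) (hT.h1 ▸ h2)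
    · exact h0 c hc a (hT.h0 ▸ h2) (hT.h1 ▸ h1)
  · obtain ⟨r, rfl⟩ : ∃ r, p = r + 1 := ⟨p - 1, by omega⟩
    have key : ∀ j ≤ r, ∀ b, Mis s t F q c (y j) b → Mis s t F q c (y (r + 1)) b → False :=
      fun j hj b h1 h2 => step1 hl hσ hq hd (fun p' h => ih p' (by omega)) (by omega) r c hc hT j hj
        b h1 h2 (fun k x z => by omega)
    intro i hi j hj a h1 h2
    by_cases k1 : i = r + 1 <;> by_cases k2 : j = r + 1
    · omega
    · subst k1; exact (key j (by omega) a h2 h1).elim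
    · subst k2; exact (key i (by omega) a h1 h2).elim
    · exact ih r (by omega) c y f hc (hT.mono (by omega) (by omega)) i (by omega) j (by omega) a h1 h2

end Pool.Agent.P.MP_40718a_co.ABF.GL2
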