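import Pool.Agent.P.MP_40718a_co.ABF.GLb2

namespace Pool.Agent.P.MP_40718a_co.ABF.GL2

open Finset

variable {V E : Type} [Fintype V] [Fintype E] [DecidableEq V] [DecidableEq E] {s t : E → V}
variable {F : Finset E} {q σ : ℕ} {e₀ : E} {c : E → ℕ} {y : ℕ → V} {f : ℕ → E} {p : ℕ}

/-- no colouring has a larger tree -/
def Top (s t : E → V) (F : Finset E) (q : ℕ) (e₀ : E) (p : ℕ) : Prop :=
  ∀ c y f, Col s t F q c → ¬ Tree s t F q e₀ c y f (p + 1)

theorem closed (hM : Top s t F q e₀ p) (hc : Col s t F q c) (hT : Tree s t F q e₀ c y f p)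
    {e : E} (he : e ∈ F) (hcut : e ∈ cut s t ((range (p + 1)).image y)) {h : ℕ} (hh : h ≤ p) :
    ¬ Mis s t F q c (y h) (c e) := by
  intro hm
  have key : ∀ u w, Inc s t e u → Inc s t e w → u ∈ (range (p + 1)).image y →
      w ∉ (range (p + 1)).image y → False := by
    intro u w hu hw hu' hw'
    obtain ⟨i, hi, rfl⟩ := mem_image.1 hu'
    have hi' := mem_range.1 hi
    have hy : ∀ k ≤ p, Function.update y (p + 1) w k = y k := fun k hk =>
      Function.update_of_ne (by omega) _ _
    have hw'' : ∀ k ≤ p, y k ≠ w := fun k hk h =>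
      hw' (mem_image.2 ⟨k, mem_range.2 (by omega), h⟩)
    have h1 := hT.one
    refine hM c (Function.update y (p + 1) w) (Function.update f (p + 1) e) hc
      ⟨by omega, fun a ha b hb hab => ?_, by rw [hy 0 (by omega)]; exact hT.h0,
        by rw [hy 1 h1]; exact hT.h1, fun j j1 j2 => ?_⟩
    · by_cases k1 : a = p + 1 <;> by_cases k2 : b = p + 1
      · omega
      · subst k1; rw [Function.update_self, hy b (by omega)] at hab
        exact absurd hab.symm (hw'' b (by omega))
      · subst k2; rw [Function.update_self, hy a (by omega)] at hab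
        exact absurd hab (hw'' a (by omega))
      · rw [hy a (by omega), hy b (by omega)] at hab
        exact hT.inj a (by omega) b (by omega) hab
    · by_cases k : j = p + 1
      · subst k
        simp only [Function.update_self]
        exact ⟨he, hw, ⟨i, hi', by rw [hy i (by omega)]; exact hu⟩, h, by omega,
          by rw [hy h hh]; exact hm⟩
      · obtain ⟨b1, b2, ⟨a, ha, b3⟩, r, hr, b4⟩ := hT.edge j j1 (by omega)
        rw [Function.update_of_ne k, hy j (by omega)]
        exact ⟨b1, b2, ⟨a, ha, by rw [hy a (by omega)]; exact b3⟩, r, hr,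
          by rw [hy r (by omega)]; exact b4⟩
  have h' := mem_cut.1 hcut
  by_cases h1 : s e ∈ (range (p + 1)).image y
  · exact key (s e) (t e) (Or.inl rfl) (Or.inr rfl) h1 (by tauto)
  · exact key (t e) (s e) (Or.inr rfl) (Or.inl rfl) (by tauto) h1

theorem claimA (hM : Top s t F q e₀ p) (hc : Col s t F q c) (hT : Tree s t F q e₀ c y f p)
    {d g i : ℕ} (hd : ∀ h ≤ p, ¬ Mis s t F q c (y h) d) (hi : i ≤ p)
    (hg : Mis s t F q c (y i) g) (hu : Unused c f p g) {e : E} (he : e ∈ F)
    (hcut : e ∈ cut s t ((range (p + 1)).image y)) (hce : c e = d) :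
    Link s t (AB F c g d) (s e) (y i) := by
  by_contra hn
  have hK := comp_closed (s := s) (t := t) (A := AB F c g d) (s e)
  have hdu : Unused c f p d := by
    intro j j1 j2 h
    obtain ⟨-, -, -, r, hr, b4⟩ := hT.edge j j1 j2
    exact hd r (by omega) (h ▸ b4)
  have hdq : d < q := hce ▸ hc.lt e he
  refine closed hM (hc.sw hg.1 hdq hK) (hT.sw hu hdu) he hcut hi ?_
  have : sw s (comp s t (AB F c g d) (s e)) g d c e = g := by
    rw [sw_at hK he (Or.inl rfl), if_pos (mem_comp.2 (Link.refl _ _)), hce, Equiv.swap_apply_right]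
  rw [this]
  exact hg.sw_out hK fun h => hn (mem_comp.1 h)

theorem exists_lonely {α : Type} [DecidableEq α] {O : Finset α} (hO : Odd O.card)
    (r : α → α → Prop) (hs : ∀ a b, r a b → r b a)
    (h3 : ∀ a ∈ O, ∀ b ∈ O, ∀ d ∈ O, a ≠ b → a ≠ d → r a b → r a d → b = d) :
    ∃ a ∈ O, ∀ b ∈ O, r a b → b = a := by
  by_contra hn
  push Not at hn
  choose g h1 h2 h4 using hn
  have : ∑ _x ∈ O, (1 : ZMod 2) = 0 :=
    sum_involution g (fun _ _ => rfl) (fun a ha _ => h4 a ha) h1 fun a ha =>
      h3 (g a ha) (h1 a ha) _ (h1 _ (h1 a ha)) a ha (h4 _ _).symm (h4 a ha) (h2 _ _)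
        (hs _ _ (h2 a ha))
  simp only [sum_const, nsmul_eq_mul, mul_one] at this
  exact (Nat.not_even_iff_odd.2 hO) ((ZMod.natCast_eq_zero_iff_even).1 this)

theorem no_defect (hl : ∀ e, s e ≠ t e) (hσ : 0 < σ) (hq : q ≤ σ * (σ - 1))
    (hdeg : ∀ v, deg s t F v + σ ≤ q) (hE : EE s t F q e₀ p) (hM : Top s t F q e₀ p)
    (hc : Col s t F q c) (hT : Tree s t F q e₀ c y f p) {d : ℕ}
    (hd : ∀ h ≤ p, ¬ Mis s t F q c (y h) d)
    (hodd : Odd ((F.filter fun e => c e = d) ∩ cut s t ((range (p + 1)).image y)).card) :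
    ((F.filter fun e => c e = d) ∩ cut s t ((range (p + 1)).image y)).card ≤ 1 := by
  set U := (range (p + 1)).image y with hU
  set O := (F.filter fun e => c e = d) ∩ cut s t U with hO
  have hOm : ∀ e ∈ O, e ∈ F ∧ c e = d ∧ e ∈ cut s t U := fun e he =>
    ⟨(mem_filter.1 (mem_inter.1 he).1).1, (mem_filter.1 (mem_inter.1 he).1).2, (mem_inter.1 he).2⟩
  set out : E → V := fun e => if s e ∈ U then t e else s e with hout
  have hout1 : ∀ e, Inc s t e (out e) := fun e => by
    simp only [hout]; split_ifs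
    · exact Or.inr rfl
    · exact Or.inl rfl
  have hout2 : ∀ e ∈ O, out e ∉ U := fun e he => by
    have := mem_cut.1 (hOm e he).2.2
    simp only [hout]; split_ifs <;> tauto
  have houtinj : ∀ e ∈ O, ∀ e' ∈ O, out e = out e' → e = e' := fun e he e' he' h =>
    hc.inj e (hOm e he).1 e' (hOm e' he').1 _ (hout1 e) (h ▸ hout1 e')
      ((hOm e he).2.1.trans (hOm e' he').2.1.symm)
  obtain ⟨g, hg1, hg2⟩ := exists_free (f := f) (p := p) hσ hq hdeg (hE c y f hc hT)
    (Nat.le_succ p) (y 0)
  set A := AB F c g d ∩ ins s t Uᶜ with hA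
  have hA2 : ∀ v, deg s t A v ≤ 2 := fun v => by
    have h0 := deg_AB_le (s := s) (t := t) (F := F) (c := c) g d v
    have h1 := deg_colour hl hc g v
    have h2 := deg_colour hl hc d v
    have h3 : deg s t A v ≤ deg s t (AB F c g d) v := deg_mono inter_subset_left v
    omega
  have hA1 : ∀ e ∈ O, deg s t A (out e) ≤ 1 := fun e he => by
    refine le_trans (le_of_eq (deg_congr (G := (F.filter fun e => c e = g) ∩ A) fun x hx => ?_))
      ((deg_mono inter_subset_left _).trans (deg_colour hl hc g _))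
    refine ⟨fun h => mem_inter.2 ⟨?_, h⟩, fun h => (mem_inter.1 h).2⟩
    have h1 := mem_filter.1 (mem_inter.1 h).1
    refine mem_filter.2 ⟨h1.1, h1.2.resolve_right fun h2 => ?_⟩
    have := hc.inj x h1.1 e (hOm e he).1 _ hx (hout1 e) (h2.trans (hOm e he).2.1.symm)
    subst this
    have h3 := mem_ins.1 (mem_inter.1 h).2
    have h4 := mem_cut.1 (hOm x he).2.2
    simp only [mem_compl] at h3
    tauto
  obtain ⟨e, he, hlone⟩ := exists_lonely hodd (fun a b => Link s t A (out a) (out b))
    (fun a b h => h.symm) (fun a ha b hb d' hd' k1 k2 k3 k4 => by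
      by_contra k5
      exact three_ends hA2 (fun h => k1 (houtinj a ha b hb h)) (fun h => k2 (houtinj a ha d' hd' h))
        (fun h => k5 (houtinj b hb d' hd' h)) (hA1 a ha) (hA1 b hb) (hA1 d' hd') k3 k4)
  obtain ⟨u, hu1, hu2⟩ : ∃ u ∈ U, Inc s t e u := by
    have := mem_cut.1 (hOm e he).2.2
    by_cases h : s e ∈ U
    · exact ⟨_, h, Or.inl rfl⟩
    · exact ⟨t e, by tauto, Or.inr rfl⟩
  obtain ⟨i, hi, rfl⟩ := mem_image.1 hu1
  have hi' : i ≤ p := by have := mem_range.1 hi; omega
  have hdq : d < q := (hOm e he).2.1 ▸ hc.lt e (hOm e he).1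
  have hdu : Unused c f p d := by
    intro j j1 j2 h
    obtain ⟨-, -, -, r, hr, b4⟩ := hT.edge j j1 j2
    exact hd r (by omega) (h ▸ b4)
  -- a colouring in which `g` is free at `y i` and nothing changed outside
  obtain ⟨c', hc', hT', hg', hu', hsame, hd'⟩ : ∃ c', Col s t F q c' ∧ Tree s t F q e₀ c' y f p ∧
      Mis s t F q c' (y i) g ∧ Unused c' f p g ∧ (∀ x ∈ F, x ∉ ins s t U → c' x = c x) ∧
      ∀ x, c' x = d ↔ c x = d := by
    by_cases hi0 : i = 0
    · subst hi0; exact ⟨c, hc, hT, hg1, hg2, fun _ _ _ => rfl, fun _ => Iff.rfl⟩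
    obtain ⟨g', k1, k2⟩ := exists_free (f := f) (p := p) hσ hq hdeg (hE c y f hc hT)
      (Nat.le_succ p) (y i)
    have hK := comp_closed (s := s) (t := t) (A := AB F c g g') (y i)
    have hKU : comp s t (AB F c g g') (y i) ⊆ U := by
      intro v hv
      refine ((mem_comp.1 hv) U ?_).1 hu1
      rw [disjoint_left]
      intro x hx hx'
      obtain ⟨h1, h2 | h2⟩ := mem_filter.1 hx'
      · exact closed hM hc hT h1 hx (Nat.zero_le p) (h2 ▸ hg1)
      · exact closed hM hc hT h1 hx hi' (h2 ▸ k1)
    have hgd : g ≠ d := fun h => hd 0 (Nat.zero_le p) (h ▸ hg1)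
    have hgd' : g' ≠ d := fun h => hd i hi' (h ▸ k1)
    refine ⟨_, hc.sw hg1.1 k1.1 hK, hT.sw hg2 k2, k1.sw_in' hK hg1.1 (mem_comp.2 (Link.refl _ _)),
      hg2.sw k2 hg2, fun x hx hx' => ?_, fun x => ?_⟩
    · by_cases h : s x ∈ U
      · have : t x ∉ U := fun h' => hx' (mem_ins.2 ⟨h, h'⟩)
        rw [sw_at hK hx (Or.inr rfl), if_neg fun h' => this (hKU h')]
      · rw [sw_at hK hx (Or.inl rfl), if_neg fun h' => h (hKU h')]
    · unfold sw
      split_ifs
      · rw [Equiv.swap_apply_eq_iff, Equiv.swap_apply_of_ne_of_ne hgd.symm hgd'.symm]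
      · rfl
  have hd'' : ∀ h ≤ p, ¬ Mis s t F q c' (y h) d := fun h hh hm =>
    hd h hh ⟨hm.1, fun x hx hi hcx => hm.2 x hx hi ((hd' x).2 hcx)⟩
  set X := insert (y i) (comp s t A (out e)) with hX
  have hKU : ∀ v ∈ comp s t A (out e), v ∉ U := by
    intro v hv h
    refine hout2 e he (((mem_comp.1 hv) U ?_).2 h)
    rw [disjoint_left]
    intro x hx hx'
    have h3 := mem_ins.1 (mem_inter.1 hx').2
    have h4 := mem_cut.1 hx
    simp only [mem_compl] at h3
    tauto
  have hne : y i ≠ out e := fun h => hout2 e he (h ▸ hu1)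
  have heX : e ∉ cut s t X := by
    have h1 : y i ∈ X := mem_insert_self _ _
    have h2 : out e ∈ X := mem_insert_of_mem (mem_comp.2 (Link.refl _ _))
    have a : s e ∈ X := by
      rcases inc_two hl hu2 (hout1 e) (Or.inl rfl) hne with h | h <;> rw [h] <;> assumption
    have b : t e ∈ X := by
      rcases inc_two hl hu2 (hout1 e) (Or.inr rfl) hne with h | h <;> rw [h] <;> assumption
    simp [a, b]
  have hat : ∀ x ∈ AB F c' g d, Inc s t x (y i) → x = e := by
    intro x hx hi
    obtain ⟨h1, h2 | h2⟩ := mem_filter.1 hx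
    · exact absurd h2 (hg'.2 x h1 hi)
    · exact hc.inj x h1 e (hOm e he).1 _ hi hu2 (((hd' x).1 h2).trans (hOm e he).2.1.symm)
  have hdisj : Disjoint (cut s t X) (AB F c' g d) := by
    rw [disjoint_left]
    intro x hx hx'
    by_cases hxi : Inc s t x (y i)
    · exact heX (hat x hx' hxi ▸ hx)
    have n1 : s x ≠ y i := fun h => hxi (Or.inl h)
    have n2 : t x ≠ y i := fun h => hxi (Or.inr h)
    have hxK : ¬ (s x ∈ comp s t A (out e) ↔ t x ∈ comp s t A (out e)) := by
      simpa [hX, n1, n2] using hx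
    have h1 := mem_filter.1 hx'
    have hnin : x ∉ ins s t U := fun h => by
      have h3 := mem_ins.1 h
      have := hKU (s x)
      have := hKU (t x)
      tauto
    have hcx := hsame x h1.1 hnin
    by_cases hxc : x ∈ cut s t U
    · rcases h1.2 with h2 | h2
      · exact closed hM hc' hT' h1.1 hxc hi' (h2 ▸ hg')
      · have hxO : x ∈ O := mem_inter.2 ⟨mem_filter.2 ⟨h1.1, hcx ▸ h2⟩, hxc⟩
        have : out x ∈ comp s t A (out e) := by
          have a := hKU (s x)
          have b := hKU (t x)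
          have hc' := mem_cut.1 hxc
          by_cases k : s x ∈ U
          · have : out x = t x := if_pos k
            rw [this]; clear * - a hxK k; tauto
          · have : out x = s x := if_neg k
            rw [this]; clear * - b hxK k hc'; tauto
        have := hlone x hxO (mem_comp.1 this)
        subst this
        exact hxi hu2
    · refine hxK (comp_closed _ x (mem_inter.2 ⟨mem_filter.2 ⟨h1.1, hcx ▸ h1.2⟩, ?_⟩))
      rw [mem_ins] at hnin ⊢
      rw [mem_cut] at hxc
      simp only [mem_compl]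
      tauto
  rw [card_le_one]
  suffices h : ∀ x ∈ O, x = e from fun a ha b hb => (h a ha).trans (h b hb).symm
  intro x hx
  have hxm := hOm x hx
  have hL := claimA hM hc' hT' hd'' hi' hg' hu' hxm.1 hxm.2.2 ((hd' x).2 hxm.2.1)
  have h1 : s x ∈ X := (hL X hdisj).2 (mem_insert_self _ _)
  have hxAB : x ∈ AB F c' g d := mem_filter.2 ⟨hxm.1, Or.inr ((hd' x).2 hxm.2.1)⟩
  have h2 : t x ∈ X := (Link.edge hxAB X hdisj).1 h1
  have h3 := mem_cut.1 hxm.2.2
  refine hat x hxAB ?_
  by_cases h : s x ∈ U
  · rcases mem_insert.1 h1 with h' | h'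
    · exact Or.inl h'
    · exact absurd h (hKU _ h')
  · rcases mem_insert.1 h2 with h' | h'
    · exact Or.inr h'
    · exact absurd (by tauto) (hKU _ h')

theorem aux (hl : ∀ e, s e ≠ t e) (hq : q ≤ σ * (σ - 1)) (F : Finset E) :
    (∀ v, deg s t F v + σ ≤ q) →
    (∀ U : Finset V, Odd U.card → 2 * (F ∩ ins s t U).card ≤ q * (U.card - 1)) →
    ∃ c, Col s t F q c := by
  induction F using Finset.induction_on with
  | empty => exact fun _ _ => ⟨fun _ => 0, by simp, by simp⟩
  | insert e₀ F he₀ ih =>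
  intro hdeg hden
  have hdeg' : ∀ v, deg s t F v + σ ≤ q := fun v =>
    le_trans (Nat.add_le_add_right (deg_mono (subset_insert _ _) v) _) (hdeg v)
  obtain ⟨c₀, hc₀⟩ := ih hdeg' fun U hU => le_trans (Nat.mul_le_mul_left _ (card_le_card
    (inter_subset_inter_right (subset_insert _ _)))) (hden U hU)
  by_contra hno
  have hσ : 0 < σ := by
    have h1 := hdeg (s e₀)
    have h2 : deg s t {e₀} (s e₀) ≤ deg s t (insert e₀ F) (s e₀) := deg_mono (by simp) _
    rw [deg_singleton] at h2
    simp only [if_true] at h2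
    rcases Nat.eq_zero_or_pos σ with h | h
    · subst h; omega
    · exact h
  have h0 : ∀ c, Col s t F q c → ∀ a, Mis s t F q c (s e₀) a → Mis s t F q c (t e₀) a → False := by
    intro c hc a h1 h2
    have hu : ∀ e ∈ F, Function.update c e₀ a e = c e := fun e he =>
      Function.update_of_ne (by rintro rfl; exact he₀ he) _ _
    refine hno ⟨Function.update c e₀ a, fun e he => ?_, fun e he g hg v k1 k2 k3 => ?_⟩
    · rcases mem_insert.1 he with rfl | he
      · simpa using h1.1
      · rw [hu e he]; exact hc.lt e he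
    · rcases mem_insert.1 he with he | he <;> rcases mem_insert.1 hg with hg | hg
      · rw [he, hg]
      · rw [hu g hg, he, Function.update_self] at k3
        rw [he] at k1
        rcases k1 with rfl | rfl
        · exact absurd k3.symm (h1.2 g hg k2)
        · exact absurd k3.symm (h2.2 g hg k2)
      · rw [hu e he, hg, Function.update_self] at k3
        rw [hg] at k2
        rcases k2 with rfl | rfl
        · exact absurd k3 (h1.2 e he k1)
        · exact absurd k3 (h2.2 e he k1)
      · rw [hu e he, hu g hg] at k3; exact hc.inj e he g hg v k1 k2 k3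
  have hE := all_elem hl hσ hq hdeg' h0
  obtain ⟨p, ⟨c, y, f, hc, hT⟩, hM⟩ : ∃ p, (∃ c y f, Col s t F q c ∧ Tree s t F q e₀ c y f p) ∧
      Top s t F q e₀ p := by
    by_contra hn
    push Not at hn
    have : ∀ n, ∃ c y f, Col s t F q c ∧ Tree s t F q e₀ c y f (n + 1) := by
      intro n
      induction n with
      | zero =>
        refine ⟨c₀, fun i => if i = 0 then s e₀ else t e₀, fun _ => e₀, hc₀, le_rfl,
          fun i hi j hj h => ?_, rfl, rfl, fun j h1 h2 => by omega⟩
        by_contra hne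
        have : (i = 0 ∧ j = 1) ∨ (i = 1 ∧ j = 0) := by omega
        rcases this with ⟨rfl, rfl⟩ | ⟨rfl, rfl⟩
        · exact hl e₀ (by simpa using h)
        · exact hl e₀ (by simpa using h.symm)
      | succ n ihn =>
        have := hn _ ihn
        simp only [Top, not_forall, not_not] at this
        obtain ⟨c, y, f, h1, h2⟩ := this
        exact ⟨c, y, f, h1, h2⟩
    obtain ⟨c, y, f, -, hT⟩ := this (Fintype.card V)
    have h1 : ((range (Fintype.card V + 1 + 1)).image y).card = Fintype.card V + 1 + 1 := by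
      rw [card_image_of_injOn, card_range]
      intro i hi j hj h
      exact hT.inj i (by have := mem_range.1 hi; omega) j (by have := mem_range.1 hj; omega) h
    have := card_le_univ ((range (Fintype.card V + 1 + 1)).image y)
    omega
  set U := (range (p + 1)).image y with hU
  have hUm : ∀ v ∈ U, ∃ i ≤ p, y i = v := fun v hv => by
    obtain ⟨i, hi, h⟩ := mem_image.1 hv
    exact ⟨i, by have := mem_range.1 hi; omega, h⟩
  have hUy : ∀ i ≤ p, y i ∈ U := fun i hi => mem_image.2 ⟨i, mem_range.2 (by omega), rfl⟩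
  have hmiss : ∀ i ≤ p, ∀ a, Mis s t F q c (y i) a →
      2 * ((F.filter fun e => c e = a) ∩ ins s t U).card + 1 = U.card := by
    intro i hi a ha
    have h1 := handshake (s := s) (t := t) (F.filter fun e => c e = a) U
    have h2 : (F.filter fun e => c e = a) ∩ cut s t U = ∅ := by
      rw [eq_empty_iff_forall_notMem]
      intro e he
      have h3 := mem_filter.1 (mem_inter.1 he).1
      exact closed hM hc hT h3.1 (mem_inter.1 he).2 hi (h3.2 ▸ ha)
    rw [h2, card_empty, ← add_sum_erase _ _ (hUy i hi), (deg_colour_zero ha.1).2 ha,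
      sum_congr rfl (g := fun _ => 1)] at h1
    · have := card_erase_add_one (hUy i hi)
      simp only [sum_const, smul_eq_mul] at h1
      omega
    · intro v hv
      obtain ⟨j, hj, rfl⟩ := hUm v (mem_of_mem_erase hv)
      have h4 := deg_colour hl hc a (y j)
      have h5 : deg s t (F.filter fun e => c e = a) (y j) ≠ 0 := fun h =>
        ne_of_mem_erase hv (congrArg y (hE p c y f hc hT j hj i hi a ((deg_colour_zero ha.1).1 h) ha))
      omega
  have hodd : Odd U.card := by
    obtain ⟨a, ha, -⟩ := exists_free (f := f) (p := p) hσ hq hdeg' (hE p c y f hc hT)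
      (Nat.le_succ p) (y 0)
    exact ⟨_, (hmiss 0 (Nat.zero_le p) a ha).symm⟩
  have hall : ∀ a ∈ range q, U.card - 1 ≤ 2 * ((F.filter fun e => c e = a) ∩ ins s t U).card := by
    intro a ha
    by_cases hm : ∃ i ≤ p, Mis s t F q c (y i) a
    · obtain ⟨i, hi, h⟩ := hm
      have := hmiss i hi a h; omega
    · push Not at hm
      have h1 := handshake (s := s) (t := t) (F.filter fun e => c e = a) U
      rw [sum_congr rfl (g := fun _ => 1)] at h1
      · simp only [sum_const, smul_eq_mul, mul_one] at h1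
        have := no_defect hl hσ hq hdeg' (hE p) hM hc hT hm (by
          rw [Nat.odd_iff] at hodd ⊢; rw [← hU]; omega)
        rw [← hU] at this
        omega
      · intro v hv
        obtain ⟨j, hj, rfl⟩ := hUm v hv
        have h4 := deg_colour hl hc a (y j)
        have h5 : deg s t (F.filter fun e => c e = a) (y j) ≠ 0 := fun h =>
          hm j hj ((deg_colour_zero (mem_range.1 ha)).1 h)
        omega
  have hsum : (F ∩ ins s t U).card = ∑ a ∈ range q,
      ((F.filter fun e => c e = a) ∩ ins s t U).card := by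
    rw [card_eq_sum_card_fiberwise (f := c) (t := range q)
      fun e he => mem_range.2 (hc.lt e (mem_inter.1 he).1)]
    refine sum_congr rfl fun a _ => ?_
    congr 1; ext e; simp only [mem_filter, mem_inter]; tauto
  have h1 : q * (U.card - 1) ≤ 2 * (F ∩ ins s t U).card := by
    rw [hsum, mul_sum]
    calc q * (U.card - 1) = ∑ _a ∈ range q, (U.card - 1) := by simp
      _ ≤ _ := sum_le_sum hall
  have h2 := hden U hodd
  rw [insert_inter_of_mem (mem_ins.2 ⟨hT.h0 ▸ hUy 0 (Nat.zero_le p), hT.h1 ▸ hUy 1 hT.one⟩),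
    card_insert_of_notMem fun h => he₀ (mem_inter.1 h).1] at h2
  omega

theorem gl : S_GL := by
  intro V E _ _ _ _ s t q σ hl hq hd hU
  obtain ⟨c, hc⟩ := aux hl hq univ hd (by simpa using hU)
  refine ⟨fun e => ⟨c e, hc.lt e (mem_univ e)⟩, fun j v => ?_⟩
  have := deg_colour hl hc j v
  convert this using 3
  simp [Fin.ext_iff]

end Pool.Agent.P.MP_40718a_co.ABF.GL2
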