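import Pool.Agent.P.MP_40718a_co.ABF.Basic

namespace Pool.Agent.P.MP_40718a_co.ABF

open Finset

/-- a pole with its cut edges labelled by `Fin j` -/
structure GadLP (j : ℕ) where
  Q : Pole
  ne : Q.W.Nonempty
  lab : Fin j → Q.E
  inj : Function.Injective lab
  rng : ∀ e, e ∈ cut Q.s Q.t Q.W ↔ ∃ i, lab i = e

/-- labels of the edges of `g` -/
def gadLabels {E : Type} [DecidableEq E] {j : ℕ} (lab : Fin j → E) (g : Finset E) :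
    Finset (Fin j) := univ.filter fun i => lab i ∈ g

/-- grid cell of the boundary law -/
noncomputable def gadVec (δ : ℝ) {j : ℕ} (L : GadLP j) (μ : Finset L.Q.E → ℝ) :
    Finset (Fin j) → ℕ := fun P => ⌊pr μ (fun M => gadLabels L.lab M = P) / δ⌋₊

/-- the set of grid cells of exact laws -/
def gadSig (δ : ℝ) {j : ℕ} (L : GadLP j) : Set (Finset (Fin j) → ℕ) :=
  {v | ∃ μ, Law L.Q.s L.Q.t L.Q.W 0 μ ∧ gadVec δ L μ = v}

theorem gad_floor {δ x y : ℝ} (hδ : 0 < δ) (hx : 0 ≤ x) (hy : 0 ≤ y)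
    (h : ⌊x / δ⌋₊ = ⌊y / δ⌋₊) : |x - y| ≤ δ := by
  have a1 := Nat.floor_le (div_nonneg hx hδ.le)
  have a2 := Nat.floor_le (div_nonneg hy hδ.le)
  have a3 := Nat.lt_floor_add_one (x / δ)
  have a4 := Nat.lt_floor_add_one (y / δ)
  rw [h] at a1 a3
  have b1 : x / δ - y / δ ≤ 1 := by linarith
  have b2 : y / δ - x / δ ≤ 1 := by linarith
  rw [← sub_div, div_le_one hδ] at b1 b2
  rw [abs_le]
  constructor <;> linarith

theorem gad_sig_finite {δ : ℝ} (hδ : 0 < δ) (j : ℕ) :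
    {σ : Set (Finset (Fin j) → ℕ) | ∃ L : GadLP j, gadSig δ L = σ}.Finite := by
  have hbox : (Set.pi Set.univ fun _ : Finset (Fin j) => Set.Iic ⌊1 / δ⌋₊).Finite :=
    Set.Finite.pi fun _ => Set.finite_Iic _
  refine hbox.finite_subsets.subset ?_
  rintro σ ⟨L, rfl⟩ v ⟨μ, hμ, rfl⟩ P _
  exact Nat.floor_mono (div_le_div_of_nonneg_right (pr_le_one hμ.1 _) hδ.le)

theorem gad_unif {α : Type*} {S : Set α} (hS : S.Finite) (P : α → ℕ → ℝ → Prop)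
    (hmono : ∀ a B ρ B' ρ', P a B ρ → B ≤ B' → ρ' ≤ ρ → P a B' ρ')
    (h : ∀ a ∈ S, ∃ B ρ, 0 < ρ ∧ P a B ρ) : ∃ B ρ, 0 < ρ ∧ ∀ a ∈ S, P a B ρ := by
  induction S, hS using Set.Finite.induction_on with
  | empty => exact ⟨0, 1, one_pos, by simp⟩
  | @insert a S _ _ ih =>
    obtain ⟨B, ρ, hρ, h1⟩ := ih fun b hb => h b (Set.mem_insert_of_mem _ hb)
    obtain ⟨B', ρ', hρ', h2⟩ := h a (Set.mem_insert _ _)
    refine ⟨max B B', min ρ ρ', lt_min hρ hρ', ?_⟩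
    rintro b (rfl | hb)
    · exact hmono _ _ _ _ _ h2 (le_max_right _ _) (min_le_right _ _)
    · exact hmono _ _ _ _ _ (h1 b hb) (le_max_left _ _) (min_le_left _ _)

/-- a small representative with a given signature -/
def GadRep (δ : ℝ) (j : ℕ) (σ : Set (Finset (Fin j) → ℕ)) (B : ℕ) (ρ : ℝ) : Prop :=
  ∃ L : GadLP j, gadSig δ L = σ ∧ L.Q.W.card ≤ B ∧ ∀ μ, Law L.Q.s L.Q.t L.Q.W ρ μ →
    ∃ ν, Law L.Q.s L.Q.t L.Q.W 0 ν ∧ ∀ A : Finset L.Q.E → Prop, |pr μ A - pr ν A| ≤ δ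

theorem GadRep.mono {δ : ℝ} {j : ℕ} {σ : Set (Finset (Fin j) → ℕ)} {B B' : ℕ} {ρ ρ' : ℝ}
    (h : GadRep δ j σ B ρ) (hB : B ≤ B') (hρ : ρ' ≤ ρ) : GadRep δ j σ B' ρ' := by
  obtain ⟨L, h1, h2, h3⟩ := h
  exact ⟨L, h1, h2.trans hB, fun μ hμ =>
    h3 μ ⟨hμ.1, hμ.2.1, fun e he => (hμ.2.2 e he).trans hρ⟩⟩

theorem gad_reps (h : S_CPT) (c : ℕ) {δ : ℝ} (hδ : 0 < δ) :
    ∃ B ρ, 0 < ρ ∧ ∀ j ≤ c, ∀ L : GadLP j, GadRep δ j (gadSig δ L) B ρ := by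
  have h1 : ∀ j ∈ Set.Iic c, ∃ B ρ, 0 < ρ ∧ ∀ L : GadLP j, GadRep δ j (gadSig δ L) B ρ := by
    intro j _
    obtain ⟨B, ρ, hρ, h2⟩ := gad_unif (gad_sig_finite hδ j) (GadRep δ j)
      (fun _ _ _ _ _ a b c => a.mono b c) (by
        rintro σ ⟨L, rfl⟩
        obtain ⟨ρ, hρ, h3⟩ := h L.Q.V L.Q.E L.Q.s L.Q.t L.Q.W δ hδ
        exact ⟨L.Q.W.card, ρ, hρ, L, rfl, le_rfl, h3⟩)
    exact ⟨B, ρ, hρ, fun L => h2 _ ⟨L, rfl⟩⟩
  exact gad_unif (Set.finite_Iic c)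
    (fun j B ρ => ∀ L : GadLP j, GadRep δ j (gadSig δ L) B ρ)
    (fun _ _ _ _ _ a b c L => (a L).mono b c) h1

theorem gad_inter {j : ℕ} (L : GadLP j) (M : Finset L.Q.E) :
    M ∩ cut L.Q.s L.Q.t L.Q.W = (gadLabels L.lab M).image L.lab := by
  ext e
  simp only [mem_inter, L.rng, mem_image, gadLabels, mem_filter, mem_univ, true_and]
  constructor
  · rintro ⟨h1, i, rfl⟩
    exact ⟨i, h1, rfl⟩
  · rintro ⟨i, h1, rfl⟩
    exact ⟨h1, i, rfl⟩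

theorem gad_pull {j : ℕ} (L L' : GadLP j) (β : L.Q.E → L'.Q.E)
    (hβ : ∀ i, β (L.lab i) = L'.lab i) (g : Finset L'.Q.E) :
    pull L.Q.s L.Q.t L.Q.W β g = (gadLabels L'.lab g).image L.lab := by
  ext e
  simp only [pull, L.rng, mem_image, gadLabels, mem_filter, mem_univ, true_and]
  constructor
  · rintro ⟨⟨i, rfl⟩, h1⟩
    exact ⟨i, hβ i ▸ h1, rfl⟩
  · rintro ⟨i, h1, rfl⟩
    exact ⟨⟨i, rfl⟩, (hβ i).symm ▸ h1⟩

theorem gad_close {δ : ℝ} (hδ : 0 < δ) {j : ℕ} (L L' : GadLP j) (β : L.Q.E → L'.Q.E)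
    (hβ : ∀ i, β (L.lab i) = L'.lab i) {μ : Finset L.Q.E → ℝ} {μ' : Finset L'.Q.E → ℝ}
    (hμ : IsProb μ) (hμ' : IsProb μ') (hv : gadVec δ L' μ' = gadVec δ L μ) (a : Finset L.Q.E) :
    |pr μ' (fun g => pull L.Q.s L.Q.t L.Q.W β g = a)
      - pr μ (fun M => M ∩ cut L.Q.s L.Q.t L.Q.W = a)| ≤ δ := by
  simp only [gad_inter, gad_pull L L' β hβ]
  by_cases ha : ∃ P : Finset (Fin j), P.image L.lab = a
  · obtain ⟨P, rfl⟩ := ha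
    simp only [(image_injective L.inj).eq_iff]
    exact gad_floor hδ (pr_nonneg hμ'.1 _) (pr_nonneg hμ.1 _) (congrFun hv P)
  · rw [pr_eq_zero fun g _ hg => ha ⟨_, hg⟩, pr_eq_zero fun g _ hg => ha ⟨_, hg⟩]
    simpa using hδ.le

theorem gad_beta {j : ℕ} (L L' : GadLP j) : ∃ β : L.Q.E → L'.Q.E,
    ∀ i, β (L.lab i) = L'.lab i := by
  obtain ⟨v, _⟩ := L'.ne
  have hne : Nonempty L'.Q.E := by
    by_contra hc
    have : IsEmpty L'.Q.E := not_nonempty_iff.1 hc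
    have h3 := L'.Q.cub.2 v
    rw [univ_eq_empty, deg_empty] at h3
    omega
  exact ⟨Function.extend L.lab L'.lab fun _ => Classical.arbitrary _,
    fun i => L.inj.extend_apply _ _ i⟩

theorem gad_main {δ : ℝ} (hδ : 0 < δ) {j B : ℕ} {ρ : ℝ} (L : GadLP j)
    (h : GadRep δ j (gadSig δ L) B ρ) :
    ∃ (Q : Pole) (β : L.Q.E → Q.E), Q.W.card ≤ B ∧
      Set.BijOn β (cut L.Q.s L.Q.t L.Q.W : Set L.Q.E) (cut Q.s Q.t Q.W : Set Q.E) ∧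
      (∀ μ, Law L.Q.s L.Q.t L.Q.W 0 μ → ∃ μ', Law Q.s Q.t Q.W 0 μ' ∧ ∀ a,
        |pr μ' (fun g => pull L.Q.s L.Q.t L.Q.W β g = a)
          - pr μ (fun M => M ∩ cut L.Q.s L.Q.t L.Q.W = a)| ≤ 2 * δ) ∧
      (∀ μ', Law Q.s Q.t Q.W ρ μ' → ∃ μ, Law L.Q.s L.Q.t L.Q.W 0 μ ∧ ∀ a,
        |pr μ' (fun g => pull L.Q.s L.Q.t L.Q.W β g = a)
          - pr μ (fun M => M ∩ cut L.Q.s L.Q.t L.Q.W = a)| ≤ 2 * δ) := by
  obtain ⟨L', hsig, hB, hc⟩ := h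
  obtain ⟨β, hβ⟩ := gad_beta L L'
  refine ⟨L'.Q, β, hB, ⟨?_, ?_, ?_⟩, ?_, ?_⟩
  · intro e he
    obtain ⟨i, rfl⟩ := (L.rng e).1 he
    exact (L'.rng _).2 ⟨i, (hβ i).symm⟩
  · intro e he f hf hef
    obtain ⟨i, rfl⟩ := (L.rng e).1 he
    obtain ⟨i', rfl⟩ := (L.rng f).1 hf
    rw [hβ, hβ] at hef
    rw [L'.inj hef]
  · intro e he
    obtain ⟨i, rfl⟩ := (L'.rng e).1 he
    exact ⟨L.lab i, (L.rng _).2 ⟨i, rfl⟩, hβ i⟩
  · intro μ hμ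
    have : gadVec δ L μ ∈ gadSig δ L' := hsig ▸ ⟨μ, hμ, rfl⟩
    obtain ⟨μ', hμ', hv⟩ := this
    exact ⟨μ', hμ', fun a => (gad_close hδ L L' β hβ hμ.1 hμ'.1 hv a).trans (by linarith)⟩
  · intro μ' hμ'
    obtain ⟨ν, hν, hcl⟩ := hc μ' hμ'
    have : gadVec δ L' ν ∈ gadSig δ L := hsig ▸ ⟨ν, hν, rfl⟩
    obtain ⟨μ, hμ, hv⟩ := this
    refine ⟨μ, hμ, fun a => ?_⟩
    have a1 := gad_close hδ L L' β hβ hμ.1 hν.1 hv.symm a
    have a2 := hcl fun g => pull L.Q.s L.Q.t L.Q.W β g = a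
    exact (abs_sub_le _ _ _).trans (by linarith)

theorem gad (h : S_CPT) : S_GAD := by
  intro c η hη
  obtain ⟨B, ρ, hρ, hrep⟩ := gad_reps h c (half_pos hη)
  refine ⟨B, ρ, hρ, ?_⟩
  intro V E _ _ _ _ s t W hcub hW hc
  let L : GadLP (cut s t W).card :=
    { Q := { V := V, E := E, s := s, t := t, W := W, cub := hcub }
      ne := hW
      lab := fun i => ((cut s t W).equivFin.symm i : E)
      inj := Subtype.val_injective.comp (cut s t W).equivFin.symm.injective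
      rng := fun e => ⟨fun he => ⟨(cut s t W).equivFin ⟨e, he⟩, by simp⟩, by
        rintro ⟨i, rfl⟩
        exact ((cut s t W).equivFin.symm i).2⟩ }
  have := gad_main (half_pos hη) L (hrep _ hc L)
  rw [show 2 * (η / 2) = η by ring] at this
  exact this

end Pool.Agent.P.MP_40718a_co.ABF
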