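import Pool.Agent.P.MP_40718a_co.ABF.Basic

namespace Pool.Agent.P.MP_40718a_co.ABF

open Finset
open scoped symmDiff

section Aux

variable {V E : Type} [Fintype V] [Fintype E] [DecidableEq V] [DecidableEq E] {s t : E → V}

/-- number of ends of `e` at `v` -/
def rmInc (s t : E → V) (v : V) (e : E) : ℕ :=
  (if s e = v then 1 else 0) + (if t e = v then 1 else 0)

theorem rm_deg (F : Finset E) (v : V) : deg s t F v = ∑ e ∈ F, rmInc s t v e := deg_eq_sum F v

theorem rm_multi (h : S_GL) (m : E → ℕ) (q σ : ℕ) (h0 : ∀ e, m e ≠ 0 → s e ≠ t e)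
    (h1 : q ≤ σ * (σ - 1)) (h2 : ∀ v, ∑ e, m e * rmInc s t v e + σ ≤ q)
    (h3 : ∀ U : Finset V, Odd U.card →
      ∑ e, m e * (if e ∈ ins s t U then 2 else 0) ≤ q * (U.card - 1)) :
    ∃ M : Fin q → Finset E, (∀ j, IsMatch s t (M j)) ∧ ∀ e, cnt (fun j => e ∈ M j) = m e := by
  obtain ⟨c, hc⟩ := h V (Σ e, Fin (m e)) (fun x => s x.1) (fun x => t x.1) q σ
    (fun x => h0 x.1 (Fin.pos x.2).ne') h1 (fun v => by
      refine le_of_eq_of_le ?_ (h2 v)
      rw [deg_eq_sum, Fintype.sum_sigma]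
      congr 1
      refine sum_congr rfl fun e _ => ?_
      exact (sum_congr rfl fun _ _ => rfl : _ = ∑ _y : Fin (m e), rmInc s t v e).trans (by simp))
    (fun U hU => by
      refine le_of_eq_of_le ?_ (h3 U hU)
      rw [ins, card_filter, Fintype.sum_sigma, mul_sum]
      refine sum_congr rfl fun e _ => ?_
      by_cases q : s e ∈ U ∧ t e ∈ U <;> simp [q, mul_comm])
  have key : ∀ x y : Σ e, Fin (m e), c x = c y → ∀ v, (s x.1 = v ∨ t x.1 = v) →
      (s y.1 = v ∨ t y.1 = v) → x = y := fun x y e v a b =>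
    (isMatch_iff.1 (hc (c y))).2 x (by simp [e]) y (by simp) v a b
  refine ⟨fun j => (univ.filter fun x => c x = j).image Sigma.fst,
    fun j => isMatch_iff.2 ⟨?_, ?_⟩, fun e => ?_⟩
  · intro e he
    obtain ⟨x, -, rfl⟩ := mem_image.1 he
    exact h0 x.1 (Fin.pos x.2).ne'
  · intro e he f hf v a b
    obtain ⟨x, hx, rfl⟩ := mem_image.1 he
    obtain ⟨y, hy, rfl⟩ := mem_image.1 hf
    rw [key x y ((mem_filter.1 hx).2.trans (mem_filter.1 hy).2.symm) v a b]
  · rw [cnt_eq]
    have : (univ.filter fun j => e ∈ (univ.filter fun x => c x = j).image Sigma.fst) =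
        univ.image fun i : Fin (m e) => c ⟨e, i⟩ := by
      ext j
      simp only [mem_filter, mem_univ, true_and, mem_image]
      constructor
      · rintro ⟨⟨f, i⟩, hx, rfl⟩
        exact ⟨i, hx⟩
      · rintro ⟨i, hi⟩
        exact ⟨⟨e, i⟩, hi, rfl⟩
    rw [this, card_image_of_injective _ fun i j e' =>
      sigma_mk_injective (key _ _ e' (s e) (Or.inl rfl) (Or.inl rfl))]
    simp

theorem rm_sum {Ω : Type} [Fintype Ω] (x : Ω → ℝ) (F : Ω → Finset E) (w : E → ℕ) :
    ∑ e, (w e : ℝ) * pr x (fun ω => e ∈ F ω) = ∑ ω, x ω * ((∑ e ∈ F ω, w e : ℕ) : ℝ) := by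
  simp only [pr_eq, mul_sum, Nat.cast_sum]
  rw [sum_comm]
  refine sum_congr rfl fun ω _ => ?_
  simp [mul_comm]

theorem rm_zero {Ω : Type} [Fintype Ω] (x : Ω → ℝ) (F : Ω → Finset E) (v : V)
    (h : ∀ ω, x ω ≠ 0 → IsMatch s t (F ω)) : pr x (fun ω => deg s t (F ω) v = 0) =
      ∑ ω, x ω - ∑ e, (rmInc s t v e : ℝ) * pr x (fun ω => e ∈ F ω) := by
  rw [rm_sum, ← sum_sub_distrib, pr_eq]
  refine sum_congr rfl fun ω _ => ?_
  rw [← rm_deg]
  by_cases q : x ω = 0
  · simp [q]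
  · rcases Nat.le_one_iff_eq_zero_or_eq_one.1 (h ω q v) with e | e <;> simp [e]

end Aux

theorem rm (h : S_GL) : S_RM := by
  intro V E _ _ _ _ s t I Ω _ _ x F hx hF
  set n := Fintype.card I with hn
  set σ := ⌈√(n : ℝ)⌉₊ + 1 with hσ
  have r0 : 0 ≤ √(n : ℝ) := Real.sqrt_nonneg _
  have s1 : (σ : ℝ) ≤ √n + 2 := by
    have := Nat.ceil_lt_add_one r0
    rw [hσ]
    push_cast
    linarith
  have s2 : n ≤ σ * (σ - 1) := by
    have a := Nat.le_ceil √(n : ℝ)
    have b := Real.mul_self_sqrt (Nat.cast_nonneg n : (0 : ℝ) ≤ n)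
    have : (n : ℝ) ≤ (⌈√(n : ℝ)⌉₊ + 1) * ⌈√(n : ℝ)⌉₊ := by nlinarith
    rw [hσ, Nat.add_sub_cancel]
    exact_mod_cast this
  have p0 : ∀ e, 0 ≤ pr x fun ω => e ∈ F ω := fun e => pr_nonneg hx.1 _
  have p1 : ∀ e, (pr x fun ω => e ∈ F ω) ≤ 1 := fun e => pr_le_one hx _
  have n0 : (0 : ℝ) ≤ n := Nat.cast_nonneg n
  rcases lt_or_ge n σ with q | q
  · refine ⟨fun _ => ∅, fun _ v => by simp, fun e => ?_⟩
    have : (n : ℝ) ≤ σ := by exact_mod_cast q.le
    rw [cnt_eq_zero (by simp)]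
    have := mul_le_mul_of_nonneg_left (p1 e) n0
    exact ⟨by simpa using mul_nonneg n0 (p0 e), by simp only [Nat.cast_zero]; linarith⟩
  have d0 : (0 : ℝ) ≤ (n - σ : ℕ) := Nat.cast_nonneg _
  have bd : ∀ (w : E → ℕ) (b : ℕ), (∀ ω, x ω ≠ 0 → ∑ e ∈ F ω, w e ≤ b) →
      ∑ e, ⌊((n - σ : ℕ) : ℝ) * pr x fun ω => e ∈ F ω⌋₊ * w e ≤ (n - σ) * b := by
    intro w b hb
    have a1 : ∑ e, (w e : ℝ) * pr x (fun ω => e ∈ F ω) ≤ b := by
      rw [rm_sum, ← one_mul (b : ℝ), ← hx.2, sum_mul]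
      refine sum_le_sum fun ω _ => ?_
      by_cases z : x ω = 0
      · simp [z]
      · exact mul_le_mul_of_nonneg_left (by exact_mod_cast hb ω z) (hx.1 ω)
    have a2 := mul_le_mul_of_nonneg_left a1 d0
    rw [mul_sum] at a2
    have a3 : ∑ e, (⌊((n - σ : ℕ) : ℝ) * pr x fun ω => e ∈ F ω⌋₊ : ℝ) * w e ≤
        ((n - σ : ℕ) : ℝ) * b := by
      refine le_trans (sum_le_sum fun e _ => ?_) a2
      rw [mul_left_comm, mul_comm]
      exact mul_le_mul_of_nonneg_left (Nat.floor_le (mul_nonneg d0 (p0 e))) (Nat.cast_nonneg _)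
    exact_mod_cast a3
  obtain ⟨M, m1, m2⟩ := rm_multi (s := s) (t := t) h
    (fun e => ⌊((n - σ : ℕ) : ℝ) * pr x fun ω => e ∈ F ω⌋₊) n σ (fun e he hst => he (by
      rw [pr_eq_zero fun ω z he => (isMatch_iff.1 (hF ω z)).1 e he hst]
      simp)) s2 (fun v => by
      have := bd (rmInc s t v) 1 fun ω z => (rm_deg _ v).symm.le.trans (hF ω z v)
      omega) (fun U hU => by
      refine (bd _ (U.card - 1) fun ω z => ?_).trans (Nat.mul_le_mul_right _ (Nat.sub_le _ _))
      have a := handshake (s := s) (t := t) (F ω) U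
      have b : ∑ v ∈ U, deg s t (F ω) v ≤ U.card := by
        simpa using sum_le_card_nsmul U _ 1 fun v _ => hF ω z v
      have c : ∑ e ∈ F ω, (if e ∈ ins s t U then 2 else 0) = 2 * (F ω ∩ ins s t U).card := by
        rw [inter_comm, card_inter_eq_sum, mul_sum]
        exact sum_congr rfl fun e _ => by split_ifs <;> rfl
      rw [Nat.odd_iff] at hU
      omega)
  refine ⟨fun i => M (Fintype.equivFin I i), fun i => m1 _, fun e => ?_⟩
  rw [cnt_equiv (Fintype.equivFin I) fun j => e ∈ M j, m2]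
  have a1 := Nat.floor_le (mul_nonneg d0 (p0 e))
  have a2 := Nat.lt_floor_add_one (((n - σ : ℕ) : ℝ) * pr x fun ω => e ∈ F ω)
  rw [Nat.cast_sub q] at a1 a2 ⊢
  have a3 := mul_nonneg (Nat.cast_nonneg σ : (0 : ℝ) ≤ σ) (p0 e)
  have a4 := mul_le_mul_of_nonneg_left (p1 e) (Nat.cast_nonneg σ : (0 : ℝ) ≤ σ)
  constructor <;> nlinarith

theorem rmb (h : S_RM) : S_RMB := by
  classical
  intro V E _ _ _ _ s t I Ω P _ _ x F S φ b L C hx hF hb hC
  set n := Fintype.card I with hn
  set D := C + √(n : ℝ) + 3 with hD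
  have r0 : 0 ≤ √(n : ℝ) := Real.sqrt_nonneg _
  have c0 : 0 ≤ C := by
    obtain ⟨ω, -⟩ := exists_ne_zero hx
    exact (abs_nonneg _).trans (hC (φ ω))
  have d0 : 0 ≤ D := by positivity
  have ex : ∀ a, ∃ N : I → Finset E, (∀ i, IsMatch s t (N i) ∧ N i ⊆ S) ∧ ∀ e,
      |(cnt fun i => b i = a ∧ e ∈ N i : ℝ) - n * pr x (fun ω => φ ω = a ∧ e ∈ F ω)| ≤ D := by
    intro a
    rcases (pr_nonneg hx.1 fun ω => φ ω = a).eq_or_lt with z | z
    · refine ⟨fun _ => ∅, fun _ => ⟨fun v => by simp, empty_subset _⟩, fun e => ?_⟩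
      have : pr x (fun ω => φ ω = a ∧ e ∈ F ω) = 0 :=
        le_antisymm ((pr_mono hx.1 fun _ _ h => h.1).trans z.ge) (pr_nonneg hx.1 _)
      rw [cnt_eq_zero (by simp), this]
      simpa using d0
    set μ := pr x fun ω => φ ω = a with hμ
    have e1 : ∀ A : Ω → Prop, pr (fun ω => if φ ω = a then x ω / μ else 0) A =
        pr x (fun ω => φ ω = a ∧ A ω) / μ := by
      intro A
      rw [pr_eq, pr_eq, sum_div]
      refine sum_congr rfl fun ω _ => ?_
      by_cases q1 : φ ω = a <;> by_cases q2 : A ω <;> simp [q1, q2]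
    have hp : IsProb fun ω => if φ ω = a then x ω / μ else 0 := by
      refine ⟨fun ω => ?_, ?_⟩
      · dsimp only
        split_ifs
        · exact div_nonneg (hx.1 ω) z.le
        · exact le_rfl
      · rw [← pr_true, e1]
        simp only [and_true]
        exact div_self z.ne'
    obtain ⟨M, m1, m2⟩ := h V E s t {i // b i = a} Ω _ F hp fun ω q =>
      (hF ω fun e => q (by simp [e])).1
    refine ⟨fun i => if q : b i = a then M ⟨i, q⟩ ∩ S else ∅, fun i => ?_, fun e => ?_⟩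
    · dsimp only
      split_ifs with q
      · exact ⟨(m1 _).mono inter_subset_left, inter_subset_right⟩
      · exact ⟨fun v => by simp, empty_subset _⟩
    by_cases q : e ∈ S
    swap
    · rw [cnt_eq_zero fun i hi => by simp [hi.1, q] at hi,
        pr_eq_zero fun ω z he => q ((hF ω z).2.1 he.2)]
      simpa using d0
    have a1 : cnt (fun i => b i = a ∧ e ∈ if q : b i = a then M ⟨i, q⟩ ∩ S else ∅) =
        cnt fun i => e ∈ M i := by
      rw [cnt_eq, cnt_eq]
      refine (card_bij (fun i _ => i.1) (fun i hi => ?_) (fun _ _ _ _ e => Subtype.ext e)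
        fun i hi => ?_).symm
      · simpa [i.2, q] using hi
      · have := (mem_filter.1 hi).2
        refine ⟨⟨i, this.1⟩, ?_, rfl⟩
        simpa [this.1, q] using this.2
    have a2 : Fintype.card {i // b i = a} = cnt fun i => b i = a := by
      rw [cnt_eq, Fintype.card_subtype]
    have a3 : √(Fintype.card {i // b i = a} : ℝ) ≤ √n :=
      Real.sqrt_le_sqrt (by exact_mod_cast Fintype.card_subtype_le _)
    obtain ⟨a4, a5⟩ := m2 e
    have y0 := pr_nonneg hp.1 fun ω => e ∈ F ω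
    have y1 := pr_le_one hp fun ω => e ∈ F ω
    have y2 : pr x (fun ω => φ ω = a ∧ e ∈ F ω) =
        μ * pr (fun ω => if φ ω = a then x ω / μ else 0) fun ω => e ∈ F ω := by
      rw [e1, mul_div_cancel₀ _ z.ne']
    have a6 := abs_le.1 (hC a)
    rw [← a2] at a6
    rw [a1, y2, abs_le]
    generalize (pr (fun ω => if φ ω = a then x ω / μ else 0) fun ω => e ∈ F ω) = y at *
    constructor <;> nlinarith [mul_le_mul_of_nonneg_right a6.1 y0,
      mul_le_mul_of_nonneg_right a6.2 y0, mul_le_mul_of_nonneg_left y1 c0]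
  choose N n1 n2 using ex
  have n3 : ∀ a e, |(cnt fun i => b i = a ∧ e ∈ N (b i) i : ℝ) -
      n * pr x (fun ω => φ ω = a ∧ e ∈ F ω)| ≤ D := fun a e => by
    rw [cnt_congr (Q := fun i => b i = a ∧ e ∈ N a i) fun i =>
      and_congr_right fun q => by rw [q]]
    exact n2 a e
  have f1 : ∀ A : I → Prop, (cnt A : ℝ) = ∑ a ∈ L, (cnt fun i => b i = a ∧ A i : ℝ) := fun A => by
    rw [← Nat.cast_sum, ← cnt_fiber, cnt_congr fun i => (and_iff_right (hb i))]
  have f2 : ∀ A : Ω → Prop, n * pr x A = ∑ a ∈ L, n * pr x fun ω => φ ω = a ∧ A ω := fun A => by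
    rw [← mul_sum, ← pr_fiber, pr_congr fun ω z => (and_iff_right (hF ω z).2.2)]
  have part1 : ∀ e, |(cnt fun i => e ∈ N (b i) i : ℝ) - n * pr x (fun ω => e ∈ F ω)| ≤
      L.card * D := fun e => by
    rw [f1, f2, ← sum_sub_distrib, ← nsmul_eq_mul]
    exact (abs_sum_le_sum_abs _ _).trans (sum_le_card_nsmul _ _ _ fun a _ => n3 a e)
  refine ⟨fun i => N (b i) i, fun i => n1 _ i, part1, fun e A => ?_, fun v => ?_⟩
  · rw [f1, f2, show 2 * (L.card : ℝ) * D = ∑ _a ∈ L, 2 * D by simp; ring, ← sum_add_distrib]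
    refine sum_le_sum fun a _ => ?_
    have a1 := abs_le.1 (n3 a e)
    by_cases q : A a
    · rw [cnt_congr (Q := fun i => b i = a ∧ ¬ e ∈ N (b i) i) fun i =>
        and_congr_right fun z => by simp [z, q], pr_congr (Q := fun ω => φ ω = a ∧ ¬ e ∈ F ω)
        fun ω _ => and_congr_right fun z => by simp [z, q]]
      have a2 := abs_le.1 (hC a)
      rw [cnt_split _ fun i => e ∈ N (b i) i, pr_split x _ fun ω => e ∈ F ω] at a2
      push_cast at a2
      linarith
    · rw [cnt_congr (Q := fun i => b i = a ∧ e ∈ N (b i) i) fun i =>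
        and_congr_right fun z => by simp [z, q], pr_congr (Q := fun ω => φ ω = a ∧ e ∈ F ω)
        fun ω _ => and_congr_right fun z => by simp [z, q]]
      linarith
  · rw [cnt_eq_pr, rm_zero _ _ v fun i _ => (n1 _ i).1, rm_zero _ _ v fun ω z => (hF ω z).1, hx.2]
    have a1 : (deg s t S v : ℝ) * L.card * D =
        ∑ e, if e ∈ S then (rmInc s t v e : ℝ) * (L.card * D) else 0 := by
      rw [rm_deg, mul_assoc, Nat.cast_sum, sum_mul]
      simp
    have a2 : ∑ e, (n * ((rmInc s t v e : ℝ) * pr x fun ω => e ∈ F ω) -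
        (rmInc s t v e : ℝ) * pr (fun _ => 1) fun i => e ∈ N (b i) i) ≤
        ∑ e, if e ∈ S then (rmInc s t v e : ℝ) * (L.card * D) else 0 := by
      refine sum_le_sum fun e _ => ?_
      rw [← cnt_eq_pr]
      split_ifs with q
      · have := mul_le_mul_of_nonneg_left (abs_le.1 (part1 e)).1
          (Nat.cast_nonneg (rmInc s t v e) : (0 : ℝ) ≤ _)
        linarith
      · rw [pr_eq_zero fun ω z he => q ((hF ω z).2.1 he),
          cnt_eq_zero fun i he => q ((n1 _ i).2 he)]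
        simp
    rw [sum_sub_distrib, ← mul_sum] at a2
    rw [a1]
    simp only [sum_const, card_univ, nsmul_eq_mul, mul_one]
    linarith

theorem rm_cont {Ω : Type} [Fintype Ω] (A : Ω → Prop) : Continuous fun μ : Ω → ℝ => pr μ A := by
  classical
  simp only [pr_eq]
  refine continuous_finsetSum _ fun ω _ => ?_
  split_ifs
  · exact continuous_apply ω
  · exact continuous_const

theorem cpt : S_CPT := by
  classical
  intro V E _ _ _ _ s t W η hη
  set δ := η / Fintype.card (Finset E) with hδ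
  have c0 : (0 : ℝ) < Fintype.card (Finset E) := by exact_mod_cast Fintype.card_pos
  have δ0 : 0 < δ := div_pos hη c0
  let f : (Finset E → ℝ) → ℝ := fun μ =>
    ∑ e ∈ univ.filter fun e => s e ∈ W ∨ t e ∈ W, |pr μ (fun M => e ∈ M) - 1 / 3|
  have f1 : Continuous f :=
    continuous_finsetSum _ fun e _ => ((rm_cont _).sub continuous_const).abs
  let K : Set (Finset E → ℝ) := stdSimplex ℝ (Finset E) ∩
    ({μ | ∀ M, (¬ ∀ v ∈ W, deg s t M v = 1) → μ M = 0} ∩ {μ | ∀ ν, Law s t W 0 ν → δ ≤ dist μ ν})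
  have k1 : IsCompact K := by
    refine (isCompact_stdSimplex ℝ _).inter_right (IsClosed.inter ?_ ?_)
    · simp only [Set.ofPred_forall]
      exact isClosed_iInter fun M => isClosed_iInter fun _ =>
        isClosed_eq (continuous_apply M) continuous_const
    · simp only [Set.ofPred_forall]
      exact isClosed_iInter fun ν => isClosed_iInter fun _ =>
        isClosed_le continuous_const (by fun_prop)
  obtain ⟨r, r0, hr⟩ : ∃ r : ℝ, 0 < r ∧ ∀ μ ∈ K, r ≤ f μ := by
    rcases K.eq_empty_or_nonempty with e | e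
    · exact ⟨1, one_pos, by simp [e]⟩
    obtain ⟨μ, ⟨m1, m2, m3⟩, hm⟩ := k1.exists_isMinOn e f1.continuousOn
    refine ⟨f μ, lt_of_le_of_ne (sum_nonneg fun _ _ => abs_nonneg _) fun z => ?_, hm⟩
    have := m3 μ ⟨m1, fun M hM => by_contra fun q => hM (m2 M q), fun e he =>
      ((sum_eq_zero_iff_of_nonneg fun _ _ => abs_nonneg _).1 z.symm e (by simpa using he)).le⟩
    rw [dist_self] at this
    exact absurd this δ0.not_ge
  refine ⟨r / (Fintype.card E + 1), by positivity, fun μ hμ => ?_⟩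
  have a1 : f μ < r := by
    refine (sum_le_card_nsmul _ _ _ fun e he => hμ.2.2 e (mem_filter.1 he).2).trans_lt ?_
    have : ((univ.filter fun e => s e ∈ W ∨ t e ∈ W).card : ℝ) ≤ Fintype.card E := by
      exact_mod_cast card_le_univ _
    rw [nsmul_eq_mul, ← mul_div_assoc, div_lt_iff₀ (by positivity)]
    nlinarith
  by_contra hn
  refine a1.not_ge (hr μ ⟨hμ.1, fun M hM => by_contra fun q => hM (hμ.2.1 M q), fun ν hν => ?_⟩)
  by_contra q
  refine hn ⟨ν, hν, fun A => ?_⟩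
  rw [pr_eq, pr_eq, ← sum_sub_distrib]
  refine (abs_sum_le_sum_abs _ _).trans ((sum_le_card_nsmul _ _ δ fun M _ => ?_).trans ?_)
  · split_ifs
    · exact (dist_le_pi_dist μ ν M).trans (not_le.1 q).le
    · simpa using δ0.le
  · rw [nsmul_eq_mul, card_univ, hδ, mul_div_cancel₀ _ c0.ne']

theorem pm (h : S_GL) (h2 : S_CPT) : S_PM := by
  classical
  intro V E _ _ _ _ s t hc he
  obtain ⟨ρ, ρ0, hρ⟩ := h2 V E s t univ 1 one_pos
  suffices ∃ μ, Law s t univ ρ μ by
    obtain ⟨μ, hμ⟩ := this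
    obtain ⟨ν, hν, -⟩ := hρ μ hμ
    exact ⟨ν, hν⟩
  set N := Fintype.card V with hN
  obtain ⟨j, hj⟩ := exists_nat_gt (N + (3 * N + 1) / ρ)
  set σ := 3 * j + 2 with hσ
  have inc : ∀ v, ∑ e, rmInc s t v e = 3 := fun v => (rm_deg _ v).symm.trans (hc.2 v)
  obtain ⟨M, m1, m2⟩ := rm_multi (s := s) (t := t) h (fun _ => σ * j) (σ * (3 * j + 1)) σ
    (fun e _ => hc.1 e) le_rfl (fun v => by
      rw [← mul_sum, inc]
      exact le_of_eq (by ring)) (fun U hU => by
      have a := handshake (s := s) (t := t) univ U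
      simp only [hc.2, sum_const, smul_eq_mul, univ_inter] at a
      have b := hc.cut_parity U
      have c : ∑ e, (if e ∈ ins s t U then 2 else 0) = 2 * (ins s t U).card := by
        rw [← inter_univ (ins s t U), card_inter_eq_sum, mul_sum, inter_univ]
        exact sum_congr rfl fun e _ => by split_ifs <;> rfl
      rw [Nat.odd_iff] at hU
      rw [Nat.even_iff] at b
      have d := he U (card_pos.1 (by omega)) (by
        rintro rfl
        rw [cut_univ, card_empty] at b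
        omega)
      rw [← mul_sum, c]
      calc σ * j * (2 * (ins s t U).card) ≤ σ * j * (3 * (U.card - 1)) :=
            Nat.mul_le_mul_left _ (by omega)
        _ = σ * (3 * j) * (U.card - 1) := by ring
        _ ≤ _ := by gcongr; omega)
  have miss : ∀ v, (cnt fun i => deg s t (M i) v = 0) = σ := fun v => by
    have := rm_zero (fun _ => 1) M v fun i _ => m1 i
    simp only [← cnt_eq_pr, m2, ← sum_mul, ← Nat.cast_sum, inc] at this
    have e : ((cnt fun i => deg s t (M i) v = 0 : ℕ) : ℝ) = σ := by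
      rw [this]
      simp
      ring
    exact_mod_cast e
  let G : Fin (σ * (3 * j + 1)) → Prop := fun i => ∀ v, deg s t (M i) v = 1
  have bad : cnt (fun i => ¬ G i) ≤ N * σ := by
    refine (cnt_mono (Q := fun i => ∃ v ∈ univ, deg s t (M i) v = 0) fun i hi => ?_).trans
      ((cnt_exists_le _ _).trans (by simp [miss, hN]))
    obtain ⟨v, hv⟩ := not_forall.1 hi
    have := m1 i v
    exact ⟨v, mem_univ _, by omega⟩
  have b1 : (cnt fun i => ¬ G i : ℝ) ≤ N * σ := by exact_mod_cast bad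
  have g1 : (cnt G : ℝ) + cnt (fun i => ¬ G i) = σ * (3 * j + 1) := by
    have := cnt_add_not G
    rw [Fintype.card_fin] at this
    exact_mod_cast this
  have N0 : (0 : ℝ) ≤ N := Nat.cast_nonneg _
  have σ0 : (0 : ℝ) < σ := by positivity
  have j1 : 3 * N + 1 < (j - N) * ρ := (div_lt_iff₀ ρ0).1 (by linarith)
  have j2 : (N : ℝ) < j := by
    have : 0 ≤ (3 * N + 1) / ρ := by positivity
    linarith
  have g2 : (σ : ℝ) * (j - N) ≤ cnt G := by nlinarith
  have g0 : (0 : ℝ) < cnt G := (mul_pos σ0 (sub_pos.2 j2)).trans_le g2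
  have e1 : ∀ A : Finset E → Prop, pr (fun a => (cnt fun i => M i = a ∧ G i : ℝ) / cnt G) A =
      (cnt fun i => A (M i) ∧ G i : ℝ) / cnt G := fun A => by
    rw [pr_eq_filter, ← sum_div, ← Nat.cast_sum, ← cnt_fiber]
    simp
  refine ⟨fun a => (cnt fun i => M i = a ∧ G i : ℝ) / cnt G, ⟨fun a => by positivity, ?_⟩,
    fun a ha v _ => ?_, fun e _ => ?_⟩
  · rw [← pr_true, e1]
    simp only [true_and]
    exact div_self g0.ne'
  · by_contra q
    refine ha ?_
    have : cnt (fun i => M i = a ∧ G i) = 0 := cnt_eq_zero fun i hi => q (hi.1 ▸ hi.2 v)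
    simp [this]
  · have a1 := cnt_split (fun i => e ∈ M i) G
    rw [m2] at a1
    have a2 : (σ : ℝ) * j = cnt (fun i => e ∈ M i ∧ G i) + cnt fun i => e ∈ M i ∧ ¬ G i := by
      exact_mod_cast a1
    have a3 : (cnt fun i => e ∈ M i ∧ ¬ G i : ℝ) ≤ cnt fun i => ¬ G i := by
      exact_mod_cast cnt_mono (P := fun i => e ∈ M i ∧ ¬ G i) fun i hi => hi.2
    have a4 : (0 : ℝ) ≤ cnt fun i => e ∈ M i ∧ ¬ G i := Nat.cast_nonneg _
    have a5 : (0 : ℝ) ≤ cnt fun i => ¬ G i := Nat.cast_nonneg _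
    have a6 : (σ : ℝ) * (3 * N + 1) ≤ ρ * cnt G := by
      nlinarith [mul_le_mul_of_nonneg_left g2 ρ0.le, mul_le_mul_of_nonneg_left j1.le σ0.le]
    have a7 := mul_pos ρ0 g0
    rw [e1, abs_le, le_sub_iff_add_le, sub_le_iff_le_add, le_div_iff₀ g0, div_le_iff₀ g0]
    constructor <;> nlinarith

end Pool.Agent.P.MP_40718a_co.ABF
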