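import Pool.Agent.P.MP_40718a_co.ABF.Glue0
import Pool.Agent.P.MP_40718a_co.ABF.RM
import Pool.Agent.P.MP_40718a_co.ABF.GLb3

namespace Pool.Agent.P.MP_40718a_co.ABF

theorem main_ex : S_EX := glue0 (rmb (rm GL2.gl)) cpt (pm GL2.gl cpt)

end Pool.Agent.P.MP_40718a_co.ABF
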