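import Pool.Agent.P.MP_40718a_co.ABF.Basic

namespace Pool.Agent.P.MP_40718a_co.ABF

open Finset

section MC

variable {V E : Type} [Fintype V] [Fintype E] [DecidableEq V] [DecidableEq E] {s t : E → V}

/-- every vertex of `S` lies in a connected set whose cut is inside the cut of `S` -/
theorem mc_comp (S : Finset V) (v : V) (hv : v ∈ S) :
    ∃ C ⊆ S, v ∈ C ∧ Conn s t C ∧ cut s t C ⊆ cut s t S := by
  classical
  obtain ⟨C, hC, hmin⟩ := exists_min_image
    (univ.filter fun C : Finset V => C ⊆ S ∧ v ∈ C ∧ cut s t C ⊆ cut s t S) card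
    ⟨S, by simp [hv]⟩
  simp only [mem_filter, mem_univ, true_and] at hC hmin
  obtain ⟨hCS, hvC, hcut⟩ := hC
  refine ⟨C, hCS, hvC, ?_, hcut⟩
  intro X hX hne hne'
  by_contra h0
  rw [not_nonempty_iff_eq_empty] at h0
  have h1 : ∀ e, e ∈ cut s t X → e ∉ ins s t C := fun e a b => by
    have : e ∈ cut s t X ∩ ins s t C := mem_inter.2 ⟨a, b⟩
    rw [h0] at this; exact notMem_empty _ this
  by_cases hvX : v ∈ X
  · have := hmin X ⟨hX.trans hCS, hvX, fun e he => hcut (by
      have := h1 e he
      have a := @hX (s e)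
      have b := @hX (t e)
      rw [mem_cut] at he ⊢; rw [mem_ins] at this; tauto)⟩
    exact hne' (eq_of_subset_of_card_le hX this)
  · have := hmin (C \ X) ⟨sdiff_subset.trans hCS, mem_sdiff.2 ⟨hvC, hvX⟩, fun e he => hcut (by
      have := h1 e
      rw [mem_cut, mem_ins] at this
      rw [mem_cut, mem_sdiff, mem_sdiff] at he
      rw [mem_cut]; tauto)⟩
    have h2 : C \ X = C := eq_of_subset_of_card_le sdiff_subset this
    obtain ⟨x, hx⟩ := hne
    have : x ∈ C \ X := by rw [h2]; exact hX hx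
    exact (mem_sdiff.1 this).2 hx

theorem mc_disj {S C C' : Finset V} (h1 : C ⊆ S) (h2 : Conn s t C)
    (h3 : cut s t C' ⊆ cut s t S) (h : ¬ Disjoint C C') : C ⊆ C' := by
  by_contra hc
  obtain ⟨e, he⟩ := h2 (C ∩ C') inter_subset_left (not_disjoint_iff_nonempty_inter.1 h)
    (fun e => hc (by rw [← e]; exact inter_subset_right))
  have a := @h1 (s e)
  have b := @h1 (t e)
  have d := @h3 e
  simp only [mem_inter, mem_cut, mem_ins] at he d
  tauto

/-- the components of a family of pairwise disjoint sets -/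
theorem mc_comps (𝒮 : Finset (Finset V))
    (h : ∀ S ∈ 𝒮, ∀ S' ∈ 𝒮, S ≠ S' → Disjoint S S') :
    ∃ Q : Finset (Finset V),
      (∀ C ∈ Q, C.Nonempty ∧ Conn s t C ∧ ∃ S ∈ 𝒮, C ⊆ S ∧ cut s t C ⊆ cut s t S) ∧
      (∀ S ∈ 𝒮, ∀ v ∈ S, ∃ C ∈ Q, v ∈ C) ∧ ∀ C ∈ Q, ∀ C' ∈ Q, C ≠ C' → Disjoint C C' := by
  classical
  refine ⟨univ.filter fun C => C.Nonempty ∧ Conn s t C ∧
    ∃ S ∈ 𝒮, C ⊆ S ∧ cut s t C ⊆ cut s t S, fun C hC => (mem_filter.1 hC).2, ?_, ?_⟩
  · intro S hS v hv
    obtain ⟨C, h1, h2, h3, h4⟩ := mc_comp (s := s) (t := t) S v hv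
    exact ⟨C, mem_filter.2 ⟨mem_univ _, ⟨v, h2⟩, h3, S, hS, h1, h4⟩, h2⟩
  · intro C hC C' hC' hne
    obtain ⟨-, -, a1, S, hS, a2, a3⟩ := mem_filter.1 hC
    obtain ⟨-, -, b1, S', hS', b2, b3⟩ := mem_filter.1 hC'
    by_contra hd
    by_cases e : S = S'
    · subst e
      exact hne (Subset.antisymm (mc_disj a2 a1 b3 hd) (mc_disj b2 b1 a3 fun x => hd x.symm))
    · exact hd ((h S hS S' hS' e).mono a2 b2)

omit [Fintype V] in
theorem mc_hit (Q : Finset (Finset V)) (T : Finset V)
    (h : ∀ C ∈ Q, ∀ C' ∈ Q, C ≠ C' → Disjoint C C') (h' : ∀ C ∈ Q, ∃ v ∈ T, v ∈ C) :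
    Q.card ≤ T.card := by
  classical
  rcases Q.eq_empty_or_nonempty with rfl | ⟨C₀, h0⟩
  · simp
  have : Nonempty V := ⟨(h' C₀ h0).choose⟩
  choose! f hf using h'
  refine card_le_card_of_injOn f (fun C hC => (hf C hC).1) fun C hC C' hC' e => ?_
  by_contra hne
  exact disjoint_left.1 (h C hC C' hC' hne) (hf C hC).2 (e ▸ (hf C' hC').2)

end MC

theorem mc : S_MC := by
  intro V E _ _ _ _ s t c W hc hcub hec hW hW2
  classical
  have hex : Parts s t c W (W.image fun v => {v}) := by
    refine ⟨fun y hy => ?_, fun v hv => ⟨{v}, mem_image_of_mem _ hv, mem_singleton_self v⟩, ?_⟩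
    · obtain ⟨v, hv, rfl⟩ := mem_image.1 hy
      refine ⟨by simpa using hv, fun e => ?_, singleton_nonempty v, conn_singleton v, ?_⟩
      · rw [← e] at hW2; simp at hW2
      · rw [hcub.card_cut_singleton]; exact hc
    · intro y hy y' hy' hne
      obtain ⟨v, hv, rfl⟩ := mem_image.1 hy
      obtain ⟨v', hv', rfl⟩ := mem_image.1 hy'
      simpa using hne
  obtain ⟨P, hP, hPmin⟩ := exists_min_image
    (univ.filter fun P : Finset (Finset V) => Parts s t c W P) card
    ⟨_, mem_filter.2 ⟨mem_univ _, hex⟩⟩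
  simp only [mem_filter, mem_univ, true_and] at hP hPmin
  refine ⟨P, hP, fun D hD hDW hDc => ?_⟩
  obtain ⟨hP1, hP2, hP3⟩ := hP
  obtain ⟨D', hD', hDmin⟩ := exists_min_image
    (univ.filter fun D' : Finset V => D' ⊆ D ∧ (∀ y ∈ P, y ⊆ D → y ⊆ D') ∧
      (cut s t D').card ≤ c) card ⟨D, by simp [hDc]⟩
  simp only [mem_filter, mem_univ, true_and] at hD' hDmin
  obtain ⟨d1, d2, d3⟩ := hD'
  have hz : ∀ z ∈ P, (cut s t (z \ D')).card ≤ c := by
    intro z hz
    by_cases h1 : z ⊆ D'
    · rw [sdiff_eq_empty_iff_subset.2 h1]; simp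
    by_cases h2 : Disjoint z D'
    · rw [sdiff_eq_self_of_disjoint h2]; exact (hP1 z hz).2.2.2.2
    have h3 : c < (cut s t (D' \ z)).card := by
      by_contra h3
      have := hDmin (D' \ z) ⟨sdiff_subset.trans d1, fun y hy hyD => subset_sdiff.2
        ⟨d2 y hy hyD, hP3 y hy z hz fun e => h1 (e ▸ d2 y hy hyD)⟩, not_lt.1 h3⟩
      have h4 : D' \ z = D' := eq_of_subset_of_card_le sdiff_subset this
      exact h2 (by rw [← h4]; exact disjoint_sdiff)
    have h4 := posimod (s := s) (t := t) univ D' z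
    simp only [inter_univ] at h4
    have := (hP1 z hz).2.2.2.2
    omega
  obtain ⟨Q, q1, q2, q3⟩ := mc_comps (s := s) (t := t) (insert D' (P.image fun z => z \ D')) (by
    intro S hS S' hS' hne
    rcases mem_insert.1 hS with rfl | hS <;> rcases mem_insert.1 hS' with rfl | hS'
    · exact absurd rfl hne
    · obtain ⟨z, -, rfl⟩ := mem_image.1 hS'
      exact disjoint_sdiff
    · obtain ⟨z, -, rfl⟩ := mem_image.1 hS
      exact sdiff_disjoint
    · obtain ⟨z, hz, rfl⟩ := mem_image.1 hS
      obtain ⟨z', hz', rfl⟩ := mem_image.1 hS'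
      exact (hP3 z hz z' hz' fun e => hne (by rw [e])).mono sdiff_subset sdiff_subset)
  have hD'W : D' ⊆ W := d1.trans hD
  have hQ : Parts s t c W Q := by
    refine ⟨fun C hC => ?_, fun v hv => ?_, q3⟩
    · obtain ⟨a1, a2, S, hS, a3, a4⟩ := q1 C hC
      rcases mem_insert.1 hS with rfl | hS
      · refine ⟨a3.trans hD'W, fun e => hDW (Subset.antisymm hD ?_), a1, a2,
          (card_le_card a4).trans d3⟩
        rw [← e]; exact a3.trans d1
      · obtain ⟨z, hzP, rfl⟩ := mem_image.1 hS
        have b := hP1 z hzP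
        refine ⟨(a3.trans sdiff_subset).trans b.1, fun e => b.2.1 (Subset.antisymm b.1 ?_), a1, a2,
          (card_le_card a4).trans (hz z hzP)⟩
        rw [← e]; exact a3.trans sdiff_subset
    · by_cases h : v ∈ D'
      · exact q2 D' (mem_insert_self _ _) v h
      · obtain ⟨y, hy, hvy⟩ := hP2 v hv
        exact q2 (y \ D') (mem_insert_of_mem (mem_image_of_mem _ hy)) v (mem_sdiff.2 ⟨hvy, h⟩)
  have hle := hPmin Q hQ
  set T : Finset V := (cut s t D').image s ∪ (cut s t D').image t with hT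
  have hTc : T.card ≤ 2 * c := by
    have a := card_union_le ((cut s t D').image s) ((cut s t D').image t)
    have b : ((cut s t D').image s).card ≤ _ := card_image_le
    have d : ((cut s t D').image t).card ≤ _ := card_image_le
    rw [hT]; omega
  have hend : ∀ (C : Finset V) e, e ∈ cut s t C → e ∈ cut s t D' → ∃ v ∈ T, v ∈ C := by
    intro C e h1 h2
    by_cases h : s e ∈ C
    · exact ⟨s e, mem_union_left _ (mem_image_of_mem _ h2), h⟩
    · refine ⟨t e, mem_union_right _ (mem_image_of_mem _ h2), ?_⟩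
      rw [mem_cut] at h1; tauto
  have hsub : Q ⊆ (P.filter fun y => Disjoint y D') ∪ Q.filter fun C => ∃ v ∈ T, v ∈ C := by
    intro C hC
    obtain ⟨a1, a2, S, hS, a3, a4⟩ := q1 C hC
    rcases mem_insert.1 hS with rfl | hS
    · have : 1 ≤ (cut s t C).card := hec C a1 fun e => hW (univ_subset_iff.1 (by
        rw [← e]; exact a3.trans hD'W))
      obtain ⟨e, he⟩ := card_pos.1 this
      exact mem_union_right _ (mem_filter.2 ⟨hC, hend C e he (a4 he)⟩)
    · obtain ⟨z, hzP, rfl⟩ := mem_image.1 hS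
      by_cases h : C = z
      · subst h
        exact mem_union_left _ (mem_filter.2 ⟨hzP, (subset_sdiff.1 a3).2⟩)
      · obtain ⟨e, he⟩ := (hP1 z hzP).2.2.2.1 C (a3.trans sdiff_subset) a1 h
        obtain ⟨e1, e2⟩ := mem_inter.1 he
        refine mem_union_right _ (mem_filter.2 ⟨hC, hend C e e1 ?_⟩)
        have e3 := a4 e1
        simp only [mem_cut, mem_ins, mem_sdiff] at e2 e3 ⊢
        tauto
  have h1 := (card_le_card hsub).trans (card_union_le _ _)
  have h2 := mc_hit (Q.filter fun C => ∃ v ∈ T, v ∈ C) T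
    (fun C hC C' hC' => q3 C (mem_filter.1 hC).1 C' (mem_filter.1 hC').1)
    fun C hC => (mem_filter.1 hC).2
  have h3 : (P.filter fun y => y ⊆ D).card + (P.filter fun y => Disjoint y D').card ≤ P.card := by
    rw [← card_union_of_disjoint]
    · exact card_le_card (union_subset (filter_subset _ _) (filter_subset _ _))
    · rw [disjoint_left]
      intro y a b
      rw [mem_filter] at a b
      obtain ⟨v, hv⟩ := (hP1 y a.1).2.2.1
      exact disjoint_left.1 b.2 hv (d2 y a.1 a.2 hv)
  omega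

section WH

open SimpleGraph

variable {α : Type} {G : SimpleGraph α}

/-- the first vertex of a walk in a set -/
theorem wh_first (S : α → Prop) {w a : α} (R : G.Walk w a) (ha : S a) :
    ∃ x, S x ∧ ∃ R' : G.Walk w x, (∀ z ∈ R'.support, z ∈ R.support) ∧
      ∀ z ∈ R'.support, S z → z = x := by
  induction R with
  | nil => exact ⟨_, ha, Walk.nil, fun _ h => h, fun z hz _ => by simpa using hz⟩
  | @cons u v a h R ih =>
    by_cases hu : S u
    · exact ⟨u, hu, Walk.nil, fun z hz => by simp at hz; simp [hz], fun z hz _ => by simpa using hz⟩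
    · obtain ⟨x, hx, R', h1, h2⟩ := ih ha
      refine ⟨x, hx, Walk.cons h R', fun z hz => ?_, fun z hz hS => ?_⟩
      · rw [Walk.support_cons, List.mem_cons] at hz ⊢
        exact hz.imp id (h1 z)
      · rw [Walk.support_cons, List.mem_cons] at hz
        rcases hz with rfl | hz
        · exact absurd hS hu
        · exact h2 z hz hS

/-- two walks whose common vertices lie on every walk -/
def wh_Good (G : SimpleGraph α) (a b : α) : Prop :=
  ∃ p q : G.Walk a b, ∀ z ∈ p.support, z ∈ q.support → ∀ w : G.Walk a b, z ∈ w.support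

theorem wh_path {a b : α} (h : wh_Good G a b) : ∃ p q : G.Walk a b, p.IsPath ∧ q.IsPath ∧
    ∀ z ∈ p.support, z ∈ q.support → ∀ w : G.Walk a b, z ∈ w.support := by
  classical
  obtain ⟨p, q, h⟩ := h
  exact ⟨p.bypass, q.bypass, p.bypass_isPath, q.bypass_isPath, fun z h1 h2 =>
    h z (p.support_bypass_subset_support h1) (q.support_bypass_subset_support h2)⟩

theorem wh_aux {a v w x : α} (hvw : G.Adj v w) (p q : G.Walk a v) (hp : p.IsPath)
    (h : ∀ z ∈ p.support, z ∈ q.support → ∀ r : G.Walk a v, z ∈ r.support)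
    (hx : x ∈ p.support) (R : G.Walk w x) (hv : v ∉ R.support)
    (hR : ∀ z ∈ R.support, z ∈ q.support → z = x) : wh_Good G a w := by
  classical
  have hxv : v ≠ x := fun e => hv (e ▸ R.end_mem_support)
  refine ⟨(p.takeUntil x hx).append R.reverse, q.concat hvw, fun z h1 h2 r => ?_⟩
  rw [Walk.support_concat, List.mem_append, List.mem_singleton] at h2
  rcases h2 with h2 | rfl
  swap
  · exact r.end_mem_support
  have h3 : z ∈ (p.takeUntil x hx).support := by
    rw [Walk.mem_support_append_iff, Walk.support_reverse, List.mem_reverse] at h1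
    rcases h1 with h1 | h1
    · exact h1
    · rw [hR z h1 h2]; exact Walk.end_mem_support _
  have h4 := h z (p.support_takeUntil_subset_support hx h3) h2 (r.concat hvw.symm)
  rw [Walk.support_concat, List.mem_append, List.mem_singleton] at h4
  rcases h4 with h4 | rfl
  · exact h4
  · exact absurd h3 (Walk.endpoint_notMem_support_takeUntil hp hx hxv)

theorem wh_step {a v w : α} (hvw : G.Adj v w) (h : wh_Good G a v) : wh_Good G a w := by
  obtain ⟨p, q, hp, hq, h⟩ := wh_path h
  by_cases hall : ∀ r : G.Walk a w, v ∈ r.support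
  · refine ⟨p.concat hvw, q.concat hvw, fun z h1 h2 r => ?_⟩
    rw [Walk.support_concat, List.mem_append, List.mem_singleton] at h1 h2
    rcases h1 with h1 | rfl
    swap
    · exact r.end_mem_support
    rcases h2 with h2 | rfl
    swap
    · exact r.end_mem_support
    have h4 := h z h1 h2 (r.concat hvw.symm)
    rw [Walk.support_concat, List.mem_append, List.mem_singleton] at h4
    rcases h4 with h4 | rfl
    · exact h4
    · exact hall r
  · push Not at hall
    obtain ⟨r, hr⟩ := hall
    obtain ⟨x, hx, R, h1, h2⟩ := wh_first (fun z => z ∈ p.support ∨ z ∈ q.support) r.reverse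
      (Or.inl p.start_mem_support)
    have hv : v ∉ R.support := fun e => hr (by simpa using h1 v e)
    rcases hx with hx | hx
    · exact wh_aux hvw p q hp h hx R hv fun z a b => h2 z a (Or.inr b)
    · exact wh_aux hvw q p hq (fun z a b => h z b a) hx R hv fun z a b => h2 z a (Or.inl b)

end WH

theorem wh : S_WH := by
  intro α G a b hab
  have : wh_Good G a b := by
    rw [SimpleGraph.reachable_iff_reflTransGen] at hab
    induction hab with
    | refl => exact ⟨.nil, .nil, fun z hz _ w => by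
        have : z = a := by simpa using hz
        rw [this]; exact w.start_mem_support⟩
    | tail _ h ih => exact wh_step h ih
  obtain ⟨p, q, hp, hq, h⟩ := wh_path this
  exact ⟨p, q, hp, hq, fun z a b => Or.inr (Or.inr (h z a b))⟩

end Pool.Agent.P.MP_40718a_co.ABF
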