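import Pool.Agent.P.MP_40718a_co.ABF.Basic

set_option linter.unusedSectionVars false

namespace Pool.Agent.P.MP_40718a_co.ABF

open Finset

section Ball

variable {α : Type} [DecidableEq α]

/-- points within `k` steps of `S` -/
def plBall (nb : α → Finset α) (S : Finset α) : ℕ → Finset α
  | 0 => S
  | k + 1 => plBall nb S k ∪ (plBall nb S k).biUnion nb

/-- the neighbour function after deleting `D` -/
def plOff (nb : α → Finset α) (D : Finset α) (y : α) : Finset α :=
  if y ∈ D then ∅ else nb y \ D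

variable {nb nb' : α → Finset α} {S S' D : Finset α}

theorem plBall_succ (k : ℕ) {a : α} :
    a ∈ plBall nb S (k + 1) ↔ a ∈ plBall nb S k ∨ ∃ b ∈ plBall nb S k, a ∈ nb b := by
  simp [plBall]

theorem plBall_card {c : ℕ} (h : ∀ a, (nb a).card ≤ c) (k : ℕ) :
    (plBall nb S k).card ≤ S.card * (c + 1) ^ k := by
  induction k with
  | zero => simp [plBall]
  | succ k ih =>
    have h1 : ((plBall nb S k).biUnion nb).card ≤ (plBall nb S k).card * c :=
      card_biUnion_le_card_mul _ _ _ fun a _ => h a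
    have h2 := card_union_le (plBall nb S k) ((plBall nb S k).biUnion nb)
    calc (plBall nb S (k + 1)).card ≤ (plBall nb S k).card * (c + 1) := by
          simp only [plBall]; rw [mul_add, mul_one]; omega
      _ ≤ S.card * (c + 1) ^ k * (c + 1) := Nat.mul_le_mul_right _ ih
      _ = S.card * (c + 1) ^ (k + 1) := by ring

theorem plBall_mono_k {j k : ℕ} (h : j ≤ k) : plBall nb S j ⊆ plBall nb S k := by
  induction h with
  | refl => exact Subset.refl _
  | step _ ih => exact ih.trans subset_union_left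

theorem plBall_self (k : ℕ) : S ⊆ plBall nb S k := plBall_mono_k (nb := nb) (Nat.zero_le k)

theorem plBall_mono (h : ∀ a, nb a ⊆ nb' a) (hS : S ⊆ S') (k : ℕ) :
    plBall nb S k ⊆ plBall nb' S' k := by
  induction k with
  | zero => exact hS
  | succ k ih =>
    intro a ha
    rw [plBall_succ] at ha ⊢
    rcases ha with ha | ⟨b, hb, ha⟩
    · exact Or.inl (ih ha)
    · exact Or.inr ⟨b, ih hb, h b ha⟩

theorem plBall_add (j k : ℕ) : plBall nb (plBall nb S j) k = plBall nb S (j + k) := by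
  induction k with
  | zero => rfl
  | succ k ih => rw [← add_assoc]; simp only [plBall, ih]

theorem plBall_sub {K : Finset α} (hS : S ⊆ K) (h : ∀ a ∈ K, nb a ⊆ K) (k : ℕ) :
    plBall nb S k ⊆ K := by
  induction k with
  | zero => exact hS
  | succ k ih =>
    intro a ha
    rw [plBall_succ] at ha
    rcases ha with ha | ⟨b, hb, ha⟩
    · exact ih ha
    · exact h b (ih hb) ha

theorem plBall_symm (h : ∀ a b, b ∈ nb a → a ∈ nb b) (k : ℕ) :
    ∀ a b, b ∈ plBall nb {a} k → a ∈ plBall nb {b} k := by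
  induction k with
  | zero => intro a b hb; simp only [plBall, mem_singleton] at hb ⊢; exact hb.symm
  | succ k ih =>
    intro a b hb
    rw [plBall_succ] at hb
    rcases hb with hb | ⟨x, hx, hb⟩
    · exact plBall_mono_k (Nat.le_succ k) (ih a b hb)
    · have h1 : x ∈ plBall nb {b} 1 := by
        rw [plBall_succ]; exact Or.inr ⟨b, by simp [plBall], h x b hb⟩
      have h2 := plBall_mono (nb := nb) (fun _ => Subset.refl _) (singleton_subset_iff.2 h1) k
        (ih a x hx)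
      rw [plBall_add, add_comm] at h2
      exact h2

theorem plBall_closed (k : ℕ) (h : (plBall nb S k).card < S.card + k) :
    ∀ a ∈ plBall nb S k, nb a ⊆ plBall nb S k := by
  induction k with
  | zero => simp [plBall] at h
  | succ k ih =>
    by_cases h1 : (plBall nb S k).card < S.card + k
    · have h2 : plBall nb S (k + 1) = plBall nb S k := by
        refine Subset.antisymm ?_ subset_union_left
        intro a ha
        rw [plBall_succ] at ha
        rcases ha with ha | ⟨b, hb, ha⟩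
        · exact ha
        · exact ih h1 b hb ha
      rw [h2]; exact ih h1
    · have h2 : plBall nb S k = plBall nb S (k + 1) :=
        eq_of_subset_of_card_le subset_union_left (by omega)
      intro a ha b hb
      rw [← h2] at ha
      exact (plBall_succ k).2 (Or.inr ⟨a, ha, hb⟩)

theorem mem_plOff {a b : α} : b ∈ plOff nb D a ↔ a ∉ D ∧ b ∈ nb a ∧ b ∉ D := by
  unfold plOff
  by_cases h : a ∈ D <;> simp [h]

theorem plOff_sub (a : α) : plOff nb D a ⊆ nb a := fun _ hb => (mem_plOff.1 hb).2.1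

theorem plOff_symm (h : ∀ a b, b ∈ nb a → a ∈ nb b) (a b : α) (hb : b ∈ plOff nb D a) :
    a ∈ plOff nb D b := by
  rw [mem_plOff] at hb ⊢
  exact ⟨hb.2.2, h a b hb.2.1, hb.1⟩

theorem plBall_off_notMem {a : α} (ha : a ∉ D) (k : ℕ) : ∀ b ∈ plBall (plOff nb D) {a} k, b ∉ D := by
  induction k with
  | zero => intro b hb; simp only [plBall, mem_singleton] at hb; rw [hb]; exact ha
  | succ k ih =>
    intro b hb
    rw [plBall_succ] at hb
    rcases hb with hb | ⟨x, _, hb⟩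
    · exact ih b hb
    · exact (mem_plOff.1 hb).2.2

/-- a small component off `D` is near `D` -/
theorem plBall_near {P : Finset α} (hP : ∀ a, nb a ⊆ P)
    (hc : ∀ K ⊆ P, K.Nonempty → (∀ a ∈ K, nb a ⊆ K) → K = P) {a d : α} (ha : a ∈ P) (haD : a ∉ D)
    (hd : d ∈ D) (hdP : d ∈ P) {k : ℕ} (h : (plBall (plOff nb D) {a} k).card ≤ k) :
    ∃ d ∈ D, d ∈ plBall nb {a} (k + 1) := by
  by_contra hne
  push Not at hne
  have hcl := plBall_closed (nb := plOff nb D) (S := {a}) k (by rw [card_singleton]; omega)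
  have hsub : plBall (plOff nb D) {a} k ⊆ P :=
    plBall_sub (singleton_subset_iff.2 ha) (fun b _ => (plOff_sub b).trans (hP b)) k
  have := hc _ hsub ⟨a, plBall_self k (mem_singleton_self a)⟩ (by
    intro b hb x hx
    refine hcl b hb (mem_plOff.2 ⟨plBall_off_notMem haD k b hb, hx, fun hxD => hne x hxD ?_⟩)
    exact (plBall_succ k).2 (Or.inr ⟨b, plBall_mono plOff_sub (Subset.refl _) k hb, hx⟩))
  rw [← this] at hdP
  exact plBall_off_notMem haD k d hdP hd

end Ball

section Torso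

variable {V E : Type} [Fintype V] [Fintype E] [DecidableEq V] [DecidableEq E] {s t : E → V}

/-- neighbours in the torso -/
def plNb (s t : E → V) (P : Finset (Finset V)) (y : Finset V) : Finset (Finset V) :=
  P.filter fun y' => y ≠ y' ∧ y ∈ P ∧ (cut s t y ∩ cut s t y').Nonempty

theorem mem_plNb {P : Finset (Finset V)} {y y' : Finset V} :
    y' ∈ plNb s t P y ↔ y' ∈ P ∧ y ≠ y' ∧ y ∈ P ∧ ∃ e, e ∈ cut s t y ∧ e ∈ cut s t y' := by
  simp only [plNb, mem_filter, Finset.Nonempty, mem_inter]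

theorem plNb_symm {P : Finset (Finset V)} (a b : Finset V) (h : b ∈ plNb s t P a) :
    a ∈ plNb s t P b := by
  rw [mem_plNb] at h ⊢
  obtain ⟨h1, h2, h3, e, h4, h5⟩ := h
  exact ⟨h3, h2.symm, h1, e, h5, h4⟩

theorem plNb_sub {P : Finset (Finset V)} (a : Finset V) : plNb s t P a ⊆ P := filter_subset _ _

/-- the torso as a simple graph -/
def plG (s t : E → V) (P : Finset (Finset V)) : SimpleGraph (Finset V) where
  Adj y y' := y' ∈ plNb s t P y
  symm := ⟨fun a b h => plNb_symm a b h⟩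
  loopless := ⟨fun _ h => (mem_plNb.1 h).2.1 rfl⟩

theorem pl_ends {y y' : Finset V} (hd : Disjoint y y') {e : E} (h1 : e ∈ cut s t y)
    (h2 : e ∈ cut s t y') : (s e ∈ y ∧ t e ∈ y') ∨ (t e ∈ y ∧ s e ∈ y') := by
  rw [mem_cut] at h1 h2
  have a1 : s e ∈ y → s e ∉ y' := fun h => disjoint_left.1 hd h
  have a2 : t e ∈ y → t e ∉ y' := fun h => disjoint_left.1 hd h
  tauto

theorem pl_cut_of {y y' : Finset V} (hd : Disjoint y y') {e : E}
    (h : (s e ∈ y ∧ t e ∈ y') ∨ (t e ∈ y ∧ s e ∈ y')) : e ∈ cut s t y ∧ e ∈ cut s t y' := by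
  rw [mem_cut, mem_cut]
  have a1 : s e ∈ y → s e ∉ y' := fun h => disjoint_left.1 hd h
  have a2 : t e ∈ y → t e ∉ y' := fun h => disjoint_left.1 hd h
  tauto

variable {c : ℕ} {W : Finset V} {P : Finset (Finset V)}

theorem pl_eq (hP : Parts s t c W P) {y y' : Finset V} (hy : y ∈ P) (hy' : y' ∈ P) {v : V}
    (h1 : v ∈ y) (h2 : v ∈ y') : y = y' := by
  by_contra hne
  exact disjoint_left.1 (hP.2.2 y hy y' hy' hne) h1 h2

/-- parts that each own an edge of `F` are at most `|F|` -/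
theorem pl_count (Q : Finset (Finset V)) (F : Finset E) (R : Finset V → E → Prop)
    (h1 : ∀ y ∈ Q, ∃ e ∈ F, R y e) (h2 : ∀ y ∈ Q, ∀ y' ∈ Q, ∀ e ∈ F, R y e → R y' e → y = y') :
    Q.card ≤ F.card := by
  classical
  refine card_le_card_of_forall_subsingleton' (fun e y => R y e) ?_ ?_
  · intro y hy
    obtain ⟨e, he, h⟩ := h1 y hy
    exact ⟨e, he, h⟩
  · intro e he y hy y' hy'
    exact h2 y hy.1 y' hy'.1 e he hy.2 hy'.2

theorem plNb_card (hP : Parts s t c W P) (y : Finset V) : (plNb s t P y).card ≤ c := by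
  by_cases hy : y ∈ P
  · refine le_trans ?_ (hP.1 y hy).2.2.2.2
    refine pl_count _ _ (fun y' e => e ∈ cut s t y') ?_ ?_
    · intro y' h
      obtain ⟨_, _, _, e, h4, h5⟩ := mem_plNb.1 h
      exact ⟨e, h4, h5⟩
    · intro y1 h1 y2 h2 e he r1 r2
      obtain ⟨a1, a2, _⟩ := mem_plNb.1 h1
      obtain ⟨b1, b2, _⟩ := mem_plNb.1 h2
      have c1 := pl_ends (hP.2.2 y hy y1 a1 a2) he r1
      have c2 := pl_ends (hP.2.2 y hy y2 b1 b2) he r2
      rw [mem_cut] at he
      rcases c1 with c1 | c1 <;> rcases c2 with c2 | c2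
      · exact pl_eq hP a1 b1 c1.2 c2.2
      · tauto
      · tauto
      · exact pl_eq hP a1 b1 c1.2 c2.2
  · have : plNb s t P y = ∅ := by
      rw [eq_empty_iff_forall_notMem]; intro y' h; exact hy (mem_plNb.1 h).2.2.1
    simp [this]

theorem pl_union_sub (hP : Parts s t c W P) {K : Finset (Finset V)} (hK : K ⊆ P) :
    K.biUnion id ⊆ W := by
  intro v hv
  obtain ⟨y, hy, hv⟩ := mem_biUnion.1 hv
  exact (hP.1 y (hK hy)).1 hv

/-- an edge inside `W` that leaves a union of parts joins two neighbours of the torso -/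
theorem pl_leave (hP : Parts s t c W P) {K : Finset (Finset V)} (hK : K ⊆ P) {e : E}
    (he : e ∈ cut s t (K.biUnion id) ∩ ins s t W) :
    ∃ y ∈ K, ∃ y' ∈ plNb s t P y, y' ∉ K ∧ e ∈ cut s t y ∧ e ∈ cut s t y' := by
  rw [mem_inter, mem_cut, mem_ins] at he
  obtain ⟨h1, h2, h3⟩ := he
  obtain ⟨y1, hy1, hs⟩ := hP.2.1 _ h2
  obtain ⟨y2, hy2, ht⟩ := hP.2.1 _ h3
  have key : ∀ y ∈ P, ∀ v ∈ y, (v ∈ K.biUnion id ↔ y ∈ K) := by
    intro y hy v hv
    constructor
    · intro h
      obtain ⟨y', hy', hv'⟩ := mem_biUnion.1 h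
      rw [pl_eq hP hy (hK hy') hv hv']; exact hy'
    · intro h; exact mem_biUnion.2 ⟨y, h, hv⟩
  rw [key y1 hy1 _ hs, key y2 hy2 _ ht] at h1
  have hne : y1 ≠ y2 := by rintro rfl; exact h1 Iff.rfl
  have hc := pl_cut_of (s := s) (t := t) (hP.2.2 y1 hy1 y2 hy2 hne) (Or.inl ⟨hs, ht⟩)
  by_cases hk : y1 ∈ K
  · exact ⟨y1, hk, y2, mem_plNb.2 ⟨hy2, hne, hy1, e, hc⟩, by tauto, hc⟩
  · exact ⟨y2, by tauto, y1, mem_plNb.2 ⟨hy1, hne.symm, hy2, e, hc.symm⟩, hk, hc.symm⟩

theorem pl_conn (hP : Parts s t c W P) (hW : Conn s t W) :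
    ∀ K ⊆ P, K.Nonempty → (∀ a ∈ K, plNb s t P a ⊆ K) → K = P := by
  intro K hK hne hcl
  have hX : K.biUnion id = W := by
    by_contra hX
    obtain ⟨y, hy⟩ := hne
    obtain ⟨v, hv⟩ := (hP.1 y (hK hy)).2.2.1
    obtain ⟨e, he⟩ := hW _ (pl_union_sub hP hK) ⟨v, mem_biUnion.2 ⟨y, hy, hv⟩⟩ hX
    obtain ⟨y1, h1, y2, h2, h3, _⟩ := pl_leave hP hK he
    exact h3 (hcl y1 h1 h2)
  refine Subset.antisymm hK fun y hy => ?_
  obtain ⟨v, hv⟩ := (hP.1 y hy).2.2.1
  have hvW := (hP.1 y hy).1 hv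
  rw [← hX] at hvW
  obtain ⟨y', hy', hv'⟩ := mem_biUnion.1 hvW
  rw [pl_eq hP hy (hK hy') hv hv']; exact hy'

theorem pl_side {l q : ℕ} (hW : (cut s t W).card ≤ 2 * l)
    (hm : ∀ D ⊆ W, D ≠ W → (cut s t D).card ≤ 2 * l → (P.filter fun y => y ⊆ D).card ≤ q)
    {X : Finset V} (hX : X ⊆ W) (hne : X.Nonempty) (hne' : X ≠ W)
    (hl : (cut s t X ∩ ins s t W).card ≤ l) :
    (P.filter fun y => y ⊆ X).card ≤ q ∨ (P.filter fun y => y ⊆ W \ X).card ≤ q := by
  have key : (cut s t X ∩ univ).card + (cut s t (W \ X) ∩ univ).card ≤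
      2 * ((cut s t X ∩ ins s t W) ∩ univ).card + (cut s t W ∩ univ).card := by
    simp only [card_inter_eq_sum, mul_sum, ← sum_add_distrib]
    refine sum_le_sum fun e _ => ?_
    have a1 := @hX (s e)
    have a2 := @hX (t e)
    simp only [mem_cut, mem_sdiff, mem_inter, mem_ins]
    by_cases h1 : s e ∈ X <;> by_cases h2 : t e ∈ X <;> by_cases h3 : s e ∈ W <;>
      by_cases h4 : t e ∈ W <;> simp_all
  simp only [inter_univ] at key
  by_cases h : (cut s t X).card ≤ 2 * l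
  · exact Or.inl (hm X hX hne' h)
  · refine Or.inr (hm _ sdiff_subset ?_ (by omega))
    obtain ⟨v, hv⟩ := hne
    intro h
    have := hX hv
    rw [← h] at this
    exact (mem_sdiff.1 this).2 hv

theorem pl_route (hP : Parts s t c W P) {a b : Finset V} (p : (plG s t P).Walk a b) :
    p.IsPath → ∀ u ∈ term s t a, ∀ v ∈ term s t b,
      ∃ (Fr : Finset E) (dem : Finset V → V × V), Fr ⊆ tor s t W P ∧
        (∀ y ∈ p.support, (dem y).1 ∈ term s t y ∧ (dem y).2 ∈ term s t y) ∧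
        ∀ A, Fr ⊆ A → (∀ y ∈ p.support, Link s t A (dem y).1 (dem y).2) → Link s t A u v := by
  induction p with
  | nil =>
    intro _ u hu v hv
    refine ⟨∅, fun _ => (u, v), empty_subset _, ?_, ?_⟩
    · intro y hy
      simp only [SimpleGraph.Walk.support_nil, List.mem_singleton] at hy
      subst hy; exact ⟨hu, hv⟩
    · intro A _ h
      exact h _ (SimpleGraph.Walk.start_mem_support _)
  | @cons a a1 b h p ih =>
    intro hp u hu v hv
    rw [SimpleGraph.Walk.cons_isPath_iff] at hp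
    obtain ⟨h1, h2, h3, e, h4, h5⟩ := mem_plNb.1 h
    have hends := pl_ends (hP.2.2 a h3 a1 h1 h2) h4 h5
    obtain ⟨x, x1, hx, hx1, hl⟩ : ∃ x x1, x ∈ term s t a ∧ x1 ∈ term s t a1 ∧
        ∀ A, e ∈ A → Link s t A x x1 := by
      rcases hends with h6 | h6
      · exact ⟨s e, t e, mem_term.2 ⟨h6.1, e, h4, Or.inl rfl⟩, mem_term.2 ⟨h6.2, e, h5, Or.inr rfl⟩,
          fun A hA => Link.edge hA⟩
      · exact ⟨t e, s e, mem_term.2 ⟨h6.1, e, h4, Or.inr rfl⟩, mem_term.2 ⟨h6.2, e, h5, Or.inl rfl⟩,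
          fun A hA => (Link.edge hA).symm⟩
    obtain ⟨Fr, dem, f1, f2, f3⟩ := ih hp.1 x1 hx1 v hv
    have hne : ∀ y ∈ p.support, y ≠ a := fun y hy hya => hp.2 (hya ▸ hy)
    refine ⟨insert e Fr, Function.update dem a (u, x), ?_, ?_, ?_⟩
    · refine insert_subset (mem_tor.2 ⟨mem_ins.2 ?_, a, h3, h4⟩) f1
      have s1 := (hP.1 a h3).1
      have s2 := (hP.1 a1 h1).1
      rcases hends with h6 | h6
      · exact ⟨s1 h6.1, s2 h6.2⟩
      · exact ⟨s2 h6.2, s1 h6.1⟩
    · intro y hy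
      rw [SimpleGraph.Walk.support_cons, List.mem_cons] at hy
      rcases hy with rfl | hy
      · rw [Function.update_self]; exact ⟨hu, hx⟩
      · rw [Function.update_of_ne (hne y hy)]; exact f2 y hy
    · intro A hA hL
      have l1 := hL a (SimpleGraph.Walk.start_mem_support _)
      rw [Function.update_self] at l1
      refine (l1.trans (hl A (hA (mem_insert_self _ _)))).trans
        (f3 A ((subset_insert _ _).trans hA) fun y hy => ?_)
      have := hL y (by rw [SimpleGraph.Walk.support_cons]; exact List.mem_cons_of_mem _ hy)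
      rwa [Function.update_of_ne (hne y hy)] at this

theorem pl_support {a b : Finset V} (p : (plG s t P).Walk a b) (ha : a ∈ P) :
    ∀ y ∈ p.support, y ∈ P := by
  induction p with
  | nil => intro y hy; simp only [SimpleGraph.Walk.support_nil, List.mem_singleton] at hy; rwa [hy]
  | cons h p ih =>
    intro y hy
    rw [SimpleGraph.Walk.support_cons, List.mem_cons] at hy
    rcases hy with rfl | hy
    · exact ha
    · exact ih (mem_plNb.1 h).1 y hy

theorem pl_reach (hP : Parts s t c W P) (hW : Conn s t W) {a b : Finset V} (ha : a ∈ P)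
    (hb : b ∈ P) : (plG s t P).Reachable a b := by
  classical
  have := pl_conn hP hW (P.filter fun y => (plG s t P).Reachable a y) (filter_subset _ _)
    ⟨a, mem_filter.2 ⟨ha, SimpleGraph.Reachable.refl _⟩⟩ (by
      intro y hy y' hy'
      exact mem_filter.2 ⟨plNb_sub _ hy',
        (mem_filter.1 hy).2.trans (SimpleGraph.Adj.reachable (G := plG s t P) hy')⟩)
  rw [← this] at hb
  exact (mem_filter.1 hb).2

/-- a part that lies on every walk from `a` to `b` is near `a` or near `b` -/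
theorem pl_cutvertex {l q : ℕ} (hP : Parts s t (2 * l) W P) (hW : Conn s t W)
    (hWc : (cut s t W).card ≤ 2 * l)
    (hm : ∀ D ⊆ W, D ≠ W → (cut s t D).card ≤ 2 * l → (P.filter fun y => y ⊆ D).card ≤ q)
    {a b z : Finset V} (ha : a ∈ P) (hb : b ∈ P) (hz : z ∈ P) (hza : z ≠ a) (hzb : z ≠ b)
    (h : ∀ w : (plG s t P).Walk a b, z ∈ w.support) :
    z ∈ plBall (plNb s t P) {a} (q + 1) ∨ z ∈ plBall (plNb s t P) {b} (q + 1) := by
  classical
  set K : Finset (Finset V) := P.filter fun y => ∃ w : (plG s t P).Walk a y, z ∉ w.support with hK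
  set K' : Finset (Finset V) := (P \ K).erase z with hK'
  have hKP : K ⊆ P := filter_subset _ _
  have hK'P : K' ⊆ P := (erase_subset _ _).trans sdiff_subset
  have hzK : z ∉ K := by
    intro hh
    obtain ⟨w, hw⟩ := (mem_filter.1 hh).2
    exact hw w.end_mem_support
  have hzK' : z ∉ K' := notMem_erase _ _
  have haK : a ∈ K := mem_filter.2 ⟨ha, SimpleGraph.Walk.nil, by simpa using hza⟩
  have hbK' : b ∈ K' := by
    refine mem_erase.2 ⟨hzb.symm, mem_sdiff.2 ⟨hb, fun hh => ?_⟩⟩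
    obtain ⟨w, hw⟩ := (mem_filter.1 hh).2
    exact hw (h w)
  have cl : ∀ y ∈ K, ∀ y' ∈ plNb s t P y, y' ≠ z → y' ∈ K := by
    intro y hy y' hy' hne
    obtain ⟨w, hw⟩ := (mem_filter.1 hy).2
    refine mem_filter.2 ⟨plNb_sub _ hy', w.concat (G := plG s t P) hy', ?_⟩
    rw [SimpleGraph.Walk.support_concat]
    simp only [List.mem_append, List.mem_singleton, not_or]
    exact ⟨hw, hne.symm⟩
  have cl' : ∀ y ∈ K', ∀ y' ∈ plNb s t P y, y' ≠ z → y' ∈ K' := by
    intro y hy y' hy' hne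
    refine mem_erase.2 ⟨hne, mem_sdiff.2 ⟨plNb_sub _ hy', fun hh => ?_⟩⟩
    exact (mem_sdiff.1 (mem_erase.1 hy).2).2 (cl y' hh y (plNb_symm _ _ hy') (mem_erase.1 hy).1)
  have hdis : ∀ y ∈ K, y ∉ K' := fun y hy hy' => (mem_sdiff.1 (mem_erase.1 hy').2).2 hy
  -- the edges leaving
  have leave : ∀ L : Finset (Finset V), L ⊆ P → (∀ y ∈ L, ∀ y' ∈ plNb s t P y, y' ≠ z → y' ∈ L) →
      ∀ e ∈ cut s t (L.biUnion id) ∩ ins s t W, e ∈ cut s t z ∧ ∃ y ∈ L, e ∈ cut s t y := by
    intro L hL hcl e he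
    obtain ⟨y, hy, y', hy', h1, h2, h3⟩ := pl_leave hP hL he
    have : y' = z := by
      by_contra hne
      exact h1 (hcl y hy y' hy' hne)
    exact ⟨this ▸ h3, y, hy, h2⟩
  have hsum : (cut s t (K.biUnion id) ∩ ins s t W).card +
      (cut s t (K'.biUnion id) ∩ ins s t W).card ≤ 2 * l := by
    rw [← card_union_of_disjoint]
    · refine le_trans (card_le_card ?_) (hP.1 z hz).2.2.2.2
      exact union_subset (fun e he => (leave K hKP cl e he).1) (fun e he => (leave K' hK'P cl' e he).1)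
    · rw [disjoint_left]
      intro e h1 h2
      obtain ⟨a1, y, hy, a2⟩ := leave K hKP cl e h1
      obtain ⟨_, y', hy', a3⟩ := leave K' hK'P cl' e h2
      have n1 : z ≠ y := fun hh => hzK (hh ▸ hy)
      have n2 : z ≠ y' := fun hh => hzK' (hh ▸ hy')
      have c1 := pl_ends (hP.2.2 z hz y (hKP hy) n1) a1 a2
      have c2 := pl_ends (hP.2.2 z hz y' (hK'P hy') n2) a1 a3
      rw [mem_cut] at a1
      have : y = y' := by
        rcases c1 with c1 | c1 <;> rcases c2 with c2 | c2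
        · exact pl_eq hP (hKP hy) (hK'P hy') c1.2 c2.2
        · tauto
        · tauto
        · exact pl_eq hP (hKP hy) (hK'P hy') c1.2 c2.2
      exact hdis y hy (this ▸ hy')
  have side : ∀ L L' : Finset (Finset V), L ⊆ P → L' ⊆ P → L.Nonempty → z ∉ L →
      (∀ y ∈ L, y ∉ L') → (cut s t (L.biUnion id) ∩ ins s t W).card ≤ l →
      L.card ≤ q ∨ L'.card ≤ q := by
    intro L L' hL hL' hne hzL hd hl
    obtain ⟨y, hy⟩ := hne
    obtain ⟨v, hv⟩ := (hP.1 y (hL hy)).2.2.1
    have out : ∀ y' ∈ P, y' ∉ L → y' ⊆ W \ L.biUnion id := by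
      intro y' hy' hn x hx
      refine mem_sdiff.2 ⟨(hP.1 y' hy').1 hx, fun hh => ?_⟩
      obtain ⟨y'', h1, h2⟩ := mem_biUnion.1 hh
      exact hn (pl_eq hP hy' (hL h1) hx h2 ▸ h1)
    have hneW : L.biUnion id ≠ W := by
      intro hh
      obtain ⟨x, hx⟩ := (hP.1 z hz).2.2.1
      have := out z hz hzL hx
      rw [hh] at this
      simp at this
    rcases pl_side hWc hm (pl_union_sub hP hL) ⟨v, mem_biUnion.2 ⟨y, hy, hv⟩⟩ hneW hl with h1 | h1
    · refine Or.inl (le_trans (card_le_card fun y' hy' => mem_filter.2 ⟨hL hy', ?_⟩) h1)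
      intro x hx; exact mem_biUnion.2 ⟨y', hy', hx⟩
    · refine Or.inr (le_trans (card_le_card fun y' hy' => mem_filter.2 ⟨hL' hy', ?_⟩) h1)
      exact out y' (hL' hy') fun hh => hd y' hh hy'
  have small : K.card ≤ q ∨ K'.card ≤ q := by
    by_cases h1 : (cut s t (K.biUnion id) ∩ ins s t W).card ≤ l
    · exact side K K' hKP hK'P ⟨a, haK⟩ hzK hdis h1
    · exact (side K' K hK'P hKP ⟨b, hbK'⟩ hzK' (fun y hy hy' => hdis y hy' hy) (by omega)).symm
  have near : ∀ L : Finset (Finset V), (∀ y ∈ L, ∀ y' ∈ plNb s t P y, y' ≠ z → y' ∈ L) →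
      ∀ x ∈ L, x ∈ P → z ≠ x → L.card ≤ q → z ∈ plBall (plNb s t P) {x} (q + 1) := by
    intro L hcl x hx hxP hzx hq
    have hsub : plBall (plOff (plNb s t P) {z}) {x} q ⊆ L :=
      plBall_sub (singleton_subset_iff.2 hx) (fun y hy y' hy' => by
        rw [mem_plOff] at hy'
        exact hcl y hy y' hy'.2.1 (by simpa using hy'.2.2)) q
    obtain ⟨d, hd, hd'⟩ := plBall_near (D := {z}) plNb_sub (pl_conn hP hW) hxP
      (by simpa using hzx.symm) (mem_singleton_self z) hz ((card_le_card hsub).trans hq)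
    rw [mem_singleton] at hd
    exact hd ▸ hd'
  exact small.imp (near K cl a haK ha hza) (near K' cl' b hbK' hb hzb)

theorem pl_term_ne (hP : Parts s t c W P) (hE : EC 1 s t) (hW : W ≠ univ) {y : Finset V}
    (hy : y ∈ P) : (term s t y).Nonempty := by
  have h1 : y ≠ univ := fun h => hW (univ_subset_iff.1 (h ▸ (hP.1 y hy).1))
  obtain ⟨e, he⟩ := card_pos.1 (hE y (hP.1 y hy).2.2.1 h1)
  have he' := mem_cut.1 he
  by_cases h : s e ∈ y
  · exact ⟨s e, mem_term.2 ⟨h, e, he, Or.inl rfl⟩⟩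
  · exact ⟨t e, mem_term.2 ⟨by tauto, e, he, Or.inr rfl⟩⟩

theorem pl_split (hP : Parts s t c W P) (X : Finset V) :
    (P.filter fun y => ¬ y ⊆ X ∧ ¬ y ⊆ W \ X).card ≤ (cut s t X ∩ ins s t W).card := by
  refine pl_count _ _ (fun y e => s e ∈ y) ?_ ?_
  · intro y hy
    obtain ⟨hy, h1, h2⟩ := mem_filter.1 hy
    obtain ⟨x, hx, hx'⟩ := not_subset.1 h2
    have hxX : x ∈ X := by
      by_contra hh
      exact hx' (mem_sdiff.2 ⟨(hP.1 y hy).1 hx, hh⟩)
    obtain ⟨e, he⟩ := (hP.1 y hy).2.2.2.1 (y ∩ X) inter_subset_left ⟨x, mem_inter.2 ⟨hx, hxX⟩⟩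
      (fun hh => h1 (hh ▸ inter_subset_right))
    rw [mem_inter, mem_cut, mem_ins, mem_inter, mem_inter] at he
    refine ⟨e, mem_inter.2 ⟨mem_cut.2 (by tauto), mem_ins.2 ⟨(hP.1 y hy).1 he.2.1,
      (hP.1 y hy).1 he.2.2⟩⟩, he.2.1⟩
  · intro y hy y' hy' e _ h1 h2
    exact pl_eq hP (mem_filter.1 hy).1 (mem_filter.1 hy').1 h1 h2

theorem pl_spread (hP : Parts s t c W P) {D O : Finset (Finset V)} {X : Finset V}
    (h1 : Disjoint (cut s t X) (tor s t (O.biUnion id) O))
    (h2 : ∀ y ∈ O, ∀ u ∈ term s t y, ∀ v ∈ term s t y, (u ∈ X ↔ v ∈ X)) {y₁ : Finset V} {u : V}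
    (hu : u ∈ term s t y₁) (k : ℕ) (hk : plBall (plOff (plNb s t P) D) {y₁} k ⊆ O) :
    ∀ y ∈ plBall (plOff (plNb s t P) D) {y₁} k, ∀ w ∈ term s t y, (w ∈ X ↔ u ∈ X) := by
  induction k with
  | zero =>
    intro y hy w hw
    have := hk hy
    simp only [plBall, mem_singleton] at hy
    subst hy
    exact h2 y this w hw u hu
  | succ k ih =>
    have hk' := (plBall_mono_k (Nat.le_succ k)).trans hk
    intro y hy w hw
    have hyO := hk hy
    rw [plBall_succ] at hy
    rcases hy with hy | ⟨x, hx, hy⟩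
    · exact ih hk' y hy w hw
    · have hxO := hk' hx
      obtain ⟨a1, a2, a3, e, a4, a5⟩ := mem_plNb.1 (plOff_sub _ hy)
      have hends := pl_ends (hP.2.2 x a3 y a1 a2) a4 a5
      have he : e ∈ tor s t (O.biUnion id) O := by
        refine mem_tor.2 ⟨mem_ins.2 ?_, x, hxO, a4⟩
        rcases hends with h6 | h6
        · exact ⟨mem_biUnion.2 ⟨x, hxO, h6.1⟩, mem_biUnion.2 ⟨y, hyO, h6.2⟩⟩
        · exact ⟨mem_biUnion.2 ⟨y, hyO, h6.2⟩, mem_biUnion.2 ⟨x, hxO, h6.1⟩⟩
      have hst : s e ∈ X ↔ t e ∈ X := by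
        by_contra hh
        exact disjoint_left.1 h1 (mem_cut.2 hh) he
      rcases hends with h6 | h6
      · rw [h2 y hyO w hw _ (mem_term.2 ⟨h6.2, e, a5, Or.inr rfl⟩), ← hst]
        exact ih hk' x hx _ (mem_term.2 ⟨h6.1, e, a4, Or.inl rfl⟩)
      · rw [h2 y hyO w hw _ (mem_term.2 ⟨h6.2, e, a5, Or.inl rfl⟩), hst]
        exact ih hk' x hx _ (mem_term.2 ⟨h6.1, e, a4, Or.inr rfl⟩)

end Torso

theorem pl (h1 : S_MC) (h2 : S_WH) : S_PL := by
  intro l hl
  refine ⟨2 * l * (2 * l + 1) ^ (4 * l + 1 + (5 * l + 1)), (2 * l + 1) ^ (5 * l), ?_⟩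
  intro V E _ _ _ _ s t W hC hE hW hWu hW2 hWc
  obtain ⟨P, hP, hm⟩ := h1 V E s t (2 * l) W (by omega) hC hE hWu hW2
  replace hm : ∀ D ⊆ W, D ≠ W → (cut s t D).card ≤ 2 * l →
      (P.filter fun y => y ⊆ D).card ≤ 4 * l := fun D a b c => (hm D a b c).trans (by omega)
  set T0 : Finset (Finset V) := P.filter fun y => (cut s t y ∩ cut s t W).Nonempty with hT0
  set Z0 := plBall (plNb s t P) T0 (4 * l + 1) with hZ0
  set Bl : Finset V → Finset (Finset V) := fun y => plBall (plOff (plNb s t P) Z0) {y} (5 * l)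
    with hBl
  set Z := Z0 ∪ P.filter fun y => (Bl y).card ≤ 5 * l with hZ
  have hZ0P : Z0 ⊆ P := plBall_sub (filter_subset _ _) (fun a _ => plNb_sub a) _
  have hT0Z : T0 ⊆ Z0 := plBall_self _
  have hpart : ∀ u ∈ term s t W, ∃ y ∈ T0, u ∈ term s t y := by
    intro u hu
    obtain ⟨huW, e, he, hue⟩ := mem_term.1 hu
    obtain ⟨y, hy, huy⟩ := hP.2.1 u huW
    have hey : e ∈ cut s t y := by
      have a1 := @(hP.1 y hy).1 (s e)
      have a2 := @(hP.1 y hy).1 (t e)
      rw [mem_cut] at he ⊢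
      rcases hue with rfl | rfl <;> tauto
    exact ⟨y, mem_filter.2 ⟨hy, e, mem_inter.2 ⟨hey, he⟩⟩, mem_term.2 ⟨huy, e, hey, hue⟩⟩
  have hT0ne : T0.Nonempty := by
    obtain ⟨e, he⟩ := card_pos.1 (hE W (card_pos.1 (by omega)) hWu)
    have he' := mem_cut.1 he
    by_cases h : s e ∈ W
    · obtain ⟨y, hy, _⟩ := hpart (s e) (mem_term.2 ⟨h, e, he, Or.inl rfl⟩)
      exact ⟨y, hy⟩
    · obtain ⟨y, hy, _⟩ := hpart (t e) (mem_term.2 ⟨by tauto, e, he, Or.inr rfl⟩)
      exact ⟨y, hy⟩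
  have hT0c : T0.card ≤ 2 * l := by
    refine le_trans (pl_count _ _ (fun y e => e ∈ cut s t y) ?_ ?_) hWc
    · intro y hy
      obtain ⟨e, he⟩ := (mem_filter.1 hy).2
      exact ⟨e, (mem_inter.1 he).2, (mem_inter.1 he).1⟩
    · intro y hy y' hy' e he r1 r2
      have hy1 := (mem_filter.1 hy).1
      have hy2 := (mem_filter.1 hy').1
      by_contra hne
      have a1 := (hP.1 y hy1).1
      have a2 := (hP.1 y' hy2).1
      rw [mem_cut] at he
      rcases pl_ends (hP.2.2 y hy1 y' hy2 hne) r1 r2 with h | h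
      · exact he ⟨fun _ => a2 h.2, fun _ => a1 h.1⟩
      · exact he ⟨fun _ => a1 h.1, fun _ => a2 h.2⟩
  have hsymm := plOff_symm (D := Z0) (plNb_symm (s := s) (t := t) (P := P))
  have hout : ∀ y ∈ P \ Z, y ∈ P ∧ y ∉ Z0 ∧ 5 * l < (Bl y).card := by
    intro y hy
    obtain ⟨a1, a2⟩ := mem_sdiff.1 hy
    rw [mem_union, mem_filter] at a2
    exact ⟨a1, fun h => a2 (Or.inl h), not_le.1 fun h => a2 (Or.inr ⟨a1, h⟩)⟩
  refine ⟨P, Z, hP, union_subset hZ0P (filter_subset _ _), ?_, ?_, ?_, Bl, ?_, ?_, ?_⟩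
  · have : Z ⊆ plBall (plNb s t P) T0 (4 * l + 1 + (5 * l + 1)) := by
      rw [← plBall_add]
      refine union_subset (plBall_self _) fun y hy => ?_
      obtain ⟨hyP, hy⟩ := mem_filter.1 hy
      by_cases hy0 : y ∈ Z0
      · exact plBall_self _ hy0
      · obtain ⟨d0, hd0⟩ := hT0ne
        obtain ⟨d, hd, hd'⟩ := plBall_near (D := Z0) plNb_sub (pl_conn hP hW) hyP hy0 (hT0Z hd0)
          (hZ0P (hT0Z hd0)) hy
        exact plBall_mono (fun _ => Subset.refl _) (singleton_subset_iff.2 hd) _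
          (plBall_symm plNb_symm _ _ _ hd')
    exact (card_le_card this).trans ((plBall_card (plNb_card hP) _).trans
      (Nat.mul_le_mul_right _ hT0c))
  · intro y hy
    obtain ⟨a1, a2, _⟩ := hout y hy
    rw [disjoint_left]
    intro e b1 b2
    exact a2 (hT0Z (mem_filter.2 ⟨a1, e, mem_inter.2 ⟨b1, b2⟩⟩))
  · intro u hu v hv
    obtain ⟨a, ha, hua⟩ := hpart u hu
    obtain ⟨b, hb, hvb⟩ := hpart v hv
    have haP := (mem_filter.1 ha).1
    have hbP := (mem_filter.1 hb).1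
    obtain ⟨p, q, hp, hq, hpq⟩ := h2 _ (plG s t P) a b (pl_reach hP hW haP hbP)
    obtain ⟨F1, d1, f1, f2, f3⟩ := pl_route hP p hp u hua v hvb
    obtain ⟨F2, d2, g1, g2, g3⟩ := pl_route hP q hq u hua v hvb
    refine ⟨fun k => if k then F1 else F2,
      fun k => if k then p.support.toFinset else q.support.toFinset,
      fun k => if k then d1 else d2, ?_, ?_⟩
    · intro k
      cases k
      · simp only [Bool.false_eq_true, if_false, List.mem_toFinset]
        exact ⟨g1, fun y hy => pl_support q haP y (List.mem_toFinset.1 hy), g2, g3⟩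
      · simp only [if_true, List.mem_toFinset]
        exact ⟨f1, fun y hy => pl_support p haP y (List.mem_toFinset.1 hy), f2, f3⟩
    · intro z hz
      simp only [if_true, Bool.false_eq_true, if_false, mem_inter, List.mem_toFinset] at hz
      refine mem_union_left _ ?_
      by_cases hza : z = a
      · exact hT0Z (hza ▸ ha)
      by_cases hzb : z = b
      · exact hT0Z (hzb ▸ hb)
      have hall := ((hpq z hz.1 hz.2).resolve_left hza).resolve_left hzb
      rcases pl_cutvertex hP hW hWc hm haP hbP (pl_support p haP z hz.1) hza hzb hall with h | h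
      · exact plBall_mono (fun _ => Subset.refl _) (singleton_subset_iff.2 ha) _ h
      · exact plBall_mono (fun _ => Subset.refl _) (singleton_subset_iff.2 hb) _ h
  · intro y hy y' hy'
    obtain ⟨a1, a2, a3⟩ := hout y hy
    refine mem_sdiff.2 ⟨plBall_sub (singleton_subset_iff.2 a1)
      (fun b _ => (plOff_sub b).trans (plNb_sub b)) _ hy', fun h => ?_⟩
    rcases mem_union.1 h with h | h
    · exact plBall_off_notMem a2 _ _ hy' h
    · have hs := (mem_filter.1 h).2
      have hcl := plBall_closed (nb := plOff (plNb s t P) Z0) (S := {y'}) (5 * l)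
        (by rw [card_singleton]; exact lt_of_le_of_lt hs (by omega))
      have : Bl y ⊆ Bl y' :=
        plBall_sub (singleton_subset_iff.2 (plBall_symm hsymm _ _ _ hy')) hcl _
      have := card_le_card this
      omega
  · intro y'
    have : ((P \ Z).filter fun y => y' ∈ Bl y) ⊆ Bl y' := fun y hy =>
      plBall_symm hsymm _ _ _ (mem_filter.1 hy).2
    refine (card_le_card this).trans ((plBall_card (c := 2 * l) (fun a =>
      (card_le_card (plOff_sub a)).trans (plNb_card hP a)) _).trans (by simp))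
  · intro X hX hXl O hO hd hs
    have hOP : O ⊆ P := hO.trans sdiff_subset
    have hsplit := (pl_split hP X).trans hXl
    have main : ∀ y₁ ∈ P \ Z, ∀ y₂ ∈ P \ Z, Bl y₁ ⊆ O → Bl y₂ ⊆ O →
        ∀ u ∈ term s t y₁, ∀ v ∈ term s t y₂, u ∈ X → v ∈ X := by
      intro y₁ hy₁ y₂ hy₂ b1 b2 u hu v hv huX
      by_contra hvX
      have s1 := pl_spread hP hd hs hu _ b1
      have s2 := pl_spread hP hd hs hv _ b2
      obtain ⟨a1, _, a3⟩ := hout y₁ hy₁
      obtain ⟨a4, _, a6⟩ := hout y₂ hy₂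
      have c1 : Bl y₁ ⊆ (P.filter fun y => ¬ y ⊆ X ∧ ¬ y ⊆ W \ X) ∪ P.filter fun y => y ⊆ X := by
        intro y hy
        have hyP := hOP (b1 hy)
        obtain ⟨w, hw⟩ := pl_term_ne hP hE hWu hyP
        have hwX := (s1 y hy w hw).2 huX
        rw [mem_union, mem_filter, mem_filter]
        by_cases h : y ⊆ X
        · exact Or.inr ⟨hyP, h⟩
        · exact Or.inl ⟨hyP, h, fun hh => (mem_sdiff.1 (hh (mem_term.1 hw).1)).2 hwX⟩
      have c2 : Bl y₂ ⊆ (P.filter fun y => ¬ y ⊆ X ∧ ¬ y ⊆ W \ X) ∪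
          P.filter fun y => y ⊆ W \ X := by
        intro y hy
        have hyP := hOP (b2 hy)
        obtain ⟨w, hw⟩ := pl_term_ne hP hE hWu hyP
        have hwX : w ∉ X := fun hh => hvX ((s2 y hy w hw).1 hh)
        rw [mem_union, mem_filter, mem_filter]
        by_cases h : y ⊆ W \ X
        · exact Or.inr ⟨hyP, h⟩
        · exact Or.inl ⟨hyP, fun hh => hwX (hh (mem_term.1 hw).1), h⟩
      have d1 := (card_le_card c1).trans (card_union_le _ _)
      have d2 := (card_le_card c2).trans (card_union_le _ _)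
      have hne : X ≠ W := fun hh => hvX (hh ▸ (hP.1 y₂ a4).1 (mem_term.1 hv).1)
      rcases pl_side hWc hm hX ⟨u, huX⟩ hne hXl with h | h <;> omega
    intro y₁ hy₁ y₂ hy₂ b1 b2 u hu v hv
    exact ⟨main y₁ hy₁ y₂ hy₂ b1 b2 u hu v hv, main y₂ hy₂ y₁ hy₁ b2 b1 v hv u hu⟩

end Pool.Agent.P.MP_40718a_co.ABF
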