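import Pool.Agent.P.MP_40718a_co.ABF.Basic

namespace Pool.Agent.P.MP_40718a_co.ABF

open Finset

section Core

variable {GV GE T : Type} [Fintype GV] [Fintype GE] [Fintype T] [DecidableEq GV] [DecidableEq GE]
  [DecidableEq T]

/-- ends of the edges of the glued graph -/
def rlEnd (gs : GE → GV) (W : Finset GV) (h : T → GE) : GE ⊕ T → GV ⊕ GE
  | .inl e => if gs e ∈ W then .inl (gs e) else .inr e
  | .inr f => .inr (h f)

def rlS (gs gt : GE → GV) (W : Finset GV) : Finset (GE ⊕ T) :=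
  (univ.filter fun e => gs e ∈ W ∨ gt e ∈ W).disjSum univ

def rlF (gs gt : GE → GV) (W : Finset GV) (h1 h2 : T → GE) (g : Finset GE) : Finset (GE ⊕ T) :=
  (g.filter fun e => gs e ∈ W ∨ gt e ∈ W).disjSum (univ.filter fun f => h1 f ∉ g ∧ h2 f ∉ g)

variable {gs gt : GE → GV} {W : Finset GV} {h1 h2 : T → GE}

theorem rl_F_sub (g : Finset GE) : rlF gs gt W h1 h2 g ⊆ rlS gs gt W :=
  disjSum_mono (filter_subset_filter _ (subset_univ _)) (subset_univ _)

theorem rl_deg_split (M : Finset (GE ⊕ T)) (v : GV ⊕ GE) :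
    deg (rlEnd gs W h1) (rlEnd gt W h2) M v =
      (∑ e ∈ M.toLeft, ((if rlEnd gs W h1 (.inl e) = v then 1 else 0) +
        (if rlEnd gt W h2 (.inl e) = v then 1 else 0))) +
      ∑ f ∈ M.toRight, ((if Sum.inr (h1 f) = v then 1 else 0) +
        (if Sum.inr (h2 f) = v then 1 else 0)) := by
  rw [deg_eq_sum]
  conv_lhs => rw [← toLeft_disjSum_toRight (u := M)]
  rw [sum_disjSum]
  rfl

theorem rl_deg_inl (M : Finset (GE ⊕ T)) {w : GV} (hw : w ∈ W) :
    deg (rlEnd gs W h1) (rlEnd gt W h2) M (.inl w) = deg gs gt M.toLeft w := by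
  rw [rl_deg_split, deg_eq_sum]
  simp only [reduceCtorEq, if_false, add_zero, sum_const_zero]
  refine sum_congr rfl fun e _ => ?_
  have key : ∀ (g : GE → GV) (h : T → GE), rlEnd g W h (.inl e) = .inl w ↔ g e = w := by
    intro g h
    simp only [rlEnd]
    split_ifs with hg
    · simp
    · simp only [false_iff]
      rintro rfl
      exact hg hw
  simp only [key]

theorem rl_deg_inl' (M : Finset (GE ⊕ T)) {w : GV} (hw : w ∉ W) :
    deg (rlEnd gs W h1) (rlEnd gt W h2) M (.inl w) = 0 := by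
  rw [deg_eq_zero]
  have key : ∀ (g : GE → GV) (h : T → GE) e, rlEnd g W h e ≠ .inl w := by
    rintro g h (e | e)
    · simp only [rlEnd]
      split_ifs with hg
      · simp only [ne_eq, Sum.inl.injEq]
        rintro rfl
        exact hw hg
      · simp
    · simp [rlEnd]
  exact fun e _ => ⟨key _ _ _, key _ _ _⟩

theorem rl_deg_inr (M : Finset (GE ⊕ T)) (e : GE) :
    deg (rlEnd gs W h1) (rlEnd gt W h2) M (.inr e) =
      (if Sum.inl e ∈ M then (if gs e ∈ W then 0 else 1) + (if gt e ∈ W then 0 else 1) else 0) +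
      ∑ f ∈ M.toRight, ((if h1 f = e then 1 else 0) + (if h2 f = e then 1 else 0)) := by
  rw [rl_deg_split]
  simp only [Sum.inr.injEq]
  congr 1
  have key : ∀ (g : GE → GV) (h : T → GE) e', (if rlEnd g W h (.inl e') = .inr e then 1 else 0) =
      if e' = e then (if g e ∈ W then 0 else 1) else 0 := by
    intro g h e'
    simp only [rlEnd]
    by_cases he : e' = e
    · subst he
      by_cases hg : g e' ∈ W <;> simp [hg]
    · by_cases hg : g e' ∈ W <;> simp [hg, he]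
  simp only [key, sum_add_distrib, sum_ite_eq', mem_toLeft]
  split_ifs <;> rfl

/-- the half edges are distinct cut edges of the gadgets -/
structure RLHalf (gs gt : GE → GV) (W : Finset GV) (h1 h2 : T → GE) : Prop where
  i1 : Function.Injective h1
  i2 : Function.Injective h2
  ne : ∀ f f', h1 f ≠ h2 f'
  c1 : ∀ f, h1 f ∈ cut gs gt W
  c2 : ∀ f, h2 f ∈ cut gs gt W

theorem RLHalf.deg1 (H : RLHalf gs gt W h1 h2) (M : Finset (GE ⊕ T)) (f : T) :
    deg (rlEnd gs W h1) (rlEnd gt W h2) M (.inr (h1 f)) =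
      (if Sum.inl (h1 f) ∈ M then 1 else 0) + (if Sum.inr f ∈ M then 1 else 0) := by
  rw [rl_deg_inr]
  have := mem_cut.1 (H.c1 f)
  congr 1
  · by_cases a : gs (h1 f) ∈ W <;> by_cases b : gt (h1 f) ∈ W <;> simp_all
  · simp [H.i1.eq_iff, (H.ne _ _).symm]

theorem RLHalf.deg2 (H : RLHalf gs gt W h1 h2) (M : Finset (GE ⊕ T)) (f : T) :
    deg (rlEnd gs W h1) (rlEnd gt W h2) M (.inr (h2 f)) =
      (if Sum.inl (h2 f) ∈ M then 1 else 0) + (if Sum.inr f ∈ M then 1 else 0) := by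
  rw [rl_deg_inr]
  have := mem_cut.1 (H.c2 f)
  congr 1
  · by_cases a : gs (h2 f) ∈ W <;> by_cases b : gt (h2 f) ∈ W <;> simp_all
  · simp [H.i2.eq_iff, H.ne]

theorem rl_mem_inl {g : Finset GE} {e : GE} (he : gs e ∈ W ∨ gt e ∈ W) :
    Sum.inl e ∈ rlF gs gt W h1 h2 g ↔ e ∈ g := by simp [rlF, he]

theorem rl_mem_inr {g : Finset GE} {f : T} :
    Sum.inr f ∈ rlF gs gt W h1 h2 g ↔ h1 f ∉ g ∧ h2 f ∉ g := by simp [rlF]

theorem rl_meets {e : GE} (he : e ∈ cut gs gt W) : gs e ∈ W ∨ gt e ∈ W := by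
  have := mem_cut.1 he
  tauto

theorem rl_F_deg {g : Finset GE} {w : GV} (hw : w ∈ W) :
    deg (rlEnd gs W h1) (rlEnd gt W h2) (rlF gs gt W h1 h2 g) (.inl w) = deg gs gt g w := by
  rw [rl_deg_inl _ hw]
  refine deg_congr fun e he => ?_
  rw [mem_toLeft]
  refine rl_mem_inl ?_
  rcases he with rfl | rfl
  · exact Or.inl hw
  · exact Or.inr hw

theorem RLHalf.match (H : RLHalf gs gt W h1 h2) {g : Finset GE} (hg : ∀ w ∈ W, deg gs gt g w = 1) :
    IsMatch (rlEnd gs W h1) (rlEnd gt W h2) (rlF gs gt W h1 h2 g) := by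
  rintro (w | e)
  · by_cases hw : w ∈ W
    · rw [rl_F_deg hw, hg w hw]
    · rw [rl_deg_inl' _ hw]; exact Nat.zero_le _
  · by_cases a : ∃ f, h1 f = e
    · obtain ⟨f, rfl⟩ := a
      simp only [H.deg1, rl_mem_inl (rl_meets (H.c1 f)), rl_mem_inr]
      by_cases b : h1 f ∈ g <;> simp [b]
      split_ifs <;> simp
    by_cases b : ∃ f, h2 f = e
    · obtain ⟨f, rfl⟩ := b
      simp only [H.deg2, rl_mem_inl (rl_meets (H.c2 f)), rl_mem_inr]
      by_cases b : h2 f ∈ g <;> simp [b]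
      split_ifs <;> simp
    push Not at a b
    rw [rl_deg_inr]
    simp only [a, b, if_false, add_zero, sum_const_zero]
    split_ifs with h <;> simp_all [rlF]

theorem RLHalf.uncov (H : RLHalf gs gt W h1 h2) {M : Finset (GE ⊕ T)}
    (hM : IsMatch (rlEnd gs W h1) (rlEnd gt W h2) M) {f : T}
    (h : ¬ (Sum.inl (h2 f) ∈ M ↔ Sum.inl (h1 f) ∈ M)) :
    deg (rlEnd gs W h1) (rlEnd gt W h2) M (.inr (h1 f)) = 0 ∨
      deg (rlEnd gs W h1) (rlEnd gt W h2) M (.inr (h2 f)) = 0 := by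
  have a := hM (.inr (h1 f))
  have b := hM (.inr (h2 f))
  rw [H.deg1] at a ⊢
  rw [H.deg2] at b ⊢
  by_cases x : Sum.inl (h1 f) ∈ M <;> by_cases y : Sum.inl (h2 f) ∈ M <;>
    by_cases z : Sum.inr f ∈ M <;> simp_all

theorem RLHalf.uncovF (H : RLHalf gs gt W h1 h2) {g : Finset GE} {f : T}
    (h : h1 f ∈ g ↔ h2 f ∈ g) :
    deg (rlEnd gs W h1) (rlEnd gt W h2) (rlF gs gt W h1 h2 g) (.inr (h1 f)) ≠ 0 ∧
      deg (rlEnd gs W h1) (rlEnd gt W h2) (rlF gs gt W h1 h2 g) (.inr (h2 f)) ≠ 0 := by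
  simp only [H.deg1, H.deg2, rl_mem_inl (rl_meets (H.c1 f)), rl_mem_inl (rl_meets (H.c2 f)),
    rl_mem_inr]
  by_cases x : h1 f ∈ g <;> simp_all

theorem rl_core (h3 : S_RMB) (H : RLHalf gs gt W h1 h2) (hc : ∀ w ∈ W, deg gs gt univ w ≤ 3)
    {I Ω P : Type} [Fintype I] [Fintype Ω] {x : Ω → ℝ} {G : Ω → Finset GE} {φ : Ω → P}
    {b : I → P} {L : Finset P} {C err : ℝ} (hx : IsProb x)
    (hG : ∀ ω, x ω ≠ 0 → (∀ w ∈ W, deg gs gt (G ω) w = 1) ∧ φ ω ∈ L) (hb : ∀ i, b i ∈ L)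
    (hC : ∀ a, |(cnt fun i => b i = a : ℝ) - Fintype.card I * pr x (fun ω => φ ω = a)| ≤ C)
    (h0 : 0 ≤ L.card * (C + √(Fintype.card I) + 3))
    (herr : L.card * (C + √(Fintype.card I) + 3) ≤ err) :
    ∃ g : I → Finset GE,
      (∀ e, (gs e ∈ W ∨ gt e ∈ W) →
        |(cnt fun i => e ∈ g i : ℝ) - Fintype.card I * pr x (fun ω => e ∈ G ω)| ≤ err) ∧
      (∀ e (A : P → Prop), (gs e ∈ W ∨ gt e ∈ W) → (cnt fun i => ¬ (e ∈ g i ↔ A (b i)) : ℝ) ≤
        Fintype.card I * pr x (fun ω => ¬ (e ∈ G ω ↔ A (φ ω))) + 2 * err) ∧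
      (∀ w ∈ W, (cnt fun i => deg gs gt (g i) w ≠ 1 : ℝ) ≤ 3 * err) ∧
      ∀ f, (cnt fun i => ¬ (h2 f ∈ g i ↔ h1 f ∈ g i) : ℝ) ≤
        2 * (Fintype.card I * pr x (fun ω => ¬ (h1 f ∈ G ω ↔ h2 f ∈ G ω)) + 2 * err) := by
  obtain ⟨M, m1, m2, m3, m4⟩ := h3 (GV ⊕ GE) (GE ⊕ T) (rlEnd gs W h1) (rlEnd gt W h2) I Ω P x
    (fun ω => rlF gs gt W h1 h2 (G ω)) (rlS gs gt W) φ b L C hx
    (fun ω hω => ⟨H.match (hG ω hω).1, rl_F_sub _, (hG ω hω).2⟩) hb hC
  simp only [mul_assoc] at m3 m4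
  generalize (L.card : ℝ) * (C + √(Fintype.card I) + 3) = r at *
  have hn : (0 : ℝ) ≤ Fintype.card I := Nat.cast_nonneg _
  refine ⟨fun i => (M i).toLeft, fun e he => ?_, fun e A he => ?_, fun w hw => ?_, fun f => ?_⟩
  · have := m2 (.inl e)
    simp only [rl_mem_inl he] at this
    simp only [mem_toLeft]
    exact this.trans herr
  · have := m3 (.inl e) A
    simp only [rl_mem_inl he] at this
    simp only [mem_toLeft]
    linarith
  · have := m4 (.inl w)
    rw [pr_eq_zero (fun ω hω => by rw [rl_F_deg hw, (hG ω hω).1 w hw]; simp), rl_deg_inl _ hw]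
      at this
    have d : (deg gs gt (rlS gs gt W : Finset (GE ⊕ T)).toLeft w : ℝ) ≤ 3 := by
      exact_mod_cast (deg_mono (subset_univ _) w).trans (hc w hw)
    have e : cnt (fun i => deg gs gt (M i).toLeft w ≠ 1) =
        cnt (fun i => deg (rlEnd gs W h1) (rlEnd gt W h2) (M i) (.inl w) = 0) :=
      cnt_congr fun i => by
        have := (m1 i).1 (.inl w)
        rw [rl_deg_inl _ hw] at this ⊢
        omega
    rw [e]
    nlinarith
  · have a := m4 (.inr (h1 f))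
    have a' := m4 (.inr (h2 f))
    have d : (deg (rlEnd gs W h1) (rlEnd gt W h2) (rlS gs gt W) (.inr (h1 f)) : ℝ) ≤ 2 := by
      rw [H.deg1]; split_ifs <;> norm_num
    have d' : (deg (rlEnd gs W h1) (rlEnd gt W h2) (rlS gs gt W) (.inr (h2 f)) : ℝ) ≤ 2 := by
      rw [H.deg2]; split_ifs <;> norm_num
    have p := pr_mono hx.1 (P := fun ω => deg (rlEnd gs W h1) (rlEnd gt W h2)
      (rlF gs gt W h1 h2 (G ω)) (.inr (h1 f)) = 0) (Q := fun ω => ¬ (h1 f ∈ G ω ↔ h2 f ∈ G ω))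
      fun ω _ h h' => (H.uncovF h').1 h
    have p' := pr_mono hx.1 (P := fun ω => deg (rlEnd gs W h1) (rlEnd gt W h2)
      (rlF gs gt W h1 h2 (G ω)) (.inr (h2 f)) = 0) (Q := fun ω => ¬ (h1 f ∈ G ω ↔ h2 f ∈ G ω))
      fun ω _ h h' => (H.uncovF h').2 h
    have q : (cnt (fun i => ¬ (h2 f ∈ (M i).toLeft ↔ h1 f ∈ (M i).toLeft)) : ℝ) ≤
        cnt (fun i => deg (rlEnd gs W h1) (rlEnd gt W h2) (M i) (.inr (h1 f)) = 0) +
        cnt (fun i => deg (rlEnd gs W h1) (rlEnd gt W h2) (M i) (.inr (h2 f)) = 0) := by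
      exact_mod_cast cnt_le_add fun i h => H.uncov (m1 i).1 (by simpa only [mem_toLeft] using h)
    have := mul_le_mul_of_nonneg_left p hn
    have := mul_le_mul_of_nonneg_left p' hn
    have := mul_le_mul_of_nonneg_right d h0
    have := mul_le_mul_of_nonneg_right d' h0
    linarith

end Core

theorem rl_emp {I Γ : Type} [Fintype I] [Fintype Γ] (g : I → Γ) (good : I → Prop)
    (hm : 0 < cnt good) : ∃ μ : Γ → ℝ, IsProb μ ∧ (∀ a, μ a ≠ 0 → ∃ i, good i ∧ g i = a) ∧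
      ∀ A : Γ → Prop, cnt good * pr μ A = cnt (fun i => good i ∧ A (g i)) := by
  classical
  have hm' : (0 : ℝ) < cnt good := by exact_mod_cast hm
  have key : ∀ A : Γ → Prop, cnt good * pr (fun a => (cnt (fun i => g i = a ∧ good i) : ℝ) /
      cnt good) A = cnt (fun i => good i ∧ A (g i)) := by
    intro A
    rw [pr_eq_filter, ← sum_div, mul_div_cancel₀ _ hm'.ne', ← Nat.cast_sum, ← cnt_fiber]
    congr 1
    exact cnt_congr fun i => by simp [and_comm]
  refine ⟨_, ⟨fun a => by positivity, ?_⟩, fun a ha => ?_, key⟩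
  · have := key fun _ => True
    rw [pr_true] at this
    simp only [and_true] at this
    exact mul_left_cancel₀ hm'.ne' (by rw [this, mul_one])
  · by_contra h
    push Not at h
    exact ha (by rw [cnt_eq_zero fun i hi => h i hi.2 hi.1]; simp)

theorem rl_small (A C κ : ℝ) (hκ : 0 < κ) :
    ∃ n₀ : ℕ, ∀ n : ℕ, n₀ ≤ n → 0 < n ∧ A * (C + √n + 3) ≤ κ * n := by
  have h1 : Filter.Tendsto (fun n : ℕ => A * ((C + 3) / n + (√n)⁻¹)) Filter.atTop (nhds 0) := by
    have a := (tendsto_const_div_atTop_nhds_zero_nat (C + 3)).add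
      ((Real.tendsto_sqrt_atTop.comp tendsto_natCast_atTop_atTop).inv_tendsto_atTop)
    simpa using a.const_mul A
  obtain ⟨n₀, h⟩ := Filter.eventually_atTop.1
    ((h1.eventually (gt_mem_nhds hκ)).and (Filter.eventually_gt_atTop 0))
  refine ⟨n₀, fun n hn => ⟨(h n hn).2, ?_⟩⟩
  have hn0 : (0 : ℝ) < n := by exact_mod_cast (h n hn).2
  have hs : 0 < √(n : ℝ) := Real.sqrt_pos.2 hn0
  have e : A * (C + √n + 3) = A * ((C + 3) / n + (√n)⁻¹) * n := by
    have : (√(n : ℝ))⁻¹ * n = √n := by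
      rw [inv_mul_eq_iff_eq_mul₀ hs.ne', Real.mul_self_sqrt hn0.le]
    rw [mul_assoc, add_mul, this, div_mul_cancel₀ _ hn0.ne']
    ring
  rw [e]
  exact mul_le_mul_of_nonneg_right (h n hn).1.le hn0.le

section Sig

variable {Y : Type} [Fintype Y] [DecidableEq Y] (Q : Y → Pole)

def rlgs (e : Σ y, (Q y).E) : Σ y, (Q y).V := ⟨e.1, (Q e.1).s e.2⟩

def rlgt (e : Σ y, (Q y).E) : Σ y, (Q y).V := ⟨e.1, (Q e.1).t e.2⟩

def rlW : Finset (Σ y, (Q y).V) := univ.sigma fun y => (Q y).W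

def rlres (y : Y) (g : Finset (Σ y, (Q y).E)) : Finset (Q y).E := univ.filter fun e => ⟨y, e⟩ ∈ g

theorem rl_deg_sig (y : Y) (g : Finset (Σ y, (Q y).E)) (w : (Q y).V) :
    deg (rlgs Q) (rlgt Q) g ⟨y, w⟩ = deg (Q y).s (Q y).t (rlres Q y g) w := by
  have key : ∀ r : ∀ y, (Q y).E → (Q y).V,
      (g.filter fun e => (⟨e.1, r e.1 e.2⟩ : Σ y, (Q y).V) = ⟨y, w⟩).card =
        ((rlres Q y g).filter fun e => r y e = w).card := by
    intro r
    symm
    refine card_bij (fun e _ => ⟨y, e⟩) (fun e he => ?_) (fun e _ e' _ h => ?_) ?_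
    · simp only [rlres, mem_filter, mem_univ, true_and] at he ⊢
      exact ⟨he.1, by rw [he.2]⟩
    · exact eq_of_heq (Sigma.mk.inj_iff.1 h).2
    · rintro ⟨y', e⟩ he
      obtain ⟨h1, h2⟩ := mem_filter.1 he
      obtain ⟨rfl, h3⟩ := Sigma.mk.inj_iff.1 h2
      exact ⟨e, by simpa [rlres] using ⟨h1, eq_of_heq h3⟩, rfl⟩
  exact congrArg₂ (· + ·) (key fun y => (Q y).s) (key fun y => (Q y).t)

theorem rl_res_sigma (y : Y) (g : ∀ y, Finset (Q y).E) : rlres Q y (univ.sigma g) = g y := by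
  ext e; simp [rlres]

theorem rl_cut_sig (y : Y) (e : (Q y).E) :
    (⟨y, e⟩ : Σ y, (Q y).E) ∈ cut (rlgs Q) (rlgt Q) (rlW Q) ↔ e ∈ cut (Q y).s (Q y).t (Q y).W := by
  simp [rlgs, rlgt, rlW]

end Sig

theorem rl (h1 : S_GAD) (h2 : S_COUP) (h3 : S_RMB) : S_RL := by
  intro c c' τ C hτ
  set η : ℝ := τ / (2 * (1 + 4 * c * 2 ^ c)) with hη
  have hη0 : 0 < η := by positivity
  obtain ⟨B, ρ, hρ, hgad⟩ := h1 c η hη0
  set κ : ℝ := min (ρ / (2 * (1 + 3 * B))) (min (1 / (6 * B + 1)) (τ / (2 * (3 * B + 8 * c) + 1)))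
    with hκ
  obtain ⟨n₀, hn₀⟩ := rl_small (2 ^ c') C κ (by positivity)
  refine ⟨n₀, ?_⟩
  intro V E _ _ _ _ s t I _ P μ b hn hcub hP hdis hc' hμ hb hC
  obtain ⟨hn0, herr⟩ := hn₀ _ hn
  have hn0 : (0 : ℝ) < Fintype.card I := by exact_mod_cast hn0
  choose Q β hB hβ hg1 hg2 using fun y : P => hgad V E s t y.1 hcub (hP y.1 y.2).1 (hP y.1 y.2).2
  have hsub : ∀ y : P, y.1 ⊆ P.biUnion id := fun y => subset_biUnion_of_mem id y.2
  choose μ' hμ' hμ'' using fun y : P => hg1 y μ (hμ.mono (hsub y))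
  obtain ⟨x, hx, hx1, hx2, hx3, hx4⟩ := h2 (Finset E) P (Finset E) (fun y => Finset (Q y).E) μ μ'
    (fun y M => M ∩ cut s t y.1) (fun y g => pull s t y.1 (β y) g)
    (fun y => (cut s t y.1).powerset) η hμ.1 (fun y => (hμ' y).1)
    (fun y M => mem_powerset.2 inter_subset_right) hμ''
  have hx5 : ∀ y : P, pr x (fun z => pull s t y.1 (β y) (z.2 y) ≠ z.1 ∩ cut s t y.1) ≤ 2 ^ c * η := by
    intro y
    refine (hx4 y).trans (mul_le_mul_of_nonneg_right ?_ hη0.le)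
    rw [card_powerset]
    exact_mod_cast Nat.pow_le_pow_right two_pos (hP y.1 y.2).2
  have hpull : ∀ (y : P) {g : Finset (Q y).E} {M : Finset E} {f : E},
      pull s t y.1 (β y) g = M ∩ cut s t y.1 → f ∈ cut s t y.1 → (β y f ∈ g ↔ f ∈ M) := by
    intro y g M f h hf
    have := congrArg (f ∈ ·) h
    simpa only [pull, mem_filter, mem_inter, hf, true_and, and_true, eq_iff_iff] using this
  have huniq : ∀ {y y' : P} {v : V}, v ∈ y.1 → v ∈ y'.1 → y = y' := fun {y y' v} h h' =>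
    Subtype.ext (by_contra fun hne => disjoint_left.1 (hdis _ y.2 _ y'.2 hne) h h')
  have hab : ∀ f : tor s t (P.biUnion id) P, ∃ y y' : P, s f.1 ∈ y.1 ∧ t f.1 ∈ y'.1 ∧ y ≠ y' := by
    intro f
    obtain ⟨hf, z, hz, hfz⟩ := mem_tor.1 f.2
    obtain ⟨a1, a2⟩ := mem_ins.1 hf
    obtain ⟨y, hy, b1⟩ := mem_biUnion.1 a1
    obtain ⟨y', hy', b2⟩ := mem_biUnion.1 a2
    refine ⟨⟨y, hy⟩, ⟨y', hy'⟩, b1, b2, fun h => mem_cut.1 hfz ?_⟩
    obtain rfl : y = y' := congrArg Subtype.val h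
    constructor
    · intro h
      obtain rfl : y = z := congrArg Subtype.val (huniq (y := ⟨y, hy⟩) (y' := ⟨z, hz⟩) b1 h)
      exact b2
    · intro h
      obtain rfl : y = z := congrArg Subtype.val (huniq (y := ⟨y, hy⟩) (y' := ⟨z, hz⟩) b2 h)
      exact b1
  choose pa pb ha hb' hne using hab
  have ca : ∀ f, f.1 ∈ cut s t (pa f).1 := fun f =>
    mem_cut.2 fun h => hne f (huniq (h.1 (ha f)) (hb' f))
  have cb : ∀ f, f.1 ∈ cut s t (pb f).1 := fun f =>
    mem_cut.2 fun h => hne f (huniq (ha f) (h.2 (hb' f)))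
  have inj : ∀ {y y' : P} {f f' : E}, f ∈ cut s t y.1 → f' ∈ cut s t y'.1 →
      (⟨y, β y f⟩ : Σ y, (Q y).E) = ⟨y', β y' f'⟩ → y = y' ∧ f = f' := by
    intro y y' f f' hf hf' h
    obtain ⟨rfl, h3⟩ := Sigma.mk.inj_iff.1 h
    exact ⟨rfl, (hβ y).injOn hf hf' (eq_of_heq h3)⟩
  have H : RLHalf (rlgs Q) (rlgt Q) (rlW Q)
      (fun f => ⟨pa f, β (pa f) f.1⟩) (fun f => ⟨pb f, β (pb f) f.1⟩) :=
    ⟨fun f f' h => Subtype.ext (inj (ca f) (ca f') h).2,
      fun f f' h => Subtype.ext (inj (cb f) (cb f') h).2,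
      fun f f' h => by
        obtain ⟨e1, e2⟩ := inj (ca f) (cb f') h
        obtain rfl : f = f' := Subtype.ext e2
        exact hne f e1,
      fun f => (rl_cut_sig Q _ _).2 ((hβ _).mapsTo (ca f)),
      fun f => (rl_cut_sig Q _ _).2 ((hβ _).mapsTo (cb f))⟩
  have hC0 : 0 ≤ C := (abs_nonneg _).trans (hC ∅)
  obtain ⟨g, g1, g2, g3, g4⟩ := rl_core h3 H (x := x) (G := fun z => univ.sigma z.2)
    (φ := fun z => z.1 ∩ cut s t (P.biUnion id)) (b := b) (L := (cut s t (P.biUnion id)).powerset)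
    (C := C) (err := κ * Fintype.card I)
    (fun w _ => by
      obtain ⟨y, w⟩ := w
      rw [rl_deg_sig]
      exact (deg_mono (subset_univ _) w).trans ((Q y).cub.2 w).le) hx
    (fun z hz => ⟨fun w hw => by
      obtain ⟨y, w⟩ := w
      rw [rl_deg_sig, rl_res_sigma]
      exact (hμ' y).2.1 _ ((hx1 z hz).2 y) w (mem_sigma.1 hw).2,
      mem_powerset.2 inter_subset_right⟩)
    (fun i => mem_powerset.2 (hb i))
    (fun a => by rw [hx2 (fun M => M ∩ cut s t (P.biUnion id) = a)]; exact hC a)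
    (by positivity)
    (le_trans (mul_le_mul_of_nonneg_right (by
      rw [card_powerset]; exact_mod_cast Nat.pow_le_pow_right two_pos hc') (by positivity)) herr)
  have k0 : 0 ≤ κ * Fintype.card I := by positivity
  have k1 : κ * Fintype.card I * (2 * (1 + 3 * B)) ≤ ρ * Fintype.card I := by
    rw [mul_right_comm]
    exact mul_le_mul_of_nonneg_right ((le_div_iff₀ (by positivity)).1 (min_le_left _ _)) hn0.le
  have k2 : κ * Fintype.card I * (6 * B + 1) ≤ 1 * Fintype.card I := by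
    rw [mul_right_comm]
    exact mul_le_mul_of_nonneg_right ((le_div_iff₀ (by positivity)).1
      ((min_le_right _ _).trans (min_le_left _ _))) hn0.le
  have k3 : κ * Fintype.card I * (2 * (3 * B + 8 * c) + 1) ≤ τ * Fintype.card I := by
    rw [mul_right_comm]
    exact mul_le_mul_of_nonneg_right ((le_div_iff₀ (by positivity)).1
      ((min_le_right _ _).trans (min_le_right _ _))) hn0.le
  have k4 : η * (2 * (1 + 4 * c * 2 ^ c)) = τ := div_mul_cancel₀ _ (by positivity)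
  generalize κ * Fintype.card I = err at *
  let d : I → Finset E := fun i => (univ.filter fun f : tor s t (P.biUnion id) P =>
    (⟨pa f, β (pa f) f.1⟩ : Σ y, (Q y).E) ∈ g i).map (Function.Embedding.subtype _)
  have hd : ∀ i, d i ⊆ tor s t (P.biUnion id) P := fun i f hf => by
    obtain ⟨f, -, rfl⟩ := mem_map.1 hf
    exact f.2
  have hd' : ∀ i (f : tor s t (P.biUnion id) P),
      f.1 ∈ d i ↔ (⟨pa f, β (pa f) f.1⟩ : Σ y, (Q y).E) ∈ g i := fun i f =>
    (mem_map' (Function.Embedding.subtype _)).trans (by simp)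
  refine ⟨d, hd, fun y0 hy0 => ?_⟩
  obtain ⟨y, rfl⟩ : ∃ y : P, y.1 = y0 := ⟨⟨y0, hy0⟩, rfl⟩
  set good : I → Prop := fun i => ∀ w ∈ (Q y).W, deg (Q y).s (Q y).t (rlres Q y (g i)) w = 1
    with hgood
  have bad : (cnt (fun i => ¬ good i) : ℝ) ≤ B * (3 * err) := by
    have a : cnt (fun i => ¬ good i) ≤ ∑ w ∈ (Q y).W,
        cnt (fun i => deg (rlgs Q) (rlgt Q) (g i) ⟨y, w⟩ ≠ 1) :=
      le_trans (cnt_mono fun i hi => by simpa [hgood, rl_deg_sig] using hi) (cnt_exists_le _ _)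
    refine (Nat.cast_le.2 a).trans ?_
    rw [Nat.cast_sum]
    refine (sum_le_card_nsmul _ _ _ fun w hw => g3 ⟨y, w⟩ (by simpa [rlW] using hw)).trans ?_
    rw [nsmul_eq_mul]
    exact mul_le_mul_of_nonneg_right (by exact_mod_cast hB y) (by positivity)
  have tot : (cnt good : ℝ) + cnt (fun i => ¬ good i) = Fintype.card I := by
    exact_mod_cast cnt_add_not good
  have bad0 : (0 : ℝ) ≤ cnt (fun i => ¬ good i) := Nat.cast_nonneg _
  have hm : (Fintype.card I : ℝ) / 2 ≤ cnt good := by linarith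
  have hm0 : (0 : ℝ) < cnt good := by linarith
  obtain ⟨μ2, p1, p2, p3⟩ := rl_emp (fun i => rlres Q y (g i)) good (by exact_mod_cast hm0)
  have law : Law (Q y).s (Q y).t (Q y).W ρ μ2 := by
    refine ⟨p1, fun M hM => ?_, fun e he => ?_⟩
    · obtain ⟨i, hi, rfl⟩ := p2 M hM
      exact hi
    have a := abs_le.1 (g1 ⟨y, e⟩ (by simpa [rlgs, rlgt, rlW] using he))
    simp only [mem_sigma, mem_univ, true_and] at a
    rw [hx3 y (fun M => e ∈ M), (hμ' y).marg he] at a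
    have q := p3 (fun M => e ∈ M)
    simp only [rlres, mem_filter, mem_univ, true_and] at q
    have q1 : (cnt (fun i => good i ∧ (⟨y, e⟩ : Σ y, (Q y).E) ∈ g i) : ℝ) ≤
        cnt (fun i => (⟨y, e⟩ : Σ y, (Q y).E) ∈ g i) := Nat.cast_le.2 (cnt_mono fun i h => h.2)
    have q2 : (cnt (fun i => (⟨y, e⟩ : Σ y, (Q y).E) ∈ g i) : ℝ) ≤
        cnt (fun i => good i ∧ (⟨y, e⟩ : Σ y, (Q y).E) ∈ g i) + cnt (fun i => ¬ good i) := by
      exact_mod_cast cnt_le_add fun i h => by tauto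
    have r := mul_le_mul_of_nonneg_left hm hρ.le
    rw [abs_le]
    constructor <;> refine le_of_mul_le_mul_left ?_ hm0 <;> linarith [a.1, a.2]
  obtain ⟨ν, hν, hν'⟩ := hg2 y μ2 law
  refine ⟨ν, hν, fun a => ?_⟩
  have mis : ∀ f ∈ cut s t y.1, (cnt (fun i => ¬ ((⟨y, β y f⟩ : Σ y, (Q y).E) ∈ g i ↔
      f ∈ b i ∪ d i)) : ℝ) ≤ 4 * (Fintype.card I * (2 ^ c * η)) + 4 * err := by
    intro f hf
    have p0 : 0 ≤ Fintype.card I * (2 ^ c * η) := by positivity
    by_cases hU : f ∈ cut s t (P.biUnion id)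
    · have a := g2 ⟨y, β y f⟩ (f ∈ ·) (rl_meets ((rl_cut_sig Q _ _).2 ((hβ y).mapsTo hf)))
      have nt : ∀ i, f ∉ d i := fun i h =>
        disjoint_left.1 (disjoint_ins_cut _) (mem_tor.1 (hd i h)).1 hU
      have p := (pr_mono hx.1 (P := fun z => ¬ ((⟨y, β y f⟩ : Σ y, (Q y).E) ∈ univ.sigma z.2 ↔
          f ∈ z.1 ∩ cut s t (P.biUnion id)))
        (Q := fun z => pull s t y.1 (β y) (z.2 y) ≠ z.1 ∩ cut s t y.1) fun z _ h h' =>
        h (by simpa only [mem_sigma, mem_univ, true_and, mem_inter, hU, and_true]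
          using hpull y h' hf)).trans (hx5 y)
      have := mul_le_mul_of_nonneg_left p hn0.le
      simp only [mem_union, nt, or_false]
      linarith
    · have hft : f ∈ tor s t (P.biUnion id) P := by
        refine mem_tor.2 ⟨mem_ins.2 ?_, y.1, y.2, hf⟩
        have a := mem_cut.1 hf
        have a1 := @hsub y (s f)
        have a2 := @hsub y (t f)
        rw [mem_cut, not_not] at hU
        tauto
      obtain ⟨f, rfl⟩ : ∃ f' : tor s t (P.biUnion id) P, f'.1 = f := ⟨⟨f, hft⟩, rfl⟩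
      have nb : ∀ i, f.1 ∉ b i := fun i h => hU (hb i h)
      simp only [mem_union, nb, false_or, hd']
      by_cases hy : s f.1 ∈ y.1
      · obtain rfl := huniq hy (ha f)
        rw [cnt_eq_zero fun i h => h Iff.rfl, Nat.cast_zero]
        positivity
      · obtain rfl : y = pb f := huniq (by have := mem_cut.1 hf; tauto) (hb' f)
        have p := (pr_le_add hx.1 (P := fun z => ¬ ((⟨pa f, β (pa f) f.1⟩ : Σ y, (Q y).E) ∈
            univ.sigma z.2 ↔ (⟨pb f, β (pb f) f.1⟩ : Σ y, (Q y).E) ∈ univ.sigma z.2))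
          (Q := fun z => pull s t (pa f).1 (β (pa f)) (z.2 (pa f)) ≠ z.1 ∩ cut s t (pa f).1)
          (R := fun z => pull s t (pb f).1 (β (pb f)) (z.2 (pb f)) ≠ z.1 ∩ cut s t (pb f).1)
          fun z _ h => by
            by_contra hcon
            rw [not_or, not_not, not_not] at hcon
            simp only [mem_sigma, mem_univ, true_and] at h
            exact h ((hpull _ hcon.1 (ca f)).trans (hpull _ hcon.2 (cb f)).symm)).trans
          (add_le_add (hx5 (pa f)) (hx5 (pb f)))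
        have := mul_le_mul_of_nonneg_left p hn0.le
        linarith [g4 f]
  have mis2 : (cnt (fun i => ∃ f ∈ cut s t y.1, ¬ ((⟨y, β y f⟩ : Σ y, (Q y).E) ∈ g i ↔
      f ∈ b i ∪ d i)) : ℝ) ≤ c * (4 * (Fintype.card I * (2 ^ c * η)) + 4 * err) := by
    refine (Nat.cast_le.2 (cnt_exists_le _ _)).trans ?_
    rw [Nat.cast_sum]
    refine (sum_le_card_nsmul _ _ _ mis).trans ?_
    rw [nsmul_eq_mul]
    exact mul_le_mul_of_nonneg_right (by exact_mod_cast (hP y.1 y.2).2) (by positivity)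
  have fin : (cnt (fun i => good i ∧ pull s t y.1 (β y) (rlres Q y (g i)) = a) : ℝ) ≤
      cnt (fun i => (b i ∪ d i) ∩ cut s t y.1 = a) +
      cnt (fun i => ∃ f ∈ cut s t y.1, ¬ ((⟨y, β y f⟩ : Σ y, (Q y).E) ∈ g i ↔ f ∈ b i ∪ d i)) := by
    refine Nat.cast_le.2 (cnt_le_add fun i h => ?_) |>.trans (Nat.cast_add _ _).le
    by_contra hcon
    push Not at hcon
    refine hcon.1 (Eq.trans ?_ h.2)
    ext f
    simp only [pull, rlres, mem_filter, mem_univ, true_and, mem_inter]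
    have := hcon.2 f
    tauto
  rw [← p3 (fun M => pull s t y.1 (β y) M = a)] at fin
  have u1 := mul_le_mul_of_nonneg_left (abs_le.1 (hν' a)).1 hm0.le
  have u2 := mul_le_mul_of_nonneg_left (pr_le_one hν.1 (fun M => M ∩ cut s t y.1 = a)) bad0
  have u3 := mul_nonneg bad0 hη0.le
  have u4 : (0 : ℝ) ≤ c * err := by positivity
  have u5 : Fintype.card I * pr ν (fun M => M ∩ cut s t y.1 = a) =
      (cnt good + cnt (fun i => ¬ good i)) * pr ν (fun M => M ∩ cut s t y.1 = a) := by rw [tot]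
  have u6 : Fintype.card I * η = (cnt good + cnt (fun i => ¬ good i)) * η := by rw [tot]
  have u7 : τ * Fintype.card I = η * (2 * (1 + 4 * c * 2 ^ c)) * Fintype.card I := by rw [k4]
  linarith

end Pool.Agent.P.MP_40718a_co.ABF
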