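import Pool.Agent.P.MP_40718a_co.ABF.Basic

namespace Pool.Agent.P.MP_40718a_co.ABF

open Finset

theorem ro_cnt_subtype {I : Type} [Fintype I] (T : I → Prop) [Fintype {i // T i}]
    (P : I → Prop) : cnt (fun i : {i // T i} => P i.1) = cnt (fun i => T i ∧ P i) := by
  classical
  rw [cnt_eq, cnt_eq]
  refine card_bij (fun i _ => i.1) ?_ ?_ ?_
  · intro i hi
    simp only [mem_filter, mem_univ, true_and] at hi ⊢
    exact ⟨i.2, hi⟩
  · intro i _ j _ h
    exact Subtype.ext h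
  · intro i hi
    simp only [mem_filter, mem_univ, true_and] at hi
    exact ⟨⟨i, hi.1⟩, by simpa using hi.2, rfl⟩

/-- a subfamily whose pattern counts are close to a given law -/
theorem ro_thin {I Ω α : Type} [Fintype I] [Fintype Ω] (μ : Ω → ℝ) (φ : Ω → α) (b : I → α)
    (L : Finset α) (N K : ℝ) (hμ : IsProb μ) (hφ : ∀ ω, φ ω ∈ L) (hb : ∀ i, b i ∈ L)
    (hN : 0 ≤ N) (hK : 0 ≤ K)
    (h : ∀ a, N * pr μ (fun ω => φ ω = a) - K ≤ cnt fun i => b i = a) :
    ∃ T : I → Prop, N - L.card * (K + 1) ≤ cnt T ∧ (cnt T : ℝ) ≤ N ∧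
      ∀ a, |(cnt fun i => T i ∧ b i = a : ℝ) - cnt T * pr μ (fun ω => φ ω = a)|
        ≤ (K + 1) * (1 + L.card) := by
  classical
  set q : α → ℝ := fun a => pr μ (fun ω => φ ω = a) with hq
  have hq0 : ∀ a, 0 ≤ q a := fun a => pr_nonneg hμ.1 _
  have hq1 : ∀ a, q a ≤ 1 := fun a => pr_le_one hμ _
  have hsum : ∑ a ∈ L, q a = 1 := by
    rw [hq, ← pr_mem μ φ L]
    exact pr_eq_one hμ fun ω _ => hφ ω
  set m : α → ℕ := fun a => ⌊N * q a - K⌋₊ with hm
  have hm1 : ∀ a, (m a : ℝ) ≤ N * q a := fun a => by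
    rcases le_total 0 (N * q a - K) with h0 | h0
    · exact (Nat.floor_le h0).trans (by linarith)
    · simp only [hm]
      rw [Nat.floor_of_nonpos h0, Nat.cast_zero]
      exact mul_nonneg hN (hq0 a)
  have hm2 : ∀ a, N * q a - (K + 1) ≤ m a := fun a => by
    have := Nat.lt_floor_add_one (N * q a - K)
    simp only [hm]
    linarith
  have hex : ∀ a, ∃ S ⊆ univ.filter fun i => b i = a, S.card = m a := fun a => by
    apply exists_subset_card_eq
    rw [← cnt_eq]
    exact Nat.floor_le_of_le (h a)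
  choose S hS hSc using hex
  have hTa : ∀ a, cnt (fun i => i ∈ S (b i) ∧ b i = a) = m a := fun a => by
    rw [← hSc, cnt_eq]
    congr 1
    ext i
    simp only [mem_filter, mem_univ, true_and]
    constructor
    · rintro ⟨h1, rfl⟩
      exact h1
    · intro h1
      have h2 : b i = a := (mem_filter.1 (hS a h1)).2
      exact ⟨h2 ▸ h1, h2⟩
  have hT : (cnt (fun i => i ∈ S (b i)) : ℝ) = ∑ a ∈ L, (m a : ℝ) := by
    have h1 := cnt_fiber b L (fun i => i ∈ S (b i))
    rw [cnt_congr (Q := fun i => i ∈ S (b i)) (fun i => by simp [hb i])] at h1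
    rw [h1]
    push_cast
    refine sum_congr rfl fun a _ => ?_
    rw [← hTa a, cnt_congr (fun i => and_comm)]
  have hup : (cnt (fun i => i ∈ S (b i)) : ℝ) ≤ N := by
    rw [hT]
    calc ∑ a ∈ L, (m a : ℝ) ≤ ∑ a ∈ L, N * q a := sum_le_sum fun a _ => hm1 a
      _ = N := by rw [← mul_sum, hsum, mul_one]
  have hlo : N - L.card * (K + 1) ≤ (cnt (fun i => i ∈ S (b i)) : ℝ) := by
    rw [hT]
    calc N - L.card * (K + 1) = ∑ a ∈ L, (N * q a - (K + 1)) := by
          rw [sum_sub_distrib, ← mul_sum, hsum, mul_one, sum_const, nsmul_eq_mul]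
      _ ≤ _ := sum_le_sum fun a _ => hm2 a
  refine ⟨fun i => i ∈ S (b i), hlo, hup, fun a => ?_⟩
  rw [hTa a]
  change |(m a : ℝ) - _ * q a| ≤ _
  set n : ℝ := (cnt (fun i => i ∈ S (b i)) : ℝ)
  have hL : (0 : ℝ) ≤ L.card * (K + 1) := by positivity
  have a1 : 0 ≤ (N - n) * q a := mul_nonneg (by linarith) (hq0 a)
  have a2 : (N - n) * q a ≤ L.card * (K + 1) :=
    (mul_le_of_le_one_right (by linarith) (hq1 a)).trans (by linarith)
  have a3 := hm1 a
  have a4 := hm2 a
  rw [abs_le]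
  constructor <;> nlinarith

theorem ro (h1 : S_RL) (h2 : S_FV) : S_RO := by
  intro c c' θ K hθ hθ1 hK
  have h2c : (0 : ℝ) < 2 ^ c := by positivity
  have h2c' : (0 : ℝ) < 2 ^ c' := by positivity
  have hK0 : 0 < K := h2c.trans_le hK
  obtain ⟨n₁, hRL⟩ := h1 c c' (θ / (2 * 2 ^ c)) ((K + 1) * (1 + 2 ^ c')) (by positivity)
  obtain ⟨n₀, hn₀⟩ := exists_nat_ge (max ((n₁ + 2 ^ c' * (K + 1)) / (1 - θ))
    (2 * (2 ^ c * (2 ^ c' * (K + 1) + 1)) / θ))
  refine ⟨n₀, ?_⟩
  intro V E _ _ _ _ s t I _ P μ b hI hcub hP hdisj hc' hμ hb hcnt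
  classical
  set N : ℝ := ((Fintype.card I : ℕ) : ℝ) with hN
  have hN0 : 0 ≤ N := Nat.cast_nonneg _
  have hNn : (n₀ : ℝ) ≤ N := by rw [hN]; exact_mod_cast hI
  have hA : (n₁ : ℝ) + 2 ^ c' * (K + 1) ≤ N - θ * N := by
    have := (le_max_left _ _).trans (hn₀.trans hNn)
    rw [div_le_iff₀ (by linarith)] at this
    linarith
  have hB : 2 * (2 ^ c * (2 ^ c' * (K + 1) + 1)) ≤ θ * N := by
    have := (le_max_right _ _).trans (hn₀.trans hNn)
    rw [div_le_iff₀ hθ] at this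
    linarith
  have hN' : 0 ≤ N - θ * N := by nlinarith
  set U := P.biUnion id with hU
  have hL : (((cut s t U).powerset.card : ℕ) : ℝ) ≤ 2 ^ c' := by
    rw [card_powerset]
    push_cast
    exact pow_le_pow_right₀ (by norm_num) hc'
  obtain ⟨T, hT1, hT2, hT3⟩ := ro_thin μ (fun M => M ∩ cut s t U) b (cut s t U).powerset
    (N - θ * N) K hμ.1 (fun M => mem_powerset.2 inter_subset_right)
    (fun i => mem_powerset.2 (hb i)) hN' hK0.le hcnt
  have hcard : Fintype.card {i // T i} = cnt T := by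
    rw [← cnt_true, ro_cnt_subtype T fun _ => True]
    simp
  have hlo : N - θ * N - 2 ^ c' * (K + 1) ≤ cnt T := by
    have := mul_le_mul_of_nonneg_right hL (show 0 ≤ K + 1 by linarith)
    linarith
  obtain ⟨d', hd', hν⟩ := hRL V E s t {i // T i} P μ (fun i => b i.1) (by
      rw [hcard]
      have : (n₁ : ℝ) ≤ cnt T := by linarith
      exact_mod_cast this) hcub hP hdisj hc' hμ (fun i => hb i.1) (fun a => by
      rw [hcard, ro_cnt_subtype T fun i => b i = a]
      refine (hT3 a).trans (mul_le_mul_of_nonneg_left (by linarith) (by linarith)))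
  let d : I → Finset E := fun i => if h : T i then d' ⟨i, h⟩ else ∅
  have key : ∀ y ∈ P, ∃ p : I → Finset E, Inv s t (θ * N) K y p ∧
      (cnt fun i => p i ≠ (b i ∪ d i) ∩ cut s t y : ℝ) ≤ 2 * θ * N := by
    intro y hy
    obtain ⟨ν, hν1, hν2⟩ := hν y hy
    have hy2 : (2 : ℝ) ^ (cut s t y).card ≤ 2 ^ c :=
      pow_le_pow_right₀ (by norm_num) (hP y hy).2
    have hδ : 0 ≤ 2 ^ c' * (K + 1) + θ / (2 * 2 ^ c) * N := by positivity
    obtain ⟨p, hp1, hp2⟩ := h2 V E s t I (θ * N) K (2 ^ c' * (K + 1) + θ / (2 * 2 ^ c) * N) y ν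
      (fun i => (b i ∪ d i) ∩ cut s t y) hν1 (by positivity) (by nlinarith) (hy2.trans hK) hδ
      (fun a => by
        have a1 := hν2 a
        have a2 : cnt (fun i : {i // T i} => (b i.1 ∪ d' i) ∩ cut s t y = a) ≤
            cnt fun i => (b i ∪ d i) ∩ cut s t y = a := by
          rw [cnt_congr (Q := fun i : {i // T i} => (b i.1 ∪ d i.1) ∩ cut s t y = a)
            (fun i => by simp only [d, dif_pos i.2]),
            ro_cnt_subtype T fun i => (b i ∪ d i) ∩ cut s t y = a]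
          exact cnt_mono fun i h => h.2
        have a3 : (cnt (fun i : {i // T i} => (b i.1 ∪ d' i) ∩ cut s t y = a) : ℝ) ≤
            cnt fun i => (b i ∪ d i) ∩ cut s t y = a := by exact_mod_cast a2
        rw [hcard] at a1
        have q0 := pr_nonneg hν1.1.1 fun M => M ∩ cut s t y = a
        have q1 := pr_le_one hν1.1 fun M => M ∩ cut s t y = a
        set q := pr ν fun M => M ∩ cut s t y = a
        have hτ : 0 ≤ θ / (2 * 2 ^ c) := by positivity
        have b1 : θ / (2 * 2 ^ c) * (cnt T : ℝ) ≤ θ / (2 * 2 ^ c) * N :=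
          mul_le_mul_of_nonneg_left (by nlinarith) hτ
        have b2 : (N - θ * N - 2 ^ c' * (K + 1)) * q ≤ cnt T * q :=
          mul_le_mul_of_nonneg_right hlo q0
        have b3 : 2 ^ c' * (K + 1) * q ≤ 2 ^ c' * (K + 1) :=
          mul_le_of_le_one_right (by positivity) q1
        rw [← hN]
        nlinarith)
    refine ⟨p, hp1, hp2.trans ?_⟩
    have b1 : (2 : ℝ) ^ (cut s t y).card * (2 ^ c' * (K + 1) + θ / (2 * 2 ^ c) * N + 1) ≤
        2 ^ c * (2 ^ c' * (K + 1) + θ / (2 * 2 ^ c) * N + 1) :=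
      mul_le_mul_of_nonneg_right hy2 (by positivity)
    have b2 : (2 : ℝ) ^ c * (2 ^ c' * (K + 1) + θ / (2 * 2 ^ c) * N + 1) =
        2 ^ c * (2 ^ c' * (K + 1) + 1) + θ * N / 2 := by
      field_simp
      ring
    linarith
  choose! p hp using key
  refine ⟨d, p, fun i => ?_, hp⟩
  by_cases h : T i
  · simp only [d, dif_pos h]
    exact hd' _
  · simp only [d, dif_neg h]
    exact empty_subset _

end Pool.Agent.P.MP_40718a_co.ABF
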