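import Pool.Agent.P.MP_40718a_co.ABF.Basic

namespace Pool.Agent.P.MP_40718a_co.ABF

open Finset
open scoped symmDiff

theorem round_int {Ω : Type} (S : Finset Ω) (x : Ω → ℝ) (hx : ∀ ω, 0 ≤ x ω) (N : ℕ)
    (hN : ∑ ω ∈ S, x ω = N) :
    ∃ n : Ω → ℕ, ∑ ω ∈ S, n ω = N ∧ ∀ ω, (n ω ≠ 0 → x ω ≠ 0) ∧ |(n ω : ℝ) - x ω| ≤ 1 := by
  classical
  have h1 : ∀ ω, (⌊x ω⌋₊ : ℝ) ≤ x ω := fun ω => Nat.floor_le (hx ω)
  have h2 : ∀ ω, x ω < ⌊x ω⌋₊ + 1 := fun ω => Nat.lt_floor_add_one _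
  have h3 : ∑ ω ∈ S, ⌊x ω⌋₊ ≤ N := by
    have : ((∑ ω ∈ S, ⌊x ω⌋₊ : ℕ) : ℝ) ≤ N := by
      rw [← hN]; push_cast; exact sum_le_sum fun ω _ => h1 ω
    exact_mod_cast this
  have h4 : N ≤ ∑ ω ∈ S, ⌊x ω⌋₊ + (S.filter fun ω => x ω ≠ 0).card := by
    have : (N : ℝ) ≤ ((∑ ω ∈ S, ⌊x ω⌋₊ + (S.filter fun ω => x ω ≠ 0).card : ℕ) : ℝ) := by
      rw [← hN, card_filter]; push_cast
      rw [← sum_add_distrib]
      refine sum_le_sum fun ω _ => ?_
      split_ifs with h
      · exact (h2 ω).le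
      · rw [not_not.1 h]; simp
    exact_mod_cast this
  obtain ⟨T, hT, hc⟩ := exists_subset_card_eq (s := S.filter fun ω => x ω ≠ 0)
    (n := N - ∑ ω ∈ S, ⌊x ω⌋₊) (by omega)
  refine ⟨fun ω => ⌊x ω⌋₊ + if ω ∈ T then 1 else 0, ?_, fun ω => ⟨?_, ?_⟩⟩
  · rw [sum_add_distrib, sum_boole, filter_mem_eq_inter,
      inter_eq_right.2 (hT.trans (filter_subset _ _)), Nat.cast_id, hc]
    omega
  · intro h h0
    by_cases hω : ω ∈ T
    · exact (mem_filter.1 (hT hω)).2 h0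
    · simp [hω, h0] at h
  · have := h1 ω; have := h2 ω
    rw [abs_le]
    dsimp only
    split_ifs <;> push_cast <;> constructor <;> linarith

theorem round_sigma {Ω : Type} [Fintype Ω] (n : Ω → ℕ) (ω : Ω) :
    cnt (fun j : (Σ ω, Fin (n ω)) => j.1 = ω) = n ω := by
  classical
  have := cnt_eq_sum (fun j : (Σ ω, Fin (n ω)) => j.1 = ω)
  rw [Fintype.sum_sigma, sum_eq_single ω] at this
  · simpa using this
  · intro b _ hb; simp [hb]
  · simp

theorem round : S_ROUND := by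
  classical
  intro I Ω P _ _ p π x hx h
  choose n hn hn' using fun a => round_int (univ.filter fun ω => π ω = a) x hx _
    ((pr_eq_filter x _).symm.trans (h a))
  let m : Ω → ℕ := fun ω => n (π ω) ω
  have hc : ∀ a, Fintype.card {i // p i = a} =
      Fintype.card {j : (Σ ω, Fin (m ω)) // π j.1 = a} := by
    intro a
    rw [Fintype.card_subtype, Fintype.card_subtype, ← cnt_eq, ← cnt_eq, ← hn a,
      cnt_congr (Q := fun j : (Σ ω, Fin (m ω)) => j.1 ∈ univ.filter fun ω => π ω = a) (by simp),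
      cnt_mem]
    refine sum_congr rfl fun ω hω => ?_
    rw [round_sigma, ← (mem_filter.1 hω).2]
  let e := Equiv.ofFiberEquiv (f := p) (g := fun j : (Σ ω, Fin (m ω)) => π j.1)
    fun a => Fintype.equivOfCardEq (hc a)
  refine ⟨fun i => (e i).1, fun i => ⟨Equiv.ofFiberEquiv_map (f := p)
    (g := fun j : (Σ ω, Fin (m ω)) => π j.1) _ i, (hn' (π (e i).1) _).1 ?_⟩, fun ω => ?_⟩
  · exact (e i).2.pos.ne'
  · rw [cnt_equiv e (fun j => j.1 = ω), round_sigma]
    exact (hn' _ _).2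

theorem smatch : S_MATCH := by
  classical
  intro I X _ _ w a
  obtain ⟨g, -, hg⟩ := exists_max_image (univ : Finset (Equiv.Perm I))
    (fun g => cnt fun i => w (g i) = a i) univ_nonempty
  refine ⟨g, ?_⟩
  have key : ∀ x, (∀ i, a i = x → w (g i) = x) ∨ ∀ j, w (g j) = x → a j = x := by
    intro x
    by_contra hc
    push Not at hc
    obtain ⟨⟨i, hi, hi'⟩, j, hj, hj'⟩ := hc
    have h1 := hg (g * Equiv.swap i j) (mem_univ _)
    rw [cnt_eq, cnt_eq] at h1
    refine absurd h1 (not_le.2 (card_lt_card ⟨fun k hk => ?_, fun hs => ?_⟩))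
    · simp only [mem_filter, mem_univ, true_and] at hk ⊢
      have h2 : k ≠ i := by rintro rfl; exact hi' (hk.trans hi)
      have h3 : k ≠ j := by rintro rfl; exact hj' (hk.symm.trans hj)
      rw [Equiv.Perm.mul_apply, Equiv.swap_apply_of_ne_of_ne h2 h3, hk]
    · have := hs (x := i) (by simp [hj, hi])
      simp only [mem_filter, mem_univ, true_and] at this
      exact hi' (this.trans hi)
  rw [cnt_congr (Q := fun i => w (g i) ∈ (univ : Finset X) ∧ w (g i) ≠ a i) (by simp), cnt_fiber]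
  refine sum_le_sum fun x _ => ?_
  rcases key x with h | h
  · have h1 := cnt_split (fun i => w (g i) = x) (fun i => w (g i) = a i)
    rw [cnt_equiv g (fun i => w i = x)] at h1
    have h2 : cnt (fun i => a i = x) ≤ cnt fun i => w (g i) = x ∧ w (g i) = a i :=
      cnt_mono fun i hi => ⟨h i hi, (h i hi).trans hi.symm⟩
    simp only [ne_eq]
    omega
  · rw [cnt_eq_zero fun i hi => hi.2 (hi.1.trans (h i hi.1).symm)]
    exact Nat.zero_le _

theorem fv (h1 : S_ROUND) (h2 : S_MATCH) : S_FV := by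
  classical
  intro V E _ _ _ _ s t I _ R K δ W ν a hν hR hRN hK hδ ha
  set S := (cut s t W).powerset.filter fun c => Even (c.card + W.card) with hS
  have hmem : ∀ c, c ∈ S ↔ c ⊆ cut s t W ∧ Even (c.card + W.card) := by simp [hS]
  have hνS : ∀ M, ν M ≠ 0 → M ∩ cut s t W ∈ S := fun M hM =>
    (hmem _).2 ⟨inter_subset_right, hν.parity hM⟩
  have hS0 : (0 : ℝ) < S.card := by
    obtain ⟨M, hM⟩ := exists_ne_zero hν.1
    exact_mod_cast card_pos.2 ⟨_, hνS M hM⟩
  have hS1 : (S.card : ℝ) ≤ 2 ^ (cut s t W).card := by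
    have := card_filter_le (cut s t W).powerset fun c => Even (c.card + W.card)
    rw [card_powerset] at this
    exact_mod_cast this
  let x : Finset E → ℝ := fun c => (Fintype.card I - R) * pr ν (fun M => M ∩ cut s t W = c) +
    if c ∈ S then R / S.card else 0
  have hx0 : ∀ c, 0 ≤ x c := fun c => add_nonneg
    (mul_nonneg (sub_nonneg.2 hRN) (pr_nonneg hν.1.1 _)) (by split_ifs <;> positivity)
  have hxQ : ∀ Q ⊆ S, ∑ c ∈ Q, x c = (Fintype.card I - R) * pr ν (fun M => M ∩ cut s t W ∈ Q) +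
      R * Q.card / S.card := by
    intro Q hQ
    rw [sum_add_distrib, ← mul_sum, pr_mem, sum_congr rfl fun c hc => if_pos (hQ hc)]
    simp only [sum_const, nsmul_eq_mul]; ring
  have hxS : ∀ c, x c ≠ 0 → c ∈ S := by
    intro c hc
    by_contra h
    apply hc
    simp only [x, if_neg h]
    rw [pr_eq_zero (P := fun M => M ∩ cut s t W = c) fun M hM e => h (e ▸ hνS M hM)]; ring
  obtain ⟨w, hw, hw'⟩ := h1 I (Finset E) Unit (fun _ => ()) (fun _ => ()) x hx0 (by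
    intro u
    have e1 : ∑ c, x c = ∑ c ∈ S, x c :=
      (sum_subset (subset_univ _) fun c _ hc => not_not.1 fun h => hc (hxS c h)).symm
    simp only [pr_true, cnt_true, e1]
    rw [hxQ S Subset.rfl, pr_eq_one hν.1 hνS]
    field_simp; ring)
  obtain ⟨g, hg⟩ := h2 I (Finset E) w a
  refine ⟨fun i => w (g i), ⟨ν, S, hν, ?_, fun c hc => (hmem c).1 hc,
    fun i => hxS _ (hw _).2, hνS, fun Q hQ _ => ?_⟩, ?_⟩
  · intro c hc d hd f hf
    rw [hmem] at hc hd hf ⊢
    refine ⟨fun e he => ?_, ?_⟩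
    · simp only [mem_symmDiff] at he
      have := @hc.1 e; have := @hd.1 e; have := @hf.1 e
      tauto
    · have e1 := card_symmDiff_add c d
      have e2 := card_symmDiff_add (c ∆ d) f
      have := hc.2; have := hd.2; have := hf.2
      rw [Nat.even_iff] at *
      omega
  · rw [← hxQ Q hQ, cnt_equiv g (fun i => w i ∈ Q), cnt_mem]
    have e1 : (Q.card : ℝ) ≤ S.card := by exact_mod_cast card_le_card hQ
    have e2 : ∑ c ∈ Q, (x c - 1) ≤ ∑ c ∈ Q, (cnt fun i => w i = c : ℝ) :=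
      sum_le_sum fun c _ => by have := (abs_le.1 (hw' c)).1; linarith
    rw [sum_sub_distrib, sum_const, nsmul_eq_mul] at e2
    push_cast
    linarith
  · have e1 : ∀ c, ((cnt (fun i => w i = c) - cnt (fun i => a i = c) : ℕ) : ℝ) ≤
        if c ∈ S then R / S.card + (δ + 1) else 0 := by
      intro c
      split_ifs with h
      · have e2 := (abs_le.1 (hw' c)).2
        have e3 := ha c
        simp only [x, if_pos h] at e2
        rcases le_total (cnt fun i => w i = c) (cnt fun i => a i = c) with h' | h'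
        · rw [Nat.sub_eq_zero_of_le h']; push_cast; positivity
        · rw [Nat.cast_sub h']; linarith
      · rw [cnt_eq_zero fun i (e : w i = c) => h (e ▸ hxS _ (hw i).2)]; simp
    have e2 : (cnt fun i => w (g i) ≠ a i : ℝ) ≤ ∑ c, if c ∈ S then R / S.card + (δ + 1) else 0 :=
      le_trans (by exact_mod_cast hg) (sum_le_sum fun c _ => e1 c)
    rw [← sum_filter, filter_mem_eq_inter, univ_inter, sum_const, nsmul_eq_mul, mul_add,
      mul_div_cancel₀ _ hS0.ne'] at e2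
    have := mul_le_mul_of_nonneg_right hS1 (show 0 ≤ δ + 1 by linarith)
    linarith

theorem coup_part {Ω P : Type} [Fintype Ω] (μ : Ω → ℝ) (hμ : ∀ ω, 0 ≤ μ ω) (φ : Ω → P) (m : P → ℝ)
    (L : Finset P) (h0 : ∀ a, 0 ≤ m a) (h1 : ∀ a, m a ≤ pr μ fun ω => φ ω = a) :
    ∃ u : P → Ω → ℝ, (∀ a ω, 0 ≤ u a ω) ∧ (∀ a, ∑ ω, u a ω = m a) ∧
      (∀ ω, ∑ a ∈ L, u a ω ≤ μ ω) ∧ ∀ a ω, φ ω ≠ a → u a ω = 0 := by
  classical
  have hp : ∀ a, 0 ≤ pr μ fun ω => φ ω = a := fun a => pr_nonneg hμ _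
  refine ⟨fun a ω => (if φ ω = a then μ ω else 0) * (m a / pr μ fun ω => φ ω = a), fun a ω => ?_,
    fun a => ?_, fun ω => ?_, fun a ω h => by simp [h]⟩
  · have := hμ ω; have := h0 a; have := hp a
    dsimp only
    split_ifs <;> positivity
  · rw [← sum_mul, ← pr_eq]
    rcases (hp a).eq_or_lt with h | h
    · rw [← h, zero_mul]; linarith [h0 a, h1 a]
    · field_simp
  · calc _ ≤ ∑ a ∈ L, (if φ ω = a then μ ω else 0) := sum_le_sum fun a _ =>
          mul_le_of_le_one_right (by have := hμ ω; split_ifs <;> positivity)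
            (div_le_one_of_le₀ (h1 a) (hp a))
      _ ≤ μ ω := by rw [sum_ite_eq]; have := hμ ω; split_ifs <;> linarith

theorem coup_div {Ω : Type} [Fintype Ω] {u : Ω → ℝ} (hu : ∀ ω, 0 ≤ u ω) {T : ℝ}
    (hT : ∑ ω, u ω = T) (ω : Ω) : u ω * T / T = u ω := by
  by_cases h : T = 0
  · rw [(sum_eq_zero_iff_of_nonneg fun ω _ => hu ω).1 (hT.trans h) ω (mem_univ _)]; simp
  · field_simp

theorem coup_one {Ω Γ P : Type} [Fintype Ω] [Fintype Γ] (μ : Ω → ℝ) (μ' : Γ → ℝ) (φ : Ω → P)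
    (ψ : Γ → P) (L : Finset P) (η : ℝ) (hμ : IsProb μ) (hμ' : IsProb μ') (hL : ∀ ω, φ ω ∈ L)
    (h : ∀ a, |pr μ' (fun g => ψ g = a) - pr μ (fun ω => φ ω = a)| ≤ η) :
    ∃ J : Ω → Γ → ℝ, (∀ ω g, 0 ≤ J ω g) ∧ (∀ ω, ∑ g, J ω g = μ ω) ∧ (∀ g, ∑ ω, J ω g = μ' g) ∧
      pr (fun z : Ω × Γ => J z.1 z.2) (fun z => ψ z.2 ≠ φ z.1) ≤ L.card * η := by
  classical
  let m : P → ℝ := fun a => min (pr μ fun ω => φ ω = a) (pr μ' fun g => ψ g = a)
  have hm : ∀ a, 0 ≤ m a := fun a => le_min (pr_nonneg hμ.1 _) (pr_nonneg hμ'.1 _)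
  obtain ⟨u, u0, u1, u2, u3⟩ := coup_part μ hμ.1 φ m L hm fun a => min_le_left _ _
  obtain ⟨v, v0, v1, v2, v3⟩ := coup_part μ' hμ'.1 ψ m L hm fun a => min_le_right _ _
  obtain ⟨δ, hδ⟩ : ∃ δ, δ = 1 - ∑ a ∈ L, m a := ⟨_, rfl⟩
  have hu : ∑ ω, (μ ω - ∑ a ∈ L, u a ω) = δ := by
    rw [sum_sub_distrib, sum_comm, hμ.2, hδ]; simp only [u1]
  have hv : ∑ g, (μ' g - ∑ a ∈ L, v a g) = δ := by
    rw [sum_sub_distrib, sum_comm, hμ'.2, hδ]; simp only [v1]
  have hδ0 : 0 ≤ δ := hu ▸ sum_nonneg fun ω _ => sub_nonneg.2 (u2 ω)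
  have hw : ∀ ω g, 0 ≤ (μ ω - ∑ a ∈ L, u a ω) * (μ' g - ∑ a ∈ L, v a g) / δ := fun ω g =>
    div_nonneg (mul_nonneg (sub_nonneg.2 (u2 ω)) (sub_nonneg.2 (v2 g))) hδ0
  refine ⟨fun ω g => ∑ a ∈ L, u a ω * v a g / m a +
    (μ ω - ∑ a ∈ L, u a ω) * (μ' g - ∑ a ∈ L, v a g) / δ, fun ω g => ?_, fun ω => ?_,
    fun g => ?_, ?_⟩
  · exact add_nonneg (sum_nonneg fun a _ => div_nonneg (mul_nonneg (u0 a ω) (v0 a g)) (hm a))
      (hw ω g)
  · rw [sum_add_distrib, sum_comm]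
    simp only [← sum_div, ← mul_sum, v1, hv]
    rw [coup_div (fun ω => sub_nonneg.2 (u2 ω)) hu,
      sum_congr rfl fun a _ => coup_div (u0 a) (u1 a) ω]
    ring
  · rw [sum_add_distrib, sum_comm]
    simp only [← sum_div, ← sum_mul, u1, hu]
    rw [mul_comm δ, coup_div (fun ω => sub_nonneg.2 (v2 ω)) hv,
      sum_congr rfl fun a _ => (by rw [mul_comm]; exact coup_div (v0 a) (v1 a) g :
        m a * v a g / m a = v a g)]
    ring
  · have e1 : δ ≤ L.card * η := by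
      rw [hδ, ← pr_eq_one hμ (P := fun ω => φ ω ∈ L) fun ω _ => hL ω, pr_mem, ← sum_sub_distrib,
        ← nsmul_eq_mul]
      refine sum_le_card_nsmul _ _ _ fun a _ => ?_
      have := abs_le.1 (h a)
      simp only [m]
      rcases min_cases (pr μ fun ω => φ ω = a) (pr μ' fun g => ψ g = a) with h' | h' <;> linarith
    refine le_trans ?_ e1
    rw [pr_eq]
    calc _ ≤ ∑ z : Ω × Γ, (μ z.1 - ∑ a ∈ L, u a z.1) * (μ' z.2 - ∑ a ∈ L, v a z.2) / δ := by
          refine sum_le_sum fun z _ => ?_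
          split_ifs with hz
          · dsimp only
            rw [sum_eq_zero, zero_add]
            intro a _
            by_cases ha : φ z.1 = a
            · rw [v3 a z.2 (ha ▸ hz)]; simp
            · rw [u3 a z.1 ha]; simp
          · exact hw _ _
      _ = δ * δ / δ := by
          rw [Fintype.sum_prod_type]
          simp only [← sum_div, ← mul_sum, ← sum_mul, hu, hv]
      _ ≤ δ := by
          rcases hδ0.eq_or_lt with h' | h'
          · simp [← h']
          · rw [mul_div_cancel_right₀ _ h'.ne']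

theorem coup_marg {Y : Type} [Fintype Y] [DecidableEq Y] {Γ : Y → Type} [∀ y, Fintype (Γ y)]
    (κ : ∀ y, Γ y → ℝ) (h : ∀ y, ∑ g, κ y g = 1) (y : Y) (F : Γ y → ℝ) :
    ∑ γ : ∀ y, Γ y, (∏ y', κ y' (γ y')) * F (γ y) = ∑ g, κ y g * F g := by
  let G : ∀ y, Γ y → ℝ := Function.update (fun _ _ => 1) y F
  have e1 : ∀ γ : ∀ y, Γ y, F (γ y) = ∏ y', G y' (γ y') := by
    intro γ
    rw [prod_eq_single y (fun b _ hb => by simp [G, hb]) (by simp)]
    simp [G]
  simp only [e1, ← prod_mul_distrib]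
  rw [← Fintype.piFinset_univ, ← prod_univ_sum (fun _ => univ) fun y g => κ y g * G y g,
    prod_eq_single y (fun b _ hb => by simp [G, hb, h]) (by simp)]
  simp [G]

theorem coup : S_COUP := by
  classical
  intro Ω Y P _ _ _ Γ _ μ μ' φ ψ L η hμ hμ' hL h
  choose J J0 J1 J2 J3 using fun y => coup_one μ (μ' y) (φ y) (ψ y) (L y) η hμ (hμ' y) (hL y) (h y)
  have hκ : ∀ ω, μ ω ≠ 0 → ∀ y, ∑ g, J y ω g / μ ω = 1 := fun ω hω y => by
    rw [← sum_div, J1, div_self hω]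
  have hA : ∀ A : Ω → Prop, pr (fun z : Ω × (∀ y, Γ y) => μ z.1 * ∏ y, J y z.1 (z.2 y) / μ z.1)
      (fun z => A z.1) = pr μ A := by
    intro A
    rw [pr_eq, pr_eq, Fintype.sum_prod_type]
    refine sum_congr rfl fun ω _ => ?_
    by_cases hω : μ ω = 0
    · simp [hω]
    by_cases ha : A ω
    · simp only [if_pos ha]
      rw [← mul_sum, ← Fintype.piFinset_univ,
        ← prod_univ_sum (fun _ => univ) fun y g => J y ω g / μ ω]
      simp [hκ ω hω]
    · simp [ha]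
  have hB : ∀ y (B : Ω → Γ y → Prop),
      pr (fun z : Ω × (∀ y, Γ y) => μ z.1 * ∏ y, J y z.1 (z.2 y) / μ z.1)
      (fun z => B z.1 (z.2 y)) = pr (fun z : Ω × Γ y => J y z.1 z.2) fun z => B z.1 z.2 := by
    intro y B
    rw [pr_eq, pr_eq, Fintype.sum_prod_type, Fintype.sum_prod_type]
    refine sum_congr rfl fun ω _ => ?_
    by_cases hω : μ ω = 0
    · have := (sum_eq_zero_iff_of_nonneg fun g _ => J0 y ω g).1 ((J1 y ω).trans hω)
      simp only [mem_univ, forall_const] at this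
      simp [hω, this]
    · have := coup_marg (fun y g => J y ω g / μ ω) (hκ ω hω) y fun g => if B ω g then μ ω else 0
      convert this using 2 with γ _ g
      · split_ifs <;> ring
      · split_ifs
        · field_simp
        · ring
  refine ⟨fun z => μ z.1 * ∏ y, J y z.1 (z.2 y) / μ z.1, ⟨fun z => mul_nonneg (hμ.1 _)
    (prod_nonneg fun y _ => div_nonneg (J0 _ _ _) (hμ.1 _)), ?_⟩, fun z hz => ?_, hA,
    fun y A => ?_, fun y => ?_⟩
  · rw [← pr_true, hA fun _ => True, pr_true, hμ.2]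
  · refine ⟨left_ne_zero_of_mul hz, fun y h0 => ?_⟩
    have := (sum_eq_zero_iff_of_nonneg fun ω _ => J0 y ω (z.2 y)).1 ((J2 y _).trans h0) z.1
      (mem_univ _)
    exact prod_ne_zero_iff.1 (right_ne_zero_of_mul hz) y (mem_univ _) (by rw [this, zero_div])
  · rw [hB y fun _ g => A g, pr_eq, pr_eq, Fintype.sum_prod_type, sum_comm]
    refine sum_congr rfl fun g _ => ?_
    by_cases ha : A g <;> simp [ha, J2]
  · rw [hB y fun ω g => ψ y g ≠ φ y ω]
    exact J3 y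

end Pool.Agent.P.MP_40718a_co.ABF
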