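import Pool.Agent.P.MP_40718a_co.ABF.Basic

namespace Pool.Agent.P.MP_40718a_co.ABF

open Finset
open scoped symmDiff

section Generic

variable {E : Type} [DecidableEq E] {𝒬 : Finset (Finset E)}

theorem sp_inter (x y z D : Finset E) : (x ∆ y ∆ z) ∩ D = (x ∩ D) ∆ (y ∩ D) ∆ (z ∩ D) := by
  ext e; simp only [mem_inter, mem_symmDiff]; tauto

theorem sp_filter (h : Aff 𝒬) (D : Finset E) {Q : Finset (Finset E)} (hQ : Aff Q) :
    Aff (𝒬.filter fun x => x ∩ D ∈ Q) := fun x hx y hy z hz => by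
  rw [mem_filter] at *
  exact ⟨h x hx.1 y hy.1 z hz.1, by rw [sp_inter]; exact hQ _ hx.2 _ hy.2 _ hz.2⟩

theorem sp_fibre (h : Aff 𝒬) (D a : Finset E) : Aff (𝒬.filter fun x => x ∩ D = a) :=
  fun x hx y hy z hz => by
  rw [mem_filter] at *
  exact ⟨h x hx.1 y hy.1 z hz.1, by rw [sp_inter, hx.2, hy.2, hz.2]; simp⟩

theorem sp_image (h : Aff 𝒬) (D : Finset E) : Aff (𝒬.image fun x => x ∩ D) := by
  intro x' hx' y' hy' z' hz'
  obtain ⟨x, hx, rfl⟩ := mem_image.1 hx'
  obtain ⟨y, hy, rfl⟩ := mem_image.1 hy'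
  obtain ⟨z, hz, rfl⟩ := mem_image.1 hz'
  exact mem_image.2 ⟨_, h x hx y hy z hz, sp_inter _ _ _ _⟩

theorem sp_inj (a b : Finset E) : Function.Injective fun x => x ∆ a ∆ b := fun _ _ h =>
  symmDiff_left_injective a (symmDiff_left_injective b h)

theorem sp_fib_le (h : Aff 𝒬) (D : Finset E) {a b : Finset E} (ha : a ∈ 𝒬) (hb : b ∈ 𝒬) :
    (𝒬.filter fun x => x ∩ D = a ∩ D).card ≤ (𝒬.filter fun x => x ∩ D = b ∩ D).card := by
  refine card_le_card_of_injOn (fun x => x ∆ a ∆ b) (fun x hx => ?_) (sp_inj a b).injOn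
  rw [mem_coe, mem_filter] at *
  exact ⟨h x hx.1 a ha b hb, by rw [sp_inter, hx.2]; simp⟩

theorem sp_fib (h : Aff 𝒬) (D : Finset E) {a b : Finset E} (ha : a ∈ 𝒬.image fun x => x ∩ D)
    (hb : b ∈ 𝒬) : (𝒬.filter fun x => x ∩ D = a).card =
      (𝒬.filter fun x => x ∩ D = b ∩ D).card := by
  obtain ⟨a, ha', rfl⟩ := mem_image.1 ha
  exact le_antisymm (sp_fib_le h D ha' hb) (sp_fib_le h D hb ha')

theorem sp_sum (h : Aff 𝒬) (D : Finset E) {b : Finset E} (hb : b ∈ 𝒬) (f : Finset E → ℝ) :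
    ∑ x ∈ 𝒬, f (x ∩ D) =
      (𝒬.filter fun x => x ∩ D = b ∩ D).card * ∑ a ∈ 𝒬.image fun x => x ∩ D, f a := by
  rw [sum_comp f fun x => x ∩ D, mul_sum]
  exact sum_congr rfl fun a ha => by rw [sp_fib h D ha hb, nsmul_eq_mul]

theorem sp_card (h : Aff 𝒬) (D : Finset E) {b : Finset E} (hb : b ∈ 𝒬) : (𝒬.card : ℝ) =
    (𝒬.filter fun x => x ∩ D = b ∩ D).card * (𝒬.image fun x => x ∩ D).card := by
  simpa using sp_sum h D hb fun _ => 1

theorem sp_half {F F' : Finset (Finset E)} (h : Aff F) (h' : Aff F') (hs : F' ⊆ F) {a : Finset E}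
    (ha : a ∈ F') (hne : F'.card ≠ F.card) : 2 * F'.card ≤ F.card := by
  obtain ⟨b, hb, hb'⟩ := exists_of_ssubset (hs.ssubset_of_ne fun e => hne (by rw [e]))
  have h1 : F'.card ≤ (F \ F').card := by
    refine card_le_card_of_injOn (fun x => x ∆ a ∆ b) (fun x hx => ?_) (sp_inj a b).injOn
    rw [mem_coe] at hx
    refine mem_coe.2 (mem_sdiff.2 ⟨h x (hs hx) a (hs ha) b hb, fun hn => hb' ?_⟩)
    simpa using h' x hx a ha _ hn
  have := card_sdiff_add_card_eq_card hs
  omega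

end Generic

theorem sp_exists (h0 : S_TJ0) {V E : Type} [Fintype V] [Fintype E] [DecidableEq V]
    [DecidableEq E] {s t : E → V} {W : Finset V} (hW : Conn s t W) {a : Finset E}
    (ha : a ⊆ cut s t W) (hp : Even (a.card + W.card)) :
    ∃ M, M ∩ cut s t W = a ∧ ∀ v ∈ W, Odd (deg s t M v) := by
  have h1 := even_card_filter_odd (s := s) (t := t) a W
  have h2 := card_filter_add_card_filter_not (s := W) fun v => Odd (deg s t a v)
  rw [inter_eq_left.2 ha] at h1
  obtain ⟨Q, hQ, hQ'⟩ := h0 V E s t (ins s t W) (W.filter fun v => ¬ Odd (deg s t a v))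
    fun X hX => by
      obtain ⟨e, he⟩ := hW (X ∩ W) inter_subset_right
        ((card_pos.1 hX.pos).mono (inter_subset_inter_left (filter_subset _ _))) fun e => by
          rw [inter_eq_right.2 ((filter_subset _ _).trans (inter_eq_right.1 e))] at hX
          rw [Nat.odd_iff] at hX
          rw [Nat.even_iff] at h1 hp
          omega
      refine ⟨e, ?_⟩
      simp only [mem_inter, mem_cut, mem_ins] at he ⊢
      tauto
  have hd : Disjoint Q (cut s t W) := (disjoint_ins_cut W).mono_left hQ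
  refine ⟨Q ∪ a, by rw [union_inter_distrib_right, disjoint_iff_inter_eq_empty.1 hd, empty_union,
    inter_eq_left.2 ha], fun v hv => ?_⟩
  have := hQ' v
  rw [deg_union (hd.mono_right ha)]
  simp only [mem_filter, hv, true_and, Nat.odd_iff] at this ⊢
  omega

theorem sp (h0 : S_TJ0) (h1 : S_ROUND) : S_SP := by
  intro V E _ _ _ _ s t I _ R K W Z p hW hZ hΦ hK hR hRN ⟨μ, S, hμ, hS, hS1, hp, hμS, hQ⟩
  set Φ := Z.biUnion (cut s t) with hΦ'
  set N' : ℝ := Fintype.card I - R with hN'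
  have hN0 : 0 ≤ N' := sub_nonneg.2 hRN
  have hK0 : 0 < K := lt_of_lt_of_le (by positivity) hK
  have hzΦ : ∀ z ∈ Z, cut s t z ⊆ Φ := fun z hz => subset_biUnion_of_mem _ hz
  have hi : ∀ {D : Finset E}, D ⊆ Φ → ∀ M : Finset E, M ∩ Φ ∩ D = M ∩ D := fun hD M => by
    rw [inter_assoc, inter_eq_right.2 hD]
  set A := Φ.powerset.filter fun ω => ω ∩ cut s t W ∈ S ∧
    ∀ z ∈ Z, Even ((ω ∩ cut s t z).card + z.card) with hA'
  have hA : Aff A := fun x hx y hy z hz => by
    simp only [hA', mem_filter, mem_powerset] at hx hy hz ⊢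
    refine ⟨symmDiff_le_sup.trans (sup_le (symmDiff_le_sup.trans (sup_le hx.1 hy.1)) hz.1),
      by rw [sp_inter]; exact hS _ hx.2.1 _ hy.2.1 _ hz.2.1, fun u hu => ?_⟩
    have a1 := card_symmDiff_add (x ∩ cut s t u) (y ∩ cut s t u)
    have a2 := card_symmDiff_add ((x ∩ cut s t u) ∆ (y ∩ cut s t u)) (z ∩ cut s t u)
    have a3 := hx.2.2 u hu
    have a4 := hy.2.2 u hu
    have a5 := hz.2.2 u hu
    rw [sp_inter]
    rw [Nat.even_iff] at *
    omega
  have hMA : ∀ M, M ∩ cut s t W ∈ S → (∀ v ∈ W, Odd (deg s t M v)) → M ∩ Φ ∈ A := fun M h h' =>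
    mem_filter.2 ⟨mem_powerset.2 inter_subset_right, by rwa [hi hΦ], fun z hz => by
      rw [hi (hzΦ z hz)]; exact parity_of_odd fun v hv => h' v (hZ z hz hv)⟩
  have hμA : ∀ M, μ M ≠ 0 → M ∩ Φ ∈ A := fun M hM =>
    hMA M (hμS M hM) fun v hv => by rw [hμ.2.1 M hM v hv]; exact odd_one
  have hAS : (A.image fun x => x ∩ cut s t W) = S := by
    ext a
    refine ⟨fun ha => ?_, fun ha => ?_⟩
    · obtain ⟨x, hx, rfl⟩ := mem_image.1 ha
      exact (mem_filter.1 hx).2.1
    · obtain ⟨M, hM, hM'⟩ := sp_exists h0 hW (hS1 a ha).1 (hS1 a ha).2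
      exact mem_image.2 ⟨_, hMA M (hM ▸ ha) hM', by rw [hi hΦ, hM]⟩
  obtain ⟨M0, hM0⟩ := exists_ne_zero hμ.1
  set γ := (A.filter fun x => x ∩ cut s t W = M0 ∩ Φ ∩ cut s t W).card with hγ
  have hγ0 : (0 : ℝ) < γ := Nat.cast_pos.2 (card_pos.2 ⟨_, mem_filter.2 ⟨hμA M0 hM0, rfl⟩⟩)
  have hγa : ∀ a ∈ S, (A.filter fun x => x ∩ cut s t W = a).card = γ := fun a ha =>
    sp_fib hA _ (hAS ▸ ha) (hμA M0 hM0)
  have hS0 : (0 : ℝ) < S.card := by exact_mod_cast card_pos.2 ⟨_, hμS M0 hM0⟩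
  set r : Finset E → ℝ := fun a => (cnt fun i => p i = a : ℝ) -
    N' * pr μ fun M => M ∩ cut s t W = a with hr
  have hrs : ∀ Q ⊆ S, Aff Q → R * Q.card / S.card - 2 * K ≤ ∑ a ∈ Q, r a := fun Q h h' => by
    have := hQ Q h h'
    rw [cnt_mem, pr_mem] at this
    simp only [hr, sum_sub_distrib, ← mul_sum]
    push_cast at this
    linarith
  have hr0 : ∀ a ∈ S, 0 ≤ r a := fun a ha => by
    have h2 := hrs {a} (singleton_subset_iff.2 ha) (aff_singleton a)
    have h3 : (S.card : ℝ) ≤ 2 ^ (cut s t W).card := by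
      have := card_le_card (show S ⊆ (cut s t W).powerset from
        fun a ha => mem_powerset.2 (hS1 a ha).1)
      rw [card_powerset] at this
      exact_mod_cast this
    rw [sum_singleton, card_singleton, Nat.cast_one, mul_one] at h2
    refine le_trans (sub_nonneg.2 ((le_div_iff₀ hS0).2 ?_)) h2
    nlinarith
  set x : Finset E → ℝ := fun ω => N' * pr μ (fun M => M ∩ Φ = ω) +
    if ω ∈ A then r (ω ∩ cut s t W) / γ else 0 with hx
  have hxs : ∀ T ⊆ A, ∑ ω ∈ T, x ω = N' * pr μ (fun M => M ∩ Φ ∈ T) +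
      (∑ ω ∈ T, r (ω ∩ cut s t W)) / γ := fun T hT => by
    rw [pr_mem, mul_sum, sum_div, ← sum_add_distrib]
    exact sum_congr rfl fun ω hω => by simp only [hx, if_pos (hT hω)]
  have hx0 : ∀ ω, ω ∉ A → x ω = 0 := fun ω hω => by
    simp only [hx, if_neg hω, add_zero]
    rw [pr_eq_zero (P := fun M => M ∩ Φ = ω) fun M hM e => hω (e ▸ hμA M hM), mul_zero]
  obtain ⟨w, hw, hw'⟩ := h1 I (Finset E) (Finset E) p (fun ω => ω ∩ cut s t W) x
    (fun ω => add_nonneg (mul_nonneg hN0 (pr_nonneg hμ.1.1 _)) (by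
      split_ifs with h
      · exact div_nonneg (hr0 _ (mem_filter.1 h).2.1) hγ0.le
      · exact le_rfl)) fun a => by
      have e : pr x (fun ω => ω ∩ cut s t W = a) =
          ∑ ω ∈ A.filter fun ω => ω ∩ cut s t W = a, x ω := by
        rw [pr_congr (Q := fun ω => ω ∈ A.filter fun ω => ω ∩ cut s t W = a) fun ω h => by
          rw [mem_filter, and_iff_right (by_contra fun hn => h (hx0 ω hn))], pr_mem x fun ω => ω]
        exact sum_congr rfl fun ω _ => pr_single x ω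
      rw [e, hxs _ (filter_subset _ _), pr_congr (Q := fun M => M ∩ cut s t W = a) fun M hM => by
        rw [mem_filter, and_iff_right (hμA M hM), hi hΦ],
        sum_congr rfl fun ω hω => by rw [(mem_filter.1 hω).2], sum_const, nsmul_eq_mul]
      by_cases ha : a ∈ S
      · rw [hγa a ha, mul_div_cancel_left₀ _ hγ0.ne']; simp only [hr]; ring
      · rw [pr_eq_zero (P := fun M => M ∩ cut s t W = a) fun M hM e => ha (e ▸ hμS M hM),
          cnt_eq_zero (P := fun i => p i = a) fun i e => ha (e ▸ hp i),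
          filter_eq_empty_iff (p := fun ω => ω ∩ cut s t W = a).2
            fun ω hω e => ha (e ▸ (mem_filter.1 hω).2.1)]
        simp
  have hwA : ∀ i, w i ∈ A := fun i => by_contra fun hn => (hw i).2 (hx0 _ hn)
  have low : ∀ T ⊆ A, N' * pr μ (fun M => M ∩ Φ ∈ T) + (∑ ω ∈ T, r (ω ∩ cut s t W)) / γ - K ≤
      cnt fun i => w i ∈ T := fun T hT => by
    have h2 : (T.card : ℝ) ≤ K := by
      have := card_le_card (hT.trans (filter_subset _ _))
      rw [card_powerset] at this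
      exact le_trans (by exact_mod_cast this) hK
    have h3 := sum_le_sum fun ω (_ : ω ∈ T) => (abs_le.1 (hw' ω)).1
    rw [sum_sub_distrib, sum_const, hxs T hT, nsmul_eq_mul] at h3
    rw [cnt_mem]
    push_cast
    linarith
  refine ⟨w, μ, hμ, fun i => ⟨mem_powerset.1 (mem_filter.1 (hwA i)).1, (hw i).1⟩,
    fun z hz => ⟨μ, A.image fun x => x ∩ cut s t z, hμ.mono (hZ z hz), sp_image hA _,
      fun a ha => ?_, fun i => mem_image_of_mem _ (hwA i),
      fun M hM => mem_image.2 ⟨_, hμA M hM, hi (hzΦ z hz) M⟩, fun Q hQs hQa => ?_⟩,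
    fun D hD c => ?_⟩
  · obtain ⟨ω, hω, rfl⟩ := mem_image.1 ha
    exact ⟨inter_subset_right, (mem_filter.1 hω).2.2 z hz⟩
  · rcases Q.eq_empty_or_nonempty with rfl | ⟨q, hq⟩
    · rw [pr_eq_zero fun M _ => notMem_empty _]
      have : (0 : ℝ) ≤ cnt fun i => w i ∩ cut s t z ∈ (∅ : Finset (Finset E)) := Nat.cast_nonneg _
      simp only [card_empty, Nat.cast_zero, mul_zero, zero_div]
      linarith
    obtain ⟨b, hb, rfl⟩ := mem_image.1 (hQs hq)
    set T := A.filter fun ω => ω ∩ cut s t z ∈ Q with hT'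
    have hT : Aff T := sp_filter hA _ hQa
    have hTA : T ⊆ A := filter_subset _ _
    have hbT : b ∈ T := mem_filter.2 ⟨hb, hq⟩
    set Q' := T.image fun x => x ∩ cut s t W with hQ'
    have hQ'S : Q' ⊆ S := hAS ▸ image_subset_image hTA
    set g := (T.filter fun x => x ∩ cut s t W = b ∩ cut s t W).card with hg
    have e1 : (Q.card : ℝ) / (A.image fun x => x ∩ cut s t z).card = g / γ * (Q'.card / S.card) := by
      have c1 := sp_card hA (cut s t z) hb
      have c2 := sp_card hT (cut s t z) hbT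
      have c3 := sp_card hA (cut s t W) (hμA M0 hM0)
      have c4 := sp_card hT (cut s t W) hbT
      have c5 : (T.image fun x => x ∩ cut s t z) = Q := by
        ext a
        refine ⟨fun ha => ?_, fun ha => ?_⟩
        · obtain ⟨x, hx, rfl⟩ := mem_image.1 ha
          exact (mem_filter.1 hx).2
        · obtain ⟨x, hx, rfl⟩ := mem_image.1 (hQs ha)
          exact mem_image_of_mem _ (mem_filter.2 ⟨hx, ha⟩)
      have c6 : (T.filter fun x => x ∩ cut s t z = b ∩ cut s t z) =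
          A.filter fun x => x ∩ cut s t z = b ∩ cut s t z := by
        rw [hT', filter_filter]
        exact filter_congr fun x _ => ⟨fun h => h.2, fun h => ⟨h ▸ hq, h⟩⟩
      have c7 : (0 : ℝ) < (A.filter fun x => x ∩ cut s t z = b ∩ cut s t z).card :=
        Nat.cast_pos.2 (card_pos.2 ⟨_, mem_filter.2 ⟨hb, rfl⟩⟩)
      rw [c5, c6] at c2
      rw [hAS, ← hγ] at c3
      rw [div_mul_div_comm, ← c4, ← c3, c1, c2, mul_div_mul_left _ _ c7.ne']
    have e2 : pr μ (fun M => M ∩ cut s t z ∈ Q) = pr μ fun M => M ∩ Φ ∈ T :=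
      pr_congr fun M hM => by rw [mem_filter, and_iff_right (hμA M hM), hi (hzΦ z hz)]
    have e3 : (cnt fun i => w i ∩ cut s t z ∈ Q) = cnt fun i => w i ∈ T :=
      cnt_congr fun i => by rw [mem_filter, and_iff_right (hwA i)]
    rw [mul_div_assoc, e1, e2, e3]
    by_cases hgγ : g = γ
    · have e4 : ∀ ω ∈ A, ω ∈ T ↔ ω ∩ cut s t W ∈ Q' := fun ω hω =>
        ⟨fun h => mem_image_of_mem _ h, fun h => by
          have := eq_of_subset_of_card_le (filter_subset_filter
            (fun x => x ∩ cut s t W = ω ∩ cut s t W) hTA)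
            (by rw [hγa _ (hQ'S h), sp_fib hT _ h hbT, ← hg, hgγ])
          exact (mem_filter.1 (this ▸ mem_filter.2 ⟨hω, rfl⟩ :
            ω ∈ T.filter fun x => x ∩ cut s t W = ω ∩ cut s t W)).1⟩
      rw [hgγ, div_self hγ0.ne', one_mul, ← mul_div_assoc,
        pr_congr (Q := fun M => M ∩ cut s t W ∈ Q') fun M hM => by rw [e4 _ (hμA M hM), hi hΦ],
        cnt_congr (Q := fun i => p i ∈ Q') fun i => by rw [e4 _ (hwA i), (hw i).1]]
      exact hQ Q' hQ'S (sp_image hT _)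
    · have h2 : 2 * g ≤ γ := by
        rw [← hγa _ (hQ'S (mem_image_of_mem _ hbT))] at hgγ ⊢
        exact sp_half (sp_fibre hA _ _) (sp_fibre hT _ _) (filter_subset_filter _ hTA)
          (mem_filter.2 ⟨hbT, rfl⟩) hgγ
      have h3 : (g : ℝ) / γ ≤ 1 / 2 := by
        rw [div_le_div_iff₀ hγ0 two_pos, one_mul, mul_comm]; exact_mod_cast h2
      have h4 := low T hTA
      rw [sp_sum hT _ hbT r, ← hg, ← hQ', mul_div_right_comm] at h4
      have h5 := mul_le_mul_of_nonneg_left (hrs Q' hQ'S (sp_image hT _))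
        (show (0 : ℝ) ≤ g / γ by positivity)
      rw [mul_div_assoc] at h5
      nlinarith
  · have h2 := low (A.filter fun ω => ω ∩ D = c) (filter_subset _ _)
    have h3 : 0 ≤ (∑ ω ∈ A.filter fun ω => ω ∩ D = c, r (ω ∩ cut s t W)) / γ :=
      div_nonneg (sum_nonneg fun ω hω => hr0 _ (mem_filter.1 (mem_filter.1 hω).1).2.1) hγ0.le
    rw [pr_congr (Q := fun M => M ∩ D = c) fun M hM => by
      rw [mem_filter, and_iff_right (hμA M hM), hi hD],
      cnt_congr (Q := fun i => w i ∩ D = c) fun i => by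
        rw [mem_filter, and_iff_right (hwA i)]] at h2
    linarith

end Pool.Agent.P.MP_40718a_co.ABF
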