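import Pool.Agent.P.MP_40718a_co.ABF.TJ0

/-! Packing `T`-joins with bounded load. -/

namespace Pool.Agent.P.MP_40718a_co.ABF

open Finset
open scoped symmDiff

section eul

variable {V E : Type} [Fintype V] [Fintype E] [DecidableEq V] [DecidableEq E]

/-- the conclusion of the Eulerian packing lemma -/
def TJOut (s t : E → V) (T : Finset V) (F : Finset E) (k : ℕ) : Prop :=
  ∃ Q : Fin k → Finset E, (∀ j, Q j ⊆ F ∧ ∀ v, Odd (deg s t (Q j) v) ↔ v ∈ T) ∧
    ∀ e, cnt (fun j => e ∈ Q j) ≤ 2

/-- the hypothesis of the Eulerian packing lemma -/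
def TJHyp (s t : E → V) (T : Finset V) (F : Finset E) (k : ℕ) : Prop :=
  (∀ v, Even (deg s t F v)) ∧
    ∀ X : Finset V, Odd (X ∩ T).card → 2 * k ≤ (cut s t X ∩ F).card

/-- the edge `e` joins `v` and `u` -/
def TJJoin (s t : E → V) (e : E) (v u : V) : Prop := (s e = v ∧ t e = u) ∨ (s e = u ∧ t e = v)

variable {s t : E → V} {T : Finset V} {F : Finset E} {k : ℕ}

omit [Fintype V] [DecidableEq E] in
theorem TJJoin.mem_cut {e : E} {v u : V} (h : TJJoin s t e v u) (X : Finset V) :
    e ∈ cut s t X ↔ ¬ (v ∈ X ↔ u ∈ X) := by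
  simp only [cut, mem_filter, mem_univ, true_and]
  rcases h with ⟨rfl, rfl⟩ | ⟨rfl, rfl⟩ <;> tauto

theorem TJJoin.deg {e : E} {v u : V} (h : TJJoin s t e v u) (x : V) :
    deg s t {e} x = (if v = x then 1 else 0) + (if u = x then 1 else 0) := by
  rw [deg_singleton]
  rcases h with ⟨rfl, rfl⟩ | ⟨rfl, rfl⟩
  · rfl
  · rw [add_comm]

omit [Fintype V] [Fintype E] [DecidableEq V] [DecidableEq E] in
theorem tj_exists_join {e : E} {v : V} (h : s e = v ∨ t e = v) : ∃ u, TJJoin s t e v u := by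
  rcases h with h | h
  · exact ⟨t e, Or.inl ⟨h, rfl⟩⟩
  · exact ⟨s e, Or.inr ⟨rfl, h⟩⟩

theorem tj_deg_erase {e : E} (he : e ∈ F) (v : V) :
    deg s t F v = deg s t {e} v + deg s t (F.erase e) v := by
  rw [← deg_union (by simp), ← insert_eq, insert_erase he]

omit [Fintype E] in
theorem tj_card_erase {e : E} (he : e ∈ F) (G : Finset E) :
    (G ∩ F).card = (if e ∈ G then 1 else 0) + (G ∩ F.erase e).card := by
  rw [inter_erase]
  split_ifs with h
  · rw [card_erase_of_mem (mem_inter.2 ⟨h, he⟩)]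
    have := card_pos.2 ⟨e, mem_inter.2 ⟨h, he⟩⟩
    omega
  · rw [erase_eq_of_notMem (by simp [h]), zero_add]

theorem TJHyp.even_cut (h : TJHyp s t T F k) (X : Finset V) : Even (cut s t X ∩ F).card := by
  have h1 := handshake (s := s) (t := t) F X
  have h2 : Even (∑ v ∈ X, deg s t F v) := even_sum _ fun v _ => h.1 v
  rw [h1, inter_comm F (cut s t X), Nat.even_iff] at h2
  rw [Nat.even_iff]; omega

theorem TJHyp.even_T (h : TJHyp s t T F k) (hk : 0 < k) : Even T.card := by
  by_contra hne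
  have := h.2 univ (by simpa using hne)
  simp at this
  omega

theorem tj_loop {e : E} (h : TJHyp s t T F k) (he : e ∈ F) (hl : s e = t e) :
    TJHyp s t T (F.erase e) k := by
  constructor
  · intro v
    have h1 := h.1 v
    rw [tj_deg_erase he, deg_singleton, hl] at h1
    rw [Nat.even_iff] at h1 ⊢
    split_ifs at h1 <;> omega
  · intro X hX
    have h1 := h.2 X hX
    rw [tj_card_erase he, if_neg (by simp [hl]), zero_add] at h1
    exact h1

theorem tj_split_edge (h : TJHyp s t T F k) {v u : V} {e₁ : E} (hv : v ∉ T) (he₁ : e₁ ∈ F)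
    (hj : TJJoin s t e₁ v u) (hl : ∀ e ∈ F, s e ≠ t e) :
    ∃ e₂ ∈ F, ∃ w, e₂ ≠ e₁ ∧ TJJoin s t e₂ v w ∧ ∀ X : Finset V, Odd (X ∩ T).card →
      u ∈ X → w ∈ X → v ∉ X → 2 * k + 2 ≤ (cut s t X ∩ F).card := by
  classical
  have huv : u ≠ v := by
    rintro rfl
    rcases hj with h' | h' <;> exact hl _ he₁ (h'.1.trans h'.2.symm)
  have big : ∀ X : Finset V, ¬ (cut s t X ∩ F).card ≤ 2 * k → 2 * k + 2 ≤ (cut s t X ∩ F).card := by
    intro X hX
    have := Nat.even_iff.1 (h.even_cut X)
    omega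
  set 𝓕 := (univ : Finset (Finset V)).filter fun X =>
    Odd (X ∩ T).card ∧ (cut s t X ∩ F).card ≤ 2 * k ∧ u ∈ X ∧ v ∉ X with h𝓕
  rcases 𝓕.eq_empty_or_nonempty with h0 | hne
  · have h1 := h.even_cut {v}
    rw [tj_card_erase he₁, if_pos ((hj.mem_cut _).2 (by simp [huv]))] at h1
    obtain ⟨e₂, he₂⟩ : (cut s t {v} ∩ F.erase e₁).Nonempty := by
      rw [← card_pos]
      rw [Nat.even_iff] at h1
      omega
    rw [mem_inter, mem_erase, mem_cut, mem_singleton, mem_singleton] at he₂
    obtain ⟨w, hw⟩ := tj_exists_join (s := s) (t := t) (e := e₂) (v := v) (by tauto)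
    refine ⟨e₂, he₂.2.2, w, he₂.2.1, hw, fun X hX hu _ hv' => big X fun hle => ?_⟩
    have : X ∈ 𝓕 := mem_filter.2 ⟨mem_univ _, hX, hle, hu, hv'⟩
    simp [h0] at this
  · obtain ⟨X, hX, hmax⟩ := exists_max_image 𝓕 card hne
    obtain ⟨hXo, hXk, hXu, hXv⟩ := (mem_filter.1 hX).2
    have hsub : ∀ Y ∈ 𝓕, Y ⊆ X := by
      intro Y hY
      obtain ⟨hYo, hYk, hYu, hYv⟩ := (mem_filter.1 hY).2
      have c1 := card_sdiff_add_card_inter (X ∩ T) (Y ∩ T)
      have c2 := card_sdiff_add_card_inter (Y ∩ T) (X ∩ T)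
      have c3 := card_union_add_card_inter (X ∩ T) (Y ∩ T)
      have e1 : (X ∩ T) \ (Y ∩ T) = (X \ Y) ∩ T := by
        ext; simp only [mem_sdiff, mem_inter]; tauto
      have e2 : (Y ∩ T) \ (X ∩ T) = (Y \ X) ∩ T := by
        ext; simp only [mem_sdiff, mem_inter]; tauto
      have e3 : (X ∩ T) ∩ (Y ∩ T) = (X ∩ Y) ∩ T := by
        ext; simp only [mem_inter]; tauto
      have e4 : (X ∩ T) ∪ (Y ∩ T) = (X ∪ Y) ∩ T := (union_inter_distrib_right _ _ _).symm
      rw [inter_comm (Y ∩ T) (X ∩ T), e2, e3] at c2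
      rw [e1, e3] at c1
      rw [e3, e4] at c3
      rw [Nat.odd_iff] at hXo hYo
      by_cases ho : Odd ((X ∩ Y) ∩ T).card
      · have a1 := h.2 _ ho
        have a2 := submod (s := s) (t := t) F X Y
        rw [Nat.odd_iff] at ho
        have : X ∪ Y ∈ 𝓕 := mem_filter.2 ⟨mem_univ _, by rw [Nat.odd_iff]; omega, by omega,
          mem_union_left _ hXu, by simp [hXv, hYv]⟩
        have h3 := eq_of_subset_of_card_le (subset_union_left (s₁ := X) (s₂ := Y)) (hmax _ this)
        rw [h3]; exact subset_union_right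
      · rw [Nat.odd_iff] at ho
        have a1 := h.2 (X \ Y) (by rw [Nat.odd_iff]; omega)
        have a2 := h.2 (Y \ X) (by rw [Nat.odd_iff]; omega)
        have a3 := posimod (s := s) (t := t) (F.erase e₁) X Y
        rw [tj_card_erase he₁, if_neg (by rw [hj.mem_cut]; simp [hXv, hYu])] at a1
        rw [tj_card_erase he₁, if_neg (by rw [hj.mem_cut]; simp [hYv, hXu])] at a2
        rw [tj_card_erase he₁, if_pos (by rw [hj.mem_cut]; simp [hXv, hXu])] at hXk
        rw [tj_card_erase he₁, if_pos (by rw [hj.mem_cut]; simp [hYv, hYu])] at hYk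
        omega
    obtain ⟨e₂, he₂, w, hw, hwX⟩ : ∃ e₂ ∈ F, ∃ w, TJJoin s t e₂ v w ∧ w ∉ X := by
      by_contra hc
      push Not at hc
      have a1 := h.2 (insert v X) (by rwa [insert_inter_of_notMem hv])
      have a2 : cut s t (insert v X) ∩ F ⊆ cut s t X ∩ F.erase e₁ := by
        intro e he
        rw [mem_inter] at he
        by_cases hev : s e = v ∨ t e = v
        · obtain ⟨w, hw⟩ := tj_exists_join hev
          have := (hw.mem_cut _).1 he.1
          simp [hc e he.2 w hw] at this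
        · push Not at hev
          refine mem_inter.2 ⟨?_, mem_erase.2 ⟨?_, he.2⟩⟩
          · have := he.1
            simpa [hev.1, hev.2] using this
          · rintro rfl
            rcases hj with h' | h'
            · exact hev.1 h'.1
            · exact hev.2 h'.2
      have a3 := card_le_card a2
      rw [tj_card_erase he₁, if_pos (by rw [hj.mem_cut]; simp [hXv, hXu])] at hXk
      omega
    refine ⟨e₂, he₂, w, ?_, hw, fun Y hY hu hw' hv' => big Y fun hle => ?_⟩
    · rintro rfl
      have := (hw.mem_cut X).symm.trans (hj.mem_cut X)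
      simp [hXv, hXu, hwX] at this
    · exact hwX (hsub Y (mem_filter.2 ⟨mem_univ _, hY, hle, hu, hv'⟩) hw')

theorem tj_split (h : TJHyp s t T F k) (hk : 0 < k) {v : V} {e₁ : E} (hv : v ∉ T) (he₁ : e₁ ∈ F)
    (hev : s e₁ = v ∨ t e₁ = v) (hl : ∀ e ∈ F, s e ≠ t e)
    (ih : ∀ (s' t' : E → V) (F' : Finset E), F'.card < F.card → TJHyp s' t' T F' k →
      TJOut s' t' T F' k) : TJOut s t T F k := by
  obtain ⟨u, hj⟩ := tj_exists_join hev
  obtain ⟨e₂, he₂, w, hne, hw, hbig⟩ := tj_split_edge h hv he₁ hj hl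
  set s' := Function.update s e₁ u with hs'
  set t' := Function.update t e₁ w with ht'
  have hj' : TJJoin s' t' e₁ u w := Or.inl ⟨by simp [hs'], by simp [ht']⟩
  have hdeg : ∀ G : Finset E, e₁ ∉ G → ∀ x, deg s' t' G x = deg s t G x := by
    intro G hG x
    simp only [deg_eq_sum]
    refine sum_congr rfl fun e he => ?_
    have : e ≠ e₁ := fun h' => hG (h' ▸ he)
    simp [hs', ht', Function.update_of_ne this]
  have hdeg2 : ∀ G : Finset E, e₁ ∈ G → e₂ ∉ G → ∀ x,
      deg s t (insert e₂ G) x = deg s' t' G x + 2 * (if v = x then 1 else 0) := by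
    intro G h1 h2 x
    rw [insert_eq, deg_union (by simpa using h2), tj_deg_erase h1, tj_deg_erase (s := s') h1,
      hdeg _ (notMem_erase _ _), hw.deg, hj.deg, hj'.deg]
    omega
  have he₁' : e₁ ∈ F.erase e₂ := mem_erase.2 ⟨hne.symm, he₁⟩
  obtain ⟨Q, hQ, hc⟩ := ih s' t' (F.erase e₂) (card_erase_lt_of_mem he₂) (by
    constructor
    · intro x
      have h1 := h.1 x
      rw [← insert_erase he₂, hdeg2 _ he₁' (notMem_erase _ _), Nat.even_iff] at h1
      rw [Nat.even_iff]; omega
    · intro X hX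
      have e : cut s' t' X ∩ (F.erase e₂).erase e₁ = cut s t X ∩ (F.erase e₂).erase e₁ := by
        ext e
        simp only [mem_inter, mem_erase, mem_cut]
        refine and_congr_left fun h' => ?_
        simp [hs', ht', Function.update_of_ne h'.1]
      have a1 := h.2 X hX
      have a2 := hbig X hX
      have a3 := hbig Xᶜ (by
        have c1 := card_sdiff_add_card_inter T X
        have c2 := Nat.even_iff.1 (h.even_T hk)
        have e1 : Xᶜ ∩ T = T \ X := by ext; simp [and_comm]
        rw [inter_comm T X] at c1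
        rw [Nat.odd_iff] at hX
        rw [e1, Nat.odd_iff]; omega)
      rw [cut_compl] at a3
      rw [tj_card_erase he₂, tj_card_erase he₁'] at a1 a2 a3
      rw [tj_card_erase he₁', e]
      simp only [hw.mem_cut, hj.mem_cut, hj'.mem_cut, mem_compl] at a1 a2 a3 ⊢
      by_cases b1 : u ∈ X <;> by_cases b2 : v ∈ X <;> by_cases b3 : w ∈ X <;>
        simp [b1, b2, b3] at a1 a2 a3 ⊢ <;> omega)
  have hQ2 : ∀ j, e₂ ∉ Q j := fun j h' => notMem_erase _ _ ((hQ j).1 h')
  refine ⟨fun j => if e₁ ∈ Q j then insert e₂ (Q j) else Q j, fun j => ⟨?_, fun x => ?_⟩,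
    fun e => ?_⟩
  · have := (hQ j).1.trans (erase_subset _ _)
    simp only
    split_ifs
    · exact insert_subset he₂ this
    · exact this
  · rw [← (hQ j).2 x]
    simp only
    split_ifs with h1
    · rw [hdeg2 _ h1 (hQ2 j), Nat.odd_iff, Nat.odd_iff]; omega
    · rw [hdeg _ h1]
  · by_cases h1 : e = e₂
    · refine (cnt_mono fun j hj => ?_).trans (hc e₁)
      by_contra h2
      simp only [if_neg h2, h1] at hj
      exact hQ2 j hj
    · refine (cnt_mono fun j hj => ?_).trans (hc e)
      simp only at hj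
      split_ifs at hj
      · exact (mem_insert.1 hj).resolve_left h1
      · exact hj

theorem tj_deg_map (c : V → V) (G : Finset E) (x : V) :
    deg (c ∘ s) (c ∘ t) G x = ∑ y ∈ univ.filter (fun y => c y = x), deg s t G y := by
  simp only [deg_eq_sum]
  rw [sum_comm]
  refine sum_congr rfl fun e _ => ?_
  simp [sum_add_distrib]

theorem tj_dense (h : TJHyp s t T F k) (hk : 0 < k) (hT : T.Nonempty)
    (hin : ∀ e ∈ F, s e ∈ T ∧ t e ∈ T) (hl : ∀ e ∈ F, s e ≠ t e) :
    ∃ S ⊆ T, 2 ≤ S.card ∧ ∀ X ⊆ S, X.Nonempty → X ≠ S → k ≤ (cut s t X ∩ (F ∩ ins s t S)).card := by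
  classical
  have hone : ∀ v, F ∩ ins s t {v} = ∅ := fun v => by
    refine eq_empty_of_forall_notMem fun e he => ?_
    rw [mem_inter, mem_ins, mem_singleton, mem_singleton] at he
    exact hl e he.1 (he.2.1.trans he.2.2.symm)
  obtain ⟨S, hS, hmin⟩ := exists_min_image (T.powerset.filter fun S => 2 ≤ S.card ∧
    k * S.card ≤ (F ∩ ins s t S).card + k) card ⟨T, by
      refine mem_filter.2 ⟨mem_powerset_self _, ?_, ?_⟩
      · have := Nat.even_iff.1 (h.even_T hk)
        have := card_pos.2 hT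
        omega
      · have a1 := handshake (s := s) (t := t) F T
        have a2 : F ∩ cut s t T = ∅ := by
          refine eq_empty_of_forall_notMem fun e he => ?_
          rw [mem_inter, mem_cut] at he
          have := hin e he.1
          tauto
        have a3 : T.card • (2 * k) ≤ ∑ v ∈ T, deg s t F v := by
          refine card_nsmul_le_sum _ _ _ fun v hv => ?_
          have b1 := handshake (s := s) (t := t) F {v}
          have b2 := h.2 {v} (by simp [hv])
          rw [sum_singleton, hone, inter_comm F] at b1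
          omega
        rw [a1, a2, smul_eq_mul] at a3
        simp only [card_empty, add_zero] at a3
        nlinarith⟩
  simp only [mem_filter, mem_powerset] at hS hmin
  refine ⟨S, hS.1, hS.2.1, fun X hX hne hXS => ?_⟩
  have key : ∀ Z ⊆ S, Z.Nonempty → Z ≠ S → (F ∩ ins s t Z).card + k ≤ k * Z.card := by
    intro Z hZ hZn hZS
    by_cases h2 : 2 ≤ Z.card
    · by_contra hc
      have := hmin Z ⟨hZ.trans hS.1, h2, by omega⟩
      exact hZS (eq_of_subset_of_card_le hZ this)
    · obtain ⟨z, rfl⟩ := card_eq_one.1 (show Z.card = 1 by have := card_pos.2 hZn; omega)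
      simp [hone]
  have a1 := key X hX hne hXS
  have a2 := key (S \ X) sdiff_subset (sdiff_nonempty.2 fun h' => hXS (Subset.antisymm hX h'))
    (fun h' => by
      obtain ⟨x, hx⟩ := hne
      have := h'.symm ▸ hX hx
      exact (mem_sdiff.1 this).2 hx)
  have a3 : F ∩ ins s t S ⊆ (F ∩ ins s t X) ∪ (F ∩ ins s t (S \ X)) ∪
      (cut s t X ∩ (F ∩ ins s t S)) := by
    intro e he
    simp only [mem_union, mem_inter, mem_ins, mem_cut, mem_sdiff] at he ⊢
    tauto
  have a4 := (card_le_card a3).trans ((card_union_le _ _).trans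
    (Nat.add_le_add_right (card_union_le _ _) _))
  have a5 := card_sdiff_add_card_eq_card hX
  have a6 := hS.2.2
  rw [← a5, mul_add] at a6
  omega

theorem tj_contract (h0 : S_TJ0) (h1 : S_ED) (h : TJHyp s t T F k) (hk : 0 < k) (hT : T.Nonempty)
    (hin : ∀ e ∈ F, s e ∈ T ∧ t e ∈ T) (hl : ∀ e ∈ F, s e ≠ t e)
    (ih : ∀ (s' t' : E → V) (T' : Finset V) (F' : Finset E), F'.card < F.card →
      TJHyp s' t' T' F' k → TJOut s' t' T' F' k) : TJOut s t T F k := by
  obtain ⟨S, hST, hS2, hS⟩ := tj_dense h hk hT hin hl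
  obtain ⟨B, hB, hBc⟩ := h1 V E s t S (F ∩ ins s t S) k inter_subset_right hS
  obtain ⟨s₀, hs₀⟩ : S.Nonempty := card_pos.1 (by omega)
  let c : V → V := fun x => if x ∈ S then s₀ else x
  let T' : Finset V := (T \ S) ∪ (if Odd S.card then {s₀} else ∅)
  have hc1 : ∀ x ∈ S, c x = s₀ := fun x hx => if_pos hx
  have hc2 : ∀ x ∉ S, c x = x := fun x hx => if_neg hx
  have hcut : ∀ X : Finset V, cut (c ∘ s) (c ∘ t) X ∩ (F \ ins s t S) =
      cut s t (univ.filter fun y => c y ∈ X) ∩ F := by
    intro X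
    ext e
    simp only [mem_inter, mem_cut, mem_sdiff, mem_ins, mem_filter, mem_univ, true_and,
      Function.comp]
    refine ⟨fun h' => ⟨h'.1, h'.2.1⟩, fun h' => ⟨h'.1, h'.2, fun h2 => h'.1 ?_⟩⟩
    rw [hc1 _ h2.1, hc1 _ h2.2]
  have hfib0 : univ.filter (fun y => c y = s₀) = S := by
    ext y
    simp only [mem_filter, mem_univ, true_and]
    refine ⟨fun h' => ?_, hc1 y⟩
    by_contra h2
    rw [hc2 y h2] at h'
    exact h2 (h' ▸ hs₀)
  have hfib1 : ∀ x ∉ S, univ.filter (fun y => c y = x) = {x} := by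
    intro x hx
    ext y
    simp only [mem_filter, mem_univ, true_and, mem_singleton]
    refine ⟨fun h' => ?_, fun h' => h' ▸ hc2 _ (h' ▸ hx)⟩
    by_cases h2 : y ∈ S
    · rw [hc1 y h2] at h'
      exact absurd (h' ▸ hs₀) hx
    · rwa [hc2 y h2] at h'
  obtain ⟨Q, hQ, hQc⟩ := ih (c ∘ s) (c ∘ t) T' (F \ ins s t S) (by
    obtain ⟨e, he⟩ : (cut s t {s₀} ∩ (F ∩ ins s t S)).Nonempty :=
      card_pos.1 (hk.trans_le (hS {s₀} (singleton_subset_iff.2 hs₀) (singleton_nonempty _)
        fun h' => by rw [← h'] at hS2; simp at hS2))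
    rw [mem_inter, mem_inter] at he
    exact card_lt_card ⟨sdiff_subset, fun h' => (mem_sdiff.1 (h' he.2.1)).2 he.2.2⟩) (by
    constructor
    · intro x
      have a1 := handshake (s := c ∘ s) (t := c ∘ t) (F \ ins s t S) {x}
      have a2 := Nat.even_iff.1 (h.even_cut (univ.filter fun y => c y ∈ ({x} : Finset V)))
      rw [sum_singleton, inter_comm _ (cut _ _ _), hcut] at a1
      rw [Nat.even_iff]; omega
    · intro X hX
      rw [hcut]
      refine h.2 _ ?_
      have e1 : (univ.filter fun y => c y ∈ X) ∩ T =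
          (X ∩ (T \ S)) ∪ (if s₀ ∈ X then S else ∅) := by
        ext y
        by_cases hy : y ∈ S
        · by_cases h2 : s₀ ∈ X <;> simp [hy, h2, hc1 y hy, hST hy]
        · by_cases h2 : s₀ ∈ X <;> simp [hy, h2, hc2 y hy]
      have e2 : X ∩ T' = (X ∩ (T \ S)) ∪ (if s₀ ∈ X ∧ Odd S.card then {s₀} else ∅) := by
        simp only [T', inter_union_distrib_left]
        congr 1
        by_cases h2 : s₀ ∈ X <;> by_cases h3 : Odd S.card <;> simp [h2, h3]
      rw [e2, card_union_of_disjoint (by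
        rw [disjoint_left]; intro y hy hy'
        split_ifs at hy'
        · rw [mem_singleton.1 hy'] at hy; simp [hs₀] at hy
        · simp at hy')] at hX
      rw [e1, card_union_of_disjoint (by
        rw [disjoint_left]; intro y hy hy'
        split_ifs at hy'
        · simp [hy'] at hy
        · simp at hy')]
      by_cases h2 : s₀ ∈ X <;> by_cases h3 : Odd S.card <;>
        simp only [h2, h3, and_self, and_true, and_false, if_true, if_false,
          card_singleton, card_empty] at hX ⊢ <;> rw [Nat.odd_iff] at * <;> omega)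
  have hP : ∀ j, ∃ P ⊆ B j, ∀ v, Odd (deg s t P v) ↔
      v ∈ S.filter fun v => ¬ Odd (deg s t (Q j) v) := by
    intro j
    refine h0 V E s t (B j) _ fun X hX => ?_
    have a1 : Even (S.filter fun v => ¬ Odd (deg s t (Q j) v)).card := by
      have b1 := (hQ j).2 s₀
      rw [tj_deg_map, hfib0, handshake] at b1
      have b2 := even_card_filter_odd (s := s) (t := t) (Q j) S
      have b3 := card_filter_add_card_filter_not (s := S) fun v => Odd (deg s t (Q j) v)
      have b4 : s₀ ∈ T' ↔ Odd S.card := by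
        by_cases h3 : Odd S.card <;> simp [T', h3, hs₀]
      rw [b4, Nat.odd_iff, Nat.odd_iff] at b1
      rw [Nat.even_iff] at b2 ⊢
      omega
    obtain ⟨e, he⟩ := (hB j).2 (X ∩ S) inter_subset_right (by
      obtain ⟨x, hx⟩ := card_pos.1 hX.pos
      rw [mem_inter, mem_filter] at hx
      exact ⟨x, mem_inter.2 ⟨hx.1, hx.2.1⟩⟩) (by
      intro h'
      rw [inter_eq_right.2 ((filter_subset _ _).trans (inter_eq_right.1 h'))] at hX
      exact Nat.not_odd_iff_even.2 a1 hX)
    rw [mem_inter] at he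
    have b1 := mem_ins.1 (mem_inter.1 ((hB j).1 he.2)).2
    refine ⟨e, mem_inter.2 ⟨?_, he.2⟩⟩
    have b2 := he.1
    simpa [b1.1, b1.2] using b2
  choose P hPB hPd using hP
  have hPi : ∀ j, P j ⊆ F ∩ ins s t S := fun j => (hPB j).trans (hB j).1
  refine ⟨fun j => Q j ∪ P j, fun j => ⟨?_, fun v => ?_⟩, fun e => ?_⟩
  · exact union_subset ((hQ j).1.trans sdiff_subset) ((hPi j).trans inter_subset_left)
  · rw [deg_union (disjoint_left.2 fun e h2 h3 =>
      (mem_sdiff.1 ((hQ j).1 h2)).2 (mem_inter.1 (hPi j h3)).2), Nat.odd_add,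
      ← Nat.not_odd_iff_even, hPd, mem_filter]
    by_cases hv : v ∈ S
    · simp [hv, hST hv]
    · have b1 := (hQ j).2 v
      rw [tj_deg_map, hfib1 v hv, sum_singleton] at b1
      have b2 : v ≠ s₀ := fun h' => hv (h' ▸ hs₀)
      rw [b1]
      by_cases h3 : Odd S.card <;> simp [T', h3, hv, b2]
  · by_cases he : e ∈ ins s t S
    · refine (cnt_mono fun j hj => ?_).trans (hBc e)
      exact hPB j ((mem_union.1 hj).resolve_left fun h' => (mem_sdiff.1 ((hQ j).1 h')).2 he)
    · refine (cnt_mono fun j hj => ?_).trans (hQc e)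
      exact (mem_union.1 hj).resolve_right fun h' => he (mem_inter.1 (hPi j h')).2

theorem tj_eul (h0 : S_TJ0) (h1 : S_ED) (hk : 0 < k) (n : ℕ) :
    ∀ (s t : E → V) (T : Finset V) (F : Finset E), F.card = n → TJHyp s t T F k →
      TJOut s t T F k := by
  induction n using Nat.strong_induction_on with
  | _ n ih =>
    intro s t T F hn h
    subst hn
    rcases T.eq_empty_or_nonempty with rfl | hT
    · refine ⟨fun _ => ∅, fun j => ⟨empty_subset _, by simp⟩, fun e => ?_⟩
      rw [cnt_eq_zero (by simp)]; omega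
    by_cases hl : ∃ e ∈ F, s e = t e
    · obtain ⟨e, he, hl⟩ := hl
      obtain ⟨Q, hQ, hc⟩ := ih _ (card_erase_lt_of_mem he) s t T _ rfl (tj_loop h he hl)
      exact ⟨Q, fun j => ⟨(hQ j).1.trans (erase_subset _ _), (hQ j).2⟩, hc⟩
    push Not at hl
    by_cases hin : ∀ e ∈ F, s e ∈ T ∧ t e ∈ T
    · exact tj_contract h0 h1 h hk hT hin hl fun s' t' T' F' hF => ih _ hF s' t' T' F' rfl
    · push Not at hin
      obtain ⟨e, he, hin⟩ := hin
      by_cases hs : s e ∈ T
      · exact tj_split h hk (hin hs) he (Or.inr rfl) hl fun s' t' F' hF => ih _ hF s' t' T F' rfl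
      · exact tj_split h hk hs he (Or.inl rfl) hl fun s' t' F' hF => ih _ hF s' t' T F' rfl

end eul

theorem tj (h0 : S_TJ0) (h1 : S_ED) : S_TJ := by
  intro V E _ _ _ _ s t T A k hA hk
  let m : E → ℕ := fun e => if e ∈ A then 2 * k else 2
  have hm : ∀ e, Even (m e) ∧ 2 ≤ m e := fun e => by
    simp only [m]
    split_ifs
    · exact ⟨even_two_mul _, by omega⟩
    · exact ⟨even_two, le_rfl⟩
  have hsum : ∀ g : E → ℕ, ∑ p : (Σ e : E, Fin (m e)), g p.1 = ∑ e, m e * g e := fun g => by
    simp [Fintype.sum_sigma]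
  obtain ⟨Q, hQ, hc⟩ := tj_eul (E := Σ e : E, Fin (m e)) h0 h1 hk _ (fun p => s p.1)
    (fun p => t p.1) T univ rfl (by
    constructor
    · intro v
      rw [deg_eq_sum, hsum fun e => (if s e = v then 1 else 0) + (if t e = v then 1 else 0)]
      exact even_sum _ fun e _ => (hm e).1.mul_right _
    · intro X hX
      have e1 : (cut (fun p : Σ e : E, Fin (m e) => s p.1) (fun p => t p.1) X ∩ univ).card =
          ∑ e ∈ cut s t X, m e := by
        rw [card_inter_eq_sum]
        simp only [mem_cut]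
        rw [hsum fun e => if ¬ (s e ∈ X ↔ t e ∈ X) then 1 else 0, cut, sum_filter]
        simp
      rw [e1]
      rcases hA X hX with h' | ⟨e, he⟩
      · have := card_nsmul_le_sum (cut s t X) m 2 fun e _ => (hm e).2
        rw [smul_eq_mul] at this
        exact le_trans (by omega) this
      · rw [mem_inter] at he
        have := single_le_sum (f := m) (fun _ _ => Nat.zero_le _) he.1
        simpa [m, he.2] using this)
  refine ⟨fun j => univ.filter fun e => Odd ((Q j).filter fun p => p.1 = e).card, fun j v => ?_,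
    fun e he => ?_⟩
  · rw [← (hQ j).2 v, deg_eq_sum, deg_eq_sum, sum_filter,
      ← sum_fiberwise (Q j) (fun p => p.1), Nat.odd_iff, Nat.odd_iff, sum_nat_mod,
      sum_nat_mod _ 2 (fun e => ∑ p ∈ (Q j).filter (fun p => p.1 = e), _)]
    have : ∀ e, (if Odd ((Q j).filter fun p => p.1 = e).card then
        (if s e = v then 1 else 0) + (if t e = v then 1 else 0) else 0) % 2 =
        (∑ p ∈ (Q j).filter (fun p => p.1 = e),
          ((if s p.1 = v then 1 else 0) + (if t p.1 = v then 1 else 0))) % 2 := by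
      intro e
      rw [sum_congr rfl (g := fun _ => (if s e = v then 1 else 0) + (if t e = v then 1 else 0))
        (fun p hp => by rw [(mem_filter.1 hp).2]), sum_const, smul_eq_mul, Nat.mul_mod]
      by_cases ho : Odd ((Q j).filter fun p => p.1 = e).card
      · rw [if_pos ho, Nat.odd_iff.1 ho]; simp
      · rw [if_neg ho, Nat.even_iff.1 (Nat.not_odd_iff_even.1 ho)]; simp
    simp only [this]
  · refine (cnt_mono (Q := fun j => ∃ i ∈ (univ : Finset (Fin (m e))), ⟨e, i⟩ ∈ Q j)
      fun j hj => ?_).trans ((cnt_exists_le _ _).trans ?_)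
    · obtain ⟨⟨e', i⟩, hp⟩ := card_pos.1 (mem_filter.1 hj).2.pos
      obtain ⟨hp', rfl⟩ := mem_filter.1 hp
      exact ⟨i, mem_univ _, hp'⟩
    · refine (sum_le_card_nsmul _ _ 2 fun i _ => hc _).trans ?_
      simp [m, he]

end Pool.Agent.P.MP_40718a_co.ABF
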