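import Pool.Agent.P.MP_40718a_co.ABF.Rec
import Pool.Agent.P.MP_40718a_co.ABF.TJ
import Pool.Agent.P.MP_40718a_co.ABF.ED
import Pool.Agent.P.MP_40718a_co.ABF.Round
import Pool.Agent.P.MP_40718a_co.ABF.SP
import Pool.Agent.P.MP_40718a_co.ABF.Gad
import Pool.Agent.P.MP_40718a_co.ABF.RO
import Pool.Agent.P.MP_40718a_co.ABF.MC
import Pool.Agent.P.MP_40718a_co.ABF.PL
import Pool.Agent.P.MP_40718a_co.ABF.RL
import Pool.Agent.P.MP_40718a_co.ABF.Cub
import Pool.Agent.P.MP_40718a_co.ABF.Ex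

namespace Pool.Agent.P.MP_40718a_co.ABF

theorem glue0 (hrmb : S_RMB) (hcpt : S_CPT) (hpm : S_PM) : S_EX :=
  ex (al (cub (rec_main (pl mc wh) (sp tj0 round)
    (ro (rl (gad hcpt) coup hrmb) (fv round smatch)) (fv round smatch) hpm) (tj tj0 ed))) (djs ed)

end Pool.Agent.P.MP_40718a_co.ABF
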