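import Mathlib

/-!
Asymptotic Berge-Fulkerson: definitions and the statements of the parts.
A multigraph is given by two maps `s t : E → V` (the two ends of an edge).
-/

namespace Pool.Agent.P.MP_40718a_co.ABF

open Finset
open scoped symmDiff

section Defs

variable {V E : Type} [Fintype V] [Fintype E] [DecidableEq V] [DecidableEq E]

/-- edges with exactly one end in `X` -/
def cut (s t : E → V) (X : Finset V) : Finset E := univ.filter fun e => ¬ (s e ∈ X ↔ t e ∈ X)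

/-- edges with both ends in `X` -/
def ins (s t : E → V) (X : Finset V) : Finset E := univ.filter fun e => s e ∈ X ∧ t e ∈ X

/-- degree of `v` in the edge set `F`, loops count twice -/
def deg (s t : E → V) (F : Finset E) (v : V) : ℕ :=
  (F.filter fun e => s e = v).card + (F.filter fun e => t e = v).card

/-- loopless and 3-regular -/
def Cubic (s t : E → V) : Prop := (∀ e, s e ≠ t e) ∧ ∀ v, deg s t univ v = 3

/-- `k`-edge-connected: every proper cut has at least `k` edges -/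
def EC (k : ℕ) (s t : E → V) : Prop :=
  ∀ X : Finset V, X.Nonempty → X ≠ univ → k ≤ (cut s t X).card

/-- the subgraph induced on `W` is connected (or empty) -/
def Conn (s t : E → V) (W : Finset V) : Prop :=
  ∀ X ⊆ W, X.Nonempty → X ≠ W → (cut s t X ∩ ins s t W).Nonempty

def IsMatch (s t : E → V) (M : Finset E) : Prop := ∀ v, deg s t M v ≤ 1

/-- vertices of `W` that are an end of an edge leaving `W` -/
def term (s t : E → V) (W : Finset V) : Finset V :=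
  W.filter fun v => ∃ e ∈ cut s t W, s e = v ∨ t e = v

/-- `u` and `v` are joined by edges of `A` -/
def Link (s t : E → V) (A : Finset E) (u v : V) : Prop :=
  ∀ X : Finset V, Disjoint (cut s t X) A → (u ∈ X ↔ v ∈ X)

/-- edges inside `W` between different parts of `P` -/
def tor (s t : E → V) (W : Finset V) (P : Finset (Finset V)) : Finset E :=
  ins s t W ∩ P.biUnion (cut s t)

open Classical in
/-- number of indices with a property -/
noncomputable def cnt {I : Type} [Fintype I] (P : I → Prop) : ℕ := (univ.filter P).card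

open Classical in
/-- weight of an event -/
noncomputable def pr {Ω : Type} [Fintype Ω] (μ : Ω → ℝ) (P : Ω → Prop) : ℝ :=
  ∑ ω, if P ω then μ ω else 0

def IsProb {Ω : Type} [Fintype Ω] (μ : Ω → ℝ) : Prop := (∀ ω, 0 ≤ μ ω) ∧ ∑ ω, μ ω = 1

/-- a law on edge sets that cover every vertex of `W` exactly once, whose marginals on the
edges meeting `W` are within `ρ` of `1/3` -/
def Law (s t : E → V) (W : Finset V) (ρ : ℝ) (μ : Finset E → ℝ) : Prop :=
  IsProb μ ∧ (∀ M, μ M ≠ 0 → ∀ v ∈ W, deg s t M v = 1) ∧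
    ∀ e, (s e ∈ W ∨ t e ∈ W) → |pr μ (fun M => e ∈ M) - 1 / 3| ≤ ρ

/-- affine subspace over the field with two elements -/
def Aff (S : Finset (Finset E)) : Prop := ∀ x ∈ S, ∀ y ∈ S, ∀ z ∈ S, x ∆ y ∆ z ∈ S

/-- the invariant of the recursion for the boundary patterns `p i` received by `W` -/
def Inv (s t : E → V) {I : Type} [Fintype I] (R K : ℝ) (W : Finset V) (p : I → Finset E) : Prop :=
  ∃ (μ : Finset E → ℝ) (S : Finset (Finset E)), Law s t W 0 μ ∧ Aff S ∧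
    (∀ a ∈ S, a ⊆ cut s t W ∧ Even (a.card + W.card)) ∧ (∀ i, p i ∈ S) ∧
    (∀ M, μ M ≠ 0 → M ∩ cut s t W ∈ S) ∧
    ∀ Q ⊆ S, Aff Q →
      ((Fintype.card I : ℝ) - R) * pr μ (fun M => M ∩ cut s t W ∈ Q)
        + R * Q.card / S.card - 2 * K ≤ cnt fun i => p i ∈ Q

/-- `P` is a partition of `W` into at least two connected parts with small cuts -/
def Parts (s t : E → V) (c : ℕ) (W : Finset V) (P : Finset (Finset V)) : Prop :=
  (∀ y ∈ P, y ⊆ W ∧ y ≠ W ∧ y.Nonempty ∧ Conn s t y ∧ (cut s t y).card ≤ c) ∧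
    (∀ v ∈ W, ∃ y ∈ P, v ∈ y) ∧ ∀ y ∈ P, ∀ y' ∈ P, y ≠ y' → Disjoint y y'

/-- the edges of the cut of `W` whose image under `β` lies in `g` -/
def pull {E' : Type} [DecidableEq E'] (s t : E → V) (W : Finset V) (β : E → E') (g : Finset E') :
    Finset E := (cut s t W).filter fun e => β e ∈ g

end Defs

/-- a vertex set in a cubic multigraph -/
structure Pole where
  V : Type
  E : Type
  [fV : Fintype V]
  [fE : Fintype E]
  [dV : DecidableEq V]
  [dE : DecidableEq E]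
  s : E → V
  t : E → V
  W : Finset V
  cub : Cubic s t

attribute [instance] Pole.fV Pole.fE Pole.dV Pole.dE

/-- edge colouring with slack (Tashkinov trees) -/
def S_GL : Prop :=
  ∀ (V E : Type) [Fintype V] [Fintype E] [DecidableEq V] [DecidableEq E] (s t : E → V) (q σ : ℕ),
    (∀ e, s e ≠ t e) → q ≤ σ * (σ - 1) → (∀ v, deg s t univ v + σ ≤ q) →
    (∀ U : Finset V, Odd U.card → 2 * (ins s t U).card ≤ q * (U.card - 1)) →
    ∃ c : E → Fin q, ∀ j, IsMatch s t (univ.filter fun e => c e = j)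

/-- rounding a law on matchings to a family of `n` matchings -/
def S_RM : Prop :=
  ∀ (V E : Type) [Fintype V] [Fintype E] [DecidableEq V] [DecidableEq E] (s t : E → V)
    (I Ω : Type) [Fintype I] [Fintype Ω] (x : Ω → ℝ) (F : Ω → Finset E),
    IsProb x → (∀ ω, x ω ≠ 0 → IsMatch s t (F ω)) →
    ∃ M : I → Finset E, (∀ i, IsMatch s t (M i)) ∧ ∀ e,
      (cnt fun i => e ∈ M i : ℝ) ≤ Fintype.card I * pr x (fun ω => e ∈ F ω) ∧
      Fintype.card I * pr x (fun ω => e ∈ F ω) - (√(Fintype.card I) + 3) ≤ cnt fun i => e ∈ M i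

/-- the same, block by block -/
def S_RMB : Prop :=
  ∀ (V E : Type) [Fintype V] [Fintype E] [DecidableEq V] [DecidableEq E] (s t : E → V)
    (I Ω P : Type) [Fintype I] [Fintype Ω] (x : Ω → ℝ) (F : Ω → Finset E) (S : Finset E)
    (φ : Ω → P) (b : I → P) (L : Finset P) (C : ℝ),
    IsProb x → (∀ ω, x ω ≠ 0 → IsMatch s t (F ω) ∧ F ω ⊆ S ∧ φ ω ∈ L) → (∀ i, b i ∈ L) →
    (∀ a, |(cnt fun i => b i = a : ℝ) - Fintype.card I * pr x (fun ω => φ ω = a)| ≤ C) →
    ∃ M : I → Finset E, (∀ i, IsMatch s t (M i) ∧ M i ⊆ S) ∧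
      (∀ e, |(cnt fun i => e ∈ M i : ℝ) - Fintype.card I * pr x (fun ω => e ∈ F ω)|
        ≤ L.card * (C + √(Fintype.card I) + 3)) ∧
      (∀ e (A : P → Prop), (cnt fun i => ¬ (e ∈ M i ↔ A (b i)) : ℝ) ≤
        Fintype.card I * pr x (fun ω => ¬ (e ∈ F ω ↔ A (φ ω)))
          + 2 * L.card * (C + √(Fintype.card I) + 3)) ∧
      (∀ v, (cnt fun i => deg s t (M i) v = 0 : ℝ) ≤
        Fintype.card I * pr x (fun ω => deg s t (F ω) v = 0)
          + deg s t S v * L.card * (C + √(Fintype.card I) + 3))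

/-- compactness: approximate laws are close to exact laws -/
def S_CPT : Prop :=
  ∀ (V E : Type) [Fintype V] [Fintype E] [DecidableEq V] [DecidableEq E] (s t : E → V)
    (W : Finset V) (η : ℝ), 0 < η → ∃ ρ : ℝ, 0 < ρ ∧ ∀ μ, Law s t W ρ μ →
      ∃ ν, Law s t W 0 ν ∧ ∀ A : Finset E → Prop, |pr μ A - pr ν A| ≤ η

/-- the vector `1/3` is a convex combination of perfect matchings -/
def S_PM : Prop :=
  ∀ (V E : Type) [Fintype V] [Fintype E] [DecidableEq V] [DecidableEq E] (s t : E → V),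
    Cubic s t → EC 2 s t → ∃ μ, Law s t univ 0 μ

/-- existence of a `T`-join inside `B` -/
def S_TJ0 : Prop :=
  ∀ (V E : Type) [Fintype V] [Fintype E] [DecidableEq V] [DecidableEq E] (s t : E → V)
    (B : Finset E) (T : Finset V),
    (∀ X : Finset V, Odd (X ∩ T).card → (cut s t X ∩ B).Nonempty) →
    ∃ Q ⊆ B, ∀ v, Odd (deg s t Q v) ↔ v ∈ T

/-- arborescences in the doubly directed graph -/
def S_ED : Prop :=
  ∀ (V E : Type) [Fintype V] [Fintype E] [DecidableEq V] [DecidableEq E] (s t : E → V)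
    (S : Finset V) (F : Finset E) (k : ℕ), F ⊆ ins s t S →
    (∀ X ⊆ S, X.Nonempty → X ≠ S → k ≤ (cut s t X ∩ F).card) →
    ∃ B : Fin k → Finset E,
      (∀ j, B j ⊆ F ∧ ∀ X ⊆ S, X.Nonempty → X ≠ S → (cut s t X ∩ B j).Nonempty) ∧
      ∀ e, cnt (fun j => e ∈ B j) ≤ 2

/-- packing `T`-joins with bounded load -/
def S_TJ : Prop :=
  ∀ (V E : Type) [Fintype V] [Fintype E] [DecidableEq V] [DecidableEq E] (s t : E → V)
    (T : Finset V) (A : Finset E) (k : ℕ),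
    (∀ X : Finset V, Odd (X ∩ T).card → k ≤ (cut s t X).card ∨ (cut s t X ∩ A).Nonempty) →
    0 < k → ∃ Q : Fin k → Finset E, (∀ j v, Odd (deg s t (Q j) v) ↔ v ∈ T) ∧
      ∀ e ∉ A, cnt (fun j => e ∈ Q j) ≤ 4

/-- rounding real targets fibre by fibre -/
def S_ROUND : Prop :=
  ∀ (I Ω P : Type) [Fintype I] [Fintype Ω] (p : I → P) (π : Ω → P) (x : Ω → ℝ),
    (∀ ω, 0 ≤ x ω) → (∀ a, pr x (fun ω => π ω = a) = cnt fun i => p i = a) →
    ∃ w : I → Ω, (∀ i, π (w i) = p i ∧ x (w i) ≠ 0) ∧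
      ∀ ω, |(cnt fun i => w i = ω : ℝ) - x ω| ≤ 1

/-- permuting an assignment so that it agrees with a given one as often as possible -/
def S_MATCH : Prop :=
  ∀ (I X : Type) [Fintype I] [Fintype X] (w a : I → X),
    ∃ g : Equiv.Perm I, cnt (fun i => w (g i) ≠ a i) ≤
      ∑ x, (cnt (fun i => w i = x) - cnt (fun i => a i = x))

/-- fresh views -/
def S_FV : Prop :=
  ∀ (V E : Type) [Fintype V] [Fintype E] [DecidableEq V] [DecidableEq E] (s t : E → V)
    (I : Type) [Fintype I] (R K δ : ℝ) (W : Finset V) (ν : Finset E → ℝ) (a : I → Finset E),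
    Law s t W 0 ν → 0 ≤ R → R ≤ Fintype.card I → (2 : ℝ) ^ (cut s t W).card ≤ K → 0 ≤ δ →
    (∀ c, ((Fintype.card I : ℝ) - R) * pr ν (fun M => M ∩ cut s t W = c) - δ
      ≤ cnt fun i => a i = c) →
    ∃ p : I → Finset E, Inv s t R K W p ∧
      (cnt fun i => p i ≠ a i : ℝ) ≤ R + 2 ^ (cut s t W).card * (δ + 1)

/-- choice of the values on the edges at the special parts -/
def S_SP : Prop :=
  ∀ (V E : Type) [Fintype V] [Fintype E] [DecidableEq V] [DecidableEq E] (s t : E → V)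
    (I : Type) [Fintype I] (R K : ℝ) (W : Finset V) (Z : Finset (Finset V)) (p : I → Finset E),
    Conn s t W → (∀ z ∈ Z, z ⊆ W) → cut s t W ⊆ Z.biUnion (cut s t) →
    (2 : ℝ) ^ (Z.biUnion (cut s t)).card ≤ K → 2 ^ (cut s t W).card * (2 * K) ≤ R →
    R ≤ Fintype.card I → Inv s t R K W p →
    ∃ (w : I → Finset E) (μ : Finset E → ℝ), Law s t W 0 μ ∧
      (∀ i, w i ⊆ Z.biUnion (cut s t) ∧ w i ∩ cut s t W = p i) ∧
      (∀ z ∈ Z, Inv s t R K z fun i => w i ∩ cut s t z) ∧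
      ∀ D ⊆ Z.biUnion (cut s t), ∀ c,
        ((Fintype.card I : ℝ) - R) * pr μ (fun M => M ∩ D = c) - K ≤ cnt fun i => w i ∩ D = c

/-- bounded gadgets -/
def S_GAD : Prop :=
  ∀ (c : ℕ) (η : ℝ), 0 < η → ∃ (B : ℕ) (ρ : ℝ), 0 < ρ ∧
    ∀ (V E : Type) [Fintype V] [Fintype E] [DecidableEq V] [DecidableEq E] (s t : E → V)
      (W : Finset V), Cubic s t → W.Nonempty → (cut s t W).card ≤ c →
      ∃ (Q : Pole) (β : E → Q.E), Q.W.card ≤ B ∧
        Set.BijOn β (cut s t W : Set E) (cut Q.s Q.t Q.W : Set Q.E) ∧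
        (∀ μ, Law s t W 0 μ → ∃ μ', Law Q.s Q.t Q.W 0 μ' ∧ ∀ a,
          |pr μ' (fun g => pull s t W β g = a) - pr μ (fun M => M ∩ cut s t W = a)| ≤ η) ∧
        (∀ μ', Law Q.s Q.t Q.W ρ μ' → ∃ μ, Law s t W 0 μ ∧ ∀ a,
          |pr μ' (fun g => pull s t W β g = a) - pr μ (fun M => M ∩ cut s t W = a)| ≤ η)

/-- simultaneous coupling -/
def S_COUP : Prop :=
  ∀ (Ω Y P : Type) [Fintype Ω] [Fintype Y] [DecidableEq Y] (Γ : Y → Type) [∀ y, Fintype (Γ y)]
    (μ : Ω → ℝ) (μ' : ∀ y, Γ y → ℝ) (φ : Y → Ω → P) (ψ : ∀ y, Γ y → P) (L : Y → Finset P) (η : ℝ),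
    IsProb μ → (∀ y, IsProb (μ' y)) → (∀ y ω, φ y ω ∈ L y) →
    (∀ y a, |pr (μ' y) (fun g => ψ y g = a) - pr μ (fun ω => φ y ω = a)| ≤ η) →
    ∃ x : Ω × (∀ y, Γ y) → ℝ, IsProb x ∧
      (∀ z, x z ≠ 0 → μ z.1 ≠ 0 ∧ ∀ y, μ' y (z.2 y) ≠ 0) ∧
      (∀ A : Ω → Prop, pr x (fun z => A z.1) = pr μ A) ∧
      (∀ y (A : Γ y → Prop), pr x (fun z => A (z.2 y)) = pr (μ' y) A) ∧
      ∀ y, pr x (fun z => ψ y (z.2 y) ≠ φ y z.1) ≤ (L y).card * η

/-- region lemma -/
def S_RL : Prop :=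
  ∀ (c c' : ℕ) (τ C : ℝ), 0 < τ → ∃ n₀ : ℕ,
    ∀ (V E : Type) [Fintype V] [Fintype E] [DecidableEq V] [DecidableEq E] (s t : E → V)
      (I : Type) [Fintype I] (P : Finset (Finset V)) (μ : Finset E → ℝ) (b : I → Finset E),
      n₀ ≤ Fintype.card I → Cubic s t →
      (∀ y ∈ P, y.Nonempty ∧ (cut s t y).card ≤ c) →
      (∀ y ∈ P, ∀ y' ∈ P, y ≠ y' → Disjoint y y') →
      (cut s t (P.biUnion id)).card ≤ c' → Law s t (P.biUnion id) 0 μ →
      (∀ i, b i ⊆ cut s t (P.biUnion id)) →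
      (∀ a, |(cnt fun i => b i = a : ℝ)
        - Fintype.card I * pr μ (fun M => M ∩ cut s t (P.biUnion id) = a)| ≤ C) →
      ∃ d : I → Finset E, (∀ i, d i ⊆ tor s t (P.biUnion id) P) ∧ ∀ y ∈ P, ∃ ν, Law s t y 0 ν ∧
        ∀ a, Fintype.card I * pr ν (fun M => M ∩ cut s t y = a) - τ * Fintype.card I
          ≤ cnt fun i => (b i ∪ d i) ∩ cut s t y = a

/-- region oracle -/
def S_RO : Prop :=
  ∀ (c c' : ℕ) (θ K : ℝ), 0 < θ → θ < 1 → (2 : ℝ) ^ c ≤ K → ∃ n₀ : ℕ,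
    ∀ (V E : Type) [Fintype V] [Fintype E] [DecidableEq V] [DecidableEq E] (s t : E → V)
      (I : Type) [Fintype I] (P : Finset (Finset V)) (μ : Finset E → ℝ) (b : I → Finset E),
      n₀ ≤ Fintype.card I → Cubic s t →
      (∀ y ∈ P, y.Nonempty ∧ (cut s t y).card ≤ c) →
      (∀ y ∈ P, ∀ y' ∈ P, y ≠ y' → Disjoint y y') →
      (cut s t (P.biUnion id)).card ≤ c' → Law s t (P.biUnion id) 0 μ →
      (∀ i, b i ⊆ cut s t (P.biUnion id)) →
      (∀ a, ((Fintype.card I : ℝ) - θ * Fintype.card I)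
        * pr μ (fun M => M ∩ cut s t (P.biUnion id) = a) - K ≤ cnt fun i => b i = a) →
      ∃ (d : I → Finset E) (p : Finset V → I → Finset E),
        (∀ i, d i ⊆ tor s t (P.biUnion id) P) ∧ ∀ y ∈ P,
          Inv s t (θ * Fintype.card I) K y (p y) ∧
          (cnt fun i => p y i ≠ (b i ∪ d i) ∩ cut s t y : ℝ) ≤ 2 * θ * Fintype.card I

/-- a partition with the least number of parts -/
def S_MC : Prop :=
  ∀ (V E : Type) [Fintype V] [Fintype E] [DecidableEq V] [DecidableEq E] (s t : E → V)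
    (c : ℕ) (W : Finset V), 3 ≤ c → Cubic s t → EC 1 s t → W ≠ univ → 2 ≤ W.card →
    ∃ P, Parts s t c W P ∧
      ∀ D ⊆ W, D ≠ W → (cut s t D).card ≤ c → (P.filter fun y => y ⊆ D).card ≤ 2 * c

/-- two paths that share only cut vertices -/
def S_WH : Prop :=
  ∀ (α : Type) (G : SimpleGraph α) (a b : α), G.Reachable a b →
    ∃ p q : G.Walk a b, p.IsPath ∧ q.IsPath ∧
      ∀ z ∈ p.support, z ∈ q.support → z = a ∨ z = b ∨ ∀ w : G.Walk a b, z ∈ w.support

/-- partition, special parts, routes and balls -/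
def S_PL : Prop :=
  ∀ l : ℕ, 2 ≤ l → ∃ Zm Bm : ℕ,
    ∀ (V E : Type) [Fintype V] [Fintype E] [DecidableEq V] [DecidableEq E] (s t : E → V)
      (W : Finset V), Cubic s t → EC 1 s t → Conn s t W → W ≠ univ → 2 ≤ W.card →
      (cut s t W).card ≤ 2 * l →
      ∃ P Z : Finset (Finset V), Parts s t (2 * l) W P ∧ Z ⊆ P ∧ Z.card ≤ Zm ∧
        (∀ y ∈ P \ Z, Disjoint (cut s t y) (cut s t W)) ∧
        (∀ u ∈ term s t W, ∀ v ∈ term s t W,
          ∃ (Fr : Bool → Finset E) (sup : Bool → Finset (Finset V))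
            (dem : Bool → Finset V → V × V),
            (∀ k, Fr k ⊆ tor s t W P ∧ sup k ⊆ P ∧
              (∀ y ∈ sup k, (dem k y).1 ∈ term s t y ∧ (dem k y).2 ∈ term s t y) ∧
              ∀ A, Fr k ⊆ A → (∀ y ∈ sup k, Link s t A (dem k y).1 (dem k y).2) →
                Link s t A u v) ∧
            sup true ∩ sup false ⊆ Z) ∧
        ∃ Bl : Finset V → Finset (Finset V), (∀ y ∈ P \ Z, Bl y ⊆ P \ Z) ∧
          (∀ y', ((P \ Z).filter fun y => y' ∈ Bl y).card ≤ Bm) ∧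
          ∀ X ⊆ W, (cut s t X ∩ ins s t W).card ≤ l → ∀ O ⊆ P \ Z,
            Disjoint (cut s t X) (tor s t (O.biUnion id) O) →
            (∀ y ∈ O, ∀ u ∈ term s t y, ∀ v ∈ term s t y, (u ∈ X ↔ v ∈ X)) →
            ∀ y₁ ∈ P \ Z, ∀ y₂ ∈ P \ Z, Bl y₁ ⊆ O → Bl y₂ ⊆ O →
              ∀ u ∈ term s t y₁, ∀ v ∈ term s t y₂, (u ∈ X ↔ v ∈ X)

/-- the recursion -/
def S_REC : Prop :=
  ∀ (l : ℕ) (ε : ℝ), 0 < ε → ∃ N : ℕ, 0 < N ∧
    ∀ (V E : Type) [Fintype V] [Fintype E] [DecidableEq V] [DecidableEq E] (s t : E → V),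
      Cubic s t → EC 2 s t → ∃ J A : Fin N → Finset E,
        (∀ e, (cnt fun i => e ∈ J i : ℝ) ≤ (1 / 3 + ε) * N) ∧
        (∀ e, (cnt fun i => e ∈ A i : ℝ) ≤ ε * N) ∧
        ∀ i (X : Finset V), (cut s t X).card ≤ l → Disjoint (cut s t X) (A i) →
          Even (X.filter fun v => Even (deg s t (J i) v)).card

/-- joins in cubic graphs -/
def S_CUB : Prop :=
  ∀ ε : ℝ, 0 < ε → ∃ k : ℕ, 0 < k ∧
    ∀ (V E : Type) [Fintype V] [Fintype E] [DecidableEq V] [DecidableEq E] (s t : E → V),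
      Cubic s t → EC 2 s t → ∃ J : Fin k → Finset E, (∀ i v, Odd (deg s t (J i) v)) ∧
        ∀ e, (cnt fun i => e ∈ J i : ℝ) ≤ (1 / 3 + ε) * k

/-- nearly uniform covers by even subgraphs -/
def S_AL : Prop :=
  ∀ ε : ℝ, 0 < ε → ∃ k : ℕ, 0 < k ∧
    ∀ (V E : Type) [Fintype V] [Fintype E] [DecidableEq V] [DecidableEq E] (s t : E → V),
      EC 2 s t → ∃ C : Fin k → Finset E, (∀ i v, Even (deg s t (C i) v)) ∧
        ∀ e, (2 / 3 - ε) * k ≤ (cnt fun i => e ∈ C i : ℝ) ∧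
          (cnt fun i => e ∈ C i : ℝ) ≤ (2 / 3 + 2 * ε) * k

/-- nine removable classes (DeVos, Johnson, Seymour) -/
def S_DJS : Prop :=
  ∀ (V E : Type) [Fintype V] [Fintype E] [DecidableEq V] [DecidableEq E] (s t : E → V),
    EC 3 s t → ∃ cls : E → Fin 3 × Fin 3, ∀ j (X : Finset V), X.Nonempty → X ≠ univ →
      2 ≤ ((cut s t X).filter fun e => cls e ≠ j).card

/-- exact covers -/
def S_EX : Prop :=
  ∀ ε : ℝ, 0 < ε → ∃ k l : ℕ, 0 < k ∧ (2 / 3 - ε) * k < l ∧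
    ∀ (V E : Type) [Fintype V] [Fintype E] [DecidableEq V] [DecidableEq E] (s t : E → V),
      EC 2 s t → ∃ C : Fin k → Finset E, (∀ i v, Even (deg s t (C i) v)) ∧
        ∀ e, cnt (fun i => e ∈ C i) = l

end Pool.Agent.P.MP_40718a_co.ABF
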