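import Pool.Agent.P.MP_40718a_co.ABF.Rec4

namespace Pool.Agent.P.MP_40718a_co.ABF

open Finset
open scoped symmDiff

section

variable {V E : Type} [Fintype V] [Fintype E] [DecidableEq V] [DecidableEq E] {s t : E → V}

theorem conn_erase (hcub : Cubic s t) (hec : EC 2 s t) (r : V) : Conn s t ({r}ᶜ : Finset V) := by
  intro X hX hne hXW
  by_contra hem
  rw [not_nonempty_iff_eq_empty] at hem
  have hr : r ∉ X := fun h => by simpa using hX h
  have hY : (({r}ᶜ : Finset V) \ X).Nonempty := by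
    rw [sdiff_nonempty]; intro h; exact hXW (Subset.antisymm hX h)
  have h1 := hec X hne (fun h => hr (h ▸ mem_univ r))
  have h2 := hec _ hY (fun h => by have := h ▸ mem_univ r; simp at this)
  have hall : ∀ e, e ∈ cut s t X → ¬ (s e ≠ r ∧ t e ≠ r) := by
    intro e he h
    have : e ∈ cut s t X ∩ ins s t ({r}ᶜ : Finset V) := mem_inter.2 ⟨he, by simpa using h⟩
    rw [hem] at this; simp at this
  have hsub : cut s t X ∪ cut s t (({r}ᶜ : Finset V) \ X) ⊆ cut s t {r} := by
    intro e he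
    have h0 := hcub.1 e
    have h3 := hall e
    simp only [mem_union, mem_cut, mem_sdiff, mem_compl, mem_singleton] at he h3 ⊢
    by_cases a : s e = r <;> by_cases b : t e = r
    · exact absurd (a.trans b.symm) h0
    · simp [a, b]
    · simp [a, b]
    · tauto
  have hdj : Disjoint (cut s t X) (cut s t (({r}ᶜ : Finset V) \ X)) := by
    rw [disjoint_left]
    intro e he he'
    have h3 := hall e he
    simp only [mem_cut, mem_sdiff, mem_compl, mem_singleton] at he he'
    by_cases a : s e = r <;> by_cases b : t e = r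
    · exact hcub.1 e (a.trans b.symm)
    · rw [a] at he he'; tauto
    · rw [b] at he he'; tauto
    · tauto
  have := card_le_card hsub
  rw [card_union_of_disjoint hdj, hcub.card_cut_singleton] at this
  omega

end

theorem rec_main (hPL : S_PL) (hSP : S_SP) (hRO : S_RO) (hFV : S_FV) (hPM : S_PM) : S_REC := by
  intro l₀ ε hε
  set l := max l₀ 2 with hl
  have hl2 : 2 ≤ l := le_max_right _ _
  obtain ⟨Zm, Bm, hPL⟩ := hPL l hl2
  set K : ℝ := 2 ^ (Zm * (2 * l) + 2 * l) with hK
  have hK1 : (2 : ℝ) ^ (Zm * (2 * l)) ≤ K := pow_le_pow_right₀ (by norm_num) (by omega)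
  have hK2 : (2 : ℝ) ^ (2 * l) ≤ K := pow_le_pow_right₀ (by norm_num) (by omega)
  have hK0 : 0 < K := by positivity
  set γ : ℝ := (2 * (2 * l) ^ 2 + 1) * (Bm + 1) with hγ
  have hγ1 : 1 ≤ γ := by
    have : (0 : ℝ) ≤ (2 * l) ^ 2 := by positivity
    have : (0 : ℝ) ≤ Bm := by positivity
    rw [hγ]; nlinarith
  set θ : ℝ := min (1 / 2) (ε / (6 * γ)) with hθ
  have hθ0 : 0 < θ := by positivity
  have hθ1 : θ ≤ 1 / 2 := min_le_left _ _
  have hθ2 : θ * (6 * γ) ≤ ε := by
    rw [← le_div_iff₀ (by positivity)]; exact min_le_right _ _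
  obtain ⟨n₀, hRO⟩ := hRO (2 * l) (Zm * (2 * l)) θ K hθ0 (by linarith) hK2
  obtain ⟨N, hN⟩ := exists_nat_ge (n₀ + 1 + 2 ^ (2 * l) * (2 * K) / θ + (2 * (2 * l) ^ 2 + 4 * K) / ε)
  have hp1 : (0 : ℝ) ≤ 2 ^ (2 * l) * (2 * K) / θ := by positivity
  have hp2 : (0 : ℝ) ≤ (2 * (2 * l) ^ 2 + 4 * K) / ε := by positivity
  have hp3 : (0 : ℝ) ≤ n₀ := by positivity
  have hN0 : n₀ + 1 ≤ N := by
    have : ((n₀ + 1 : ℕ) : ℝ) ≤ N := by push_cast; linarith
    exact_mod_cast this
  have hN1 : 2 ^ (2 * l) * (2 * K) ≤ θ * N := by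
    rw [mul_comm θ, ← div_le_iff₀ hθ0]; linarith
  have hN2 : 2 * (2 * l) ^ 2 + 4 * K ≤ ε * N := by
    rw [mul_comm ε, ← div_le_iff₀ hε]; linarith
  have hNp : (0 : ℝ) ≤ N := by positivity
  have hθN : θ * N * (6 * γ) ≤ ε * N := by nlinarith
  have hθN0 : 0 ≤ θ * N := by positivity
  refine ⟨N, by omega, fun V E _ _ _ _ s t hcub hec => ?_⟩
  rcases isEmpty_or_nonempty V with hV | ⟨⟨r⟩⟩
  · refine ⟨fun _ => ∅, fun _ => ∅, fun e => (hV.false (s e)).elim, fun e => (hV.false (s e)).elim,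
      fun i X _ _ => ?_⟩
    rw [eq_empty_of_isEmpty X]; simp
  obtain ⟨μ, hμ⟩ := hPM V E s t hcub hec
  set W : Finset V := {r}ᶜ with hW
  have hcW : cut s t W = cut s t {r} := cut_compl _
  have hcW3 : (cut s t W).card = 3 := by rw [hcW, hcub.card_cut_singleton]
  have hWne : W.Nonempty := by
    rw [nonempty_iff_ne_empty]; intro h; rw [h] at hcW3; simp at hcW3
  have hWu : W ≠ univ := fun h => by have := h ▸ mem_univ r; simp [hW] at this
  have hcard : (Fintype.card (Fin N) : ℝ) = N := by simp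
  have hθN1 : θ * N ≤ N := by nlinarith
  obtain ⟨p, hp, -⟩ := hFV V E s t (Fin N) (θ * N) K N W μ (fun _ => ∅) (hμ.mono (subset_univ _))
    hθN0 (by rw [hcard]; exact hθN1)
    (le_trans (pow_le_pow_right₀ (by norm_num) (by omega)) hK2) hNp (fun c => by
      have h1 := pr_le_one hμ.1 (fun M => M ∩ cut s t W = c)
      have h2 : (0 : ℝ) ≤ cnt fun _ : Fin N => (∅ : Finset E) = c := by positivity
      rw [hcard]
      nlinarith)
  have hBm : (0 : ℝ) ≤ Bm := by positivity
  have hl0 : (0 : ℝ) ≤ (2 * l) ^ 2 := by positivity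
  obtain ⟨J, A, hsub, hJ, hA, -, hpar⟩ := core (s := s) (t := t) (I := Fin N) (l := l) (Zm := Zm)
    (Bm := Bm) (R := θ * N) (K := K) (T := 2 * θ * N)
    (Dm := (2 * l : ℝ) ^ 2 + 2 * (2 * l) ^ 2 * (Bm * (2 * θ * N))) (LJ := (1 / 3 + ε) * N)
    (LA := ε * N) hSP
    (by
      intro P μ b h1 h2 h3 h4 h5 h6
      have := hRO V E s t (Fin N) P μ b (by simp; omega) hcub h1 h2 h3 h4 h5
        (by simpa only [hcard] using h6)
      simpa only [hcard] using this)
    (fun W h1 h2 h3 h4 => hPL V E s t W hcub (hec.mono (by norm_num)) h1 h2 h3 h4)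
    hK1 hN1 (by rw [hcard]; exact hθN1) (by positivity) le_rfl
    (by
      have : (2 * (2 * l : ℝ) ^ 2 + 1) * (Bm * (2 * θ * N)) ≤ 2 * (θ * N * γ) := by
        rw [hγ]; nlinarith [mul_nonneg hθN0 hl0]
      nlinarith)
    (by rw [hcard]; nlinarith)
    W.card W le_rfl hWne (conn_erase hcub hec r) hWu (by omega) p hp ∅ (by simp)
    (by simp only [card_empty, Nat.cast_zero]; positivity)
  have hmain : ∀ i (X : Finset V), r ∉ X → (cut s t X).card ≤ l₀ → Disjoint (cut s t X) (A i) →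
      dfc s t (J i ∪ p i) X = 0 := fun i X hr hl' hd =>
    hpar i X (fun v hv => by
      simp only [hW, mem_compl, mem_singleton]; rintro rfl; exact hr hv)
      ((card_le_card inter_subset_left).trans (hl'.trans (le_max_left _ _))) hd
  refine ⟨fun i => J i ∪ p i, A, fun e => ?_, hA, fun i X hl' hd => ?_⟩
  · by_cases he : e ∈ cut s t W
    · have := hp.load hθN0 he
      rw [cnt_congr (Q := fun i => e ∈ p i) fun i => ?_]
      · rw [hcard] at this; nlinarith
      · have : e ∉ J i := fun h => disjoint_left.1 (disjoint_ins_cut W) ((hsub i).1 h) he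
        simp [this]
    · rw [cnt_congr (Q := fun i => e ∈ J i) fun i => ?_]
      · exact hJ e
      · have : e ∉ p i := fun h => he ((hp.sub i).1 h)
        simp [this]
  · rw [← ZMod.natCast_eq_zero_iff_even, ← dfc_eq_card]
    by_cases hr : r ∈ X
    · have h1 := hmain i Xᶜ (by simpa using hr) (by rwa [cut_compl]) (by rwa [cut_compl])
      rw [dfc_eq] at h1 ⊢
      rw [cut_compl] at h1
      have h2 := hcub.cut_parity univ
      have h3 := card_add_card_compl X
      rw [ZMod.natCast_eq_zero_iff_even] at h1 ⊢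
      simp only [cut_univ, card_empty, zero_add, card_univ] at h2
      rw [Nat.even_iff] at *
      beta_reduce
      omega
    · exact hmain i X hr hl' hd

end Pool.Agent.P.MP_40718a_co.ABF
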