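import Pool.Agent.P.MP_40718a_co.ABF.Basic

namespace Pool.Agent.P.MP_40718a_co.ABF

open Finset
open scoped symmDiff

variable {V E : Type} [Fintype V] [Fintype E] [DecidableEq V] [DecidableEq E] {s t : E → V}
variable {I : Type} [Fintype I]

/-- parity defect of `X` -/
def dfc (s t : E → V) (F : Finset E) (X : Finset V) : ZMod 2 := ∑ v ∈ X, ((deg s t F v : ZMod 2) + 1)

theorem dfc_eq (F : Finset E) (X : Finset V) :
    dfc s t F X = ((F ∩ cut s t X).card + X.card : ℕ) := by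
  unfold dfc
  rw [sum_add_distrib, ← Nat.cast_sum, handshake]
  simp only [Nat.cast_add, Nat.cast_mul, sum_const, nsmul_eq_mul, mul_one]
  have : ((2 : ℕ) : ZMod 2) = 0 := rfl
  rw [this]; ring

theorem dfc_eq_card (F : Finset E) (X : Finset V) :
    dfc s t F X = ((X.filter fun v => Even (deg s t F v)).card : ℕ) := by
  unfold dfc
  rw [card_filter, Nat.cast_sum]
  refine sum_congr rfl fun v _ => ?_
  by_cases h : Even (deg s t F v)
  · simp [h, (ZMod.natCast_eq_zero_iff_even).2 h]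
  · have := (ZMod.natCast_eq_one_iff_odd).2 (Nat.not_even_iff_odd.1 h)
    simp only [h, this, if_false]; rfl

theorem deg_cast_symmDiff (F G : Finset E) (v : V) :
    (deg s t (F ∆ G) v : ZMod 2) = deg s t F v + deg s t G v := by
  have := congrArg (Nat.cast : ℕ → ZMod 2) (deg_symmDiff (s := s) (t := t) F G v)
  simp only [Nat.cast_add, Nat.cast_mul] at this
  have h2 : ((2 : ℕ) : ZMod 2) = 0 := rfl
  rw [h2] at this; simpa using this

/-- the output of the recursion -/
def Out (s t : E → V) (l : ℕ) (LJ LA : ℝ) (W : Finset V) (p : I → Finset E)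
    (D : Finset (I × V × V)) (J A : I → Finset E) : Prop :=
  (∀ i, J i ⊆ ins s t W ∧ A i ⊆ ins s t W) ∧
  (∀ e, (cnt fun i => e ∈ J i : ℝ) ≤ LJ) ∧ (∀ e, (cnt fun i => e ∈ A i : ℝ) ≤ LA) ∧
  (∀ d ∈ D, Link s t (A d.1) d.2.1 d.2.2) ∧
  ∀ i, ∀ X ⊆ W, (cut s t X ∩ ins s t W).card ≤ l → Disjoint (cut s t X) (A i) →
    dfc s t (J i ∪ p i) X = 0

theorem Inv.sub {R K : ℝ} {W : Finset V} {p : I → Finset E} (h : Inv s t R K W p) (i : I) :
    p i ⊆ cut s t W ∧ Even ((p i).card + W.card) := by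
  obtain ⟨μ, S, _, _, h3, h4, _⟩ := h
  exact h3 _ (h4 i)

theorem Inv.load {R K : ℝ} {W : Finset V} {p : I → Finset E} (h : Inv s t R K W p)
    (hR : 0 ≤ R) {e : E} (he : e ∈ cut s t W) :
    (cnt fun i => e ∈ p i : ℝ) ≤ Fintype.card I / 3 + R + 2 * K := by
  obtain ⟨μ, S, h1, h2, h3, h4, h5, h6⟩ := h
  have hA : Aff (S.filter fun a => e ∉ a) := by
    intro x hx y hy z hz
    rw [mem_filter] at hx hy hz ⊢
    refine ⟨h2 x hx.1 y hy.1 z hz.1, ?_⟩
    simp [mem_symmDiff, hx.2, hy.2, hz.2]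
  have := h6 _ (filter_subset _ _) hA
  have e1 : pr μ (fun M => M ∩ cut s t W ∈ S.filter fun a => e ∉ a) = 2 / 3 := by
    have hm := h1.marg (e := e) (by rw [mem_cut] at he; tauto)
    have := pr_add_not h1.1 (fun M => e ∈ M)
    rw [pr_congr (Q := fun M => ¬ e ∈ M)]
    · linarith
    · intro M hM
      simp only [mem_filter, h5 M hM, true_and, mem_inter, he, and_true]
  have e2 : cnt (fun i => p i ∈ S.filter fun a => e ∉ a) = cnt fun i => ¬ e ∈ p i :=
    cnt_congr fun i => by simp only [mem_filter, h4 i, true_and]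
  have e3 := cnt_add_not (fun i => e ∈ p i)
  rw [e1, e2] at this
  have e4 : (cnt fun i => e ∈ p i : ℝ) + cnt (fun i => ¬ e ∈ p i) = Fintype.card I := by
    exact_mod_cast e3
  have e5 : 0 ≤ R * (S.filter fun a => e ∉ a).card / S.card := by positivity
  linarith

theorem out_base {l : ℕ} {LJ LA R K : ℝ} (hJ : 0 ≤ LJ) (hA : 0 ≤ LA) {W : Finset V}
    (hW : W.card ≤ 1) {p : I → Finset E} (hp : Inv s t R K W p) {D : Finset (I × V × V)}
    (hD : ∀ d ∈ D, d.2.1 ∈ term s t W ∧ d.2.2 ∈ term s t W) :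
    Out s t l LJ LA W p D (fun _ => ∅) (fun _ => ∅) := by
  refine ⟨fun i => ⟨empty_subset _, empty_subset _⟩, fun e => ?_, fun e => ?_, fun d hd => ?_,
    fun i X hX _ _ => ?_⟩
  · rw [cnt_eq_zero (by simp)]; simpa using hJ
  · rw [cnt_eq_zero (by simp)]; simpa using hA
  · have := card_le_one.1 hW _ (mem_term.1 (hD d hd).1).1 _ (mem_term.1 (hD d hd).2).1
    rw [this]; exact Link.refl _ _
  · rcases X.eq_empty_or_nonempty with rfl | hne
    · simp [dfc]
    · have : X = W := eq_of_subset_of_card_le hX (hW.trans hne.card_pos)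
      subst this
      rw [dfc_eq, empty_union, inter_eq_left.2 (hp.sub i).1]
      exact (ZMod.natCast_eq_zero_iff_even).2 (hp.sub i).2

theorem exists_halve {α β : Type} [DecidableEq α] [DecidableEq β] (D : Finset α) (f : α → β) :
    ∃ side : α → Bool, ∀ b k,
      2 * (D.filter fun a => f a = b ∧ side a = k).card ≤ (D.filter fun a => f a = b).card + 1 := by
  have : ∀ b, ∃ H ⊆ D.filter fun a => f a = b,
      H.card = (D.filter fun a => f a = b).card / 2 := fun b =>
    exists_subset_card_eq (Nat.div_le_self _ _)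
  choose H hH hc using this
  refine ⟨fun a => decide (a ∈ H (f a)), fun b k => ?_⟩
  have e1 : (D.filter fun a => f a = b ∧ decide (a ∈ H (f a)) = true) = H b := by
    ext a
    simp only [mem_filter, decide_eq_true_eq]
    constructor
    · rintro ⟨_, rfl, h⟩; exact h
    · intro h
      have := mem_filter.1 (hH b h)
      exact ⟨this.1, this.2, this.2 ▸ h⟩
  have e2 : (D.filter fun a => f a = b ∧ decide (a ∈ H (f a)) = false) =
      (D.filter fun a => f a = b) \ H b := by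
    ext a
    simp only [mem_filter, decide_eq_false_iff_not, mem_sdiff]
    constructor
    · rintro ⟨h1, rfl, h⟩; exact ⟨⟨h1, rfl⟩, h⟩
    · rintro ⟨⟨h1, rfl⟩, h⟩; exact ⟨h1, rfl, h⟩
  cases k
  · rw [e2, card_sdiff_of_subset (hH b), hc]; omega
  · rw [e1, hc]; omega

section Parts

variable {c : ℕ} {W : Finset V} {P : Finset (Finset V)}

theorem Parts.eq_of_mem (h : Parts s t c W P) {y y' : Finset V} (hy : y ∈ P) (hy' : y' ∈ P)
    {v : V} (h1 : v ∈ y) (h2 : v ∈ y') : y = y' := by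
  by_contra hne
  exact disjoint_left.1 (h.2.2 y hy y' hy' hne) h1 h2

theorem Parts.not_tor (h : Parts s t c W P) {y : Finset V} (hy : y ∈ P) {e : E}
    (he : e ∈ ins s t y) : e ∉ tor s t W P := by
  intro h'
  obtain ⟨_, y', hy', h2⟩ := mem_tor.1 h'
  rw [mem_ins] at he
  rw [mem_cut] at h2
  apply h2
  constructor
  · intro h3; exact h.eq_of_mem hy hy' he.1 h3 ▸ he.2
  · intro h3; exact h.eq_of_mem hy hy' he.2 h3 ▸ he.1

theorem Parts.ins_cases (h : Parts s t c W P) {e : E} (he : e ∈ ins s t W) :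
    (∃ y ∈ P, e ∈ ins s t y) ∨ e ∈ tor s t W P := by
  obtain ⟨y, hy, h1⟩ := h.2.1 _ (mem_ins.1 he).1
  by_cases h2 : t e ∈ y
  · exact Or.inl ⟨y, hy, mem_ins.2 ⟨h1, h2⟩⟩
  · exact Or.inr (mem_tor.2 ⟨he, y, hy, by simp [h1, h2]⟩)

theorem Parts.ins_eq (h : Parts s t c W P) {y y' : Finset V} (hy : y ∈ P) (hy' : y' ∈ P) {e : E}
    (he : e ∈ ins s t y) (he' : e ∈ ins s t y') : y = y' :=
  h.eq_of_mem hy hy' (mem_ins.1 he).1 (mem_ins.1 he').1

theorem Parts.sum_inter (h : Parts s t c W P) {X : Finset V} (hX : X ⊆ W) (f : V → ZMod 2) :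
    ∑ v ∈ X, f v = ∑ y ∈ P, ∑ v ∈ X ∩ y, f v := by
  rw [← sum_biUnion]
  · congr 1
    ext v
    simp only [mem_biUnion, mem_inter]
    constructor
    · intro hv
      obtain ⟨y, hy, h1⟩ := h.2.1 v (hX hv)
      exact ⟨y, hy, hv, h1⟩
    · rintro ⟨y, _, hv, _⟩; exact hv
  · intro y hy y' hy' hne
    exact (h.2.2 y hy y' hy' hne).mono inter_subset_right inter_subset_right

theorem Parts.tor_sub (h : Parts s t c W P) {O : Finset (Finset V)} (hO : O ⊆ P) :
    tor s t (O.biUnion id) O ⊆ tor s t W P := by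
  intro e he
  obtain ⟨h1, y, hy, h2⟩ := mem_tor.1 he
  refine mem_tor.2 ⟨ins_mono ?_ h1, y, hO hy, h2⟩
  intro v hv
  obtain ⟨y, hy, hv⟩ := mem_biUnion.1 hv
  exact (h.1 y (hO hy)).1 hv

end Parts

end Pool.Agent.P.MP_40718a_co.ABF
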