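import Pool.Agent.P.MP_40718a_co.ABF.Rec1

namespace Pool.Agent.P.MP_40718a_co.ABF

open Finset
open scoped symmDiff

variable {V E : Type} [Fintype V] [Fintype E] [DecidableEq V] [DecidableEq E] {s t : E → V}
variable {I : Type} [Fintype I]

theorem assemble {l c : ℕ} {LJ LA : ℝ} (hLJ : 0 ≤ LJ) (hLA : 0 ≤ LA) {W : Finset V}
    {P : Finset (Finset V)} (hP : Parts s t c W P) {p act A0 : I → Finset E}
    {view Jc Ac : Finset V → I → Finset E} {Dc : Finset V → Finset (I × V × V)}
    {D : Finset (I × V × V)}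
    (hpar : ∀ i, Even ((p i).card + W.card))
    (hact : ∀ i, act i ⊆ cut s t W ∪ tor s t W P) (hactp : ∀ i, act i ∩ cut s t W = p i)
    (hview : ∀ y ∈ P, ∀ i, view y i ⊆ cut s t y)
    (hA0 : ∀ i, A0 i ⊆ tor s t W P)
    (hch : ∀ y ∈ P, Out s t l LJ LA y (view y) (Dc y) (Jc y) (Ac y))
    (hlJ : ∀ e ∈ tor s t W P, (cnt fun i => e ∈ act i : ℝ) ≤ LJ)
    (hlA : ∀ e ∈ tor s t W P, (cnt fun i => e ∈ A0 i : ℝ) ≤ LA)
    (hdem : ∀ d ∈ D, Link s t (A0 d.1 ∪ P.biUnion fun y => Ac y d.1) d.2.1 d.2.2)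
    (hside : ∀ i, ∀ X ⊆ W, (cut s t X ∩ ins s t W).card ≤ l →
      Disjoint (cut s t X) (A0 i ∪ P.biUnion fun y => Ac y i) →
      ∀ y₁ ∈ P, ∀ y₂ ∈ P, view y₁ i ≠ act i ∩ cut s t y₁ → view y₂ i ≠ act i ∩ cut s t y₂ →
        ∀ u ∈ term s t y₁, ∀ v ∈ term s t y₂, (u ∈ X ↔ v ∈ X)) :
    Out s t l LJ LA W p D (fun i => (act i ∩ ins s t W) ∪ P.biUnion fun y => Jc y i)
      (fun i => A0 i ∪ P.biUnion fun y => Ac y i) := by
  have hJin : ∀ y ∈ P, ∀ e ∈ ins s t y, ∀ i,
      e ∈ (act i ∩ ins s t W) ∪ (P.biUnion fun y => Jc y i) ↔ e ∈ Jc y i := by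
    intro y hy e he i
    simp only [mem_union, mem_inter, mem_biUnion]
    constructor
    · rintro (⟨h1, h2⟩ | ⟨y', hy', h⟩)
      · rcases mem_union.1 (hact i h1) with h | h
        · exact absurd h (disjoint_left.1 (disjoint_ins_cut W) h2)
        · exact absurd h (hP.not_tor hy he)
      · exact hP.ins_eq hy hy' he (((hch y' hy').1 i).1 h) ▸ h
    · intro h; exact Or.inr ⟨y, hy, h⟩
  have hAin : ∀ y ∈ P, ∀ e ∈ ins s t y, ∀ i,
      e ∈ A0 i ∪ (P.biUnion fun y => Ac y i) ↔ e ∈ Ac y i := by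
    intro y hy e he i
    simp only [mem_union, mem_biUnion]
    constructor
    · rintro (h | ⟨y', hy', h⟩)
      · exact absurd (hA0 i h) (hP.not_tor hy he)
      · exact hP.ins_eq hy hy' he (((hch y' hy').1 i).2 h) ▸ h
    · intro h; exact Or.inr ⟨y, hy, h⟩
  have hJsub : ∀ i, (act i ∩ ins s t W) ∪ (P.biUnion fun y => Jc y i) ⊆ ins s t W := by
    intro i
    refine union_subset inter_subset_right (biUnion_subset.2 fun y hy => ?_)
    exact ((hch y hy).1 i).1.trans (ins_mono (hP.1 y hy).1)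
  have hAsub : ∀ i, A0 i ∪ (P.biUnion fun y => Ac y i) ⊆ ins s t W := by
    intro i
    refine union_subset ((hA0 i).trans inter_subset_left) (biUnion_subset.2 fun y hy => ?_)
    exact ((hch y hy).1 i).2.trans (ins_mono (hP.1 y hy).1)
  -- the defect formula
  have hform : ∀ i, ∀ X ⊆ W, (cut s t X ∩ ins s t W).card ≤ l →
      Disjoint (cut s t X) (A0 i ∪ P.biUnion fun y => Ac y i) →
      dfc s t (((act i ∩ ins s t W) ∪ P.biUnion fun y => Jc y i) ∪ p i) X =
        ∑ y ∈ P, ∑ v ∈ X ∩ y, (deg s t (view y i ∆ (act i ∩ cut s t y)) v : ZMod 2) := by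
    intro i X hX hl hd
    unfold dfc
    rw [hP.sum_inter hX]
    refine sum_congr rfl fun y hy => ?_
    have hsub : cut s t (X ∩ y) ∩ ins s t y ⊆ cut s t X ∩ ins s t W := by
      intro e he
      have h1 := mem_inter.1 he
      refine mem_inter.2 ⟨?_, ins_mono (hP.1 y hy).1 h1.2⟩
      have h2 := mem_ins.1 h1.2
      have h3 := mem_cut.1 h1.1
      simp only [mem_inter, h2.1, h2.2, and_true] at h3
      exact mem_cut.2 h3
    have h0 := (hch y hy).2.2.2.2 i (X ∩ y) inter_subset_right ((card_le_card hsub).trans hl) (by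
      rw [disjoint_left]
      intro e h1 h2
      have h3 := ((hch y hy).1 i).2 h2
      exact disjoint_left.1 hd (mem_inter.1 (hsub (mem_inter.2 ⟨h1, h3⟩))).1
        ((hAin y hy e h3 i).2 h2))
    unfold dfc at h0
    rw [← zero_add (∑ v ∈ X ∩ y, (deg s t (view y i ∆ (act i ∩ cut s t y)) v : ZMod 2)), ← h0,
      ← sum_add_distrib]
    refine sum_congr rfl fun v hv => ?_
    have hv' := (mem_inter.1 hv).2
    have hdj : Disjoint (Jc y i) (cut s t y) :=
      (disjoint_ins_cut y).mono_left ((hch y hy).1 i).1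
    have e1 : deg s t (((act i ∩ ins s t W) ∪ P.biUnion fun y => Jc y i) ∪ p i) v =
        deg s t (Jc y i ∪ (act i ∩ cut s t y)) v := by
      refine deg_congr fun e he => ?_
      by_cases hin : e ∈ ins s t y
      · have hp' : e ∉ p i := by
          rw [← hactp i]
          intro h
          exact disjoint_left.1 (disjoint_ins_cut W) (ins_mono (hP.1 y hy).1 hin) (mem_inter.1 h).2
        have hc : e ∉ cut s t y := disjoint_left.1 (disjoint_ins_cut y) hin
        rw [mem_union, hJin y hy e hin i]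
        simp [hp', hc]
      · have hc : e ∈ cut s t y := by
          rw [mem_ins] at hin; rw [mem_cut]
          rcases he with rfl | rfl <;> tauto
        have hJ : ∀ y' ∈ P, e ∉ Jc y' i := by
          intro y' hy' h
          have h1 := ((hch y' hy').1 i).1 h
          have : y = y' := by
            rcases he with rfl | rfl
            · exact hP.eq_of_mem hy hy' hv' (mem_ins.1 h1).1
            · exact hP.eq_of_mem hy hy' hv' (mem_ins.1 h1).2
          exact hin (this ▸ h1)
        rw [← hactp i]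
        simp only [mem_union, mem_inter, mem_biUnion, hc, and_true]
        constructor
        · rintro ((h | ⟨y', hy', h⟩) | h)
          · exact Or.inr h.1
          · exact absurd h (hJ y' hy')
          · exact Or.inr h.1
        · rintro (h | h)
          · exact absurd h (hJ y hy)
          · rcases mem_union.1 (hact i h) with h' | h'
            · exact Or.inr ⟨h, h'⟩
            · exact Or.inl (Or.inl ⟨h, (mem_tor.1 h').1⟩)
    rw [e1, deg_union (hdj.mono_right inter_subset_right),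
      deg_union (hdj.mono_right (hview y hy i)), deg_cast_symmDiff]
    push_cast
    have : ∀ a b c : ZMod 2, a + c + 1 = a + b + 1 + (b + c) := by decide
    exact this _ _ _
  refine ⟨fun i => ⟨hJsub i, hAsub i⟩, fun e => ?_, fun e => ?_, hdem, fun i X hX hl hd => ?_⟩
  · by_cases he : e ∈ ins s t W
    · rcases hP.ins_cases he with ⟨y, hy, h⟩ | h
      · rw [cnt_congr (hJin y hy e h)]; exact (hch y hy).2.1 e
      · refine le_trans (Nat.cast_le.2 (cnt_mono fun i hi => ?_)) (hlJ e h)
        rcases mem_union.1 hi with hi | hi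
        · exact (mem_inter.1 hi).1
        · obtain ⟨y, hy, hi⟩ := mem_biUnion.1 hi
          exact absurd h (hP.not_tor hy (((hch y hy).1 i).1 hi))
    · rw [cnt_eq_zero fun i hi => he (hJsub i hi)]; simpa using hLJ
  · by_cases he : e ∈ ins s t W
    · rcases hP.ins_cases he with ⟨y, hy, h⟩ | h
      · rw [cnt_congr (hAin y hy e h)]; exact (hch y hy).2.2.1 e
      · refine le_trans (Nat.cast_le.2 (cnt_mono fun i hi => ?_)) (hlA e h)
        rcases mem_union.1 hi with hi | hi
        · exact hi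
        · obtain ⟨y, hy, hi⟩ := mem_biUnion.1 hi
          exact absurd h (hP.not_tor hy (((hch y hy).1 i).2 hi))
    · rw [cnt_eq_zero fun i hi => he (hAsub i hi)]; simpa using hLA
  · have hW := hform i W subset_rfl
      (by rw [inter_comm, disjoint_iff_inter_eq_empty.1 (disjoint_ins_cut W)]; simp)
      ((disjoint_ins_cut W).symm.mono_right (hAsub i))
    have hW0 : dfc s t (((act i ∩ ins s t W) ∪ P.biUnion fun y => Jc y i) ∪ p i) W = 0 := by
      rw [dfc_eq, union_inter_distrib_right,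
        disjoint_iff_inter_eq_empty.1 ((disjoint_ins_cut W).mono_left (hJsub i)), empty_union,
        inter_eq_left.2 (by rw [← hactp i]; exact inter_subset_right)]
      exact (ZMod.natCast_eq_zero_iff_even).2 (hpar i)
    rw [hform i X hX hl hd]
    have htok : ∀ y ∈ P, ∀ v ∈ y, deg s t (view y i ∆ (act i ∩ cut s t y)) v ≠ 0 →
        view y i ≠ act i ∩ cut s t y ∧ v ∈ term s t y := by
      intro y hy v hv h
      refine ⟨fun h' => h (by rw [h']; simp), ?_⟩
      rw [Ne, deg_eq_zero] at h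
      push Not at h
      obtain ⟨e, he, h⟩ := h
      refine mem_term.2 ⟨hv, e, ?_, by tauto⟩
      rcases mem_symmDiff.1 he with h1 | h1
      · exact hview y hy i h1.1
      · exact (mem_inter.1 h1.1).2
    by_cases hex : ∃ y ∈ P, ∃ v ∈ X ∩ y, deg s t (view y i ∆ (act i ∩ cut s t y)) v ≠ 0
    · obtain ⟨y₁, hy₁, u, hu, h₁⟩ := hex
      rw [← hW0, hW]
      refine sum_congr rfl fun y hy => ?_
      refine sum_subset (inter_subset_inter_right hX) fun v hv hv' => ?_
      by_contra hne
      have h₂ : deg s t (view y i ∆ (act i ∩ cut s t y)) v ≠ 0 := fun h => hne (by rw [h]; rfl)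
      have a1 := htok y₁ hy₁ u (mem_inter.1 hu).2 h₁
      have a2 := htok y hy v (mem_inter.1 hv).2 h₂
      have := (hside i X hX hl hd y₁ hy₁ y hy a1.1 a2.1 u a1.2 v a2.2).1 (mem_inter.1 hu).1
      exact hv' (mem_inter.2 ⟨this, (mem_inter.1 hv).2⟩)
    · push Not at hex
      refine sum_eq_zero fun y hy => sum_eq_zero fun v hv => ?_
      rw [hex y hy v hv]; rfl

end Pool.Agent.P.MP_40718a_co.ABF
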