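import Pool.Agent.P.MP_40718a_co.ABF.Rec2

namespace Pool.Agent.P.MP_40718a_co.ABF

open Finset
open scoped symmDiff

variable {V E : Type} [Fintype V] [Fintype E] [DecidableEq V] [DecidableEq E] {s t : E → V}
variable {I : Type} [Fintype I]

def PLout (s t : E → V) (l Zm Bm : ℕ) (W : Finset V) : Prop :=
  ∃ P Z : Finset (Finset V), Parts s t (2 * l) W P ∧ Z ⊆ P ∧ Z.card ≤ Zm ∧
    (∀ y ∈ P \ Z, Disjoint (cut s t y) (cut s t W)) ∧
    (∀ u ∈ term s t W, ∀ v ∈ term s t W,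
      ∃ (Fr : Bool → Finset E) (sup : Bool → Finset (Finset V))
        (dem : Bool → Finset V → V × V),
        (∀ k, Fr k ⊆ tor s t W P ∧ sup k ⊆ P ∧
          (∀ y ∈ sup k, (dem k y).1 ∈ term s t y ∧ (dem k y).2 ∈ term s t y) ∧
          ∀ A, Fr k ⊆ A → (∀ y ∈ sup k, Link s t A (dem k y).1 (dem k y).2) →
            Link s t A u v) ∧
        sup true ∩ sup false ⊆ Z) ∧
    ∃ Bl : Finset V → Finset (Finset V), (∀ y ∈ P \ Z, Bl y ⊆ P \ Z) ∧
      (∀ y', ((P \ Z).filter fun y => y' ∈ Bl y).card ≤ Bm) ∧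
      ∀ X ⊆ W, (cut s t X ∩ ins s t W).card ≤ l → ∀ O ⊆ P \ Z,
        Disjoint (cut s t X) (tor s t (O.biUnion id) O) →
        (∀ y ∈ O, ∀ u ∈ term s t y, ∀ v ∈ term s t y, (u ∈ X ↔ v ∈ X)) →
        ∀ y₁ ∈ P \ Z, ∀ y₂ ∈ P \ Z, Bl y₁ ⊆ O → Bl y₂ ⊆ O →
          ∀ u ∈ term s t y₁, ∀ v ∈ term s t y₂, (u ∈ X ↔ v ∈ X)

def ROout (s t : E → V) (I : Type) [Fintype I] (c c' : ℕ) (R K T : ℝ) : Prop :=
  ∀ (P : Finset (Finset V)) (μ : Finset E → ℝ) (b : I → Finset E),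
    (∀ y ∈ P, y.Nonempty ∧ (cut s t y).card ≤ c) →
    (∀ y ∈ P, ∀ y' ∈ P, y ≠ y' → Disjoint y y') →
    (cut s t (P.biUnion id)).card ≤ c' → Law s t (P.biUnion id) 0 μ →
    (∀ i, b i ⊆ cut s t (P.biUnion id)) →
    (∀ a, ((Fintype.card I : ℝ) - R)
      * pr μ (fun M => M ∩ cut s t (P.biUnion id) = a) - K ≤ cnt fun i => b i = a) →
    ∃ (d : I → Finset E) (p : Finset V → I → Finset E),
      (∀ i, d i ⊆ tor s t (P.biUnion id) P) ∧ ∀ y ∈ P,
        Inv s t R K y (p y) ∧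
        (cnt fun i => p y i ≠ (b i ∪ d i) ∩ cut s t y : ℝ) ≤ T

/-- values on the torso edges and views of the parts -/
theorem views {c Zm : ℕ} {R K T : ℝ} (hSP : S_SP) (hRO : ROout s t I c (Zm * c) R K T)
    (hK : (2 : ℝ) ^ (Zm * c) ≤ K) (hR : 2 ^ c * (2 * K) ≤ R) (hRN : R ≤ Fintype.card I)
    (hT : 0 ≤ T) {W : Finset V} (hW : Conn s t W) (hc : (cut s t W).card ≤ c)
    {P Z : Finset (Finset V)} (hP : Parts s t c W P) (hZ : Z ⊆ P) (hZm : Z.card ≤ Zm)
    (hd : ∀ y ∈ P \ Z, Disjoint (cut s t y) (cut s t W)) {p : I → Finset E}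
    (hp : Inv s t R K W p) :
    ∃ (act : I → Finset E) (view : Finset V → I → Finset E),
      (∀ i, act i ⊆ cut s t W ∪ tor s t W P) ∧ (∀ i, act i ∩ cut s t W = p i) ∧
      (∀ y ∈ P, Inv s t R K y (view y) ∧
        (cnt fun i => view y i ≠ act i ∩ cut s t y : ℝ) ≤ T) ∧
      ∀ z ∈ Z, ∀ i, view z i = act i ∩ cut s t z := by
  have hK0 : 0 ≤ K := le_trans (by positivity) hK
  have hΦ : (Z.biUnion (cut s t)).card ≤ Zm * c := by
    refine card_biUnion_le.trans ?_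
    calc ∑ z ∈ Z, (cut s t z).card ≤ ∑ _z ∈ Z, c :=
          sum_le_sum fun z hz => (hP.1 z (hZ hz)).2.2.2.2
      _ = Z.card * c := by simp
      _ ≤ Zm * c := Nat.mul_le_mul_right _ hZm
  have hWΦ : cut s t W ⊆ Z.biUnion (cut s t) := by
    intro e he
    have : ∃ y ∈ P, e ∈ cut s t y := by
      have he' := mem_cut.1 he
      by_cases h1 : s e ∈ W
      · obtain ⟨y, hy, h⟩ := hP.2.1 _ h1
        have : t e ∉ y := fun h' => he' (by simp [h1, (hP.1 y hy).1 h'])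
        exact ⟨y, hy, by simp [h, this]⟩
      · have h2 : t e ∈ W := by tauto
        obtain ⟨y, hy, h⟩ := hP.2.1 _ h2
        have : s e ∉ y := fun h' => h1 ((hP.1 y hy).1 h')
        exact ⟨y, hy, by simp [h, this]⟩
    obtain ⟨y, hy, h⟩ := this
    refine mem_biUnion.2 ⟨y, ?_, h⟩
    by_contra hy'
    exact disjoint_left.1 (hd y (mem_sdiff.2 ⟨hy, hy'⟩)) h he
  obtain ⟨w, μ, hμ, hw, hwz, hwD⟩ := hSP V E s t I R K W Z p hW (fun z hz => (hP.1 z (hZ hz)).1) hWΦ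
    (le_trans (pow_le_pow_right₀ (by norm_num) hΦ) hK)
    (le_trans (mul_le_mul_of_nonneg_right (pow_le_pow_right₀ (by norm_num) hc) (by positivity)) hR)
    hRN hp
  set G := (P \ Z).biUnion id with hG
  have hGW : G ⊆ W := biUnion_subset.2 fun y hy => (hP.1 y (mem_sdiff.1 hy).1).1
  have hGz : ∀ z ∈ Z, ∀ v ∈ z, v ∉ G := by
    intro z hz v hv h
    obtain ⟨y, hy, h⟩ := mem_biUnion.1 h
    have := hP.eq_of_mem (hZ hz) (mem_sdiff.1 hy).1 hv h
    exact (mem_sdiff.1 hy).2 (this ▸ hz)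
  have hGΦ : cut s t G ⊆ Z.biUnion (cut s t) := by
    intro e he
    by_cases hW' : e ∈ cut s t W
    · exact hWΦ hW'
    have he' := mem_cut.1 he
    have hW'' : s e ∈ W ↔ t e ∈ W := by simpa using hW'
    by_cases h1 : s e ∈ G
    · have h2 : t e ∉ G := by tauto
      obtain ⟨y, hy, h⟩ := hP.2.1 _ (hW''.1 (hGW h1))
      have hyZ : y ∈ Z := by
        by_contra hn
        exact h2 (mem_biUnion.2 ⟨y, mem_sdiff.2 ⟨hy, hn⟩, h⟩)
      have : s e ∉ y := fun h' => hGz y hyZ _ h' h1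
      exact mem_biUnion.2 ⟨y, hyZ, by simp [h, this]⟩
    · have h2 : t e ∈ G := by tauto
      obtain ⟨y, hy, h⟩ := hP.2.1 _ (hW''.2 (hGW h2))
      have hyZ : y ∈ Z := by
        by_contra hn
        exact h1 (mem_biUnion.2 ⟨y, mem_sdiff.2 ⟨hy, hn⟩, h⟩)
      have : t e ∉ y := fun h' => hGz y hyZ _ h' h2
      exact mem_biUnion.2 ⟨y, hyZ, by simp [h, this]⟩
  obtain ⟨d, q, hd1, hq⟩ := hRO (P \ Z) μ (fun i => w i ∩ cut s t G)
    (fun y hy => ⟨(hP.1 y (mem_sdiff.1 hy).1).2.2.1, (hP.1 y (mem_sdiff.1 hy).1).2.2.2.2⟩)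
    (fun y hy y' hy' => hP.2.2 y (mem_sdiff.1 hy).1 y' (mem_sdiff.1 hy').1)
    ((card_le_card hGΦ).trans hΦ) (hμ.mono hGW) (fun i => inter_subset_right) (hwD _ hGΦ)
  have hdz : ∀ z ∈ Z, ∀ i, (w i ∪ d i) ∩ cut s t z = w i ∩ cut s t z := by
    intro z hz i
    rw [union_inter_distrib_right, union_eq_left]
    intro e he
    have h1 := mem_ins.1 (mem_tor.1 (hd1 i (mem_inter.1 he).1)).1
    have h2 := mem_cut.1 (mem_inter.1 he).2
    have := hGz z hz (s e)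
    have := hGz z hz (t e)
    tauto
  refine ⟨fun i => w i ∪ d i, fun y i => if y ∈ Z then w i ∩ cut s t y else q y i,
    fun i => ?_, fun i => ?_, fun y hy => ?_, fun z hz i => ?_⟩
  · refine union_subset (fun e he => ?_) (((hd1 i).trans (hP.tor_sub sdiff_subset)).trans
      subset_union_right)
    obtain ⟨z, hz, h⟩ := mem_biUnion.1 ((hw i).1 he)
    by_cases hW' : e ∈ cut s t W
    · exact mem_union_left _ hW'
    · refine mem_union_right _ (mem_tor.2 ⟨?_, z, hZ hz, h⟩)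
      have h1 := mem_cut.1 h
      have h2 : s e ∈ W ↔ t e ∈ W := by simpa using hW'
      have h3 : s e ∈ z → s e ∈ W := fun h => (hP.1 z (hZ hz)).1 h
      have h4 : t e ∈ z → t e ∈ W := fun h => (hP.1 z (hZ hz)).1 h
      rw [mem_ins]; tauto
  · rw [union_inter_distrib_right, (hw i).2, union_eq_left]
    intro e he
    exact absurd (mem_inter.1 he).2 (disjoint_left.1 (disjoint_ins_cut W)
      (mem_tor.1 (hP.tor_sub sdiff_subset (hd1 i (mem_inter.1 he).1))).1)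
  · by_cases hyZ : y ∈ Z
    · simp only [hyZ, if_true]
      refine ⟨hwz y hyZ, ?_⟩
      rw [cnt_eq_zero fun i => by rw [hdz y hyZ i]; simp]
      simpa using hT
    · simp only [hyZ, if_false]
      have hy' := mem_sdiff.2 ⟨hy, hyZ⟩
      refine ⟨(hq y hy').1, le_trans (le_of_eq ?_) (hq y hy').2⟩
      congr 1
      refine cnt_congr fun i => ?_
      have : (w i ∪ d i) ∩ cut s t y = (w i ∩ cut s t G ∪ d i) ∩ cut s t y := by
        ext e
        simp only [mem_inter, mem_union]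
        constructor
        · rintro ⟨h | h, h'⟩
          · refine ⟨Or.inl ⟨h, ?_⟩, h'⟩
            obtain ⟨z, hz, hz'⟩ := mem_biUnion.1 ((hw i).1 h)
            have a1 := hGz z hz (s e)
            have a2 := hGz z hz (t e)
            have a3 : s e ∈ y → s e ∈ G := fun h => mem_biUnion.2 ⟨y, hy', h⟩
            have a4 : t e ∈ y → t e ∈ G := fun h => mem_biUnion.2 ⟨y, hy', h⟩
            rw [mem_cut] at *
            tauto
          · exact ⟨Or.inr h, h'⟩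
        · rintro ⟨h | h, h'⟩
          · exact ⟨Or.inl h.1, h'⟩
          · exact ⟨Or.inr h, h'⟩
      rw [this]
  · simp only [hz, if_true]; exact (hdz z hz i).symm

end Pool.Agent.P.MP_40718a_co.ABF
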