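import Pool.Agent.P.MP_40718a_co.ABF.Rec3

namespace Pool.Agent.P.MP_40718a_co.ABF

open Finset
open scoped symmDiff

variable {V E : Type} [Fintype V] [Fintype E] [DecidableEq V] [DecidableEq E] {s t : E → V}
variable {I : Type} [Fintype I] [DecidableEq I]

theorem core {l Zm Bm : ℕ} {R K T Dm LJ LA : ℝ} (hSP : S_SP)
    (hRO : ROout s t I (2 * l) (Zm * (2 * l)) R K T)
    (hPL : ∀ W, Conn s t W → W ≠ univ → 2 ≤ W.card → (cut s t W).card ≤ 2 * l →
      PLout s t l Zm Bm W)
    (hK : (2 : ℝ) ^ (Zm * (2 * l)) ≤ K) (hR : 2 ^ (2 * l) * (2 * K) ≤ R)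
    (hRN : R ≤ Fintype.card I) (hT : 0 ≤ T)
    (hDm : (2 * l : ℝ) ^ 2 + 2 * (2 * l) ^ 2 * (Bm * T) ≤ Dm) (hLA : Dm + Bm * T ≤ LA)
    (hLJ : Fintype.card I / 3 + R + 2 * K + T ≤ LJ) (n : ℕ) :
    ∀ W : Finset V, W.card ≤ n → W.Nonempty → Conn s t W → W ≠ univ →
      (cut s t W).card ≤ 2 * l → ∀ p : I → Finset E, Inv s t R K W p →
      ∀ D : Finset (I × V × V), (∀ d ∈ D, d.2.1 ∈ term s t W ∧ d.2.2 ∈ term s t W) →
      (D.card : ℝ) ≤ Dm → ∃ J A, Out s t l LJ LA W p D J A := by
  have hK0 : 0 ≤ K := le_trans (by positivity) hK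
  have hR0 : 0 ≤ R := le_trans (by positivity) hR
  have hDm0 : 0 ≤ Dm := le_trans (by positivity) hDm
  have hLA0 : 0 ≤ LA := le_trans (by positivity) hLA
  have hLJ0 : 0 ≤ LJ := le_trans (by positivity) hLJ
  induction n with
  | zero =>
    intro W hn hne
    have := hne.card_pos; omega
  | succ n ih =>
  intro W hn hne hW hWu hc p hp D hD hDc
  by_cases h1 : W.card ≤ 1
  · exact ⟨_, _, out_base hLJ0 hLA0 h1 hp hD⟩
  obtain ⟨P, Z, hP, hZ, hZm, hd, hroute, Bl, hBl, hBm, hball⟩ := hPL W hW hWu (by omega) hc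
  obtain ⟨act, view, hact, hactp, hview, hvz⟩ := views hSP hRO hK hR hRN hT hW hc hP hZ hZm hd hp
  haveI : Nonempty V := ⟨hne.choose⟩
  choose! Fr sup dem hr hsup using hroute
  obtain ⟨side, hside⟩ := exists_halve D (fun d => d.2)
  -- opened parts
  set O : I → Finset (Finset V) := fun i =>
    ((P \ Z).filter fun y => view y i ≠ act i ∩ cut s t y).biUnion Bl with hO
  have hOsub : ∀ i, O i ⊆ P \ Z := fun i =>
    biUnion_subset.2 fun y hy => hBl y (mem_filter.1 hy).1
  have hOcnt : ∀ y, (cnt fun i => y ∈ O i : ℝ) ≤ Bm * T := by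
    intro y
    have h1 : cnt (fun i => y ∈ O i) ≤ ∑ y0 ∈ (P \ Z).filter fun y0 => y ∈ Bl y0,
        cnt fun i => view y0 i ≠ act i ∩ cut s t y0 := by
      refine le_trans (cnt_mono fun i hi => ?_) (cnt_exists_le _ _)
      obtain ⟨y0, hy0, h⟩ := mem_biUnion.1 hi
      exact ⟨y0, mem_filter.2 ⟨(mem_filter.1 hy0).1, h⟩, (mem_filter.1 hy0).2⟩
    calc (cnt fun i => y ∈ O i : ℝ) ≤ ∑ y0 ∈ (P \ Z).filter fun y0 => y ∈ Bl y0,
          (cnt fun i => view y0 i ≠ act i ∩ cut s t y0 : ℝ) := by exact_mod_cast h1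
      _ ≤ ∑ _y0 ∈ (P \ Z).filter fun y0 => y ∈ Bl y0, T :=
          sum_le_sum fun y0 hy0 => (hview y0 (mem_sdiff.1 (mem_filter.1 hy0).1).1).2
      _ = ((P \ Z).filter fun y0 => y ∈ Bl y0).card * T := by simp
      _ ≤ Bm * T := mul_le_mul_of_nonneg_right (by exact_mod_cast hBm y) hT
  -- demands of the parts
  set Dr : Finset V → Finset (I × V × V) := fun y =>
    (D.filter fun d => y ∈ sup d.2.1 d.2.2 (side d)).image
      fun d => (d.1, dem d.2.1 d.2.2 (side d) y) with hDr
  set Dn : Finset V → Finset (I × V × V) := fun y =>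
    (univ.filter fun i => y ∈ O i) ×ˢ (term s t y ×ˢ term s t y) with hDn
  have hDterm : ∀ y, ∀ d ∈ Dr y ∪ Dn y, d.2.1 ∈ term s t y ∧ d.2.2 ∈ term s t y := by
    intro y d hd'
    rcases mem_union.1 hd' with h | h
    · obtain ⟨d0, hd0, rfl⟩ := mem_image.1 h
      have h0 := mem_filter.1 hd0
      exact (hr _ (hD d0 h0.1).1 _ (hD d0 h0.1).2 (side d0)).2.2.1 y h0.2
    · exact mem_product.1 (mem_product.1 h).2
  have hDcard : ∀ y ∈ P, ((Dr y ∪ Dn y).card : ℝ) ≤ Dm := by
    intro y hy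
    by_cases hyZ : y ∈ Z
    · have : Dn y = ∅ := by
        rw [hDn]
        simp only [product_eq_empty]
        left
        rw [filter_eq_empty_iff]
        intro i _ h
        exact (mem_sdiff.1 (hOsub i h)).2 hyZ
      rw [this, union_empty]
      exact le_trans (by exact_mod_cast card_image_le.trans (card_filter_le _ _)) hDc
    · have ht : ∀ y' : Finset V, (cut s t y').card ≤ 2 * l →
          ((term s t y' ×ˢ term s t y').card : ℝ) ≤ (2 * l) ^ 2 := by
        intro y' h
        have := (card_term_le (s := s) (t := t) y').trans h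
        rw [card_product, sq]
        exact_mod_cast Nat.mul_le_mul this this
      have a1 : ((Dn y).card : ℝ) ≤ (2 * l) ^ 2 * (Bm * T) := by
        rw [hDn]
        simp only [card_product (univ.filter fun i => y ∈ O i), Nat.cast_mul, ← cnt_eq]
        rw [mul_comm]
        exact mul_le_mul (ht y (hP.1 y hy).2.2.2.2) (hOcnt y) (by positivity) (by positivity)
      have a2 : 2 * (Dr y).card ≤ D.card + (term s t W ×ˢ term s t W).card := by
        have hmaps : ∀ d ∈ D, d.2 ∈ term s t W ×ˢ term s t W := fun d hd' =>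
          mem_product.2 (hD d hd')
        have b1 : (D.filter fun d => y ∈ sup d.2.1 d.2.2 (side d)).card =
            ∑ b ∈ term s t W ×ˢ term s t W,
              ((D.filter fun d => y ∈ sup d.2.1 d.2.2 (side d)).filter fun d => d.2 = b).card :=
          card_eq_sum_card_fiberwise fun d hd' => hmaps d (mem_filter.1 hd').1
        have b2 : D.card = ∑ b ∈ term s t W ×ˢ term s t W, (D.filter fun d => d.2 = b).card :=
          card_eq_sum_card_fiberwise hmaps
        have b3 : ∀ b ∈ term s t W ×ˢ term s t W,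
            2 * ((D.filter fun d => y ∈ sup d.2.1 d.2.2 (side d)).filter fun d => d.2 = b).card
              ≤ (D.filter fun d => d.2 = b).card + 1 := by
          intro b hb
          have hb' := mem_product.1 hb
          refine le_trans (Nat.mul_le_mul_left _ (card_le_card ?_))
            (hside b (decide (y ∈ sup b.1 b.2 true)))
          intro d hd'
          simp only [mem_filter] at hd' ⊢
          obtain ⟨⟨h1, h2⟩, rfl⟩ := hd'
          refine ⟨h1, rfl, ?_⟩
          cases hs : side d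
          · rw [hs] at h2
            symm
            rw [decide_eq_false_iff_not]
            intro h3
            exact hyZ (hsup _ hb'.1 _ hb'.2 (mem_inter.2 ⟨h3, h2⟩))
          · rw [hs] at h2
            simp [h2]
        calc 2 * (Dr y).card ≤ 2 * (D.filter fun d => y ∈ sup d.2.1 d.2.2 (side d)).card :=
              Nat.mul_le_mul_left _ card_image_le
          _ ≤ ∑ b ∈ term s t W ×ˢ term s t W, ((D.filter fun d => d.2 = b).card + 1) := by
              rw [b1, mul_sum]; exact sum_le_sum b3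
          _ = D.card + (term s t W ×ˢ term s t W).card := by
              rw [sum_add_distrib, ← b2]; simp
      have a3 : (2 * (Dr y).card : ℝ) ≤ D.card + (term s t W ×ˢ term s t W).card := by
        exact_mod_cast a2
      have a4 : ((Dr y ∪ Dn y).card : ℝ) ≤ (Dr y).card + (Dn y).card := by
        exact_mod_cast card_union_le _ _
      have := ht W hc
      linarith
  -- the parts
  have hch : ∀ y ∈ P, ∃ J A, Out s t l LJ LA y (view y) (Dr y ∪ Dn y) J A := by
    intro y hy
    have h := hP.1 y hy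
    refine ih y ?_ h.2.2.1 h.2.2.2.1 ?_ h.2.2.2.2 _ (hview y hy).1 _ (hDterm y) (hDcard y hy)
    · have := card_lt_card (Finset.ssubset_iff_subset_ne.2 ⟨h.1, h.2.1⟩); omega
    · intro h'; exact hWu (univ_subset_iff.1 (h' ▸ h.1))
  choose! Jc Ac hch using hch
  set A0 : I → Finset E := fun i =>
    ((D.filter fun d => d.1 = i).biUnion fun d => Fr d.2.1 d.2.2 (side d)) ∪
      tor s t ((O i).biUnion id) (O i) with hA0
  have hAc : ∀ y ∈ P, ∀ i, Ac y i ⊆ A0 i ∪ P.biUnion fun y => Ac y i := fun y hy i =>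
    (subset_biUnion_of_mem (fun y => Ac y i) hy).trans subset_union_right
  refine ⟨_, _, assemble (A0 := A0) hLJ0 hLA0 hP (fun i => (hp.sub i).2) hact hactp
    (fun y hy i => ((hview y hy).1.sub i).1) (fun i => ?_) hch (fun e he => ?_) (fun e he => ?_)
    (fun d hd' => ?_) (fun i X hX hl hdj y₁ hy₁ y₂ hy₂ h₁ h₂ => ?_)⟩
  · refine union_subset (biUnion_subset.2 fun d hd' => ?_)
      (hP.tor_sub ((hOsub i).trans sdiff_subset))
    have h0 := (mem_filter.1 hd').1
    exact (hr _ (hD d h0).1 _ (hD d h0).2 (side d)).1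
  · obtain ⟨_, y, hy, h⟩ := mem_tor.1 he
    have a1 := (hview y hy).1.load hR0 h
    have a2 := (hview y hy).2
    have a3 : cnt (fun i => e ∈ act i) ≤ cnt (fun i => e ∈ view y i) +
        cnt fun i => view y i ≠ act i ∩ cut s t y := by
      refine cnt_le_add fun i hi => ?_
      by_cases h' : view y i = act i ∩ cut s t y
      · left; rw [h']; exact mem_inter.2 ⟨hi, h⟩
      · exact Or.inr h'
    have a4 : (cnt (fun i => e ∈ act i) : ℝ) ≤ cnt (fun i => e ∈ view y i) +
        cnt fun i => view y i ≠ act i ∩ cut s t y := by exact_mod_cast a3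
    linarith
  · obtain ⟨y, hy, h⟩ := hP.2.1 _ (mem_ins.1 (mem_tor.1 he).1).1
    have a3 : cnt (fun i => e ∈ A0 i) ≤ cnt (fun i => i ∈ D.image Prod.fst) +
        cnt fun i => y ∈ O i := by
      refine cnt_le_add fun i hi => ?_
      rcases mem_union.1 hi with h' | h'
      · obtain ⟨d, hd', _⟩ := mem_biUnion.1 h'
        exact Or.inl (mem_image.2 ⟨d, (mem_filter.1 hd').1, (mem_filter.1 hd').2⟩)
      · obtain ⟨y', hy', h''⟩ := mem_biUnion.1 (mem_ins.1 (mem_tor.1 h').1).1
        exact Or.inr (hP.eq_of_mem hy (mem_sdiff.1 (hOsub i hy')).1 h h'' ▸ hy')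
    have a5 : cnt (fun i => i ∈ D.image Prod.fst) ≤ D.card := by
      rw [cnt_eq, filter_mem_eq_inter, univ_inter]; exact card_image_le
    have a4 : (cnt (fun i => e ∈ A0 i) : ℝ) ≤ D.card + cnt fun i => y ∈ O i := by
      exact_mod_cast a3.trans (Nat.add_le_add_right a5 _)
    have := hOcnt y
    linarith
  · have h := hr _ (hD d hd').1 _ (hD d hd').2 (side d)
    refine h.2.2.2 _ ?_ fun y hy => ?_
    · refine Subset.trans ?_ subset_union_left
      refine Subset.trans ?_ subset_union_left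
      exact subset_biUnion_of_mem (s := D.filter fun d' => d'.1 = d.1)
        (fun d => Fr d.2.1 d.2.2 (side d)) (mem_filter.2 ⟨hd', rfl⟩)
    · have := (hch y (h.2.1 hy)).2.2.2.1 (d.1, dem d.2.1 d.2.2 (side d) y)
        (mem_union_left _ (mem_image.2 ⟨d, mem_filter.2 ⟨hd', hy⟩, rfl⟩))
      exact this.mono (hAc y (h.2.1 hy) d.1)
  · have hn : ∀ y ∈ P, view y i ≠ act i ∩ cut s t y → y ∈ P \ Z := fun y hy h =>
      mem_sdiff.2 ⟨hy, fun hz => h (hvz y hz i)⟩
    refine hball X hX hl (O i) (hOsub i)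
      (hdj.mono_right (subset_union_right.trans subset_union_left)) (fun y hy u hu v hv => ?_)
      y₁ (hn y₁ hy₁ h₁) y₂ (hn y₂ hy₂ h₂)
      (subset_biUnion_of_mem Bl (mem_filter.2 ⟨hn y₁ hy₁ h₁, h₁⟩))
      (subset_biUnion_of_mem Bl (mem_filter.2 ⟨hn y₂ hy₂ h₂, h₂⟩))
    have hyP := (mem_sdiff.1 (hOsub i hy)).1
    have := (hch y hyP).2.2.2.1 (i, u, v) (mem_union_right _
      (mem_product.2 ⟨mem_filter.2 ⟨mem_univ _, hy⟩, mem_product.2 ⟨hu, hv⟩⟩))
    exact (this.mono (hAc y hyP i)) X hdj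

end Pool.Agent.P.MP_40718a_co.ABF
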