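import Pool.Agent.P.MP_40718a_co.ABF.Basic

/-! Existence of `T`-joins. -/

namespace Pool.Agent.P.MP_40718a_co.ABF

open Finset
open scoped symmDiff

theorem tj_odd_symmDiff {α : Type} [DecidableEq α] (A B : Finset α) :
    Odd (A ∆ B).card ↔ ¬ (Odd A.card ↔ Odd B.card) := by
  have := card_symmDiff_add A B
  simp only [Nat.odd_iff]
  omega

theorem tj_inter_symmDiff {α : Type} [DecidableEq α] (X A B : Finset α) :
    X ∩ (A ∆ B) = (X ∩ A) ∆ (X ∩ B) := by
  ext x; simp only [mem_inter, mem_symmDiff]; tauto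

theorem tj_symmDiff_inter {α : Type} [DecidableEq α] (X A B : Finset α) :
    (A ∆ B) ∩ X = (A ∩ X) ∆ (B ∩ X) := by
  ext x; simp only [mem_inter, mem_symmDiff]; tauto

theorem tj_odd_pair {α : Type} [DecidableEq α] {a b : α} (h : a ≠ b) (Y : Finset α) :
    Odd (Y ∩ {a, b}).card ↔ ¬ (a ∈ Y ↔ b ∈ Y) := by
  rw [inter_comm]
  by_cases ha : a ∈ Y <;> by_cases hb : b ∈ Y <;>
    simp [ha, hb, insert_inter_of_mem, insert_inter_of_notMem, card_pair h]

theorem tj0 : S_TJ0 := by
  intro V E _ _ _ _ s t B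
  induction B using Finset.induction_on with
  | empty =>
    intro T h
    refine ⟨∅, Subset.rfl, fun v => ?_⟩
    have : v ∉ T := fun hv => by simpa using h {v} (by simp [hv])
    simp [this]
  | insert e B he ih =>
    intro T h
    by_cases h1 : ∀ X : Finset V, Odd (X ∩ T).card → (cut s t X ∩ B).Nonempty
    · obtain ⟨Q, hQ, hd⟩ := ih T h1
      exact ⟨Q, hQ.trans (subset_insert _ _), hd⟩
    push Not at h1
    obtain ⟨X0, hX0, hB0⟩ := h1
    have key : ∀ X, Odd (X ∩ T).card → cut s t X ∩ B = ∅ → e ∈ cut s t X := by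
      intro X hX hB
      obtain ⟨f, hf⟩ := h X hX
      rw [mem_inter, mem_insert] at hf
      rcases hf.2 with rfl | hf'
      · exact hf.1
      · exact absurd (mem_inter.2 ⟨hf.1, hf'⟩) (by simp [hB])
    have he0 := key X0 hX0 hB0
    have hne : s e ≠ t e := fun h' => by simp [h'] at he0
    obtain ⟨Q, hQ, hd⟩ := ih (T ∆ {s e, t e}) (by
      intro Y hY
      rw [nonempty_iff_ne_empty]
      intro hB
      rw [tj_inter_symmDiff, tj_odd_symmDiff, tj_odd_pair hne, ← mem_cut] at hY
      by_cases hY' : Odd (Y ∩ T).card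
      · exact hY ⟨fun _ => key Y hY' hB, fun _ => hY'⟩
      · have heY : e ∈ cut s t Y := by tauto
        have := key (Y ∆ X0) (by rw [tj_symmDiff_inter, tj_odd_symmDiff]; tauto)
          (by rw [cut_symmDiff, tj_symmDiff_inter, hB, hB0]; simp)
        rw [cut_symmDiff, mem_symmDiff] at this
        tauto)
    refine ⟨insert e Q, insert_subset_insert _ hQ, fun v => ?_⟩
    have heQ : e ∉ Q := fun h' => he (hQ h')
    rw [insert_eq, deg_union (by simpa using heQ), deg_singleton, Nat.odd_add', hd v, mem_symmDiff]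
    by_cases h1 : s e = v <;> by_cases h2 : t e = v
    · exact absurd (h1.trans h2.symm) hne
    · simp [h1, h2]
    · simp [h1, h2]
    · simp [h1, h2, Ne.symm h1, Ne.symm h2]

end Pool.Agent.P.MP_40718a_co.ABF
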